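import Pool.Agent.ODP.Node

/-!
# Associativity of the multiplication table of a point with `B_x / (y)` of Hilbert function
`1, c, 1`
-/

open IsLocalRing

namespace Pool.Agent.ODP

/-- the `k`-linear forms in `y` -/
def linF (k : Type*) {L : Type*} [Field k] [CommRing L] [Algebra k L] {n : ℕ} (y : Fin n → L) :
    Submodule k L := Submodule.span k (Set.range y)

/-- the quadratic forms in `y` with coefficients in `k` -/
def quadF (k : Type*) {L : Type*} [Field k] [CommRing L] [Algebra k L] {n : ℕ} (y : Fin n → L) :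
    Submodule k L := Submodule.span k (Set.range fun p : Fin n × Fin n => y p.1 * y p.2)

/-- the standing hypotheses on `L = B_x`, `J = (y)` -/
structure Amb (k : Type*) {L : Type*} [Field k] [CommRing L] [IsLocalRing L] [Algebra k L]
    {n : ℕ} (y : Fin n → L) (J : Ideal L) : Prop where
  hJ : J = Ideal.span (Set.range y)
  hk : ∀ l : L, ∃ a : k, l - algebraMap k L a ∈ maximalIdeal L
  inf : J ⊓ maximalIdeal L ^ 2 ≤ J * maximalIdeal L
  one : ∀ u : Fin n → L, ∑ a, y a * u a ∈ J ^ 2 → ∀ a, u a ∈ J
  two : ∀ u : Fin n → Fin n → L, ∑ a, ∑ b, y a * y b * u a b ∈ J ^ 3 →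
    ∀ a b, u a b + u b a ∈ J

/-- `z` is an orthonormal system of generators modulo `J`. -/
structure Orth (k : Type*) {L : Type*} [Field k] [CommRing L] [IsLocalRing L] [Algebra k L]
    {c : ℕ} (J : Ideal L) (z : Fin c → L) (f : L) : Prop where
  gen : J ⊔ Ideal.span (Set.range z) = maximalIdeal L
  mul : ∀ i j, z i * z j - (if i = j then f else 0) ∈ J
  f2 : f ∈ maximalIdeal L ^ 2
  fJ : f ∉ J
  ind : ∀ a : Fin c → k, ∑ i, a i • z i ∈ J ⊔ maximalIdeal L ^ 2 → a = 0

set_option linter.unusedSectionVars false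

section

variable {k L : Type*} [Field k] [CommRing L] [IsLocalRing L] [Algebra k L] {n c : ℕ}
  {y : Fin n → L} {J : Ideal L} {z : Fin c → L} {f : L}

theorem linF_le (k : Type*) [Field k] [Algebra k L] {y : Fin n → L} {s : L}
    (hs : s ∈ linF k y) : s ∈ Ideal.span (Set.range y) := by
  refine Submodule.span_induction (p := fun s _ => s ∈ Ideal.span (Set.range y)) ?_ ?_ ?_ ?_ hs
  · intro x hx
    exact Ideal.subset_span hx
  · exact Ideal.zero_mem _
  · intro a b _ _ ha hb
    exact Ideal.add_mem _ ha hb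
  · intro a b _ hb
    rw [Algebra.smul_def]
    exact Ideal.mul_mem_left _ _ hb

theorem mem_linF_iff {s : L} : s ∈ linF k y ↔ ∃ a : Fin n → k, ∑ i, a i • y i = s :=
  Submodule.mem_span_range_iff_exists_fun k

theorem linF_mul {s t : L} (hs : s ∈ linF k y) (ht : t ∈ linF k y) : s * t ∈ quadF k y := by
  obtain ⟨a, rfl⟩ := mem_linF_iff.1 hs
  obtain ⟨b, rfl⟩ := mem_linF_iff.1 ht
  rw [Finset.sum_mul_sum]
  refine Submodule.sum_mem _ fun i _ => Submodule.sum_mem _ fun j _ => ?_
  rw [smul_mul_smul_comm]
  exact Submodule.smul_mem _ _ (Submodule.subset_span ⟨(i, j), rfl⟩)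

theorem mem_quadF_iff {s : L} : s ∈ quadF k y ↔
    ∃ a : Fin n → Fin n → k, ∑ i, ∑ j, a i j • (y i * y j) = s := by
  rw [quadF, Submodule.mem_span_range_iff_exists_fun]
  constructor
  · rintro ⟨c, rfl⟩
    refine ⟨fun i j => c (i, j), ?_⟩
    rw [Fintype.sum_prod_type]
  · rintro ⟨a, rfl⟩
    refine ⟨fun p => a p.1 p.2, ?_⟩
    rw [Fintype.sum_prod_type]

theorem exists_sum_of_mem_mul (h : Amb k y J) {I : Ideal L} {u : L} (hu : u ∈ J * I) :
    ∃ x : Fin n → L, (∀ a, x a ∈ I) ∧ u = ∑ a, y a * x a := by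
  rw [mul_comm, h.hJ, ← smul_eq_mul, Ideal.span,
    Submodule.mem_ideal_smul_span_iff_exists_sum] at hu
  obtain ⟨b, hb, hb2⟩ := hu
  refine ⟨b, hb, ?_⟩
  rw [← hb2, Finsupp.sum_fintype _ _ (fun i => by simp)]
  refine Finset.sum_congr rfl fun i _ => ?_
  rw [smul_eq_mul, mul_comm]

theorem Amb.y_mem (h : Amb k y J) (a : Fin n) : y a ∈ J := by
  rw [h.hJ]
  exact Ideal.subset_span ⟨a, rfl⟩

theorem Amb.lin_mem (h : Amb k y J) {s : L} (hs : s ∈ linF k y) : s ∈ J := by
  rw [h.hJ]
  exact linF_le k hs

theorem Amb.quad_mem (h : Amb k y J) {s : L} (hs : s ∈ quadF k y) : s ∈ J ^ 2 := by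
  obtain ⟨a, rfl⟩ := mem_quadF_iff.1 hs
  refine Ideal.sum_mem _ fun i _ => Ideal.sum_mem _ fun j _ => ?_
  rw [Algebra.smul_def, pow_two]
  exact Ideal.mul_mem_left _ _ (Ideal.mul_mem_mul (h.y_mem i) (h.y_mem j))

theorem Orth.J_le (o : Orth k J z f) : J ≤ maximalIdeal L := by
  rw [← o.gen]
  exact le_sup_left

theorem Orth.z_mem (o : Orth k J z f) (i : Fin c) : z i ∈ maximalIdeal L := by
  rw [← o.gen]
  exact Ideal.mem_sup_right (Ideal.subset_span ⟨i, rfl⟩)

theorem Orth.mul_mem (h : Amb k y J) (o : Orth k J z f) (i j : Fin c) :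
    z i * z j - (if i = j then f else 0) ∈ J * maximalIdeal L := by
  refine h.inf ⟨o.mul i j, Ideal.sub_mem _ ?_ ?_⟩
  · rw [pow_two]
    exact Ideal.mul_mem_mul (o.z_mem i) (o.z_mem j)
  · split_ifs
    · exact o.f2
    · exact Ideal.zero_mem _

theorem Orth.sq_le (h : Amb k y J) (o : Orth k J z f) :
    maximalIdeal L ^ 2 ≤ J * maximalIdeal L ⊔ Ideal.span {f} := by
  have h1 : maximalIdeal L ^ 2 =
      J * maximalIdeal L ⊔ Ideal.span (Set.range z) * maximalIdeal L := by
    rw [pow_two, ← Ideal.sup_mul, o.gen]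
  have h2 : Ideal.span (Set.range z) * maximalIdeal L =
      Ideal.span (Set.range z) * J ⊔ Ideal.span (Set.range z) * Ideal.span (Set.range z) := by
    rw [← Ideal.mul_sup, o.gen]
  have h3 : Ideal.span (Set.range z) ≤ maximalIdeal L := by
    rw [← o.gen]
    exact le_sup_right
  rw [h1, h2]
  refine sup_le le_sup_left (sup_le ?_ ?_)
  · rw [mul_comm]
    exact (Ideal.mul_mono_right h3).trans le_sup_left
  · rw [Ideal.span_mul_span', Ideal.span_le]
    rintro _ ⟨_, ⟨i, rfl⟩, _, ⟨j, rfl⟩, rfl⟩
    have h4 := o.mul_mem h i j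
    have h5 : z i * z j = (z i * z j - (if i = j then f else 0)) + (if i = j then f else 0) := by
      ring
    change z i * z j ∈ _
    rw [h5]
    refine Ideal.add_mem _ (Ideal.mem_sup_left h4) (Ideal.mem_sup_right ?_)
    split_ifs
    · exact Ideal.mem_span_singleton_self f
    · exact Ideal.zero_mem _

theorem Orth.zf (h : Amb k y J) (o : Orth k J z f) (hc : 2 ≤ c) (i : Fin c) :
    z i * f ∈ J * maximalIdeal L ^ 2 := by
  obtain ⟨j, hj⟩ : ∃ j : Fin c, j ≠ i := by
    have : Nontrivial (Fin c) := Fin.nontrivial_iff_two_le.mpr hc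
    exact exists_ne i
  have h1 := o.mul_mem h i j
  rw [if_neg hj.symm, sub_zero] at h1
  have h2 := o.mul_mem h j j
  rw [if_pos rfl] at h2
  have h3 : z i * f = (z i * z j) * z j - (z j * z j - f) * z i := by ring
  rw [h3, pow_two, ← mul_assoc]
  exact Ideal.sub_mem _ (Ideal.mul_mem_mul h1 (o.z_mem j)) (Ideal.mul_mem_mul h2 (o.z_mem i))

theorem Orth.mf (h : Amb k y J) (o : Orth k J z f) (hc : 2 ≤ c) {u : L}
    (hu : u ∈ maximalIdeal L) : u * f ∈ J * maximalIdeal L ^ 2 := by
  rw [← o.gen, Submodule.mem_sup] at hu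
  obtain ⟨a, ha, b, hb, rfl⟩ := hu
  rw [add_mul]
  refine Ideal.add_mem _ (Ideal.mul_mem_mul ha o.f2) ?_
  obtain ⟨t, rfl⟩ := Ideal.mem_span_range_iff_exists_fun.1 hb
  rw [Finset.sum_mul]
  refine Ideal.sum_mem _ fun i _ => ?_
  rw [mul_assoc]
  exact Ideal.mul_mem_left _ _ (o.zf h hc i)

theorem Orth.cube_le (h : Amb k y J) (o : Orth k J z f) (hc : 2 ≤ c) :
    maximalIdeal L ^ 3 ≤ J * maximalIdeal L ^ 2 := by
  rw [pow_succ, Ideal.mul_le]
  intro u hu v hv
  have h1 := o.sq_le h hu
  rw [Submodule.mem_sup] at h1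
  obtain ⟨a, ha, b, hb, rfl⟩ := h1
  obtain ⟨t, rfl⟩ := Ideal.mem_span_singleton'.1 hb
  rw [add_mul]
  refine Ideal.add_mem _ ?_ ?_
  · rw [pow_two, ← mul_assoc]
    exact Ideal.mul_mem_mul ha hv
  · have : t * f * v = t * (v * f) := by ring
    rw [this]
    exact Ideal.mul_mem_left _ _ (o.mf h hc hv)

/-- elements of `m` -/
theorem exists_one (h : Amb k y J) (o : Orth k J z f) {u : L} (hu : u ∈ maximalIdeal L) :
    ∃ (s : Fin c → k) (t : L), t ∈ linF k y ∧
      u - (∑ l, s l • z l + t) ∈ maximalIdeal L ^ 2 := by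
  rw [← o.gen, Submodule.mem_sup] at hu
  obtain ⟨a, ha, b, hb, rfl⟩ := hu
  rw [h.hJ] at ha
  obtain ⟨a', rfl⟩ := Ideal.mem_span_range_iff_exists_fun.1 ha
  obtain ⟨b', rfl⟩ := Ideal.mem_span_range_iff_exists_fun.1 hb
  choose α hα using fun i => h.hk (a' i)
  choose β hβ using fun i => h.hk (b' i)
  refine ⟨β, ∑ i, α i • y i, mem_linF_iff.2 ⟨α, rfl⟩, ?_⟩
  have h1 : ∑ i, a' i * y i + ∑ i, b' i * z i - (∑ l, β l • z l + ∑ i, α i • y i) =
      ∑ i, (a' i - algebraMap k L (α i)) * y i + ∑ i, (b' i - algebraMap k L (β i)) * z i := by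
    simp only [sub_mul, Finset.sum_sub_distrib, Algebra.smul_def]
    ring
  rw [h1, pow_two]
  refine Ideal.add_mem _ (Ideal.sum_mem _ fun i _ => ?_) (Ideal.sum_mem _ fun i _ => ?_)
  · exact Ideal.mul_mem_mul (hα i) (o.J_le (h.y_mem i))
  · exact Ideal.mul_mem_mul (hβ i) (o.z_mem i)

/-- elements of `J m` -/
theorem exists_two (h : Amb k y J) (o : Orth k J z f) {u : L} (hu : u ∈ J * maximalIdeal L) :
    ∃ (S : Fin c → L) (Q : L), (∀ l, S l ∈ linF k y) ∧ Q ∈ quadF k y ∧
      u - (∑ l, S l * z l + Q) ∈ J * maximalIdeal L ^ 2 := by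
  obtain ⟨x, hx, rfl⟩ := exists_sum_of_mem_mul h hu
  choose s t ht hst using fun a => exists_one h o (hx a)
  refine ⟨fun l => ∑ a, s a l • y a, ∑ a, y a * t a, fun l => mem_linF_iff.2 ⟨_, rfl⟩,
    Submodule.sum_mem _ fun a _ => linF_mul (Submodule.subset_span ⟨a, rfl⟩) (ht a), ?_⟩
  have h1 : ∑ a, y a * x a - (∑ l, (∑ a, s a l • y a) * z l + ∑ a, y a * t a) =
      ∑ a, y a * (x a - (∑ l, s a l • z l + t a)) := by
    have h2 : ∑ l, (∑ a, s a l • y a) * z l = ∑ a, y a * ∑ l, s a l • z l := by
      simp only [Finset.sum_mul, Finset.mul_sum]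
      rw [Finset.sum_comm]
      refine Finset.sum_congr rfl fun a _ => Finset.sum_congr rfl fun l _ => ?_
      rw [smul_mul_assoc, mul_smul_comm]
    rw [h2, ← Finset.sum_add_distrib, ← Finset.sum_sub_distrib]
    exact Finset.sum_congr rfl fun a _ => by ring
  rw [h1]
  exact Ideal.sum_mem _ fun a _ => Ideal.mul_mem_mul (h.y_mem a) (hst a)

/-- elements of `J m²` -/
theorem exists_three (h : Amb k y J) (o : Orth k J z f) (hc : 2 ≤ c) {u : L}
    (hu : u ∈ J * maximalIdeal L ^ 2) :
    ∃ lam : L, lam ∈ linF k y ∧ u - lam * f ∈ J ^ 2 * maximalIdeal L := by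
  obtain ⟨x, hx, rfl⟩ := exists_sum_of_mem_mul h hu
  have h1 : ∀ a, ∃ α : k, x a - α • f ∈ J * maximalIdeal L := by
    intro a
    have h2 := o.sq_le h (hx a)
    rw [Submodule.mem_sup] at h2
    obtain ⟨v, hv, w, hw, hvw⟩ := h2
    obtain ⟨t, rfl⟩ := Ideal.mem_span_singleton'.1 hw
    obtain ⟨α, hα⟩ := h.hk t
    refine ⟨α, ?_⟩
    have h3 : x a - α • f = v + (t - algebraMap k L α) * f := by
      rw [← hvw, Algebra.smul_def]
      ring
    rw [h3]
    refine Ideal.add_mem _ hv ?_
    have h4 := o.mf h hc hα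
    refine Ideal.mul_mono_right ?_ h4
    exact Ideal.pow_le_self (by norm_num)
  choose α hα using h1
  refine ⟨∑ a, α a • y a, mem_linF_iff.2 ⟨α, rfl⟩, ?_⟩
  have h5 : ∑ a, y a * x a - (∑ a, α a • y a) * f = ∑ a, y a * (x a - α a • f) := by
    rw [Finset.sum_mul, ← Finset.sum_sub_distrib]
    refine Finset.sum_congr rfl fun a _ => ?_
    rw [smul_mul_assoc, mul_sub, mul_smul_comm]
  rw [h5, pow_two, mul_assoc]
  exact Ideal.sum_mem _ fun a _ => Ideal.mul_mem_mul (h.y_mem a) (hα a)

/-- elements of `J² m` -/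
theorem exists_four (h : Amb k y J) (o : Orth k J z f) {u : L}
    (hu : u ∈ J ^ 2 * maximalIdeal L) :
    ∃ Lm : Fin c → L, (∀ m, Lm m ∈ quadF k y) ∧
      u - ∑ m, Lm m * z m ∈ J ^ 2 * (J ⊔ Ideal.span {f}) := by
  rw [pow_two, mul_assoc] at hu
  obtain ⟨x, hx, rfl⟩ := exists_sum_of_mem_mul h hu
  choose x' hx' hxx using fun a => exists_sum_of_mem_mul h (hx a)
  choose s t ht hst using fun a b => exists_one h o (hx' a b)
  refine ⟨fun m => ∑ a, ∑ b, s a b m • (y a * y b), fun m => mem_quadF_iff.2 ⟨_, rfl⟩, ?_⟩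
  have h1 : ∑ a, y a * x a - ∑ m, (∑ a, ∑ b, s a b m • (y a * y b)) * z m =
      ∑ a, ∑ b, y a * y b * (x' a b - ∑ m, s a b m • z m) := by
    have h2 : ∑ m, (∑ a, ∑ b, s a b m • (y a * y b)) * z m =
        ∑ a, ∑ b, y a * y b * ∑ m, s a b m • z m := by
      simp only [Finset.sum_mul, Finset.mul_sum]
      rw [Finset.sum_comm]
      refine Finset.sum_congr rfl fun a _ => ?_
      rw [Finset.sum_comm]
      refine Finset.sum_congr rfl fun b _ => Finset.sum_congr rfl fun m _ => ?_
      rw [smul_mul_assoc, mul_smul_comm]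
    rw [h2, ← Finset.sum_sub_distrib]
    refine Finset.sum_congr rfl fun a _ => ?_
    rw [hxx a, Finset.mul_sum, ← Finset.sum_sub_distrib]
    exact Finset.sum_congr rfl fun b _ => by ring
  rw [h1]
  refine Ideal.sum_mem _ fun a _ => Ideal.sum_mem _ fun b _ => ?_
  refine Ideal.mul_mem_mul (by rw [pow_two]; exact Ideal.mul_mem_mul (h.y_mem a) (h.y_mem b)) ?_
  have h3 : x' a b - ∑ m, s a b m • z m = (x' a b - (∑ m, s a b m • z m + t a b)) + t a b := by
    ring
  rw [h3]
  refine Ideal.add_mem _ ?_ (Ideal.mem_sup_left (h.lin_mem (ht a b)))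
  refine (o.sq_le h).trans (sup_le_sup_right Ideal.mul_le_left _) (hst a b)

/-- `D1` -/
theorem lin_eq_zero (h : Amb k y J) (o : Orth k J z f) {s : L} (hs : s ∈ linF k y)
    (h2 : s * f ∈ J ^ 2) : s = 0 := by
  obtain ⟨a, rfl⟩ := mem_linF_iff.1 hs
  have h3 : (∑ i, a i • y i) * f = ∑ i, y i * (a i • f) := by
    rw [Finset.sum_mul]
    refine Finset.sum_congr rfl fun i _ => ?_
    rw [smul_mul_assoc, mul_smul_comm]
  rw [h3] at h2
  have h4 := h.one _ h2
  refine Finset.sum_eq_zero fun i _ => ?_
  have h5 : a i = 0 := by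
    by_contra hne
    apply o.fJ
    have h6 := h4 i
    rw [Algebra.smul_def, Ideal.unit_mul_mem_iff_mem] at h6
    · exact h6
    · exact (isUnit_iff_ne_zero.mpr hne).map _
  rw [h5, zero_smul]

/-- `D2` -/
theorem quad_eq_zero [CharZero k] (h : Amb k y J) (o : Orth k J z f) {q : Fin c → L}
    (hq : ∀ m, q m ∈ quadF k y) (h2 : ∑ m, q m * z m ∈ J ^ 2 * (J ⊔ Ideal.span {f})) (m : Fin c) :
    q m = 0 := by
  choose a ha using fun m => mem_quadF_iff.1 (hq m)
  rw [pow_two, mul_assoc] at h2
  obtain ⟨x, hx, hx2⟩ := exists_sum_of_mem_mul h h2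
  choose x' hx' hxx using fun a => exists_sum_of_mem_mul h (hx a)
  have h3 : ∑ i, ∑ j, y i * y j * (∑ m, a m i j • z m - x' i j) ∈ J ^ 3 := by
    have h4 : ∑ i, ∑ j, y i * y j * (∑ m, a m i j • z m - x' i j) =
        ∑ m, q m * z m - ∑ i, y i * x i := by
      have h5 : ∑ m, q m * z m = ∑ i, ∑ j, y i * y j * ∑ m, a m i j • z m := by
        simp only [← ha, Finset.sum_mul, Finset.mul_sum]
        rw [Finset.sum_comm]
        refine Finset.sum_congr rfl fun i _ => ?_
        rw [Finset.sum_comm]
        refine Finset.sum_congr rfl fun j _ => Finset.sum_congr rfl fun m _ => ?_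
        rw [smul_mul_assoc, mul_smul_comm]
      rw [h5, ← Finset.sum_sub_distrib]
      refine Finset.sum_congr rfl fun i _ => ?_
      rw [hxx i, Finset.mul_sum, ← Finset.sum_sub_distrib]
      exact Finset.sum_congr rfl fun j _ => by ring
    rw [h4, hx2, sub_self]
    exact Ideal.zero_mem _
  have h6 := h.two _ h3
  have h7 : ∀ i j, (fun m => a m i j + a m j i) = (0 : Fin c → k) := by
    intro i j
    apply o.ind
    have h8 := h6 i j
    have h9 : ∑ m, (a m i j + a m j i) • z m =
        (∑ m, a m i j • z m - x' i j + (∑ m, a m j i • z m - x' j i)) + (x' i j + x' j i) := by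
      simp only [add_smul, Finset.sum_add_distrib]
      ring
    rw [h9]
    refine Ideal.add_mem _ (Ideal.mem_sup_left h8) ?_
    have h10 : J ⊔ Ideal.span {f} ≤ J ⊔ maximalIdeal L ^ 2 := by
      refine sup_le_sup_left ?_ _
      rw [Ideal.span_le, Set.singleton_subset_iff]
      exact o.f2
    exact h10 (Ideal.add_mem _ (hx' i j) (hx' j i))
  have h11 : q m + q m = 0 := by
    have h12 : q m = ∑ i, ∑ j, a m j i • (y i * y j) := by
      rw [← ha m, Finset.sum_comm]
      refine Finset.sum_congr rfl fun i _ => Finset.sum_congr rfl fun j _ => ?_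
      rw [mul_comm (y j)]
    have h13 : q m + q m = ∑ i, ∑ j, (a m i j + a m j i) • (y i * y j) := by
      simp only [add_smul, Finset.sum_add_distrib]
      rw [ha m, ← h12]
    rw [h13]
    refine Finset.sum_eq_zero fun i _ => Finset.sum_eq_zero fun j _ => ?_
    rw [congrFun (h7 i j) m, Pi.zero_apply, zero_smul]
  have h14 : (2 : k) • q m = 0 := by
    rw [two_smul]
    exact h11
  have h15 : (2 : k)⁻¹ • ((2 : k) • q m) = 0 := by
    rw [h14, smul_zero]
  rwa [smul_smul, inv_mul_cancel₀ two_ne_zero, one_smul] at h15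

end

section

variable {k L : Type*} [Field k] [CommRing L] [IsLocalRing L] [Algebra k L] {n c : ℕ}
  {y : Fin n → L} {J : Ideal L} {z : Fin c → L} {f : L}

/-- the multiplication table to the first order -/
structure Tab (k : Type*) {L : Type*} [Field k] [CommRing L] [IsLocalRing L] [Algebra k L]
    {n c : ℕ} (y : Fin n → L) (J : Ideal L) (z : Fin c → L) (f : L)
    (S : Fin c → Fin c → Fin c → L) (Q : Fin c → Fin c → L) : Prop where
  linS : ∀ i j l, S i j l ∈ linF k y
  quadQ : ∀ i j, Q i j ∈ quadF k y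
  symS : ∀ i j l, S i j l = S j i l
  symQ : ∀ i j, Q i j = Q j i
  tab : ∀ i j, z i * z j - ((if i = j then f else 0) + (∑ l, S i j l * z l + Q i j)) ∈
    J * maximalIdeal L ^ 2

theorem exists_tab (h : Amb k y J) (o : Orth k J z f) :
    ∃ S Q, Tab k y J z f S Q := by
  choose S Q hS hQ hSQ using fun i j => exists_two h o (o.mul_mem h i j)
  refine ⟨fun i j l => S (min i j) (max i j) l, fun i j => Q (min i j) (max i j),
    fun i j l => hS _ _ _, fun i j => hQ _ _, fun i j l => by rw [min_comm, max_comm],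
    fun i j => by rw [min_comm, max_comm], fun i j => ?_⟩
  have h1 := hSQ (min i j) (max i j)
  have h2 : z (min i j) * z (max i j) = z i * z j := by
    rcases le_total i j with hij | hij
    · rw [min_eq_left hij, max_eq_right hij]
    · rw [min_eq_right hij, max_eq_left hij, mul_comm]
  have h3 : (if min i j = max i j then f else 0) = if i = j then f else 0 := by
    by_cases hij : i = j
    · subst hij
      simp
    · rw [if_neg hij, if_neg]
      intro h4
      exact hij (by
        rcases le_total i j with hij | hij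
        · rwa [min_eq_left hij, max_eq_right hij] at h4
        · rw [min_eq_right hij, max_eq_left hij] at h4
          exact h4.symm)
  rw [h2, h3, sub_sub] at h1
  exact h1

theorem exists_lam (h : Amb k y J) (o : Orth k J z f) (hc : 2 ≤ c) :
    ∃ lam : Fin c → L, (∀ i, lam i ∈ linF k y) ∧
      ∀ i, z i * f - lam i * f ∈ J ^ 2 * maximalIdeal L := by
  choose lam hl hl2 using fun i => exists_three h o hc (o.zf h hc i)
  exact ⟨lam, hl, hl2⟩

theorem lam_eq (h : Amb k y J) (o : Orth k J z f) (hc : 2 ≤ c)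
    {S : Fin c → Fin c → Fin c → L} {Q : Fin c → Fin c → L} (t : Tab k y J z f S Q)
    {lam : Fin c → L} (hl : ∀ i, lam i ∈ linF k y)
    (hl2 : ∀ i, z i * f - lam i * f ∈ J ^ 2 * maximalIdeal L) (i j l : Fin c) :
    (if i = j then lam l else 0) + S i j l = (if j = l then lam i else 0) + S j l i := by
  -- `z_i z_j z_l = (δ_ij λ_l + S_ijl) f` modulo `J²`
  have key : ∀ i j l : Fin c,
      z i * z j * z l - ((if i = j then lam l else 0) + S i j l) * f ∈ J ^ 2 := by
    intro i j l
    have h1 := t.tab i j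
    have hJm : J * maximalIdeal L ^ 2 * maximalIdeal L ≤ J ^ 2 := by
      have h2 : J * maximalIdeal L ^ 2 * maximalIdeal L = J * maximalIdeal L ^ 3 := by
        rw [mul_assoc, ← pow_succ]
      rw [h2, pow_two J]
      exact Ideal.mul_mono_right ((o.cube_le h hc).trans Ideal.mul_le_left)
    have h2 : (z i * z j - ((if i = j then f else 0) + (∑ m, S i j m * z m + Q i j))) * z l ∈
        J ^ 2 := hJm (Ideal.mul_mem_mul h1 (o.z_mem l))
    have h3 : (if i = j then f else 0) * z l - (if i = j then lam l else 0) * f ∈ J ^ 2 := by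
      split_ifs
      · rw [mul_comm f]
        exact Ideal.mul_le_left (hl2 l)
      · rw [zero_mul, zero_mul, sub_zero]
        exact Ideal.zero_mem _
    have h4 : (∑ m, S i j m * z m) * z l - S i j l * f ∈ J ^ 2 := by
      have h5 : (∑ m, S i j m * z m) * z l - S i j l * f =
          ∑ m, S i j m * (z m * z l - (if m = l then f else 0)) := by
        simp only [mul_sub, Finset.sum_sub_distrib, mul_ite, mul_zero, Finset.sum_ite_eq',
          Finset.mem_univ, if_true, Finset.sum_mul, mul_assoc]
      rw [h5, pow_two]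
      exact Ideal.sum_mem _ fun m _ => Ideal.mul_mem_mul (h.lin_mem (t.linS i j m)) (o.mul m l)
    have h5 : Q i j * z l ∈ J ^ 2 := Ideal.mul_mem_right _ _ (h.quad_mem (t.quadQ i j))
    have h6 : z i * z j * z l - ((if i = j then lam l else 0) + S i j l) * f =
        (z i * z j - ((if i = j then f else 0) + (∑ m, S i j m * z m + Q i j))) * z l +
        ((if i = j then f else 0) * z l - (if i = j then lam l else 0) * f) +
        ((∑ m, S i j m * z m) * z l - S i j l * f) + Q i j * z l := by ring
    rw [h6]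
    exact Ideal.add_mem _ (Ideal.add_mem _ (Ideal.add_mem _ h2 h3) h4) h5
  have h1 := key i j l
  have h2 := key j l i
  have h3 : z j * z l * z i = z i * z j * z l := by ring
  rw [h3] at h2
  have h4 := Ideal.sub_mem _ h2 h1
  have h5 : z i * z j * z l - ((if j = l then lam i else 0) + S j l i) * f -
      (z i * z j * z l - ((if i = j then lam l else 0) + S i j l) * f) =
      (((if i = j then lam l else 0) + S i j l) - ((if j = l then lam i else 0) + S j l i)) * f := by
    ring
  rw [h5] at h4
  refine sub_eq_zero.1 (lin_eq_zero h o ?_ h4)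
  have hite : ∀ (p : Prop) [Decidable p] (x : L), x ∈ linF k y →
      (if p then x else 0) ∈ linF k y := by
    intro p _ x hx
    split_ifs
    · exact hx
    · exact Submodule.zero_mem _
  exact Submodule.sub_mem _ (Submodule.add_mem _ (hite _ _ (hl l)) (t.linS i j l))
    (Submodule.add_mem _ (hite _ _ (hl i)) (t.linS j l i))

/-- translation of `z` by linear forms -/
theorem Orth.shift (h : Amb k y J) (o : Orth k J z f) {a b : Fin c → L}
    (ha : ∀ i, a i ∈ linF k y) (hb : ∀ i, b i ∈ linF k y) :
    Orth k J (fun i => z i - a i) (f - ∑ l, b l * z l) where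
  gen := by
    rw [← o.gen]
    apply le_antisymm
    · refine sup_le le_sup_left ?_
      rw [Ideal.span_le]
      rintro _ ⟨i, rfl⟩
      exact Ideal.sub_mem _ (Ideal.mem_sup_right (Ideal.subset_span ⟨i, rfl⟩))
        (Ideal.mem_sup_left (h.lin_mem (ha i)))
    · refine sup_le le_sup_left ?_
      rw [Ideal.span_le]
      rintro _ ⟨i, rfl⟩
      have h1 : z i = (z i - a i) + a i := by ring
      change z i ∈ _
      rw [h1]
      exact Ideal.add_mem _ (Ideal.mem_sup_right (Ideal.subset_span ⟨i, rfl⟩))
        (Ideal.mem_sup_left (h.lin_mem (ha i)))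
  mul i j := by
    have h1 : (z i - a i) * (z j - a j) - (if i = j then f - ∑ l, b l * z l else 0) =
        (z i * z j - (if i = j then f else 0)) + (-(a i * (z j - a j)) - a j * z i +
          (if i = j then ∑ l, b l * z l else 0)) := by
      split_ifs <;> ring
    rw [h1]
    refine Ideal.add_mem _ (o.mul i j) (Ideal.add_mem _ (Ideal.sub_mem _ ?_ ?_) ?_)
    · exact (Ideal.neg_mem_iff _).2 (Ideal.mul_mem_right _ _ (h.lin_mem (ha i)))
    · exact Ideal.mul_mem_right _ _ (h.lin_mem (ha j))
    · split_ifs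
      · exact Ideal.sum_mem _ fun l _ => Ideal.mul_mem_right _ _ (h.lin_mem (hb l))
      · exact Ideal.zero_mem _
  f2 := by
    refine Ideal.sub_mem _ o.f2 (Ideal.sum_mem _ fun l _ => ?_)
    rw [pow_two]
    exact Ideal.mul_mem_mul (o.J_le (h.lin_mem (hb l))) (o.z_mem l)
  fJ := by
    intro h1
    apply o.fJ
    have h2 : f = (f - ∑ l, b l * z l) + ∑ l, b l * z l := by ring
    rw [h2]
    exact Ideal.add_mem _ h1 (Ideal.sum_mem _ fun l _ => Ideal.mul_mem_right _ _
      (h.lin_mem (hb l)))
  ind s hs := by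
    apply o.ind
    have h1 : ∑ i, s i • z i = ∑ i, s i • (z i - a i) + ∑ i, s i • a i := by
      rw [← Finset.sum_add_distrib]
      exact Finset.sum_congr rfl fun i _ => by rw [← smul_add, sub_add_cancel]
    rw [h1]
    refine Ideal.add_mem _ hs (Ideal.mem_sup_left (Ideal.sum_mem _ fun i _ => ?_))
    rw [Algebra.smul_def]
    exact Ideal.mul_mem_left _ _ (h.lin_mem (ha i))

theorem Tab.shift {S : Fin c → Fin c → Fin c → L} {Q : Fin c → Fin c → L}
    (t : Tab k y J z f S Q) {a b : Fin c → L}
    (ha : ∀ i, a i ∈ linF k y) (hb : ∀ i, b i ∈ linF k y) :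
    Tab k y J (fun i => z i - a i) (f - ∑ l, b l * z l)
      (fun i j l => S i j l + (if i = j then b l else 0) - (if j = l then a i else 0) -
        (if i = l then a j else 0))
      (fun i j => Q i j + a i * a j + ∑ l, (S i j l + (if i = j then b l else 0) -
        (if j = l then a i else 0) - (if i = l then a j else 0)) * a l) := by
  have hite : ∀ (p : Prop) [Decidable p] (x : L), x ∈ linF k y →
      (if p then x else 0) ∈ linF k y := by
    intro p _ x hx
    split_ifs
    · exact hx
    · exact Submodule.zero_mem _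
  have hlin : ∀ i j l, S i j l + (if i = j then b l else 0) - (if j = l then a i else 0) -
        (if i = l then a j else 0) ∈ linF k y := fun i j l =>
    Submodule.sub_mem _ (Submodule.sub_mem _ (Submodule.add_mem _ (t.linS i j l)
      (hite _ _ (hb l))) (hite _ _ (ha i))) (hite _ _ (ha j))
  have hsym : ∀ i j l, S i j l + (if i = j then b l else 0) - (if j = l then a i else 0) -
        (if i = l then a j else 0) = S j i l + (if j = i then b l else 0) -
        (if i = l then a j else 0) - (if j = l then a i else 0) := by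
    intro i j l
    rw [t.symS i j l]
    have h1 : (if i = j then b l else 0) = if j = i then b l else 0 := by
      by_cases hij : i = j
      · rw [if_pos hij, if_pos hij.symm]
      · rw [if_neg hij, if_neg (Ne.symm hij)]
    rw [h1]
    ring
  refine ⟨hlin, fun i j => ?_, hsym, fun i j => ?_, fun i j => ?_⟩
  · exact Submodule.add_mem _ (Submodule.add_mem _ (t.quadQ i j) (linF_mul (ha i) (ha j)))
      (Submodule.sum_mem _ fun l _ => linF_mul (hlin i j l) (ha l))
  · rw [t.symQ i j, mul_comm (a i)]
    congr 1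
    exact Finset.sum_congr rfl fun l _ => by rw [hsym]
  · have h1 := t.tab i j
    convert h1 using 1
    have e1 : ∑ l, (S i j l + (if i = j then b l else 0) - (if j = l then a i else 0) -
        (if i = l then a j else 0)) * (z l - a l) +
        ∑ l, (S i j l + (if i = j then b l else 0) - (if j = l then a i else 0) -
        (if i = l then a j else 0)) * a l =
        ∑ l, S i j l * z l + (if i = j then ∑ l, b l * z l else 0) - a i * z j - a j * z i := by
      rw [← Finset.sum_add_distrib]
      have e2 : ∀ l, (S i j l + (if i = j then b l else 0) - (if j = l then a i else 0) -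
        (if i = l then a j else 0)) * (z l - a l) +
        (S i j l + (if i = j then b l else 0) - (if j = l then a i else 0) -
        (if i = l then a j else 0)) * a l = S i j l * z l + (if i = j then b l * z l else 0) -
          (if j = l then a i * z l else 0) - (if i = l then a j * z l else 0) := by
        intro l
        split_ifs <;> ring
      rw [Finset.sum_congr rfl fun l _ => e2 l]
      simp only [Finset.sum_sub_distrib, Finset.sum_add_distrib, Finset.sum_ite_eq,
        Finset.mem_univ, if_true]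
      congr 3
      split_ifs <;> simp
    have e3 : (if i = j then f - ∑ l, b l * z l else 0) =
        (if i = j then f else 0) - (if i = j then ∑ l, b l * z l else 0) := by
      split_ifs <;> ring
    rw [e3]
    linear_combination (-1 : L) * e1

/-- the normalized multiplication table -/
theorem exists_normal [CharZero k] (h : Amb k y J) (o : Orth k J z f) (hc : 2 ≤ c) :
    ∃ (z' : Fin c → L) (f' : L) (S : Fin c → Fin c → Fin c → L) (Q : Fin c → Fin c → L),
      Orth k J z' f' ∧ Tab k y J z' f' S Q ∧ (∀ i j l, S i j l = S j l i) ∧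
      (∀ i, ∑ j, S j j i = 0) ∧ ∀ i, z' i * f' ∈ J ^ 2 * maximalIdeal L := by
  obtain ⟨S, Q, t⟩ := exists_tab h o
  obtain ⟨lam, hl, hl2⟩ := exists_lam h o hc
  have hA := fun i j l => lam_eq h o hc t hl hl2 i j l
  set b : Fin c → L := fun i => ((c : k) + 2)⁻¹ • ((2 : k) • lam i - ∑ j, S j j i) with hb
  have hc2 : ((c : k) + 2) ≠ 0 := by
    have : ((c + 2 : ℕ) : k) ≠ 0 := Nat.cast_ne_zero.mpr (by omega)
    push_cast at this
    exact this
  have hblin : ∀ i, b i ∈ linF k y := fun i => Submodule.smul_mem _ _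
    (Submodule.sub_mem _ (Submodule.smul_mem _ _ (hl i))
      (Submodule.sum_mem _ fun j _ => t.linS j j i))
  set a : Fin c → L := fun i => lam i - b i with ha
  have halin : ∀ i, a i ∈ linF k y := fun i => Submodule.sub_mem _ (hl i) (hblin i)
  have o' := o.shift h halin hblin
  have t' := t.shift halin hblin
  have hcyc : ∀ i j l, S i j l + (if i = j then b l else 0) - (if j = l then a i else 0) -
        (if i = l then a j else 0) = S j l i + (if j = l then b i else 0) -
        (if l = i then a j else 0) - (if j = i then a l else 0) := by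
    intro i j l
    have h1 := hA i j l
    have h2 : (if i = l then a j else 0) = if l = i then a j else 0 := by
      by_cases hij : i = l
      · rw [if_pos hij, if_pos hij.symm]
      · rw [if_neg hij, if_neg (Ne.symm hij)]
    have h3 : (if j = i then a l else 0) = if i = j then a l else 0 := by
      by_cases hij : i = j
      · rw [if_pos hij, if_pos hij.symm]
      · rw [if_neg hij, if_neg (Ne.symm hij)]
    rw [h2, h3]
    have h4 : ∀ (p : Prop) [Decidable p] (x : Fin c), (if p then lam x else 0) =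
        (if p then a x else 0) + (if p then b x else 0) := by
      intro p _ x
      split_ifs
      · rw [ha]
        ring
      · ring
    rw [h4, h4] at h1
    linear_combination h1
  refine ⟨_, _, _, _, o', t', hcyc, ?_, ?_⟩
  · intro i
    have h1 : ∀ j, S j j i + (if j = j then b i else 0) - (if j = i then a j else 0) -
        (if j = i then a j else 0) = S j j i + b i - (if j = i then a j else 0) -
        (if j = i then a j else 0) := by
      intro j
      rw [if_pos rfl]
    rw [Finset.sum_congr rfl fun j _ => h1 j]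
    simp only [Finset.sum_sub_distrib, Finset.sum_add_distrib, Finset.sum_ite_eq',
      Finset.mem_univ, if_true, Finset.sum_const, Finset.card_univ, Fintype.card_fin]
    have h2 : ((c : k) + 2) • b i = (2 : k) • lam i - ∑ j, S j j i := by
      rw [hb]
      simp only
      rw [smul_smul, mul_inv_cancel₀ hc2, one_smul]
    have h3 : ((c : k) + 2) • b i = c • b i + 2 * b i := by
      rw [add_smul, Nat.cast_smul_eq_nsmul, two_smul, two_mul]
    have h4 : (2 : k) • lam i = 2 * lam i := by rw [two_smul, two_mul]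
    have h5 : a i = lam i - b i := rfl
    rw [h5]
    rw [h3, h4] at h2
    linear_combination h2
  · obtain ⟨lam', hl', hl2'⟩ := exists_lam h o' hc
    have hA' := fun i j l => lam_eq h o' hc t' hl' hl2' i j l
    have h0 : ∀ i, lam' i = 0 := by
      intro i
      obtain ⟨j, hj⟩ : ∃ j : Fin c, j ≠ i := by
        have : Nontrivial (Fin c) := Fin.nontrivial_iff_two_le.mpr hc
        exact exists_ne i
      have h1 := hA' i j j
      rw [hcyc i j j, if_neg hj.symm, zero_add, if_pos (rfl : j = j)] at h1
      simp only [if_true] at h1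
      exact (right_eq_add.1 h1)
    intro i
    have h1 := hl2' i
    rw [h0 i, zero_mul, sub_zero] at h1
    exact h1

/-- the second order of associativity -/
theorem quad_rel [CharZero k] (h : Amb k y J) (o : Orth k J z f) (hc : 2 ≤ c)
    {S : Fin c → Fin c → Fin c → L} {Q : Fin c → Fin c → L} (t : Tab k y J z f S Q)
    (hcyc : ∀ i j l, S i j l = S j l i)
    (hz : ∀ i, z i * f ∈ J ^ 2 * maximalIdeal L) :
    ∃ r : Fin c → L, ∀ i j l, i ≠ j → i ≠ l →
      Q j l + (if j = l then r i else 0) =
        ∑ m, (S i j m * S m l i - S l j m * S m i i) := by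
  choose Lm hLm hLm2 using fun i => exists_four h o (hz i)
  have hK : ∀ u ∈ J * maximalIdeal L ^ 2, ∀ v ∈ maximalIdeal L,
      u * v ∈ J ^ 2 * (J ⊔ Ideal.span {f}) := by
    intro u hu v hv
    have h1 := Ideal.mul_mem_mul hu hv
    rw [mul_assoc, ← pow_succ] at h1
    have h2 : J * maximalIdeal L ^ 3 ≤ J ^ 2 * (J ⊔ Ideal.span {f}) := by
      calc J * maximalIdeal L ^ 3 ≤ J * (J * maximalIdeal L ^ 2) :=
            Ideal.mul_mono_right (o.cube_le h hc)
        _ = J ^ 2 * maximalIdeal L ^ 2 := by rw [pow_two J, mul_assoc]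
        _ ≤ J ^ 2 * (J ⊔ Ideal.span {f}) := Ideal.mul_mono_right
            ((o.sq_le h).trans (sup_le_sup_right Ideal.mul_le_left _))
    exact h2 h1
  have key : ∀ i j l : Fin c, z i * z j * z l - (S i j l * f +
      ∑ m, ((if i = j then Lm l m else 0) + (∑ p, S i j p * S p l m) +
        (if l = m then Q i j else 0)) * z m) ∈ J ^ 2 * (J ⊔ Ideal.span {f}) := by
    intro i j l
    have h1 := hK _ (t.tab i j) _ (o.z_mem l)
    have h2 : (if i = j then f else 0) * z l - (if i = j then ∑ m, Lm l m * z m else 0) ∈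
        J ^ 2 * (J ⊔ Ideal.span {f}) := by
      split_ifs
      · rw [mul_comm f]
        exact hLm2 l
      · rw [zero_mul, sub_zero]
        exact Ideal.zero_mem _
    have h3 : (∑ p, S i j p * z p) * z l - (S i j l * f + ∑ p, S i j p * ∑ m, S p l m * z m) ∈
        J ^ 2 * (J ⊔ Ideal.span {f}) := by
      have h5 : (∑ p, S i j p * z p) * z l - (S i j l * f + ∑ p, S i j p * ∑ m, S p l m * z m) =
          ∑ p, (S i j p * (z p * z l - ((if p = l then f else 0) + (∑ m, S p l m * z m + Q p l)))
            + S i j p * Q p l) := by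
        have h6 : ∀ p, S i j p * (z p * z l - ((if p = l then f else 0) +
            (∑ m, S p l m * z m + Q p l))) + S i j p * Q p l = S i j p * z p * z l -
              (if p = l then S i j p * f else 0) - S i j p * ∑ m, S p l m * z m := by
          intro p
          split_ifs <;> ring
        rw [Finset.sum_congr rfl fun p _ => h6 p]
        simp only [Finset.sum_sub_distrib, Finset.sum_ite_eq', Finset.mem_univ, if_true,
          Finset.sum_mul]
        ring
      rw [h5]
      refine Ideal.sum_mem _ fun p _ => Ideal.add_mem _ ?_ ?_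
      · have h6 := Ideal.mul_mem_mul (h.lin_mem (t.linS i j p)) (t.tab p l)
        rw [← mul_assoc, ← pow_two] at h6
        exact Ideal.mul_mono_right ((o.sq_le h).trans (sup_le_sup_right Ideal.mul_le_left _)) h6
      · have h6 := Ideal.mul_mem_mul (h.quad_mem (t.quadQ p l)) (h.lin_mem (t.linS i j p))
        rw [mul_comm (S i j p)]
        exact Ideal.mul_mono_right le_sup_left h6
    have h4 : z i * z j * z l - (S i j l * f +
        ∑ m, ((if i = j then Lm l m else 0) + (∑ p, S i j p * S p l m) +
          (if l = m then Q i j else 0)) * z m) =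
        (z i * z j - ((if i = j then f else 0) + (∑ m, S i j m * z m + Q i j))) * z l +
        ((if i = j then f else 0) * z l - (if i = j then ∑ m, Lm l m * z m else 0)) +
        ((∑ p, S i j p * z p) * z l - (S i j l * f + ∑ p, S i j p * ∑ m, S p l m * z m)) := by
      have h5 : ∑ m, ((if i = j then Lm l m else 0) + (∑ p, S i j p * S p l m) +
          (if l = m then Q i j else 0)) * z m = (if i = j then ∑ m, Lm l m * z m else 0) +
          ∑ p, S i j p * ∑ m, S p l m * z m + Q i j * z l := by
        simp only [add_mul, Finset.sum_add_distrib]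
        congr 1
        · congr 1
          · split_ifs <;> simp
          · simp only [Finset.sum_mul, Finset.mul_sum]
            rw [Finset.sum_comm]
            exact Finset.sum_congr rfl fun p _ => Finset.sum_congr rfl fun m _ => by ring
        · simp only [ite_mul, zero_mul, Finset.sum_ite_eq, Finset.mem_univ, if_true]
      rw [h5]
      ring
    rw [h4]
    exact Ideal.add_mem _ (Ideal.add_mem _ h1 h2) h3
  refine ⟨fun i => Lm i i, fun i j l hij hil => ?_⟩
  have h1 := key i j l
  have h2 := key l j i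
  have h3 : z l * z j * z i = z i * z j * z l := by ring
  have h4 : S l j i = S i j l := by
    rw [hcyc l j i, t.symS j i l]
  rw [h3, h4] at h2
  have h5 := Ideal.sub_mem _ h2 h1
  set q : Fin c → L := fun m => ((if i = j then Lm l m else 0) + (∑ p, S i j p * S p l m) +
        (if l = m then Q i j else 0)) - ((if l = j then Lm i m else 0) +
          (∑ p, S l j p * S p i m) + (if i = m then Q l j else 0)) with hq
  have h6 : z i * z j * z l - (S i j l * f + ∑ m, ((if l = j then Lm i m else 0) +
      (∑ p, S l j p * S p i m) + (if i = m then Q l j else 0)) * z m) -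
      (z i * z j * z l - (S i j l * f + ∑ m, ((if i = j then Lm l m else 0) +
      (∑ p, S i j p * S p l m) + (if l = m then Q i j else 0)) * z m)) = ∑ m, q m * z m := by
    rw [hq]
    simp only [sub_mul, Finset.sum_sub_distrib]
    ring
  rw [h6] at h5
  have hite : ∀ (p : Prop) [Decidable p] (x : L), x ∈ quadF k y →
      (if p then x else 0) ∈ quadF k y := by
    intro p _ x hx
    split_ifs
    · exact hx
    · exact Submodule.zero_mem _
  have hqq : ∀ m, q m ∈ quadF k y := by
    intro m
    refine Submodule.sub_mem _ (Submodule.add_mem _ (Submodule.add_mem _ (hite _ _ (hLm l m))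
      (Submodule.sum_mem _ fun p _ => linF_mul (t.linS _ _ _) (t.linS _ _ _)))
      (hite _ _ (t.quadQ i j))) (Submodule.add_mem _ (Submodule.add_mem _ (hite _ _ (hLm i m))
      (Submodule.sum_mem _ fun p _ => linF_mul (t.linS _ _ _) (t.linS _ _ _)))
      (hite _ _ (t.quadQ l j)))
  have h7 := quad_eq_zero h o hqq h5 i
  rw [hq] at h7
  simp only [if_neg hij, if_neg hil.symm, if_true, zero_add, add_zero] at h7
  rw [Finset.sum_sub_distrib, t.symQ j l]
  have h8 : (if j = l then Lm i i else 0) = if l = j then Lm i i else 0 := by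
    by_cases hjl : j = l
    · rw [if_pos hjl, if_pos hjl.symm]
    · rw [if_neg hjl, if_neg (Ne.symm hjl)]
  rw [h8]
  linear_combination (-1 : L) * h7

end

section

variable {k L : Type*} [Field k] [CommRing L] [IsLocalRing L] [Algebra k L] {n c : ℕ}
  {y : Fin n → L} {J : Ideal L} {z : Fin c → L} {f : L}

/-- the relations of the tangent cone -/
theorem exists_rel [CharZero k] (h : Amb k y J) (o : Orth k J z f) (hc : 3 ≤ c) :
    ∃ (z' : Fin c → L) (S : Fin c → Fin c → Fin c → L),
      (∀ i, z' i ∈ maximalIdeal L) ∧ (∀ i, z' i ^ 2 ∉ J) ∧ (∀ i j l, S i j l ∈ linF k y) ∧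
      (∀ i j l, S i j l = S j i l) ∧ (∀ i j l, S i j l = S j l i) ∧ (∀ i, ∑ j, S j j i = 0) ∧
      ∀ I : Ideal L, (∀ i j l, S i j l ∈ I) →
        (∀ j l, j ≠ l → z' j * z' l ∈
          I * Ideal.span (Set.range z') ⊔ I ^ 2 ⊔ maximalIdeal L ^ 3) ∧
        (∀ j l, z' j ^ 2 - z' l ^ 2 ∈
          I * Ideal.span (Set.range z') ⊔ I ^ 2 ⊔ maximalIdeal L ^ 3) := by
  obtain ⟨z', f', S, Q, o', t, hcyc, htr, hz⟩ := exists_normal h o (by omega)
  obtain ⟨r, hr⟩ := quad_rel h o' (by omega) t hcyc hz
  refine ⟨z', S, o'.z_mem, fun i hi => ?_, t.linS, t.symS, hcyc, htr, fun I hI => ?_⟩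
  · apply o'.fJ
    have h1 := o'.mul i i
    rw [if_pos rfl, ← pow_two] at h1
    have h2 : f' = z' i ^ 2 - (z' i ^ 2 - f') := by ring
    rw [h2]
    exact Ideal.sub_mem _ hi h1
  · set K := I * Ideal.span (Set.range z') ⊔ I ^ 2 ⊔ maximalIdeal L ^ 3 with hK
    have hthird : ∀ j l : Fin c, ∃ i, i ≠ j ∧ i ≠ l := by
      intro j l
      by_contra hcon
      push Not at hcon
      have h1 : (Finset.univ : Finset (Fin c)) ⊆ {j, l} := by
        intro i _
        rw [Finset.mem_insert, Finset.mem_singleton]
        by_cases hij : i = j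
        · exact Or.inl hij
        · exact Or.inr (hcon i hij)
      have h2 := Finset.card_le_card h1
      rw [Finset.card_univ, Fintype.card_fin] at h2
      have h3 : ({j, l} : Finset (Fin c)).card ≤ 2 := Finset.card_le_two
      omega
    have hI2 : ∀ i j l : Fin c, ∑ m, (S i j m * S m l i - S l j m * S m i i) ∈ K := by
      intro i j l
      refine Ideal.mem_sup_left (Ideal.mem_sup_right (Ideal.sum_mem _ fun m _ => ?_))
      rw [pow_two]
      exact Ideal.sub_mem _ (Ideal.mul_mem_mul (hI _ _ _) (hI _ _ _))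
        (Ideal.mul_mem_mul (hI _ _ _) (hI _ _ _))
    have hSz : ∀ i j : Fin c, ∑ m, S i j m * z' m ∈ K := fun i j =>
      Ideal.mem_sup_left (Ideal.mem_sup_left (Ideal.sum_mem _ fun m _ =>
        Ideal.mul_mem_mul (hI _ _ _) (Ideal.subset_span ⟨m, rfl⟩)))
    have htab : ∀ i j : Fin c, z' i * z' j - ((if i = j then f' else 0) +
        (∑ l, S i j l * z' l + Q i j)) ∈ K := by
      intro i j
      refine Ideal.mem_sup_right ?_
      have h1 := Ideal.mul_mono_left o'.J_le (t.tab i j)
      rwa [← pow_succ'] at h1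
    constructor
    · intro j l hjl
      obtain ⟨i, hij, hil⟩ := hthird j l
      have h1 := hr i j l hij hil
      rw [if_neg hjl, add_zero] at h1
      have h2 := htab j l
      rw [if_neg hjl] at h2
      have h3 : z' j * z' l = (z' j * z' l - (0 + (∑ m, S j l m * z' m + Q j l))) +
          ∑ m, S j l m * z' m + Q j l := by ring
      rw [h3]
      refine Ideal.add_mem _ (Ideal.add_mem _ h2 (hSz j l)) ?_
      rw [h1]
      exact hI2 i j l
    · intro j l
      obtain ⟨i, hij, hil⟩ := hthird j l
      have h1 := hr i j j hij hij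
      have h1' := hr i l l hil hil
      rw [if_pos rfl] at h1 h1'
      have h2 := htab j j
      have h2' := htab l l
      rw [if_pos rfl] at h2 h2'
      have h3 : z' j ^ 2 - z' l ^ 2 =
          (z' j * z' j - (f' + (∑ m, S j j m * z' m + Q j j))) -
          (z' l * z' l - (f' + (∑ m, S l l m * z' m + Q l l))) +
          ∑ m, S j j m * z' m - ∑ m, S l l m * z' m +
          (∑ m, (S i j m * S m j i - S j j m * S m i i) -
            ∑ m, (S i l m * S m l i - S l l m * S m i i)) := by
        rw [← h1, ← h1']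
        ring
      rw [h3]
      exact Ideal.add_mem _ (Ideal.sub_mem _ (Ideal.add_mem _ (Ideal.sub_mem _ h2 h2') (hSz j j))
        (hSz l l)) (Ideal.sub_mem _ (hI2 i j j) (hI2 i l l))

end

/-- the harmonic cubic forms in four variables: 16 generators -/
theorem exists_sixteen {k L : Type*} [Field k] [CommRing L] [Algebra k L] {n : ℕ}
    {y : Fin n → L} {S : Fin 4 → Fin 4 → Fin 4 → L} (hS : ∀ i j l, S i j l ∈ linF k y)
    (hsym : ∀ i j l, S i j l = S j i l) (hcyc : ∀ i j l, S i j l = S j l i)
    (htr : ∀ i, ∑ j, S j j i = 0) :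
    ∃ T : Fin 16 → L, (∀ p, T p ∈ linF k y) ∧
      ∀ i j l, S i j l ∈ Submodule.span k (Set.range T) := by
  set T' : Fin 4 × Fin 4 → L := fun p =>
    if p.1 = p.2 then S (p.1 + 1) (p.1 + 2) (p.1 + 3) else S p.1 p.1 p.2 with hT'
  set T : Fin 16 → L := fun p => T' (finProdFinEquiv.symm (p : Fin (4 * 4))) with hT
  have hmem : ∀ q : Fin 4 × Fin 4, T' q ∈ Submodule.span k (Set.range T) := by
    intro q
    refine Submodule.subset_span ⟨(finProdFinEquiv q : Fin (4 * 4)), ?_⟩
    rw [hT]
    simp only
    congr 1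
    exact finProdFinEquiv.symm_apply_apply q
  have h2 : ∀ i l, i ≠ l → S i i l ∈ Submodule.span k (Set.range T) := by
    intro i l hil
    have h1 := hmem (i, l)
    rw [hT'] at h1
    simp only [if_neg hil] at h1
    exact h1
  have h3 : ∀ d, S (d + 1) (d + 2) (d + 3) ∈ Submodule.span k (Set.range T) := by
    intro d
    have h1 := hmem (d, d)
    rw [hT'] at h1
    simp only [if_true] at h1
    exact h1
  have h1 : ∀ i, S i i i ∈ Submodule.span k (Set.range T) := by
    intro i
    have h4 := htr i
    rw [← Finset.add_sum_erase _ _ (Finset.mem_univ i)] at h4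
    rw [eq_neg_of_add_eq_zero_left h4]
    exact Submodule.neg_mem _ (Submodule.sum_mem _ fun j hj => h2 j i (Finset.ne_of_mem_erase hj))
  refine ⟨T, fun p => ?_, fun i j l => ?_⟩
  · rw [hT, hT']
    simp only
    split_ifs
    · exact hS _ _ _
    · exact hS _ _ _
  · by_cases hij : i = j
    · subst hij
      by_cases hil : i = l
      · subst hil
        exact h1 i
      · exact h2 i l hil
    · by_cases hjl : j = l
      · subst hjl
        rw [hcyc]
        exact h2 j i (Ne.symm hij)
      · by_cases hil : i = l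
        · subst hil
          rw [hsym, hcyc]
          exact h2 i j hij
        · have key : ∀ i j l : Fin 4, i ≠ j → j ≠ l → i ≠ l → ∃ d : Fin 4,
              i ≠ d ∧ j ≠ d ∧ l ≠ d := by
            decide
          have key2 : ∀ d i : Fin 4, i ≠ d → i = d + 1 ∨ i = d + 2 ∨ i = d + 3 := by
            decide
          obtain ⟨d, hid, hjd, hld⟩ := key i j l hij hjl hil
          have p1 : ∀ a b c, S a c b = S a b c := fun a b c => by
            rw [hcyc a c b, hsym c b a, ← hcyc a b c]
          have q1 := h3 d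
          have q2 : S (d + 1) (d + 3) (d + 2) ∈ Submodule.span k (Set.range T) := by
            rw [p1]
            exact q1
          have q3 : S (d + 2) (d + 1) (d + 3) ∈ Submodule.span k (Set.range T) := by
            rw [hsym]
            exact q1
          have q4 : S (d + 2) (d + 3) (d + 1) ∈ Submodule.span k (Set.range T) := by
            rw [p1]
            exact q3
          have q5 : S (d + 3) (d + 1) (d + 2) ∈ Submodule.span k (Set.range T) := by
            rw [hsym]
            exact q2
          have q6 : S (d + 3) (d + 2) (d + 1) ∈ Submodule.span k (Set.range T) := by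
            rw [p1]
            exact q5
          rcases key2 d i hid with rfl | rfl | rfl <;> rcases key2 d j hjd with rfl | rfl | rfl <;>
            rcases key2 d l hld with rfl | rfl | rfl <;>
            first | exact absurd rfl hij | exact absurd rfl hjl | exact absurd rfl hil |
              exact q1 | exact q2 | exact q3 | exact q4 | exact q5 | exact q6

end Pool.Agent.ODP
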