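import Pool.Agent.ODP.Red

/-!
# The general bound `vol ≤ e (n - s) ^ n`
-/

open scoped WithZero ENNReal
open IsLocalRing

namespace Pool.Agent.ODP

set_option linter.unusedSectionVars false

variable {k : Type*} [Field k] [CharZero k] {n : ℕ} {B K : Type*}
  [CommRing B] [IsDomain B] [IsIntegrallyClosed B] [Algebra k B]
  [Field K] [Algebra B K] [IsFractionRing B K] [Algebra k K] [IsScalarTower k B K]

theorem localVol_le (x : Ideal B) (y : Fin n → B) (g : K) (v : Valuation K ℤᵐ⁰)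
    (hv : IsDivisorialAt k n x v) (a : ℤ)
    (ha : IsLogDiscrepancy k v (fun i => algebraMap B K (y i)) g a) :
    localVol k x y g ≤ ENNReal.ofReal ((a : ℝ) ^ n) * vol k n v hv.nonneg :=
  (iInf₂_le v hv).trans (iInf₂_le a ha)

theorem exists_mem_pow (x : Ideal B) [x.IsPrime] (y : Fin n → B) (s : ℕ)
    (hs : ¬ maximalIdeal (Localization.AtPrime x) ^ s ≤ paramIdeal x y) :
    ∃ f : B, algebraMap B (Localization.AtPrime x) f ∈
      maximalIdeal (Localization.AtPrime x) ^ s ∧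
      algebraMap B (Localization.AtPrime x) f ∉ paramIdeal x y := by
  rw [← Localization.AtPrime.map_eq_maximalIdeal, ← Ideal.map_pow,
    Ideal.map_le_iff_le_comap] at hs
  obtain ⟨f, hf, hf2⟩ := Set.not_subset.mp hs
  refine ⟨f, ?_, hf2⟩
  rw [← Localization.AtPrime.map_eq_maximalIdeal, ← Ideal.map_pow]
  exact Ideal.mem_map_of_mem _ hf

theorem localVol_le_general (hn : 0 < n) (y : Fin n → B) (hy : IsFiniteFree k y)
    (x : Ideal B) [x.IsMaximal] (g : K)
    (hg : IsCanonicalAt k x (fun i => algebraMap B K (y i)) g) (hred : IsReductionAt x y)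
    (hklt : HasPosLogDiscrepancies k x y g) (s : ℕ)
    (hs : ¬ maximalIdeal (Localization.AtPrime x) ^ s ≤ paramIdeal x y) :
    s < n ∧ localVol k x y g ≤ ENNReal.ofReal (paramLength k x y * ((n : ℝ) - s) ^ n) := by
  obtain ⟨f, hfs, hf⟩ := exists_mem_pow x y s hs
  obtain ⟨v, hv, c, a, m, hc0, hcα, hc, ha, hm, ham, hvol⟩ :=
    exists_valuation_gen hn y hy x g hg f hf (fun _ => 1) (fun _ => one_pos)
  -- all `c i` are equal
  set c₀ := c ⟨0, hn⟩ with hc₀
  have hcc : ∀ i, c i = c₀ := fun i => by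
    have := hcα i ⟨0, hn⟩
    simp only [one_mul] at this
    exact this.symm
  have hc₀pos : 0 < c₀ := hc0 _
  have hms : c₀ * s ≤ m := by
    have h1 := order_le_of_mem_pow (K := K) x y hred v hv.nonneg hv.centre c₀
      (fun i => by rw [hc i, hcc i]) s f hfs
    rw [hm, WithZero.exp_le_exp] at h1
    have h2 : ((c₀ * s : ℕ) : ℤ) ≤ (m : ℤ) := by linarith
    exact_mod_cast h2
  have hsum : ∑ i, (c i : ℤ) = n * c₀ := by
    simp [hcc]
  have hapos : 0 < a := hklt v hv a ha
  have ha2 : a ≤ c₀ * ((n : ℤ) - s) := by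
    have h1 : ((c₀ * s : ℕ) : ℤ) ≤ (m : ℤ) := by exact_mod_cast hms
    push_cast at h1
    rw [hsum] at ham
    linarith
  have hsn : s < n := by
    by_contra hcon
    rw [not_lt] at hcon
    have h1 : ((n : ℤ) - s) ≤ 0 := by
      have : (n : ℤ) ≤ s := by exact_mod_cast hcon
      linarith
    have h2 : (c₀ : ℤ) * ((n : ℤ) - s) ≤ 0 :=
      mul_nonpos_of_nonneg_of_nonpos (by positivity) h1
    omega
  refine ⟨hsn, (localVol_le x y g v hv a ha).trans ?_⟩
  have hprod : ∏ i, (c i : ℝ) = (c₀ : ℝ) ^ n := by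
    simp [hcc]
  rw [hprod] at hvol
  have haR : (a : ℝ) ≤ c₀ * ((n : ℝ) - s) := by exact_mod_cast ha2
  have haR0 : (0 : ℝ) ≤ a := by exact_mod_cast hapos.le
  calc ENNReal.ofReal ((a : ℝ) ^ n) * vol k n v hv.nonneg
      ≤ ENNReal.ofReal ((a : ℝ) ^ n) * ENNReal.ofReal (paramLength k x y / (c₀ : ℝ) ^ n) :=
        mul_le_mul' le_rfl hvol
    _ = ENNReal.ofReal ((a : ℝ) ^ n * (paramLength k x y / (c₀ : ℝ) ^ n)) := by
        rw [ENNReal.ofReal_mul (by positivity)]
    _ ≤ ENNReal.ofReal (paramLength k x y * ((n : ℝ) - s) ^ n) := by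
        apply ENNReal.ofReal_le_ofReal
        have hcR : (0 : ℝ) < c₀ := by exact_mod_cast hc₀pos
        have h1 : (a : ℝ) ^ n ≤ (c₀ * ((n : ℝ) - s)) ^ n := pow_le_pow_left₀ haR0 haR n
        calc (a : ℝ) ^ n * (paramLength k x y / (c₀ : ℝ) ^ n)
            ≤ (c₀ * ((n : ℝ) - s)) ^ n * (paramLength k x y / (c₀ : ℝ) ^ n) :=
              mul_le_mul_of_nonneg_right h1 (by positivity)
          _ = paramLength k x y * ((n : ℝ) - s) ^ n := by
              rw [mul_pow]
              field_simp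

end Pool.Agent.ODP
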