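import Mathlib

/-!
# Places above a discrete valuation ring
-/

open scoped WithZero
open IsDedekindDomain

namespace Pool.Agent.ODP

set_option linter.unusedSectionVars false

variable {O K C : Type*} [CommRing O] [IsDomain O] [IsDiscreteValuationRing O]
  [Field K] [Algebra O K]
  [CommRing C] [IsDedekindDomain C] [Algebra O C] [Algebra C K] [IsScalarTower O C K]
  [IsFractionRing C K]

theorem place_le_one (Q : HeightOneSpectrum C) (a : O) :
    Q.valuation K (algebraMap O K a) ≤ 1 := by
  rw [IsScalarTower.algebraMap_apply O C K]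
  exact Q.valuation_le_one _

theorem place_eq_one (Q : HeightOneSpectrum C) {a : O} (ha : IsUnit a) :
    Q.valuation K (algebraMap O K a) = 1 := by
  obtain ⟨u, rfl⟩ := ha
  refine le_antisymm (place_le_one Q _) ?_
  have h1 : Q.valuation K (algebraMap O K (u : O)) *
      Q.valuation K (algebraMap O K ((u⁻¹ : Oˣ) : O)) = 1 := by
    rw [← map_mul, ← map_mul, Units.mul_inv, map_one, map_one]
  have h2 := place_le_one (K := K) Q ((u⁻¹ : Oˣ) : O)
  calc (1 : ℤᵐ⁰) = _ := h1.symm
    _ ≤ Q.valuation K (algebraMap O K (u : O)) * 1 := mul_le_mul' le_rfl h2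
    _ = _ := mul_one _

variable (O C) in
theorem comap_place [Module.Finite O C] [FaithfulSMul O C] (Q : HeightOneSpectrum C) :
    Q.asIdeal.comap (algebraMap O C) = IsLocalRing.maximalIdeal O := by
  have h1 : (Q.asIdeal.comap (algebraMap O C)).IsMaximal := by
    have : Q.asIdeal.IsMaximal := Q.isMaximal
    exact Ideal.isMaximal_comap_of_isIntegral_of_isMaximal Q.asIdeal
  exact IsLocalRing.eq_maximalIdeal h1

theorem place_lt_one [Module.Finite O C] [FaithfulSMul O C] (Q : HeightOneSpectrum C) {a : O}
    (ha : a ∈ IsLocalRing.maximalIdeal O) : Q.valuation K (algebraMap O K a) < 1 := by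
  rw [IsScalarTower.algebraMap_apply O C K]
  rw [HeightOneSpectrum.valuation_lt_one_iff_mem]
  rw [← comap_place O C Q] at ha
  exact ha

variable (O C) in
theorem finite_places [Module.Finite O C] [FaithfulSMul O C] :
    Finite (HeightOneSpectrum C) := by
  have h1 : ((IsLocalRing.maximalIdeal O).primesOver C).Finite :=
    Algebra.QuasiFinite.finite_primesOver _
  have : Finite ((IsLocalRing.maximalIdeal O).primesOver C) := h1
  refine Finite.of_injective (β := (IsLocalRing.maximalIdeal O).primesOver C)
    (fun Q => ⟨Q.asIdeal, Q.isPrime, ⟨(comap_place O C Q).symm⟩⟩) ?_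
  intro Q Q' h
  exact HeightOneSpectrum.ext (congrArg Subtype.val h)

end Pool.Agent.ODP
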