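import Mathlib

/-!
# The monomial valuations of the field of rational functions
-/

open scoped WithZero
open MvPolynomial

namespace Pool.Agent.ODP

set_option linter.unusedSectionVars false

variable {k : Type*} [Field k] {n : ℕ} {F : Type*} [Field F]
  [Algebra (MvPolynomial (Fin n) k) F] [IsFractionRing (MvPolynomial (Fin n) k) F]

/-- `X i ↦ X i · T ^ α i`, as a map `k[X] → F[T]`. -/
noncomputable def wsubstPoly (k : Type*) [Field k] {n : ℕ} (F : Type*) [Field F]
    [Algebra (MvPolynomial (Fin n) k) F] (α : Fin n → ℕ) :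
    MvPolynomial (Fin n) k →+* Polynomial F :=
  MvPolynomial.eval₂Hom ((Polynomial.C : F →+* Polynomial F).comp
      ((algebraMap (MvPolynomial (Fin n) k) F).comp MvPolynomial.C))
    (fun i => Polynomial.C (algebraMap (MvPolynomial (Fin n) k) F (X i)) * Polynomial.X ^ α i)

theorem wsubstPoly_C (α : Fin n → ℕ) (a : k) :
    wsubstPoly k F α (C a) = Polynomial.C (algebraMap (MvPolynomial (Fin n) k) F (C a)) := by
  simp [wsubstPoly]

theorem wsubstPoly_X (α : Fin n → ℕ) (i : Fin n) :
    wsubstPoly k F α (X i) =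
      Polynomial.C (algebraMap (MvPolynomial (Fin n) k) F (X i)) * Polynomial.X ^ α i := by
  simp [wsubstPoly]

theorem eval_one_wsubstPoly (α : Fin n → ℕ) (p : MvPolynomial (Fin n) k) :
    (wsubstPoly k F α p).eval 1 = algebraMap (MvPolynomial (Fin n) k) F p := by
  induction p using MvPolynomial.induction_on with
  | C a => simp [wsubstPoly_C]
  | add p q hp hq => simp [hp, hq]
  | mul_X p i hp => simp [hp, wsubstPoly_X]

theorem wsubstPoly_injective (α : Fin n → ℕ) : Function.Injective (wsubstPoly k F α) := by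
  intro p q h
  apply IsFractionRing.injective (MvPolynomial (Fin n) k) F
  rw [← eval_one_wsubstPoly α, ← eval_one_wsubstPoly α, h]

/-- The extension of `wsubstPoly` to the fraction field. -/
noncomputable def wsubst (k : Type*) [Field k] {n : ℕ} (F : Type*) [Field F]
    [Algebra (MvPolynomial (Fin n) k) F] [IsFractionRing (MvPolynomial (Fin n) k) F]
    (α : Fin n → ℕ) : F →+* RatFunc F :=
  IsFractionRing.lift (A := MvPolynomial (Fin n) k) (K := F)
      (g := (algebraMap (Polynomial F) (RatFunc F)).comp (wsubstPoly k F α))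
      ((IsFractionRing.injective (Polynomial F) (RatFunc F)).comp (wsubstPoly_injective α))

theorem wsubst_algebraMap (α : Fin n → ℕ) (p : MvPolynomial (Fin n) k) :
    wsubst k F α (algebraMap (MvPolynomial (Fin n) k) F p) =
      algebraMap (Polynomial F) (RatFunc F) (wsubstPoly k F α p) := by
  simp [wsubst]

/-- The monomial valuation of `F = k(X)` with `ord (X i) = α i`. -/
noncomputable def wval (k : Type*) [Field k] {n : ℕ} (F : Type*) [Field F]
    [Algebra (MvPolynomial (Fin n) k) F] [IsFractionRing (MvPolynomial (Fin n) k) F]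
    (α : Fin n → ℕ) : Valuation F ℤᵐ⁰ :=
  ((Polynomial.idealX F).valuation (RatFunc F)).comap (wsubst k F α)

variable (α : Fin n → ℕ)

theorem wval_apply (f : F) :
    wval k F α f = (Polynomial.idealX F).valuation (RatFunc F) (wsubst k F α f) := rfl

theorem wval_poly (p : MvPolynomial (Fin n) k) :
    wval k F α (algebraMap (MvPolynomial (Fin n) k) F p) =
      (Polynomial.idealX F).valuation (RatFunc F)
        (algebraMap (Polynomial F) (RatFunc F) (wsubstPoly k F α p)) := by
  rw [wval_apply, wsubst_algebraMap]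

theorem val_const {f : F} (hf : f ≠ 0) :
    (Polynomial.idealX F).valuation (RatFunc F)
      (algebraMap (Polynomial F) (RatFunc F) (Polynomial.C f)) = 1 := by
  rw [IsDedekindDomain.HeightOneSpectrum.valuation_eq_one_iff_notMem]
  rw [Polynomial.idealX_span, Ideal.mem_span_singleton, Polynomial.X_dvd_iff, Polynomial.coeff_C_zero]
  exact hf

theorem val_X : (Polynomial.idealX F).valuation (RatFunc F)
      (algebraMap (Polynomial F) (RatFunc F) Polynomial.X) = WithZero.exp (-1 : ℤ) := by
  rw [RatFunc.algebraMap_X]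
  exact Polynomial.valuation_X_eq_neg_one F

theorem val_le_iff (q : Polynomial F) (m : ℕ) :
    (Polynomial.idealX F).valuation (RatFunc F) (algebraMap (Polynomial F) (RatFunc F) q) ≤
      WithZero.exp (-(m : ℤ)) ↔ ∀ j < m, q.coeff j = 0 := by
  rw [← Polynomial.X_pow_dvd_iff]
  have h1 := (Polynomial.idealX F).intValuation_le_pow_iff_dvd q m
  have h2 := IsDedekindDomain.HeightOneSpectrum.valuation_of_algebraMap (K := RatFunc F)
    (Polynomial.idealX F) q
  change (Polynomial.idealX F).valuation (RatFunc F) (algebraMap (Polynomial F) (RatFunc F) q) =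
    _ at h2
  rw [h2, h1, Polynomial.idealX_span, Ideal.span_singleton_pow, Ideal.dvd_span_singleton,
    Ideal.mem_span_singleton]

theorem wval_X (i : Fin n) :
    wval k F α (algebraMap (MvPolynomial (Fin n) k) F (X i)) = WithZero.exp (-(α i : ℤ)) := by
  have hX : (algebraMap (MvPolynomial (Fin n) k) F (X i)) ≠ 0 := by
    rw [Ne, FaithfulSMul.algebraMap_eq_zero_iff]
    exact X_ne_zero i
  rw [wval_poly, wsubstPoly_X, map_mul, map_mul, val_const hX, one_mul, map_pow, map_pow, val_X,
    ← WithZero.exp_nsmul]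
  simp

theorem wval_poly_le (p : MvPolynomial (Fin n) k) :
    wval k F α (algebraMap (MvPolynomial (Fin n) k) F p) ≤ 1 := by
  rw [wval_poly]
  exact IsDedekindDomain.HeightOneSpectrum.valuation_le_one _ _

theorem wval_poly_lt (hα : ∀ i, 0 < α i) (p : MvPolynomial (Fin n) k) :
    wval k F α (algebraMap (MvPolynomial (Fin n) k) F p) < 1 ↔
      p ∈ Ideal.span (Set.range (X : Fin n → MvPolynomial (Fin n) k)) := by
  have h1 : wval k F α (algebraMap (MvPolynomial (Fin n) k) F p) < 1 ↔
      (wsubstPoly k F α p).coeff 0 = 0 := by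
    rw [wval_poly]
    have h2 := IsDedekindDomain.HeightOneSpectrum.valuation_lt_one_iff_mem (K := RatFunc F)
      (Polynomial.idealX F) (wsubstPoly k F α p)
    refine h2.trans ?_
    rw [Polynomial.idealX_span, Ideal.mem_span_singleton, Polynomial.X_dvd_iff]
  have h3 : (wsubstPoly k F α p).coeff 0 =
      algebraMap (MvPolynomial (Fin n) k) F (C (constantCoeff p)) := by
    rw [Polynomial.coeff_zero_eq_eval_zero]
    clear h1
    induction p using MvPolynomial.induction_on with
    | C a => simp [wsubstPoly_C]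
    | add p q hp hq => simp only [map_add, Polynomial.eval_add, hp, hq]
    | mul_X p i hp => simp [wsubstPoly_X, (hα i).ne']
  rw [h1, h3, FaithfulSMul.algebraMap_eq_zero_iff, C_eq_zero]
  constructor
  · intro h
    rw [← Set.image_univ, mem_ideal_span_X_image]
    intro m hm
    by_contra! hm2
    have : m = 0 := by
      ext i
      exact hm2 i (Set.mem_univ i)
    subst this
    rw [mem_support_iff] at hm
    exact hm h
  · intro h
    have h4 : Ideal.span (Set.range (X : Fin n → MvPolynomial (Fin n) k)) ≤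
        RingHom.ker (constantCoeff : MvPolynomial (Fin n) k →+* k) := by
      rw [Ideal.span_le]
      rintro _ ⟨i, rfl⟩
      simp [RingHom.mem_ker]
    exact h4 h

theorem coeff_wsubst_mul_X (p : MvPolynomial (Fin n) k) (i : Fin n) (m : ℕ) :
    (wsubstPoly k F α (p * X i)).coeff m =
      if α i ≤ m then (wsubstPoly k F α p).coeff (m - α i) *
        algebraMap (MvPolynomial (Fin n) k) F (X i) else 0 := by
  rw [map_mul, wsubstPoly_X, ← mul_assoc, Polynomial.coeff_mul_X_pow']
  split_ifs
  · rw [Polynomial.coeff_mul_C]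
  · rfl

section der

variable [Algebra k F] [IsScalarTower k (MvPolynomial (Fin n) k) F]

theorem algebraMap_C_eq (a : k) :
    algebraMap (MvPolynomial (Fin n) k) F (C a) = algebraMap k F a := by
  rw [IsScalarTower.algebraMap_apply k (MvPolynomial (Fin n) k) F]
  rfl

/-- the derivation `∑ c i X i ∂/∂ X i` of the polynomial ring -/
noncomputable def diagDer (c : Fin n → k) :
    Derivation k (MvPolynomial (Fin n) k) (MvPolynomial (Fin n) k) :=
  MvPolynomial.mkDerivation k (fun i => C (c i) * X i)

theorem diagDer_X (c : Fin n → k) (i : Fin n) : diagDer c (X i) = C (c i) * X i := by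
  simp [diagDer]

theorem diagDer_C (c : Fin n → k) (a : k) : diagDer c (C a) = 0 := by
  simp [diagDer]

theorem der_eq_diagDer (D : Derivation k F F) (c : Fin n → k)
    (hD : ∀ i, D (algebraMap (MvPolynomial (Fin n) k) F (X i)) =
      c i • algebraMap (MvPolynomial (Fin n) k) F (X i)) (p : MvPolynomial (Fin n) k) :
    D (algebraMap (MvPolynomial (Fin n) k) F p) =
      algebraMap (MvPolynomial (Fin n) k) F (diagDer c p) := by
  induction p using MvPolynomial.induction_on with
  | C a => rw [algebraMap_C_eq, D.map_algebraMap, diagDer_C, map_zero]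
  | add p q hp hq => rw [map_add, map_add, hp, hq, map_add, map_add]
  | mul_X p i hp =>
    rw [map_mul, Derivation.leibniz, hp, hD, Derivation.leibniz, diagDer_X,
      Algebra.smul_def (c i)]
    simp only [smul_eq_mul, map_add, map_mul, algebraMap_C_eq]

theorem coeff_wsubst_diagDer (D : Derivation k F F) (c : Fin n → k)
    (hD : ∀ i, D (algebraMap (MvPolynomial (Fin n) k) F (X i)) =
      c i • algebraMap (MvPolynomial (Fin n) k) F (X i)) (p : MvPolynomial (Fin n) k) (m : ℕ) :
    (wsubstPoly k F α (diagDer c p)).coeff m = D ((wsubstPoly k F α p).coeff m) := by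
  induction p using MvPolynomial.induction_on generalizing m with
  | C a =>
    rw [diagDer_C, wsubstPoly_C, map_zero, Polynomial.coeff_C, Polynomial.coeff_zero]
    split_ifs
    · rw [algebraMap_C_eq, D.map_algebraMap]
    · rw [map_zero]
  | add p q hp hq => simp only [map_add, Polynomial.coeff_add, hp, hq]
  | mul_X p i hp =>
    rw [coeff_wsubst_mul_X, Derivation.leibniz, diagDer_X, smul_eq_mul, smul_eq_mul,
      mul_comm (X i) (diagDer c p), map_add, Polynomial.coeff_add, coeff_wsubst_mul_X,
      mul_left_comm, map_mul (wsubstPoly k F α) (C (c i)), wsubstPoly_C, Polynomial.coeff_C_mul,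
      coeff_wsubst_mul_X]
    split_ifs with h
    · rw [hp, Derivation.leibniz, hD, algebraMap_C_eq]
      simp only [smul_eq_mul, Algebra.smul_def]
      ring
    · simp

theorem coeff_wsubst_euler (p : MvPolynomial (Fin n) k) (m : ℕ) :
    (wsubstPoly k F α (diagDer (fun i => (α i : k)) p)).coeff m =
      (m : F) * (wsubstPoly k F α p).coeff m := by
  induction p using MvPolynomial.induction_on generalizing m with
  | C a =>
    rw [diagDer_C, wsubstPoly_C, map_zero, Polynomial.coeff_C, Polynomial.coeff_zero]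
    split_ifs with h
    · simp [h]
    · simp
  | add p q hp hq => simp only [map_add, Polynomial.coeff_add, hp, hq, mul_add]
  | mul_X p i hp =>
    rw [coeff_wsubst_mul_X, Derivation.leibniz, diagDer_X, smul_eq_mul, smul_eq_mul,
      mul_comm (X i) (diagDer _ p), map_add, Polynomial.coeff_add, coeff_wsubst_mul_X,
      mul_left_comm, map_mul (wsubstPoly k F α) (C _), wsubstPoly_C, Polynomial.coeff_C_mul,
      coeff_wsubst_mul_X]
    split_ifs with h
    · rw [hp, algebraMap_C_eq]
      have : (m : F) = ((m - α i : ℕ) : F) + (α i : F) := by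
        rw [← Nat.cast_add, Nat.sub_add_cancel h]
      rw [this, map_natCast]
      ring
    · simp

theorem wval_diagDer (D : Derivation k F F) (c : Fin n → k)
    (hD : ∀ i, D (algebraMap (MvPolynomial (Fin n) k) F (X i)) =
      c i • algebraMap (MvPolynomial (Fin n) k) F (X i)) (p : MvPolynomial (Fin n) k) :
    wval k F α (D (algebraMap (MvPolynomial (Fin n) k) F p)) ≤
      wval k F α (algebraMap (MvPolynomial (Fin n) k) F p) := by
  rw [der_eq_diagDer D c hD]
  by_cases hp : p = 0
  · simp [hp]
  have h1 : wval k F α (algebraMap (MvPolynomial (Fin n) k) F p) ≠ 0 := by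
    rw [Valuation.ne_zero_iff, Ne, FaithfulSMul.algebraMap_eq_zero_iff]
    exact hp
  obtain ⟨m, hm⟩ : ∃ m : ℕ, wval k F α (algebraMap (MvPolynomial (Fin n) k) F p) =
      WithZero.exp (-(m : ℤ)) := by
    have h2 := wval_poly_le (F := F) α p
    rw [← WithZero.exp_log h1, ← WithZero.exp_zero, WithZero.exp_le_exp] at h2
    refine ⟨(-WithZero.log (wval k F α (algebraMap (MvPolynomial (Fin n) k) F p))).toNat, ?_⟩
    rw [Int.toNat_of_nonneg (by omega), neg_neg, WithZero.exp_log h1]
  rw [hm, wval_poly, val_le_iff]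
  have h3 := (val_le_iff (wsubstPoly k F α p) m).mp (by rw [← wval_poly]; exact hm.le)
  intro j hj
  rw [coeff_wsubst_diagDer α D c hD, h3 j hj, map_zero]

/-- A derivation of `F` over `k` which multiplies each variable by a constant does not decrease
the monomial order. -/
theorem wval_der
    (D : Derivation k F F) (c : Fin n → k)
    (hD : ∀ i, D (algebraMap (MvPolynomial (Fin n) k) F (X i)) =
      c i • algebraMap (MvPolynomial (Fin n) k) F (X i)) (f : F) :
    wval k F α (D f) ≤ wval k F α f := by
  obtain ⟨p, q, hq, rfl⟩ := IsFractionRing.div_surjective (A := MvPolynomial (Fin n) k) f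
  have hq0 : algebraMap (MvPolynomial (Fin n) k) F q ≠ 0 := by
    rw [Ne, FaithfulSMul.algebraMap_eq_zero_iff]
    exact nonZeroDivisors.ne_zero hq
  have hq1 : wval k F α (algebraMap (MvPolynomial (Fin n) k) F q) ≠ 0 := by
    rw [Valuation.ne_zero_iff]; exact hq0
  set P := algebraMap (MvPolynomial (Fin n) k) F p with hP
  set Q := algebraMap (MvPolynomial (Fin n) k) F q with hQ
  have h1 : D (P / Q) * Q = D P - P / Q * D Q := by
    have h2 : D (P / Q * Q) = (P / Q) * D Q + Q * D (P / Q) := by
      rw [Derivation.leibniz, smul_eq_mul, smul_eq_mul]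
    rw [div_mul_cancel₀ _ hq0] at h2
    rw [h2]; ring
  have h2 : wval k F α (D (P / Q)) * wval k F α Q ≤ wval k F α (P / Q) * wval k F α Q := by
    rw [← map_mul, h1]
    refine (Valuation.map_sub _ _ _).trans (max_le ?_ ?_)
    · rw [← map_mul, div_mul_cancel₀ _ hq0]
      exact wval_diagDer α D c hD p
    · rw [map_mul]
      exact mul_le_mul' le_rfl (wval_diagDer α D c hD q)
  exact (mul_le_mul_iff_left₀ (zero_lt_iff.mpr hq1)).mp h2

theorem wval_eulerPoly (p : MvPolynomial (Fin n) k) (m : ℕ)
    (hm : wval k F α (algebraMap (MvPolynomial (Fin n) k) F p) ≤ WithZero.exp (-(m : ℤ))) :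
    wval k F α (algebraMap (MvPolynomial (Fin n) k) F
      (diagDer (fun i => (α i : k)) p - (m : MvPolynomial (Fin n) k) * p)) ≤
        WithZero.exp (-((m + 1 : ℕ) : ℤ)) := by
  rw [wval_poly, val_le_iff]
  rw [wval_poly, val_le_iff] at hm
  intro j hj
  rw [map_sub, Polynomial.coeff_sub, coeff_wsubst_euler, map_mul, map_natCast,
    ← Polynomial.C_eq_natCast, Polynomial.coeff_C_mul]
  rcases Nat.lt_or_ge j m with h | h
  · rw [hm j h]; simp
  · have : j = m := by omega
    subst this
    simp

/-- The Euler derivation maps the valuation ring to its maximal ideal. -/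
theorem wval_euler
    (D : Derivation k F F)
    (hD : ∀ i, D (algebraMap (MvPolynomial (Fin n) k) F (X i)) =
      (α i : k) • algebraMap (MvPolynomial (Fin n) k) F (X i)) (f : F)
    (hf : wval k F α f ≤ 1) : wval k F α (D f) < 1 := by
  obtain ⟨p, q, hq, rfl⟩ := IsFractionRing.div_surjective (A := MvPolynomial (Fin n) k) f
  have hq0 : algebraMap (MvPolynomial (Fin n) k) F q ≠ 0 := by
    rw [Ne, FaithfulSMul.algebraMap_eq_zero_iff]
    exact nonZeroDivisors.ne_zero hq
  have hq1 : wval k F α (algebraMap (MvPolynomial (Fin n) k) F q) ≠ 0 := by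
    rw [Valuation.ne_zero_iff]; exact hq0
  obtain ⟨m, hm⟩ : ∃ m : ℕ, wval k F α (algebraMap (MvPolynomial (Fin n) k) F q) =
      WithZero.exp (-(m : ℤ)) := by
    have h2 := wval_poly_le (F := F) α q
    rw [← WithZero.exp_log hq1, ← WithZero.exp_zero, WithZero.exp_le_exp] at h2
    refine ⟨(-WithZero.log (wval k F α (algebraMap (MvPolynomial (Fin n) k) F q))).toNat, ?_⟩
    rw [Int.toNat_of_nonneg (by omega), neg_neg, WithZero.exp_log hq1]
  have hpm : wval k F α (algebraMap (MvPolynomial (Fin n) k) F p) ≤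
      WithZero.exp (-(m : ℤ)) := by
    rw [map_div₀, div_le_one₀ (zero_lt_iff.mpr hq1), hm] at hf
    exact hf
  have hep := wval_eulerPoly α p m hpm
  have heq := wval_eulerPoly α q m hm.le
  rw [map_sub, ← der_eq_diagDer D _ hD, map_mul, map_natCast] at hep heq
  set P := algebraMap (MvPolynomial (Fin n) k) F p with hP
  set Q := algebraMap (MvPolynomial (Fin n) k) F q with hQ
  have h1 : D (P / Q) * Q = (D P - m * P) - P / Q * (D Q - m * Q) := by
    have h2 : D (P / Q * Q) = (P / Q) * D Q + Q * D (P / Q) := by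
      rw [Derivation.leibniz, smul_eq_mul, smul_eq_mul]
    rw [div_mul_cancel₀ _ hq0] at h2
    rw [h2]
    have h3 : P / Q * (m * Q) = m * P := by field_simp
    rw [mul_sub, h3]; ring
  have h2 : wval k F α (D (P / Q)) * wval k F α Q ≤ WithZero.exp (-((m + 1 : ℕ) : ℤ)) := by
    rw [← map_mul, h1]
    refine (Valuation.map_sub _ _ _).trans (max_le hep ?_)
    rw [map_mul]
    calc wval k F α (P / Q) * wval k F α (D Q - m * Q)
        ≤ 1 * WithZero.exp (-((m + 1 : ℕ) : ℤ)) := mul_le_mul' hf heq
      _ = _ := one_mul _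
  by_contra hcon
  rw [not_lt] at hcon
  have h4 : wval k F α Q ≤ WithZero.exp (-((m + 1 : ℕ) : ℤ)) := by
    calc wval k F α Q = 1 * wval k F α Q := (one_mul _).symm
      _ ≤ wval k F α (D (P / Q)) * wval k F α Q := mul_le_mul' hcon le_rfl
      _ ≤ _ := h2
  rw [hm, WithZero.exp_le_exp] at h4
  push_cast at h4
  omega

end der

theorem wsubst_units {m : ℕ} (α : Fin (m + 1) → ℕ) {F : Type*} [Field F]
    [Algebra (MvPolynomial (Fin (m + 1)) k) F] [IsFractionRing (MvPolynomial (Fin (m + 1)) k) F]
    (j : Fin m) :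
    wsubst k F α (algebraMap (MvPolynomial (Fin (m + 1)) k) F (X j.succ) ^ α 0 /
      algebraMap (MvPolynomial (Fin (m + 1)) k) F (X 0) ^ α j.succ) =
    algebraMap (Polynomial F) (RatFunc F)
      (Polynomial.C (algebraMap (MvPolynomial (Fin (m + 1)) k) F (X j.succ) ^ α 0 /
      algebraMap (MvPolynomial (Fin (m + 1)) k) F (X 0) ^ α j.succ)) := by
  have h0 : algebraMap (MvPolynomial (Fin (m + 1)) k) F (X 0) ≠ 0 := by
    rw [Ne, FaithfulSMul.algebraMap_eq_zero_iff]
    exact X_ne_zero 0
  have h1 : algebraMap (Polynomial F) (RatFunc F)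
      (Polynomial.C (algebraMap (MvPolynomial (Fin (m + 1)) k) F (X 0))) ≠ 0 := by
    rw [Ne, FaithfulSMul.algebraMap_eq_zero_iff, Polynomial.C_eq_zero]
    exact h0
  have h2 : algebraMap (Polynomial F) (RatFunc F) Polynomial.X ≠ 0 := by
    rw [Ne, FaithfulSMul.algebraMap_eq_zero_iff]
    exact Polynomial.X_ne_zero
  rw [map_div₀, map_pow, map_pow, wsubst_algebraMap, wsubst_algebraMap, wsubstPoly_X, wsubstPoly_X,
    div_eq_iff, map_mul, map_mul, map_pow, map_pow, mul_pow, mul_pow]
  · set A := algebraMap (MvPolynomial (Fin (m + 1)) k) F (X j.succ)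
    set Z := algebraMap (MvPolynomial (Fin (m + 1)) k) F (X 0)
    have h3 : Polynomial.C (A ^ α 0 / Z ^ α j.succ) * Polynomial.C Z ^ α j.succ =
        Polynomial.C A ^ α 0 := by
      rw [← Polynomial.C_pow, ← Polynomial.C_pow, ← Polynomial.C_mul,
        div_mul_cancel₀ _ (pow_ne_zero _ h0)]
    have h4 : algebraMap (Polynomial F) (RatFunc F) (Polynomial.C (A ^ α 0 / Z ^ α j.succ)) *
        algebraMap (Polynomial F) (RatFunc F) (Polynomial.C Z) ^ α j.succ =
        algebraMap (Polynomial F) (RatFunc F) (Polynomial.C A) ^ α 0 := by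
      rw [← map_pow (algebraMap (Polynomial F) (RatFunc F)), ← map_mul, h3, map_pow]
    rw [← mul_assoc, h4, ← pow_mul, ← pow_mul, mul_comm (α 0)]
  · rw [map_mul, map_pow]
    exact pow_ne_zero _ (mul_ne_zero h1 (pow_ne_zero _ h2))

/-- clearing denominators in `G (u)` -/
theorem clear_denoms {m : ℕ} (α : Fin (m + 1) → ℕ) {F : Type*} [Field F]
    [Algebra (MvPolynomial (Fin (m + 1)) k) F] [IsFractionRing (MvPolynomial (Fin (m + 1)) k) F]
    [Algebra k F] [IsScalarTower k (MvPolynomial (Fin (m + 1)) k) F]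
    (G : MvPolynomial (Fin m) k) :
    ∃ (N : ℕ) (H : MvPolynomial (Fin (m + 1)) k),
      algebraMap (MvPolynomial (Fin (m + 1)) k) F (X 0) ^ N *
        aeval (fun j : Fin m => algebraMap (MvPolynomial (Fin (m + 1)) k) F (X j.succ) ^ α 0 /
          algebraMap (MvPolynomial (Fin (m + 1)) k) F (X 0) ^ α j.succ) G =
        algebraMap (MvPolynomial (Fin (m + 1)) k) F H ∧
      aeval (Fin.cons 1 X : Fin (m + 1) → MvPolynomial (Fin m) k) H = expand (α 0) G := by
  have h0 : algebraMap (MvPolynomial (Fin (m + 1)) k) F (X 0) ≠ 0 := by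
    rw [Ne, FaithfulSMul.algebraMap_eq_zero_iff]
    exact X_ne_zero 0
  induction G using MvPolynomial.induction_on with
  | C a =>
    refine ⟨0, C a, ?_, ?_⟩
    · rw [pow_zero, one_mul, aeval_C, algebraMap_C_eq]
    · simp
  | add p q hp hq =>
    obtain ⟨N, H, h1, h2⟩ := hp
    obtain ⟨N', H', h1', h2'⟩ := hq
    refine ⟨N + N', X 0 ^ N' * H + X 0 ^ N * H', ?_, ?_⟩
    · rw [map_add (aeval _), map_add (algebraMap _ F), map_mul, map_mul, map_pow, map_pow, ← h1,
        ← h1']
      ring
    · rw [map_add, map_mul, map_mul, map_pow, map_pow, aeval_X, Fin.cons_zero, h2, h2', map_add]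
      simp
  | mul_X p j hp =>
    obtain ⟨N, H, h1, h2⟩ := hp
    refine ⟨N + α j.succ, H * X j.succ ^ α 0, ?_, ?_⟩
    · rw [map_mul (aeval _), aeval_X, map_mul (algebraMap _ F), map_pow, ← h1]
      field_simp
      ring
    · rw [map_mul, map_pow, aeval_X, Fin.cons_succ, h2, map_mul, expand_X]

/-- `n - 1` elements of the valuation ring with algebraically independent residues. -/
theorem wval_trdeg [Algebra k F] [IsScalarTower k (MvPolynomial (Fin n) k) F]
    (hα : ∀ i, 0 < α i) (hn : 0 < n) :
    ∃ u : Fin (n - 1) → F, (∀ i, wval k F α (u i) = 1) ∧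
      ∀ G : MvPolynomial (Fin (n - 1)) k, G ≠ 0 → wval k F α (MvPolynomial.aeval u G) = 1 := by
  obtain ⟨m, rfl⟩ : ∃ m, n = m + 1 := ⟨n - 1, by omega⟩
  rw [Nat.add_sub_cancel]
  set u : Fin m → F := fun j => algebraMap (MvPolynomial (Fin (m + 1)) k) F (X j.succ) ^ α 0 /
      algebraMap (MvPolynomial (Fin (m + 1)) k) F (X 0) ^ α j.succ with hu
  have h0 : ∀ i, algebraMap (MvPolynomial (Fin (m + 1)) k) F (X i) ≠ 0 := by
    intro i
    rw [Ne, FaithfulSMul.algebraMap_eq_zero_iff]
    exact X_ne_zero i
  have h1 : ∀ j, wval k F α (u j) = 1 := by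
    intro j
    rw [wval_apply, hu, wsubst_units]
    exact val_const (div_ne_zero (pow_ne_zero _ (h0 _)) (pow_ne_zero _ (h0 _)))
  refine ⟨u, h1, ?_⟩
  intro G hG
  have h2 : wsubst k F α (aeval u G) =
      algebraMap (Polynomial F) (RatFunc F) (Polynomial.C (aeval u G)) := by
    have h3 : (wsubst k F α).comp (aeval u : MvPolynomial (Fin m) k →ₐ[k] F).toRingHom =
        ((algebraMap (Polynomial F) (RatFunc F)).comp Polynomial.C).comp
          (aeval u : MvPolynomial (Fin m) k →ₐ[k] F).toRingHom := by
      apply MvPolynomial.ringHom_ext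
      · intro a
        simp only [RingHom.comp_apply, AlgHom.toRingHom_eq_coe, RingHom.coe_coe, aeval_C]
        rw [← algebraMap_C_eq (n := m + 1), wsubst_algebraMap, wsubstPoly_C]
      · intro j
        simp only [RingHom.comp_apply, AlgHom.toRingHom_eq_coe, RingHom.coe_coe, aeval_X]
        exact wsubst_units α j
    exact RingHom.congr_fun h3 G
  rw [wval_apply, h2]
  apply val_const
  intro h3
  obtain ⟨N, H, h4, h5⟩ := clear_denoms (F := F) α G
  rw [h3, mul_zero] at h4
  have h6 : H = 0 := by
    apply IsFractionRing.injective (MvPolynomial (Fin (m + 1)) k) F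
    rw [← h4, map_zero]
  rw [h6, map_zero] at h5
  exact hG ((expand_injective (hα 0)) (by rw [← h5, map_zero]))

theorem wval_dvr (hn : 0 < n) (hα : ∀ i, 0 < α i) :
    IsDiscreteValuationRing (wval k F α).valuationSubring := by
  have h0 : (wval k F α).IsNontrivial := by
    refine ⟨⟨algebraMap (MvPolynomial (Fin n) k) F (X ⟨0, hn⟩), ?_, ?_⟩⟩
    · rw [wval_X]; exact WithZero.exp_ne_zero
    · rw [wval_X, Ne, WithZero.exp_eq_one]
      have := hα ⟨0, hn⟩
      omega
  have h3 : IsCyclic ℤᵐ⁰ˣ :=
    isCyclic_of_surjective (WithZero.unitsWithZeroEquiv (α := Multiplicative ℤ)).symm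
      (WithZero.unitsWithZeroEquiv (α := Multiplicative ℤ)).symm.surjective
  have h2 : IsCyclic (MonoidWithZeroHom.valueGroup (.ofClass (wval k F α))) :=
    Subgroup.isCyclic _
  infer_instance

theorem wval_charZero [CharZero k] :
    CharZero (IsLocalRing.ResidueField (wval k F α).valuationSubring) := by
  have h1 : ∀ a : k, algebraMap (MvPolynomial (Fin n) k) F (C a) ∈
      (wval k F α).valuationSubring := fun a => wval_poly_le α (C a)
  let φ : k →+* (wval k F α).valuationSubring :=
    ((algebraMap (MvPolynomial (Fin n) k) F).comp C).codRestrict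
      (wval k F α).valuationSubring.toSubring h1
  exact charZero_of_injective_ringHom
    ((IsLocalRing.residue (wval k F α).valuationSubring).comp φ).injective

end Pool.Agent.ODP
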