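import Pool.Agent.ODP.Defs
import Pool.Agent.ODP.Place
import Pool.Agent.ODP.WVal

/-!
# Places above a monomial valuation and their centres
-/

open scoped WithZero
open IsDedekindDomain MvPolynomial

namespace Pool.Agent.ODP

set_option linter.unusedSectionVars false

/-- multiplicative Archimedean property of `ℤᵐ⁰` -/
theorem exists_pow_mul_lt_one (a c : ℤᵐ⁰) (ha : a < 1) : ∃ N : ℕ, a ^ N * c < 1 := by
  by_cases hc : c = 0
  · exact ⟨0, by rw [hc, mul_zero]; exact zero_lt_one⟩
  by_cases h0 : a = 0
  · exact ⟨1, by rw [h0, pow_one, zero_mul]; exact zero_lt_one⟩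
  obtain ⟨N, hN⟩ : ∃ N : ℕ, WithZero.log c < N :=
    ⟨(WithZero.log c).toNat + 1, by have := Int.self_le_toNat (WithZero.log c); push_cast; omega⟩
  refine ⟨N, ?_⟩
  have h1 : WithZero.log a < 0 := by
    rw [WithZero.log_lt_iff_lt_exp h0, WithZero.exp_zero]; exact ha
  rw [← WithZero.exp_log h0, ← WithZero.exp_log hc, ← WithZero.exp_nsmul, ← WithZero.exp_add,
    ← WithZero.exp_zero, WithZero.exp_lt_exp, nsmul_eq_mul]
  have h3 : (N : ℤ) * WithZero.log a ≤ (N : ℤ) * (-1) :=
    mul_le_mul_of_nonneg_left (by omega) (by positivity)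
  omega

/-- the centre of a valuation, as an ideal -/
def centreIdeal {B K : Type*} [CommRing B] [Field K] [Algebra B K] (v : Valuation K ℤᵐ⁰)
    (hv : ∀ b : B, v (algebraMap B K b) ≤ 1) : Ideal B where
  carrier := {b | v (algebraMap B K b) < 1}
  add_mem' := by
    intro a b ha hb
    change v (algebraMap B K (a + b)) < 1
    rw [map_add]
    exact (v.map_add _ _).trans_lt (max_lt ha hb)
  zero_mem' := by
    change v (algebraMap B K 0) < 1
    rw [map_zero, map_zero]; exact zero_lt_one
  smul_mem' := by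
    intro c b hb
    change v (algebraMap B K (c • b)) < 1
    rw [smul_eq_mul, map_mul, map_mul]
    exact (mul_le_mul' (hv c) le_rfl).trans_lt (by rw [one_mul]; exact hb)

theorem mem_centreIdeal {B K : Type*} [CommRing B] [Field K] [Algebra B K]
    (v : Valuation K ℤᵐ⁰) (hv : ∀ b : B, v (algebraMap B K b) ≤ 1) (b : B) :
    b ∈ centreIdeal v hv ↔ v (algebraMap B K b) < 1 := Iff.rfl

theorem centreIdeal_isPrime {B K : Type*} [CommRing B] [Field K] [Algebra B K]
    (v : Valuation K ℤᵐ⁰) (hv : ∀ b : B, v (algebraMap B K b) ≤ 1) :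
    (centreIdeal v hv).IsPrime where
  ne_top' := by
    rw [Ideal.ne_top_iff_one, mem_centreIdeal, map_one, map_one]
    exact lt_irrefl 1
  mem_or_mem' := by
    intro a b hab
    rw [mem_centreIdeal] at *
    rw [mem_centreIdeal]
    by_contra! h
    rw [map_mul, map_mul] at hab
    have h1 := le_antisymm (hv a) h.1
    have h2 := le_antisymm (hv b) h.2
    rw [h1, h2, one_mul] at hab
    exact lt_irrefl _ hab

variable {k : Type*} [Field k] {n : ℕ} {F K : Type*} [Field F]
  [Algebra (MvPolynomial (Fin n) k) F] [IsFractionRing (MvPolynomial (Fin n) k) F]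
  [Field K] [Algebra F K] [Algebra (MvPolynomial (Fin n) k) K]
  [IsScalarTower (MvPolynomial (Fin n) k) F K]
  {α : Fin n → ℕ}
  {C : Type*} [CommRing C] [IsDedekindDomain C] [Algebra (wval k F α).valuationSubring C]
  [Algebra C K] [IsScalarTower (wval k F α).valuationSubring C K] [IsFractionRing C K]

/-- `v_Q ≤ 1` on the valuation ring of `w` -/
theorem placeW_le_one [IsDiscreteValuationRing (wval k F α).valuationSubring]
    (Q : HeightOneSpectrum C) {f : F} (hf : wval k F α f ≤ 1) :
    Q.valuation K (algebraMap F K f) ≤ 1 :=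
  place_le_one (O := (wval k F α).valuationSubring) Q ⟨f, hf⟩

theorem placeW_eq_one [IsDiscreteValuationRing (wval k F α).valuationSubring]
    (Q : HeightOneSpectrum C) {f : F} (hf : wval k F α f = 1) :
    Q.valuation K (algebraMap F K f) = 1 := by
  have h1 := placeW_le_one (K := K) Q hf.le
  have h2 : Q.valuation K (algebraMap F K f⁻¹) ≤ 1 :=
    placeW_le_one Q (by rw [map_inv₀, hf, inv_one])
  rw [map_inv₀, map_inv₀] at h2
  have h3 : Q.valuation K (algebraMap F K f) ≠ 0 := by
    rw [Valuation.ne_zero_iff, map_ne_zero]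
    rintro rfl
    simp at hf
  exact le_antisymm h1 ((inv_le_one₀ (zero_lt_iff.mpr h3)).mp h2)

theorem placeW_lt_one [IsDiscreteValuationRing (wval k F α).valuationSubring]
    [Module.Finite (wval k F α).valuationSubring C]
    [FaithfulSMul (wval k F α).valuationSubring C]
    (Q : HeightOneSpectrum C) {f : F} (hf : wval k F α f < 1) :
    Q.valuation K (algebraMap F K f) < 1 := by
  refine place_lt_one (O := (wval k F α).valuationSubring) (a := ⟨f, hf.le⟩) Q ?_
  exact (Valuation.mem_maximalIdeal_iff (v := wval k F α)).mpr hf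

end Pool.Agent.ODP
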