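import Pool.Agent.ODP.Place

/-!
# Traces over a discrete valuation ring with residue characteristic zero
-/

open scoped WithZero nonZeroDivisors
open IsDedekindDomain

namespace Pool.Agent.ODP

set_option linter.unusedSectionVars false

variable {O F K C : Type*} [CommRing O] [IsDomain O] [IsDiscreteValuationRing O]
  [Field F] [Algebra O F] [IsFractionRing O F] [Field K] [Algebra F K] [Algebra O K]
  [IsScalarTower O F K] [FiniteDimensional F K] [CharZero F]
  [CommRing C] [IsDedekindDomain C] [Algebra O C] [Algebra C K] [IsScalarTower O C K]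
  [IsIntegralClosure C O K] [IsFractionRing C K] [Module.Finite O C]

theorem torsionFree_C (O F K C : Type*) [CommRing O] [IsDomain O] [Field F] [Algebra O F]
    [IsFractionRing O F] [Field K] [Algebra F K] [Algebra O K] [IsScalarTower O F K]
    [CommRing C] [IsDomain C] [Algebra O C] [Algebra C K] [IsScalarTower O C K] :
    Module.IsTorsionFree O C := by
  have h1 : Function.Injective (algebraMap O K) := by
    rw [IsScalarTower.algebraMap_eq O F K]
    exact (algebraMap F K).injective.comp (IsFractionRing.injective O F)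
  have h2 : Function.Injective (algebraMap O C) := by
    rw [IsScalarTower.algebraMap_eq O C K] at h1
    exact Function.Injective.of_comp h1
  have : FaithfulSMul O C := (faithfulSMul_iff_algebraMap_injective O C).mpr h2
  infer_instance

variable (O F K C) in
theorem trace_compat (c : C) :
    algebraMap O F (Algebra.trace O C c) = Algebra.trace F K (algebraMap C K c) := by
  have h0 := torsionFree_C O F K C
  have h1 : IsLocalization (Algebra.algebraMapSubmonoid C O⁰) K :=
    IsIntegralClosure.isLocalization O F K C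
  exact (Algebra.trace_localization O O⁰ c).symm

theorem isNilpotent_mk_of_mem (h0 : Module.IsTorsionFree O C) (c : C)
    (hc : ∀ Q : HeightOneSpectrum C, c ∈ Q.asIdeal) :
    IsNilpotent (Ideal.Quotient.mk
      ((IsLocalRing.maximalIdeal O).map (algebraMap O C)) c) := by
  have h1 : c ∈ ((IsLocalRing.maximalIdeal O).map (algebraMap O C)).radical := by
    rw [Ideal.radical_eq_sInf, Ideal.mem_sInf]
    rintro J ⟨hJ1, hJ2⟩
    obtain ⟨t, ht⟩ := IsDiscreteValuationRing.exists_irreducible O
    have ht1 : algebraMap O C t ∈ J := hJ1 (Ideal.mem_map_of_mem _ (by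
      rw [ht.maximalIdeal_eq]; exact Ideal.mem_span_singleton_self t))
    have ht2 : algebraMap O C t ≠ 0 := by
      rw [Ne, FaithfulSMul.algebraMap_eq_zero_iff]
      exact ht.ne_zero
    have hJ3 : J ≠ ⊥ := by
      rintro rfl
      exact ht2 (by simpa using ht1)
    exact hc ⟨J, hJ2, hJ3⟩
  obtain ⟨N, hN⟩ := h1
  exact ⟨N, by rw [← map_pow, Ideal.Quotient.eq_zero_iff_mem]; exact hN⟩

/-- the trace of an element with positive order at all places lies in the maximal ideal -/
theorem trace_mem_maximal (z : K) (hz : ∀ Q : HeightOneSpectrum C, Q.valuation K z < 1) :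
    ∃ r ∈ IsLocalRing.maximalIdeal O, algebraMap O F r = Algebra.trace F K z := by
  have h0 := torsionFree_C O F K C
  obtain ⟨c, rfl⟩ := HeightOneSpectrum.mem_integers_of_valuation_le_one (R := C) K z
    (fun Q => (hz Q).le)
  refine ⟨Algebra.trace O C c, ?_, trace_compat O F K C c⟩
  have hc : ∀ Q : HeightOneSpectrum C, c ∈ Q.asIdeal := fun Q => by
    rw [← HeightOneSpectrum.valuation_lt_one_iff_mem (K := K)]
    exact hz Q
  rw [← Ideal.Quotient.eq_zero_iff_mem, ← Algebra.trace_quotient_mk]
  let := Ideal.Quotient.field (IsLocalRing.maximalIdeal O)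
  rw [← isNilpotent_iff_eq_zero]
  apply Algebra.isNilpotent_trace_of_isNilpotent
  exact isNilpotent_mk_of_mem h0 c hc

/-- (tame codifferent, easy half) -/
theorem trace_integral (t : O) (ht : Irreducible t) (z : K)
    (hz : ∀ Q : HeightOneSpectrum C, Q.valuation K (algebraMap O K t * z) < 1) :
    ∃ r : O, algebraMap O F r = Algebra.trace F K z := by
  obtain ⟨r, hr, h⟩ := trace_mem_maximal (F := F) (O := O) _ hz
  rw [ht.maximalIdeal_eq, Ideal.mem_span_singleton] at hr
  obtain ⟨s, rfl⟩ := hr
  refine ⟨s, ?_⟩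
  have h1 : algebraMap O K t * z = (algebraMap O F t) • z := by
    rw [Algebra.smul_def, IsScalarTower.algebraMap_apply O F K]
  rw [h1, map_smul, map_mul, smul_eq_mul] at h
  have h2 : algebraMap O F t ≠ 0 := by
    rw [Ne, FaithfulSMul.algebraMap_eq_zero_iff]
    exact ht.ne_zero
  exact mul_left_cancel₀ h2 h

/-- In characteristic zero, the radical of the trace form of a finite-dimensional commutative
algebra is nilpotent. -/
theorem isNilpotent_of_trace {κ A : Type*} [Field κ] [CharZero κ] [CommRing A] [Algebra κ A]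
    [Module.Finite κ A] (a : A) (h : ∀ x, Algebra.trace κ A (a * x) = 0) : IsNilpotent a := by
  have hart : IsArtinianRing A := IsArtinianRing.of_finite κ A
  obtain ⟨n, y, hy⟩ := IsArtinian.exists_pow_succ_smul_dvd a (1 : A)
  simp only [smul_eq_mul, mul_one] at hy
  -- `a ^ (n+1) * y = a ^ n`
  have h1 : ∀ j : ℕ, a ^ (n + 1 + j) * y ^ j = a ^ (n + 1) := by
    intro j
    induction j with
    | zero => simp
    | succ j ih =>
      calc a ^ (n + 1 + (j + 1)) * y ^ (j + 1) = a ^ (j + 1) * (a ^ (n + 1) * y) * y ^ j := by ring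
        _ = a ^ (j + 1) * a ^ n * y ^ j := by rw [hy]
        _ = a ^ (n + 1 + j) * y ^ j := by ring
        _ = _ := ih
  have h2 := h1 (n + 1)
  have hid : IsIdempotentElem (a ^ (n + 1) * y ^ (n + 1)) := by
    change a ^ (n + 1) * y ^ (n + 1) * (a ^ (n + 1) * y ^ (n + 1)) = _
    calc a ^ (n + 1) * y ^ (n + 1) * (a ^ (n + 1) * y ^ (n + 1))
        = (a ^ (n + 1 + (n + 1)) * y ^ (n + 1)) * y ^ (n + 1) := by ring
      _ = _ := by rw [h2]
  have htr : Algebra.trace κ A (a ^ (n + 1) * y ^ (n + 1)) = 0 := by
    have := h (a ^ n * y ^ (n + 1))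
    rw [← this]
    congr 1
    ring
  have hz : a ^ (n + 1) * y ^ (n + 1) = 0 := by
    have h3 : IsIdempotentElem (Algebra.lmul κ A (a ^ (n + 1) * y ^ (n + 1))) := hid.map _
    have h4 := LinearMap.IsIdempotentElem.eq_zero_of_trace_eq_zero h3 (by
      simpa [Algebra.trace_apply] using htr)
    have h5 := LinearMap.congr_fun h4 1
    simpa using h5
  refine ⟨n + 1, ?_⟩
  calc a ^ (n + 1) = a ^ (n + 1 + (n + 1)) * y ^ (n + 1) := h2.symm
    _ = a ^ (n + 1) * (a ^ (n + 1) * y ^ (n + 1)) := by ring
    _ = 0 := by rw [hz, mul_zero]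

/-- (tame codifferent, other half) -/
theorem codiff_le [CharZero (IsLocalRing.ResidueField O)] (t : O) (ht : Irreducible t) (z : K)
    (hz : ∀ c : C, ∃ r : O, algebraMap O F r = Algebra.trace F K (z * algebraMap C K c))
    (Q : HeightOneSpectrum C) : Q.valuation K (algebraMap O K t * z) < 1 := by
  have h0 := torsionFree_C O F K C
  by_contra hQ
  rw [not_lt] at hQ
  obtain ⟨a, b, hab, hb⟩ : ∃ a b : C, algebraMap O K t * z * algebraMap C K a = algebraMap C K b ∧
      b ∉ Q.asIdeal := by
    obtain ⟨n, d, h | h⟩ := Q.exists_primeCompl_mul_eq_or_mul_eq (K := K) (algebraMap O K t * z)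
    · refine ⟨d, n, h, fun hn => ?_⟩
      have hn1 : Q.valuation K (algebraMap C K n) < 1 :=
        (HeightOneSpectrum.valuation_lt_one_iff_mem (K := K) Q n).mpr hn
      have hd1 : Q.valuation K (algebraMap C K d) = 1 :=
        (HeightOneSpectrum.valuation_eq_one_iff_notMem (K := K) (v := Q)).mpr d.2
      rw [← h, map_mul, hd1, mul_one] at hn1
      exact absurd hn1 (not_lt.mpr hQ)
    · exact ⟨n, d, h, d.2⟩
  apply hb
  have htr : ∀ c : C, Algebra.trace O C (b * c) ∈ IsLocalRing.maximalIdeal O := by
    intro c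
    obtain ⟨r, hr⟩ := hz (a * c)
    have h1 : Algebra.trace O C (b * c) = t * r := by
      apply IsFractionRing.injective O F
      rw [trace_compat O F K C, map_mul (algebraMap C K), map_mul (algebraMap O F), hr, ← hab]
      have h2 : algebraMap O K t * z * algebraMap C K a * algebraMap C K c =
          (algebraMap O F t) • (z * algebraMap C K (a * c)) := by
        rw [Algebra.smul_def, ← IsScalarTower.algebraMap_apply O F K, map_mul]
        ring
      rw [h2, map_smul, smul_eq_mul]
    rw [h1, ht.maximalIdeal_eq]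
    exact Ideal.mem_span_singleton.mpr (dvd_mul_right _ _)
  let := Ideal.Quotient.field (IsLocalRing.maximalIdeal O)
  have hchar : CharZero (O ⧸ IsLocalRing.maximalIdeal O) :=
    inferInstanceAs (CharZero (IsLocalRing.ResidueField O))
  have hnil : IsNilpotent (Ideal.Quotient.mk
      ((IsLocalRing.maximalIdeal O).map (algebraMap O C)) b) := by
    apply isNilpotent_of_trace (κ := O ⧸ IsLocalRing.maximalIdeal O)
    intro x
    obtain ⟨c, rfl⟩ := Ideal.Quotient.mk_surjective x
    rw [← map_mul, Algebra.trace_quotient_mk, Ideal.Quotient.eq_zero_iff_mem]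
    exact htr c
  obtain ⟨N, hN⟩ := hnil
  rw [← map_pow, Ideal.Quotient.eq_zero_iff_mem] at hN
  have h3 : (IsLocalRing.maximalIdeal O).map (algebraMap O C) ≤ Q.asIdeal := by
    rw [Ideal.map_le_iff_le_comap, comap_place O C Q]
  exact Q.isPrime.mem_of_pow_mem N (h3 hN)

end Pool.Agent.ODP
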