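import Mathlib

/-!
# Extension of logarithmic derivations to the integral closure of a discrete valuation ring
-/

open scoped WithZero
open IsDedekindDomain

namespace Pool.Agent.ODP

section aux

variable {O K C R : Type*} [CommRing O] [IsDomain O] [IsDiscreteValuationRing O]
  [Field K] [Algebra O K]
  [CommRing C] [IsDedekindDomain C] [Algebra O C] [Algebra C K] [IsScalarTower O C K]
  [IsFractionRing C K] [Module.Finite O C]
  [CommRing R] [Algebra R K]

/-- a polynomial over `O` with a simple zero at the residue class of `c` -/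
theorem exists_res_poly [CharZero (IsLocalRing.ResidueField O)] (Q : HeightOneSpectrum C) (c : C) :
    ∃ P : Polynomial O, Polynomial.aeval c P ∈ Q.asIdeal ∧
      Polynomial.aeval c (Polynomial.derivative P) ∉ Q.asIdeal := by
  classical
  have hmax : Q.asIdeal.IsMaximal := Q.isMaximal
  have hcm : (Q.asIdeal.comap (algebraMap O C)).IsMaximal :=
    Ideal.isMaximal_comap_of_isIntegral_of_isMaximal Q.asIdeal
  have hcomap : Q.asIdeal.comap (algebraMap O C) = IsLocalRing.maximalIdeal O :=
    IsLocalRing.eq_maximalIdeal hcm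
  letI : Field (C ⧸ Q.asIdeal) := Ideal.Quotient.field Q.asIdeal
  let φ : IsLocalRing.ResidueField O →+* (C ⧸ Q.asIdeal) :=
    Ideal.Quotient.lift (IsLocalRing.maximalIdeal O)
      ((Ideal.Quotient.mk Q.asIdeal).comp (algebraMap O C)) (by
        intro a ha
        rw [← hcomap] at ha
        exact Ideal.Quotient.eq_zero_iff_mem.2 ha)
  have hφ : ∀ a : O, φ (IsLocalRing.residue O a) = Ideal.Quotient.mk Q.asIdeal (algebraMap O C a) :=
    fun a => rfl
  letI : Algebra (IsLocalRing.ResidueField O) (C ⧸ Q.asIdeal) := φ.toAlgebra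
  have hev : ∀ P : Polynomial O,
      Polynomial.aeval (Ideal.Quotient.mk Q.asIdeal c) (P.map (IsLocalRing.residue O)) =
        Ideal.Quotient.mk Q.asIdeal (Polynomial.aeval c P) := by
    intro P
    rw [Polynomial.aeval_def, Polynomial.eval₂_map, Polynomial.aeval_def, Polynomial.hom_eval₂]
    rfl
  have hint : IsIntegral (IsLocalRing.ResidueField O) (Ideal.Quotient.mk Q.asIdeal c) := by
    obtain ⟨p, hp, hpc⟩ := Algebra.IsIntegral.isIntegral (R := O) c
    refine ⟨p.map (IsLocalRing.residue O), hp.map _, ?_⟩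
    have := hev p
    rw [Polynomial.aeval_def, Polynomial.aeval_def, hpc, map_zero] at this
    exact this
  have hsep : (minpoly (IsLocalRing.ResidueField O) (Ideal.Quotient.mk Q.asIdeal c)).Separable :=
    (minpoly.irreducible hint).separable
  obtain ⟨P, hP⟩ := Polynomial.map_surjective (IsLocalRing.residue O)
    IsLocalRing.residue_surjective
    (minpoly (IsLocalRing.ResidueField O) (Ideal.Quotient.mk Q.asIdeal c))
  refine ⟨P, ?_, ?_⟩
  · rw [← Ideal.Quotient.eq_zero_iff_mem, ← hev, hP]
    exact minpoly.aeval _ _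
  · rw [← Ideal.Quotient.eq_zero_iff_mem, ← hev, ← Polynomial.derivative_map, hP]
    exact hsep.aeval_derivative_ne_zero (minpoly.aeval _ _)

/-- the values of `O` are at most `1` -/
theorem val_O_le (Q : HeightOneSpectrum C) (a : O) : Q.valuation K (algebraMap O K a) ≤ 1 := by
  rw [IsScalarTower.algebraMap_apply O C K]
  exact Q.valuation_le_one _

/-- the derivative of a polynomial expression, up to the derivative of the coefficients -/
theorem der_poly_diff (D : Derivation R K K) (Q : HeightOneSpectrum C) {γ : ℤᵐ⁰}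
    (hD : ∀ a : O, Q.valuation K (D (algebraMap O K a)) ≤ γ) {z : K}
    (hz : Q.valuation K z ≤ 1) (P : Polynomial O) :
    Q.valuation K (D (Polynomial.aeval z P) -
      Polynomial.aeval z (Polynomial.derivative P) * D z) ≤ γ := by
  induction P using Polynomial.induction_on' with
  | add p q hp hq =>
    have e : D (Polynomial.aeval z (p + q)) -
        Polynomial.aeval z (Polynomial.derivative (p + q)) * D z =
        (D (Polynomial.aeval z p) - Polynomial.aeval z (Polynomial.derivative p) * D z) +
        (D (Polynomial.aeval z q) - Polynomial.aeval z (Polynomial.derivative q) * D z) := by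
      simp only [map_add]
      ring
    rw [e]
    exact (Valuation.map_add _ _ _).trans (max_le hp hq)
  | monomial n a =>
    have e : D (Polynomial.aeval z (Polynomial.monomial n a)) -
        Polynomial.aeval z (Polynomial.derivative (Polynomial.monomial n a)) * D z =
        z ^ n * D (algebraMap O K a) := by
      rw [Polynomial.derivative_monomial, Polynomial.aeval_monomial, Polynomial.aeval_monomial,
        Derivation.leibniz, Derivation.leibniz_pow]
      simp only [smul_eq_mul, nsmul_eq_mul, map_mul, map_natCast]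
      ring
    rw [e, map_mul, map_pow]
    calc Q.valuation K z ^ n * Q.valuation K (D (algebraMap O K a)) ≤ 1 * γ :=
          mul_le_mul' (pow_le_one' hz n) (hD a)
      _ = γ := one_mul _

/-- an element of the valuation ring is a quotient of elements of `C` -/
theorem exists_frac (Q : HeightOneSpectrum C) {z : K} (hz : Q.valuation K z ≤ 1) :
    ∃ a b : C, Q.valuation K (algebraMap C K b) = 1 ∧ z * algebraMap C K b = algebraMap C K a := by
  obtain ⟨n, d, h⟩ := Q.exists_primeCompl_mul_eq_of_integer z hz
  refine ⟨n, d, ?_, h⟩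
  rw [Q.valuation_of_algebraMap]
  exact (Q.intValuation_eq_one_iff_mem_primeCompl d).2 d.2

/-- a bound on `C` gives a bound on the valuation ring -/
theorem der_le_of_C (D : Derivation R K K) (Q : HeightOneSpectrum C) {γ : ℤᵐ⁰}
    (h : ∀ c : C, Q.valuation K (D (algebraMap C K c)) ≤ γ) {z : K}
    (hz : Q.valuation K z ≤ 1) : Q.valuation K (D z) ≤ γ := by
  obtain ⟨a, b, hb, hab⟩ := exists_frac Q hz
  have e : D z * algebraMap C K b = D (algebraMap C K a) - z * D (algebraMap C K b) := by
    rw [← hab, Derivation.leibniz]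
    simp only [smul_eq_mul]
    ring
  have h1 : Q.valuation K (D z) = Q.valuation K (D z * algebraMap C K b) := by
    rw [map_mul, hb, mul_one]
  rw [h1, e]
  refine (Valuation.map_sub _ _ _).trans (max_le (h a) ?_)
  rw [map_mul]
  calc Q.valuation K z * Q.valuation K (D (algebraMap C K b)) ≤ 1 * γ := mul_le_mul' hz (h b)
    _ = γ := one_mul _

/-- a derivation which preserves `O` is bounded on `C` -/
theorem der_bounded (D : Derivation R K K)
    (hD : ∀ a : O, ∃ b : O, D (algebraMap O K a) = algebraMap O K b) (Q : HeightOneSpectrum C) :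
    ∃ m : ℕ, ∀ c : C, Q.valuation K (D (algebraMap C K c)) ≤ WithZero.exp (m : ℤ) := by
  classical
  obtain ⟨S, hS⟩ := (Module.Finite.fg_top : (⊤ : Submodule O C).FG)
  have hfin : ∃ m : ℕ, ∀ s ∈ S, Q.valuation K (D (algebraMap C K s)) ≤ WithZero.exp (m : ℤ) := by
    clear hS
    induction S using Finset.induction_on with
    | empty => exact ⟨0, by simp⟩
    | insert a S ha ih =>
      obtain ⟨m, hm⟩ := ih
      obtain ⟨k, hk⟩ : ∃ k : ℕ, Q.valuation K (D (algebraMap C K a)) ≤ WithZero.exp (k : ℤ) := by
        by_cases h0 : Q.valuation K (D (algebraMap C K a)) = 0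
        · exact ⟨0, by rw [h0]; exact zero_le⟩
        · refine ⟨(WithZero.log (Q.valuation K (D (algebraMap C K a)))).toNat, ?_⟩
          rw [← WithZero.log_le_log h0 (by simp), WithZero.log_exp]
          exact Int.self_le_toNat _
      refine ⟨max m k, fun s hs => ?_⟩
      rcases Finset.mem_insert.1 hs with rfl | hs
      · refine hk.trans (WithZero.exp_le_exp.2 ?_)
        exact_mod_cast le_max_right _ _
      · refine (hm s hs).trans (WithZero.exp_le_exp.2 ?_)
        exact_mod_cast le_max_left _ _
  obtain ⟨m, hm⟩ := hfin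
  refine ⟨m, fun c => ?_⟩
  have h1 : (1 : ℤᵐ⁰) ≤ WithZero.exp (m : ℤ) := by
    rw [← WithZero.exp_zero]
    exact WithZero.exp_le_exp.2 (by positivity)
  have hc : c ∈ Submodule.span O (S : Set C) := by rw [hS]; exact Submodule.mem_top
  induction hc using Submodule.span_induction with
  | mem x hx => exact hm x hx
  | zero => rw [map_zero, map_zero, map_zero]; exact zero_le
  | add x y _ _ hx hy =>
    rw [map_add, map_add]
    exact (Valuation.map_add _ _ _).trans (max_le hx hy)
  | smul a x _ hx =>
    rw [Algebra.smul_def, map_mul, ← IsScalarTower.algebraMap_apply, Derivation.leibniz]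
    refine (Valuation.map_add _ _ _).trans (max_le ?_ ?_)
    · rw [smul_eq_mul, map_mul]
      calc _ ≤ 1 * WithZero.exp (m : ℤ) := mul_le_mul' (val_O_le Q a) hx
        _ = _ := one_mul _
    · obtain ⟨b, hb⟩ := hD a
      rw [smul_eq_mul, map_mul, hb]
      calc _ ≤ (1 : ℤᵐ⁰) * 1 := mul_le_mul' (Q.valuation_le_one x) (val_O_le Q b)
        _ = 1 := one_mul _
        _ ≤ _ := h1

/-- natural numbers are units -/
theorem val_natCast [CharZero (IsLocalRing.ResidueField O)] (Q : HeightOneSpectrum C) {n : ℕ}
    (hn : n ≠ 0) (K : Type*) [Field K] [Algebra C K] [IsFractionRing C K] :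
    Q.valuation K (n : K) = 1 := by
  have h1 : (n : K) = algebraMap C K (algebraMap O C (n : O)) := by
    rw [map_natCast, map_natCast]
  have hcm : (Q.asIdeal.comap (algebraMap O C)).IsMaximal := by
    have := Q.isMaximal
    exact Ideal.isMaximal_comap_of_isIntegral_of_isMaximal Q.asIdeal
  have hcomap : Q.asIdeal.comap (algebraMap O C) = IsLocalRing.maximalIdeal O :=
    IsLocalRing.eq_maximalIdeal hcm
  rw [h1, Q.valuation_eq_one_iff_notMem]
  intro hmem
  have h2 : (n : O) ∈ IsLocalRing.maximalIdeal O := by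
    rw [← hcomap]
    exact hmem
  rw [← IsLocalRing.residue_eq_zero_iff, map_natCast] at h2
  exact hn (by exact_mod_cast h2)

/-- the uniformizer of `O` is not zero in `K` -/
theorem uniformizer_ne_zero (t : O) (ht : Irreducible t) (Q : HeightOneSpectrum C) :
    algebraMap O K t ≠ 0 := by
  intro h0
  rw [IsScalarTower.algebraMap_apply O C K] at h0
  have h1 : algebraMap O C t = 0 :=
    IsFractionRing.injective C K (by rw [h0, map_zero])
  have hmax : IsLocalRing.maximalIdeal O = Ideal.span {t} :=
    (IsDiscreteValuationRing.irreducible_iff_uniformizer t).1 ht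
  have h2 : IsLocalRing.maximalIdeal O ≤ (⊥ : Ideal C).comap (algebraMap O C) := by
    rw [hmax, Ideal.span_singleton_le_iff_mem]
    exact h1
  have h3 : (⊥ : Ideal C).comap (algebraMap O C) = IsLocalRing.maximalIdeal O :=
    ((IsLocalRing.maximalIdeal.isMaximal O).eq_of_le
      (Ideal.IsPrime.ne_top inferInstance) h2).symm
  have h4 : ((⊥ : Ideal C).comap (algebraMap O C)).IsMaximal := by
    rw [h3]
    exact IsLocalRing.maximalIdeal.isMaximal O
  have h5 : (⊥ : Ideal C).IsMaximal := Ideal.isMaximal_of_isIntegral_of_isMaximal_comap _ h4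
  exact Q.ne_bot (h5.eq_of_le Q.isPrime.ne_top bot_le).symm

/-- the improvement step -/
theorem der_step [CharZero (IsLocalRing.ResidueField O)] (D : Derivation R K K)
    (hD : ∀ a : O, ∃ b : O, D (algebraMap O K a) = algebraMap O K b)
    (t : O) (ht : Irreducible t) (hDt : ∃ b : O, D (algebraMap O K t) = algebraMap O K (t * b))
    (ht0 : algebraMap O K t ≠ 0) (Q : HeightOneSpectrum C) (m : ℕ)
    (h : ∀ z : K, Q.valuation K (D z) ≤ WithZero.exp ((m : ℤ) + 1) * Q.valuation K z) (z : K) :
    Q.valuation K (D z) ≤ WithZero.exp (m : ℤ) * Q.valuation K z := by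
  set v := Q.valuation K with hv
  have h1m : (1 : ℤᵐ⁰) ≤ WithZero.exp (m : ℤ) := by
    rw [← WithZero.exp_zero]
    exact WithZero.exp_le_exp.2 (by positivity)
  -- the elements of `C` outside `Q`
  have hC : ∀ c : C, v (algebraMap C K c) = 1 → v (D (algebraMap C K c)) ≤ WithZero.exp (m : ℤ) := by
    intro c hc
    obtain ⟨P, hP, hP'⟩ := exists_res_poly (O := O) Q c
    have e1 : Polynomial.aeval (algebraMap C K c) P = algebraMap C K (Polynomial.aeval c P) :=
      Polynomial.aeval_algebraMap_apply K c P
    have e2 : Polynomial.aeval (algebraMap C K c) (Polynomial.derivative P) =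
        algebraMap C K (Polynomial.aeval c (Polynomial.derivative P)) :=
      Polynomial.aeval_algebraMap_apply K c _
    have h2 := der_poly_diff D Q (γ := 1) (z := algebraMap C K c) (fun a => by
      obtain ⟨b, hb⟩ := hD a
      rw [hb]
      exact val_O_le Q b) hc.le P
    rw [e2] at h2
    have h3 : v (algebraMap C K (Polynomial.aeval c (Polynomial.derivative P))) = 1 :=
      (Q.valuation_eq_one_iff_notMem).2 hP'
    have h4 : v (D (Polynomial.aeval (algebraMap C K c) P)) ≤ WithZero.exp (m : ℤ) := by
      refine (h _).trans ?_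
      rw [e1]
      have h5 : v (algebraMap C K (Polynomial.aeval c P)) < 1 :=
        (Q.valuation_lt_one_iff_mem _).2 hP
      have h6 : v (algebraMap C K (Polynomial.aeval c P)) ≤ WithZero.exp (-1 : ℤ) := by
        by_cases h0 : v (algebraMap C K (Polynomial.aeval c P)) = 0
        · rw [h0]; exact zero_le
        · rw [← WithZero.log_le_log h0 (by simp), WithZero.log_exp]
          rw [← WithZero.log_lt_log h0 one_ne_zero, WithZero.log_one] at h5
          omega
      calc WithZero.exp ((m : ℤ) + 1) * v (algebraMap C K (Polynomial.aeval c P)) ≤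
            WithZero.exp ((m : ℤ) + 1) * WithZero.exp (-1 : ℤ) := mul_le_mul_right h6 _
        _ = WithZero.exp (m : ℤ) := by
            rw [← WithZero.exp_add]
            congr 1
            ring
    have e3 : algebraMap C K (Polynomial.aeval c (Polynomial.derivative P)) *
        D (algebraMap C K c) = D (Polynomial.aeval (algebraMap C K c) P) -
        (D (Polynomial.aeval (algebraMap C K c) P) -
          algebraMap C K (Polynomial.aeval c (Polynomial.derivative P)) *
            D (algebraMap C K c)) := by ring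
    have h7 : v (D (algebraMap C K c)) =
        v (algebraMap C K (Polynomial.aeval c (Polynomial.derivative P)) *
          D (algebraMap C K c)) := by
      rw [map_mul, h3, one_mul]
    rw [h7, e3]
    exact (Valuation.map_sub _ _ _).trans (max_le h4 (h2.trans h1m))
  -- the property is multiplicative
  have hmul : ∀ x y : K, v (D x) ≤ WithZero.exp (m : ℤ) * v x →
      v (D y) ≤ WithZero.exp (m : ℤ) * v y →
      v (D (x * y)) ≤ WithZero.exp (m : ℤ) * v (x * y) := by
    intro x y hx hy
    rw [Derivation.leibniz, smul_eq_mul, smul_eq_mul]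
    refine (Valuation.map_add _ _ _).trans (max_le ?_ ?_)
    · rw [map_mul, map_mul]
      calc v x * v (D y) ≤ v x * (WithZero.exp (m : ℤ) * v y) := mul_le_mul_right hy _
        _ = _ := by ac_rfl
    · rw [map_mul, map_mul]
      calc v y * v (D x) ≤ v y * (WithZero.exp (m : ℤ) * v x) := mul_le_mul_right hx _
        _ = _ := by ac_rfl
  have hinv : ∀ x : K, v (D x) ≤ WithZero.exp (m : ℤ) * v x →
      v (D x⁻¹) ≤ WithZero.exp (m : ℤ) * v x⁻¹ := by
    intro x hx
    by_cases hx0 : x = 0
    · rw [hx0, inv_zero, map_zero, map_zero]; exact zero_le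
    have hvx : v x ≠ 0 := (Valuation.ne_zero_iff _).2 hx0
    rw [Derivation.leibniz_inv, smul_eq_mul, map_mul, Valuation.map_neg, map_pow, map_inv₀]
    calc (v x)⁻¹ ^ 2 * v (D x) ≤ (v x)⁻¹ ^ 2 * (WithZero.exp (m : ℤ) * v x) :=
          mul_le_mul_right hx _
      _ = WithZero.exp (m : ℤ) * (v x)⁻¹ * ((v x)⁻¹ * v x) := by rw [pow_two]; ac_rfl
      _ = WithZero.exp (m : ℤ) * (v x)⁻¹ := by rw [inv_mul_cancel₀ hvx, mul_one]
  -- units
  have hunit : ∀ x : K, v x = 1 → v (D x) ≤ WithZero.exp (m : ℤ) * v x := by
    intro x hx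
    obtain ⟨a, b, hb, hab⟩ := exists_frac Q hx.le
    have ha : v (algebraMap C K a) = 1 := by rw [← hab, map_mul, hx, one_mul]; exact hb
    have hb0 : algebraMap C K b ≠ 0 := by
      intro h0
      rw [h0, map_zero] at hb
      exact zero_ne_one hb
    have e : x = algebraMap C K a * (algebraMap C K b)⁻¹ := by
      rw [← hab, mul_assoc, mul_inv_cancel₀ hb0, mul_one]
    rw [e]
    refine hmul _ _ ?_ (hinv _ ?_)
    · rw [ha, mul_one]; exact hC a ha
    · rw [show v (algebraMap C K b) = 1 from hb, mul_one]; exact hC b hb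
  -- powers
  have hpow : ∀ x : K, v (D x) ≤ WithZero.exp (m : ℤ) * v x → ∀ n : ℕ,
      v (D (x ^ n)) ≤ WithZero.exp (m : ℤ) * v (x ^ n) := by
    intro x hx n
    induction n with
    | zero =>
      rw [pow_zero]
      exact hunit 1 (map_one _)
    | succ n ih =>
      rw [pow_succ]
      exact hmul _ _ ih hx
  -- the uniformizer
  obtain ⟨u, hu⟩ := Q.valuation_exists_uniformizer K
  have hvu : v u = WithZero.exp (-1 : ℤ) := hu
  have hu0 : u ≠ 0 := by
    intro h0
    rw [h0, map_zero] at hvu
    exact WithZero.exp_ne_zero hvu.symm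
  have huD : v (D u) ≤ WithZero.exp (m : ℤ) * v u := by
    have hvt0 : v (algebraMap O K t) ≠ 0 := (Valuation.ne_zero_iff _).2 ht0
    have hvt : v (algebraMap O K t) < 1 := by
      have hcm : (Q.asIdeal.comap (algebraMap O C)).IsMaximal := by
        have := Q.isMaximal
        exact Ideal.isMaximal_comap_of_isIntegral_of_isMaximal Q.asIdeal
      have hcomap : Q.asIdeal.comap (algebraMap O C) = IsLocalRing.maximalIdeal O :=
        IsLocalRing.eq_maximalIdeal hcm
      rw [IsScalarTower.algebraMap_apply O C K]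
      refine (Q.valuation_lt_one_iff_mem _).2 ?_
      have : t ∈ IsLocalRing.maximalIdeal O := (IsLocalRing.mem_maximalIdeal t).2 ht.not_isUnit
      rw [← hcomap] at this
      exact this
    -- the ramification index
    obtain ⟨e, he0, he⟩ : ∃ e : ℕ, 0 < e ∧ v (algebraMap O K t) = WithZero.exp (-(e : ℤ)) := by
      have h5 := hvt
      rw [← WithZero.log_lt_log hvt0 one_ne_zero, WithZero.log_one] at h5
      refine ⟨(-WithZero.log (v (algebraMap O K t))).toNat, by omega, ?_⟩
      rw [Int.toNat_of_nonneg (by omega), neg_neg, WithZero.exp_log hvt0]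
    obtain ⟨b, hb⟩ := hDt
    obtain ⟨k, rfl⟩ : ∃ k, e = k + 1 := ⟨e - 1, by omega⟩
    have hεv : v (algebraMap O K t * (u ^ (k + 1))⁻¹) = 1 := by
      rw [map_mul, map_inv₀, map_pow, hvu, he, ← WithZero.exp_nsmul, ← WithZero.exp_neg,
        ← WithZero.exp_add, ← WithZero.exp_zero]
      congr 1
      rw [nsmul_eq_mul]
      push_cast
      ring
    set ε : K := algebraMap O K t * (u ^ (k + 1))⁻¹ with hε
    have ht' : algebraMap O K t = ε * u ^ (k + 1) := by
      rw [hε, mul_assoc, inv_mul_cancel₀ (pow_ne_zero _ hu0), mul_one]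
    have e4 : (ε * ((k + 1 : ℕ) : K) * u ^ k) * D u =
        algebraMap O K (t * b) - u ^ (k + 1) * D ε := by
      have h8 : D (algebraMap O K t) = ε • D (u ^ (k + 1)) + u ^ (k + 1) • D ε := by
        rw [ht', Derivation.leibniz]
      rw [hb, Derivation.leibniz_pow] at h8
      rw [h8]
      simp only [smul_eq_mul, nsmul_eq_mul, Nat.add_sub_cancel]
      ring
    have hnat : v ((k + 1 : ℕ) : K) = 1 := val_natCast (O := O) Q (Nat.succ_ne_zero k) K
    have h9 : v (u ^ k) * v (D u) ≤ WithZero.exp (m : ℤ) * v (u ^ (k + 1)) := by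
      have h10 : v (u ^ k) * v (D u) = v ((ε * ((k + 1 : ℕ) : K) * u ^ k) * D u) := by
        rw [map_mul, map_mul, map_mul, hεv, hnat, one_mul, one_mul]
      rw [h10, e4]
      refine (Valuation.map_sub _ _ _).trans (max_le ?_ ?_)
      · rw [map_mul, map_mul, ht', map_mul, hεv, one_mul]
        calc v (u ^ (k + 1)) * v (algebraMap O K b) ≤ v (u ^ (k + 1)) * 1 :=
              mul_le_mul_right (val_O_le Q b) _
          _ ≤ v (u ^ (k + 1)) * WithZero.exp (m : ℤ) := mul_le_mul_right h1m _
          _ = _ := mul_comm _ _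
      · rw [map_mul, mul_comm]
        refine mul_le_mul_left ?_ _
        have := hunit ε hεv
        rwa [hεv, mul_one] at this
    have hvk : v (u ^ k) ≠ 0 := (Valuation.ne_zero_iff _).2 (pow_ne_zero _ hu0)
    have h11 : v (u ^ k) * v (D u) ≤ v (u ^ k) * (WithZero.exp (m : ℤ) * v u) := by
      refine h9.trans (le_of_eq ?_)
      rw [pow_succ, map_mul]
      ac_rfl
    exact (mul_le_mul_iff_right₀ (zero_lt_iff.2 hvk)).1 h11
  -- the general case
  by_cases hz0 : z = 0
  · rw [hz0, map_zero, map_zero]; exact zero_le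
  have hvz : v z ≠ 0 := (Valuation.ne_zero_iff _).2 hz0
  rcases le_total 0 (WithZero.log (v z)) with hl | hl
  · -- `z = ε (u⁻¹)^n`
    obtain ⟨n, hn⟩ := Int.eq_ofNat_of_zero_le hl
    have hn' : v z = WithZero.exp (n : ℤ) := by rw [← hn, WithZero.exp_log hvz]
    have h12 : v (z * u ^ n) = 1 := by
      rw [map_mul, map_pow, hvu, hn', ← WithZero.exp_nsmul, ← WithZero.exp_add,
        ← WithZero.exp_zero]
      congr 1
      rw [nsmul_eq_mul]
      push_cast
      ring
    have e5 : z = z * u ^ n * (u ^ n)⁻¹ := by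
      rw [mul_assoc, mul_inv_cancel₀ (pow_ne_zero _ hu0), mul_one]
    rw [e5]
    exact hmul _ _ (hunit _ h12) (hinv _ (hpow u huD n))
  · obtain ⟨n, hn⟩ := Int.eq_ofNat_of_zero_le (neg_nonneg.2 hl)
    have hn' : v z = WithZero.exp (-(n : ℤ)) := by
      rw [← hn, neg_neg, WithZero.exp_log hvz]
    have h12 : v (z * (u ^ n)⁻¹) = 1 := by
      rw [map_mul, map_inv₀, map_pow, hvu, hn', ← WithZero.exp_nsmul, ← WithZero.exp_neg,
        ← WithZero.exp_add, ← WithZero.exp_zero]
      congr 1
      rw [nsmul_eq_mul]
      push_cast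
      ring
    have e5 : z = z * (u ^ n)⁻¹ * u ^ n := by
      rw [mul_assoc, inv_mul_cancel₀ (pow_ne_zero _ hu0), mul_one]
    rw [e5]
    exact hmul _ _ (hunit _ h12) (hpow u huD n)

end aux

variable {O F K C R : Type*} [CommRing O] [IsDomain O] [IsDiscreteValuationRing O]
  [Field F] [Algebra O F] [IsFractionRing O F] [Field K] [Algebra F K] [Algebra O K]
  [IsScalarTower O F K] [FiniteDimensional F K] [CharZero F]
  [CommRing C] [IsDedekindDomain C] [Algebra O C] [Algebra C K] [IsScalarTower O C K]
  [IsIntegralClosure C O K] [IsFractionRing C K] [Module.Finite O C]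
  [CommRing R] [Algebra R K]

/-- A derivation which preserves `O` and the maximal ideal `(t)` of `O` does not decrease the
order at any place above `O`. -/
theorem der_log [CharZero (IsLocalRing.ResidueField O)] (D : Derivation R K K)
    (hD : ∀ a : O, ∃ b : O, D (algebraMap O K a) = algebraMap O K b)
    (t : O) (ht : Irreducible t) (hDt : ∃ b : O, D (algebraMap O K t) = algebraMap O K (t * b))
    (Q : HeightOneSpectrum C) (z : K) : Q.valuation K (D z) ≤ Q.valuation K z := by
  have ht0 : algebraMap O K t ≠ 0 := uniformizer_ne_zero t ht Q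
  -- some bound
  obtain ⟨m₀, hm₀⟩ := der_bounded D hD Q
  obtain ⟨u, hu⟩ := Q.valuation_exists_uniformizer K
  have hvu : Q.valuation K u = WithZero.exp (-1 : ℤ) := hu
  have hu0 : u ≠ 0 := by
    intro h0
    rw [h0, map_zero] at hvu
    exact WithZero.exp_ne_zero hvu.symm
  have hbound : ∀ z : K, Q.valuation K (D z) ≤
      WithZero.exp ((m₀ + 1 : ℕ) : ℤ) * Q.valuation K z := by
    intro z
    by_cases hz0 : z = 0
    · rw [hz0, map_zero, map_zero]; exact zero_le
    have hvz : Q.valuation K z ≠ 0 := (Valuation.ne_zero_iff _).2 hz0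
    set k : ℤ := WithZero.log (Q.valuation K z) with hk
    have hvz' : Q.valuation K z = WithZero.exp k := (WithZero.exp_log hvz).symm
    have h1 : Q.valuation K (z * u ^ k) = 1 := by
      rw [map_mul, map_zpow₀, hvu, hvz', ← WithZero.exp_zsmul, ← WithZero.exp_add,
        ← WithZero.exp_zero]
      congr 1
      simp
    have e5 : z = (z * u ^ k) * u ^ (-k) := by
      rw [mul_assoc, ← zpow_add₀ hu0, add_neg_cancel, zpow_zero, mul_one]
    have h2 : Q.valuation K (D (z * u ^ k)) ≤ WithZero.exp (m₀ : ℤ) := der_le_of_C D Q hm₀ h1.le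
    have h3 : Q.valuation K (D u) ≤ WithZero.exp (m₀ : ℤ) := der_le_of_C D Q hm₀ (by
      rw [hvu, ← WithZero.exp_zero]
      exact WithZero.exp_le_exp.2 (by norm_num))
    have e6 : D z = (z * u ^ k) * ((-k : ℤ) * u ^ (-k - 1) * D u) +
        u ^ (-k) * D (z * u ^ k) := by
      conv_lhs => rw [e5]
      rw [Derivation.leibniz, Derivation.leibniz_zpow]
      simp only [smul_eq_mul, zsmul_eq_mul]
      ring
    rw [e6]
    refine (Valuation.map_add _ _ _).trans (max_le ?_ ?_)
    · have hA : Q.valuation K ((z * u ^ k) * ((-k : ℤ) * u ^ (-k - 1) * D u)) =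
          Q.valuation K ((-k : ℤ) : K) * WithZero.exp ((-k - 1) • (-1 : ℤ)) *
            Q.valuation K (D u) := by
        rw [Valuation.map_mul, h1, one_mul, Valuation.map_mul, Valuation.map_mul, map_zpow₀,
          hvu, ← WithZero.exp_zsmul]
      rw [hA, hvz', ← WithZero.exp_add]
      have h4 : Q.valuation K ((-k : ℤ) : K) ≤ 1 := by
        have : ((-k : ℤ) : K) = algebraMap C K ((-k : ℤ) : C) := by simp
        rw [this]
        exact Q.valuation_le_one _
      calc Q.valuation K ((-k : ℤ) : K) * WithZero.exp ((-k - 1) • (-1 : ℤ)) *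
            Q.valuation K (D u) ≤ 1 * WithZero.exp ((-k - 1) • (-1 : ℤ)) *
            WithZero.exp (m₀ : ℤ) := mul_le_mul' (mul_le_mul' h4 le_rfl) h3
        _ = WithZero.exp (((m₀ + 1 : ℕ) : ℤ) + k) := by
          rw [one_mul, ← WithZero.exp_add]
          congr 1
          rw [smul_eq_mul]
          push_cast
          ring
    · rw [map_mul, map_zpow₀, hvu, hvz', ← WithZero.exp_zsmul, ← WithZero.exp_add]
      calc WithZero.exp ((-k) • (-1 : ℤ)) * Q.valuation K (D (z * u ^ k)) ≤
            WithZero.exp ((-k) • (-1 : ℤ)) * WithZero.exp (m₀ : ℤ) := mul_le_mul' le_rfl h2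
        _ ≤ WithZero.exp (((m₀ + 1 : ℕ) : ℤ) + k) := by
          rw [← WithZero.exp_add]
          refine WithZero.exp_le_exp.2 ?_
          rw [smul_eq_mul]
          push_cast
          linarith
  -- improvement
  have hfin : ∀ m : ℕ, (∀ z : K, Q.valuation K (D z) ≤
      WithZero.exp ((m : ℕ) : ℤ) * Q.valuation K z) →
      ∀ z : K, Q.valuation K (D z) ≤ WithZero.exp ((0 : ℕ) : ℤ) * Q.valuation K z := by
    intro m
    induction m with
    | zero => exact fun h => h
    | succ m ih =>
      intro h
      refine ih fun z => der_step D hD t ht hDt ht0 Q m (fun z => ?_) z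
      have := h z
      push_cast at this
      exact this
  have := hfin _ hbound z
  rwa [Nat.cast_zero, WithZero.exp_zero, one_mul] at this

/-- If moreover `D` maps `O` to its maximal ideal, then `D` maps the valuation ring of any place
above `O` to its maximal ideal. -/
theorem der_log_zero [CharZero (IsLocalRing.ResidueField O)] (D : Derivation R K K)
    (hD : ∀ a : O, ∃ b ∈ IsLocalRing.maximalIdeal O, D (algebraMap O K a) = algebraMap O K b)
    (Q : HeightOneSpectrum C) (z : K) (hz : Q.valuation K z ≤ 1) :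
    Q.valuation K (D z) < 1 := by
  obtain ⟨t, ht⟩ := IsDiscreteValuationRing.exists_irreducible O
  have hmax : IsLocalRing.maximalIdeal O = Ideal.span {t} :=
    (IsDiscreteValuationRing.irreducible_iff_uniformizer t).1 ht
  have hlog : ∀ z : K, Q.valuation K (D z) ≤ Q.valuation K z := fun z => by
    refine der_log D (fun a => ?_) t ht ?_ Q z
    · obtain ⟨b, -, hb⟩ := hD a
      exact ⟨b, hb⟩
    · obtain ⟨b, hb, hb'⟩ := hD t
      rw [hmax, Ideal.mem_span_singleton'] at hb
      obtain ⟨c, rfl⟩ := hb
      exact ⟨c, by rw [hb', mul_comm]⟩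
  have hlt : ∀ b ∈ IsLocalRing.maximalIdeal O,
      Q.valuation K (algebraMap O K b) ≤ WithZero.exp (-1 : ℤ) := by
    intro b hb
    have hcm : (Q.asIdeal.comap (algebraMap O C)).IsMaximal := by
      have := Q.isMaximal
      exact Ideal.isMaximal_comap_of_isIntegral_of_isMaximal Q.asIdeal
    have hcomap : Q.asIdeal.comap (algebraMap O C) = IsLocalRing.maximalIdeal O :=
      IsLocalRing.eq_maximalIdeal hcm
    have h5 : Q.valuation K (algebraMap O K b) < 1 := by
      rw [IsScalarTower.algebraMap_apply O C K]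
      refine (Q.valuation_lt_one_iff_mem _).2 ?_
      rw [← hcomap] at hb
      exact hb
    by_cases h0 : Q.valuation K (algebraMap O K b) = 0
    · rw [h0]; exact zero_le
    · rw [← WithZero.log_le_log h0 (by simp), WithZero.log_exp]
      rw [← WithZero.log_lt_log h0 one_ne_zero, WithZero.log_one] at h5
      omega
  have hexp : WithZero.exp (-1 : ℤ) < (1 : ℤᵐ⁰) := by
    rw [← WithZero.exp_zero]
    exact WithZero.exp_lt_exp.2 (by norm_num)
  refine lt_of_le_of_lt ?_ hexp
  refine der_le_of_C D Q (fun c => ?_) hz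
  obtain ⟨P, hP, hP'⟩ := exists_res_poly (O := O) Q c
  have e1 : Polynomial.aeval (algebraMap C K c) P = algebraMap C K (Polynomial.aeval c P) :=
    Polynomial.aeval_algebraMap_apply K c P
  have e2 : Polynomial.aeval (algebraMap C K c) (Polynomial.derivative P) =
      algebraMap C K (Polynomial.aeval c (Polynomial.derivative P)) :=
    Polynomial.aeval_algebraMap_apply K c _
  have h2 := der_poly_diff D Q (γ := WithZero.exp (-1 : ℤ)) (z := algebraMap C K c)
    (fun a => by
      obtain ⟨b, hb, hb'⟩ := hD a
      rw [hb']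
      exact hlt b hb) (Q.valuation_le_one c) P
  rw [e2] at h2
  have h3 : Q.valuation K (algebraMap C K (Polynomial.aeval c (Polynomial.derivative P))) = 1 :=
    (Q.valuation_eq_one_iff_notMem).2 hP'
  have h4 : Q.valuation K (D (Polynomial.aeval (algebraMap C K c) P)) ≤
      WithZero.exp (-1 : ℤ) := by
    refine (hlog _).trans ?_
    rw [e1]
    have h5 : Q.valuation K (algebraMap C K (Polynomial.aeval c P)) < 1 :=
      (Q.valuation_lt_one_iff_mem _).2 hP
    by_cases h0 : Q.valuation K (algebraMap C K (Polynomial.aeval c P)) = 0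
    · rw [h0]; exact zero_le
    · rw [← WithZero.log_le_log h0 (by simp), WithZero.log_exp]
      rw [← WithZero.log_lt_log h0 one_ne_zero, WithZero.log_one] at h5
      omega
  have e3 : algebraMap C K (Polynomial.aeval c (Polynomial.derivative P)) *
      D (algebraMap C K c) = D (Polynomial.aeval (algebraMap C K c) P) -
      (D (Polynomial.aeval (algebraMap C K c) P) -
        algebraMap C K (Polynomial.aeval c (Polynomial.derivative P)) *
          D (algebraMap C K c)) := by ring
  have h7 : Q.valuation K (D (algebraMap C K c)) =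
      Q.valuation K (algebraMap C K (Polynomial.aeval c (Polynomial.derivative P)) *
        D (algebraMap C K c)) := by
    rw [map_mul, h3, one_mul]
  rw [h7, e3]
  exact (Valuation.map_sub _ _ _).trans (max_le h4 h2)

end Pool.Agent.ODP
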