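import Pool.Agent.ODP.FormOrd1
import Pool.Agent.ODP.DerExt
import Pool.Agent.ODP.WVal
import Pool.Agent.ODP.Place

/-!
# The order of `dy_1 ∧ … ∧ dy_n` along a place above a monomial valuation or a prime divisor
-/

open scoped WithZero
open IsDedekindDomain MvPolynomial

namespace Pool.Agent.ODP

section ders

variable {k : Type*} [Field k] {n : ℕ} {F K : Type*}
  [Field F] [Algebra (MvPolynomial (Fin n) k) F] [IsFractionRing (MvPolynomial (Fin n) k) F]
  [Algebra k F] [IsScalarTower k (MvPolynomial (Fin n) k) F]
  [Field K] [Algebra F K] [FiniteDimensional F K]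
  [Algebra (MvPolynomial (Fin n) k) K] [IsScalarTower (MvPolynomial (Fin n) k) F K]
  [Algebra k K] [IsScalarTower k F K]

variable (F) in
include F in
omit [IsFractionRing (MvPolynomial (Fin n) k) F] [FiniteDimensional F K] in
theorem der_poly (D : Derivation k K K) (p : MvPolynomial (Fin n) k) :
    D (algebraMap (MvPolynomial (Fin n) k) K p) =
      ∑ j, algebraMap (MvPolynomial (Fin n) k) K (pderiv j p) *
        D (algebraMap (MvPolynomial (Fin n) k) K (X j)) := by
  classical
  have hC : ∀ a : k, algebraMap (MvPolynomial (Fin n) k) K (C a) = algebraMap k K a := by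
    intro a
    rw [IsScalarTower.algebraMap_apply (MvPolynomial (Fin n) k) F K,
      IsScalarTower.algebraMap_apply k F K, ← MvPolynomial.algebraMap_eq,
      ← IsScalarTower.algebraMap_apply k (MvPolynomial (Fin n) k) F]
  induction p using MvPolynomial.induction_on with
  | C a =>
    rw [hC, D.map_algebraMap]
    simp
  | add p q hp hq =>
    simp only [map_add, hp, hq, add_mul, Finset.sum_add_distrib]
  | mul_X p i hp =>
    rw [map_mul, D.leibniz, hp]
    simp only [pderiv_mul, map_add, map_mul, add_mul, Finset.sum_add_distrib, smul_eq_mul]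
    rw [add_comm]
    congr 1
    · rw [Finset.mul_sum]
      refine Finset.sum_congr rfl fun j _ => ?_
      ring
    · rw [Finset.sum_eq_single i]
      · rw [pderiv_X_self, map_one]
        ring
      · intro j _ hj
        rw [pderiv_X_of_ne (Ne.symm hj), map_zero]
        ring
      · intro h
        exact absurd (Finset.mem_univ i) h

omit [Field K] [Algebra F K] [FiniteDimensional F K] [Algebra (MvPolynomial (Fin n) k) K]
  [IsScalarTower (MvPolynomial (Fin n) k) F K] [Algebra k K] [IsScalarTower k F K] [Field F]
  [Algebra (MvPolynomial (Fin n) k) F] [IsFractionRing (MvPolynomial (Fin n) k) F] [Algebra k F]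
  [IsScalarTower k (MvPolynomial (Fin n) k) F] in
theorem totalDegree_pderiv_lt (p : MvPolynomial (Fin n) k) (j : Fin n) (h : pderiv j p ≠ 0) :
    (pderiv j p).totalDegree < p.totalDegree := by
  classical
  have h1 : ∀ m ∈ (pderiv j p).support, m.degree + 1 ≤ p.totalDegree := by
    intro m hm
    rw [mem_support_iff, coeff_pderiv] at hm
    have h2 : m + Finsupp.single j 1 ∈ p.support := by
      rw [mem_support_iff]
      intro h0
      apply hm
      rw [h0, zero_mul]
    have h3 := le_totalDegree h2
    have h4 : (m + Finsupp.single j 1).degree = m.degree + 1 := by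
      rw [map_add, Finsupp.degree_single]
    rw [← h4]
    exact h3
  obtain ⟨m, hm⟩ := MvPolynomial.support_nonempty.2 h
  obtain ⟨m', hm', hmax⟩ := Finset.exists_max_image (pderiv j p).support (fun m => m.degree)
    ⟨m, hm⟩
  have h5 : (pderiv j p).totalDegree ≤ m'.degree := by
    rw [totalDegree]
    exact Finset.sup_le fun b hb => hmax b hb
  have := h1 m' hm'
  omega

omit [Field K] [Algebra F K] [FiniteDimensional F K] [Algebra (MvPolynomial (Fin n) k) K]
  [IsScalarTower (MvPolynomial (Fin n) k) F K] [Algebra k K] [IsScalarTower k F K] [Field F]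
  [Algebra (MvPolynomial (Fin n) k) F] [IsFractionRing (MvPolynomial (Fin n) k) F] [Algebra k F]
  [IsScalarTower k (MvPolynomial (Fin n) k) F] in
/-- a prime of `k[X]` does not divide all its partial derivatives -/
theorem exists_pderiv_not_dvd [CharZero k] (p : MvPolynomial (Fin n) k) (hp : Prime p) :
    ∃ j, ¬ p ∣ pderiv j p := by
  classical
  by_contra hcon
  push Not at hcon
  have h0 : ∀ j, pderiv j p = 0 := by
    intro j
    by_contra hne
    obtain ⟨q, hq⟩ := hcon j
    have hq0 : q ≠ 0 := by
      rintro rfl
      rw [mul_zero] at hq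
      exact hne hq
    have h1 := totalDegree_mul_of_isDomain hp.ne_zero hq0
    rw [← hq] at h1
    have h2 := totalDegree_pderiv_lt p j hne
    omega
  have h1 : ∀ m ∈ p.support, m = 0 := by
    intro m hm
    by_contra hm0
    obtain ⟨j, hj⟩ : ∃ j, m j ≠ 0 := by
      by_contra hcon
      push Not at hcon
      exact hm0 (Finsupp.ext hcon)
    have hle : Finsupp.single j 1 ≤ m := by
      rw [Finsupp.single_le_iff]
      omega
    have h2 : m - Finsupp.single j 1 + Finsupp.single j 1 = m := tsub_add_cancel_of_le hle
    have h3 := congrArg (coeff (m - Finsupp.single j 1)) (h0 j)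
    rw [coeff_pderiv, h2, coeff_zero] at h3
    rcases mul_eq_zero.1 h3 with h4 | h4
    · exact (mem_support_iff.1 hm) h4
    · have h5 : ((((m - Finsupp.single j 1 : Fin n →₀ ℕ) j) + 1 : ℕ) : k) = 0 := by
        push_cast
        exact h4
      rw [Nat.cast_eq_zero] at h5
      omega
  have h2 : p = C (coeff 0 p) := by
    ext m
    rw [coeff_C]
    split_ifs with h
    · rw [← h]
    · by_contra hne
      exact h (h1 m (mem_support_iff.2 hne)).symm
  have h3 : coeff 0 p ≠ 0 := by
    intro h4
    rw [h4, C_0] at h2
    exact hp.ne_zero h2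
  apply hp.not_unit
  rw [h2]
  exact (IsUnit.mk0 _ h3).map C

variable (F) in
include F in
/-- `k`-derivations of `K` with arbitrary values at the variables exist. -/
theorem exists_der [CharZero k] (c : Fin n → K) :
    ∃ D : Derivation k K K, ∀ i, D (algebraMap (MvPolynomial (Fin n) k) K (X i)) = c i := by
  haveI : CharZero F := charZero_of_injective_algebraMap (algebraMap k F).injective
  haveI h1 : Algebra.FormallyEtale (MvPolynomial (Fin n) k) F :=
    Algebra.FormallyEtale.of_isLocalization (nonZeroDivisors (MvPolynomial (Fin n) k))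
  haveI h2 : Algebra.FormallyEtale F K := Algebra.FormallyEtale.of_isSeparable F K
  haveI h3 : Algebra.FormallyEtale (MvPolynomial (Fin n) k) K :=
    Algebra.FormallyEtale.comp (MvPolynomial (Fin n) k) F K
  haveI h4 : IsScalarTower k (MvPolynomial (Fin n) k) K := by
    refine IsScalarTower.of_algebraMap_eq fun a => ?_
    rw [IsScalarTower.algebraMap_apply k F K, IsScalarTower.algebraMap_apply
      (MvPolynomial (Fin n) k) F K, ← IsScalarTower.algebraMap_apply k (MvPolynomial (Fin n) k) F]
  let D₀ : Derivation k (MvPolynomial (Fin n) k) K := mkDerivation k c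
  let ℓ : TensorProduct (MvPolynomial (Fin n) k) K (Ω[MvPolynomial (Fin n) k⁄k]) →ₗ[K] K :=
    LinearMap.liftBaseChange K D₀.liftKaehlerDifferential
  let ℓ' : Ω[K⁄k] →ₗ[K] K := ℓ.comp
    (KaehlerDifferential.tensorKaehlerEquivOfFormallyEtale k (MvPolynomial (Fin n) k) K).symm.toLinearMap
  refine ⟨ℓ'.compDer (KaehlerDifferential.D k K), fun i => ?_⟩
  have h5 := KaehlerDifferential.tensorKaehlerEquivOfFormallyEtale_symm_D_algebraMap
    (R := k) (S := MvPolynomial (Fin n) k) (T := K) (X i)
  change ℓ ((KaehlerDifferential.tensorKaehlerEquivOfFormallyEtale k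
    (MvPolynomial (Fin n) k) K).symm (KaehlerDifferential.D k K
      (algebraMap (MvPolynomial (Fin n) k) K (X i)))) = c i
  rw [h5]
  change LinearMap.liftBaseChange K D₀.liftKaehlerDifferential _ = _
  rw [LinearMap.liftBaseChange_tmul, one_smul, Derivation.liftKaehlerDifferential_comp_D]
  exact mkDerivation_X k c i

end ders

section ext

variable {k : Type*} [Field k] {n : ℕ} {F K : Type*}
  [Field F] [Algebra (MvPolynomial (Fin n) k) F] [IsFractionRing (MvPolynomial (Fin n) k) F]
  [Algebra k F] [IsScalarTower k (MvPolynomial (Fin n) k) F]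
  [Field K] [Algebra F K]
  [Algebra (MvPolynomial (Fin n) k) K] [IsScalarTower (MvPolynomial (Fin n) k) F K]
  [Algebra k K] [IsScalarTower k F K]

/-- a derivation of `K` and a derivation of `F` with the same values at the variables -/
theorem der_ext_frac (D : Derivation k K K) (D' : Derivation k F F)
    (h : ∀ i, D (algebraMap (MvPolynomial (Fin n) k) K (X i)) =
      algebraMap F K (D' (algebraMap (MvPolynomial (Fin n) k) F (X i)))) (f : F) :
    D (algebraMap F K f) = algebraMap F K (D' f) := by
  have hp : ∀ p : MvPolynomial (Fin n) k,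
      D (algebraMap F K (algebraMap (MvPolynomial (Fin n) k) F p)) =
        algebraMap F K (D' (algebraMap (MvPolynomial (Fin n) k) F p)) := by
    intro p
    rw [← IsScalarTower.algebraMap_apply, der_poly F D p, der_poly F D' p, map_sum]
    refine Finset.sum_congr rfl fun j _ => ?_
    rw [map_mul, h j, ← IsScalarTower.algebraMap_apply]
  obtain ⟨p, q, hq, rfl⟩ := IsFractionRing.div_surjective (A := MvPolynomial (Fin n) k) f
  have hq0 : algebraMap (MvPolynomial (Fin n) k) F q ≠ 0 := by
    rw [Ne, FaithfulSMul.algebraMap_eq_zero_iff]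
    exact nonZeroDivisors.ne_zero hq
  have hq1 : algebraMap F K (algebraMap (MvPolynomial (Fin n) k) F q) ≠ 0 := by
    rw [Ne, FaithfulSMul.algebraMap_eq_zero_iff]
    exact hq0
  rw [map_div₀, D.leibniz_div, D'.leibniz_div, hp, hp]
  simp only [smul_eq_mul, map_mul, map_sub, map_pow, map_inv₀]

end ext

section places

variable {O F K C : Type*} [CommRing O] [IsDomain O] [IsDiscreteValuationRing O]
  [Field K] [Algebra O K]
  [CommRing C] [IsDedekindDomain C] [Algebra O C] [Algebra C K] [IsScalarTower O C K]
  [IsFractionRing C K] [Module.Finite O C]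

theorem val_lt_of_mem (Q : HeightOneSpectrum C) {b : O} (hb : b ∈ IsLocalRing.maximalIdeal O) :
    Q.valuation K (algebraMap O K b) < 1 := by
  have hcm : (Q.asIdeal.comap (algebraMap O C)).IsMaximal := by
    have := Q.isMaximal
    exact Ideal.isMaximal_comap_of_isIntegral_of_isMaximal Q.asIdeal
  have hcomap : Q.asIdeal.comap (algebraMap O C) = IsLocalRing.maximalIdeal O :=
    IsLocalRing.eq_maximalIdeal hcm
  rw [IsScalarTower.algebraMap_apply O C K]
  refine (Q.valuation_lt_one_iff_mem _).2 ?_
  rw [← hcomap] at hb
  exact hb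

end places

variable {k : Type*} [Field k] [CharZero k] {n : ℕ} {F K : Type*}
  [Field F] [Algebra (MvPolynomial (Fin n) k) F] [IsFractionRing (MvPolynomial (Fin n) k) F]
  [Algebra k F] [IsScalarTower k (MvPolynomial (Fin n) k) F]
  [Field K] [Algebra F K] [FiniteDimensional F K]
  [Algebra (MvPolynomial (Fin n) k) K] [IsScalarTower (MvPolynomial (Fin n) k) F K]
  [Algebra k K] [IsScalarTower k F K]

/-- diagonal derivations do not decrease the order at the places above a monomial valuation -/
theorem wval_place_der (hn : 0 < n) (α : Fin n → ℕ) (hα : ∀ i, 0 < α i)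
    {C : Type*} [CommRing C] [IsDedekindDomain C] [Algebra (wval k F α).valuationSubring C]
    [Algebra C K] [Algebra (wval k F α).valuationSubring K]
    [IsScalarTower (wval k F α).valuationSubring F K]
    [IsScalarTower (wval k F α).valuationSubring C K]
    [IsIntegralClosure C (wval k F α).valuationSubring K] [IsFractionRing C K]
    [Module.Finite (wval k F α).valuationSubring C] (Q : HeightOneSpectrum C)
    (D : Derivation k K K) (D' : Derivation k F F) (c : Fin n → k)
    (h : ∀ i, D (algebraMap (MvPolynomial (Fin n) k) K (X i)) =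
      c i • algebraMap (MvPolynomial (Fin n) k) K (X i))
    (h' : ∀ i, D' (algebraMap (MvPolynomial (Fin n) k) F (X i)) =
      c i • algebraMap (MvPolynomial (Fin n) k) F (X i)) :
    (∀ z : K, Q.valuation K (D z) ≤ Q.valuation K z) ∧
      ((∀ i, c i = (α i : k)) → ∀ z : K, Q.valuation K z ≤ 1 → Q.valuation K (D z) < 1) := by
  haveI : IsDiscreteValuationRing (wval k F α).valuationSubring := wval_dvr α hn hα
  haveI : CharZero (IsLocalRing.ResidueField (wval k F α).valuationSubring) := wval_charZero α
  have hext : ∀ f : F, D (algebraMap F K f) = algebraMap F K (D' f) := by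
    refine der_ext_frac (n := n) D D' fun i => ?_
    rw [h, h', Algebra.smul_def, Algebra.smul_def, map_mul,
      ← IsScalarTower.algebraMap_apply k F K,
      ← IsScalarTower.algebraMap_apply (MvPolynomial (Fin n) k) F K]
  have hO : ∀ a : (wval k F α).valuationSubring,
      algebraMap (wval k F α).valuationSubring K a = algebraMap F K (a : F) := fun a => by
    rw [IsScalarTower.algebraMap_apply (wval k F α).valuationSubring F K]
    rfl
  constructor
  · intro z
    obtain ⟨t, ht⟩ := IsDiscreteValuationRing.exists_irreducible (wval k F α).valuationSubring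
    have ht0 : (t : F) ≠ 0 := fun h0 => ht.ne_zero (Subtype.ext h0)
    refine der_log D (fun a => ?_) t ht ?_ Q z
    · refine ⟨⟨D' (a : F), ?_⟩, ?_⟩
      · exact (wval_der α D' c h' _).trans a.2
      · rw [hO, hO, hext]
    · refine ⟨⟨D' (t : F) / t, ?_⟩, ?_⟩
      · change wval k F α (D' (t : F) / t) ≤ 1
        rw [map_div₀]
        have h1 := wval_der α D' c h' (t : F)
        have h2 : wval k F α (t : F) ≠ 0 := (Valuation.ne_zero_iff _).2 ht0
        exact div_le_one_of_le₀ h1 zero_le
      · rw [hO, hO, hext]
        congr 1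
        change D' (t : F) = (t : F) * (D' (t : F) / t)
        rw [mul_div_cancel₀ _ ht0]
  · intro hc z hz
    refine der_log_zero (O := (wval k F α).valuationSubring) D (fun a => ?_) Q z hz
    have h1 : wval k F α (D' (a : F)) < 1 := by
      refine wval_euler α D' (fun i => ?_) (a : F) a.2
      rw [h', hc]
    refine ⟨⟨D' (a : F), h1.le⟩, ?_, ?_⟩
    · rw [IsLocalRing.mem_maximalIdeal]
      intro hu
      obtain ⟨w, hw⟩ := hu.exists_right_inv
      have h2 := congrArg (fun x : (wval k F α).valuationSubring => wval k F α (x : F)) hw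
      have h3 : wval k F α (D' (a : F)) * wval k F α (w : F) = 1 := by
        rw [← map_mul]
        simpa using h2
      have h4 : wval k F α (D' (a : F)) * wval k F α (w : F) ≤ wval k F α (D' (a : F)) * 1 :=
        mul_le_mul' le_rfl w.2
      rw [h3, mul_one] at h4
      exact absurd h1 (not_lt.2 h4)
    · rw [hO, hO, hext]

theorem prod_exp {ι : Type*} (s : Finset ι) (f : ι → ℤ) :
    ∏ x ∈ s, (WithZero.exp (f x) : ℤᵐ⁰) = WithZero.exp (∑ x ∈ s, f x) := by
  classical
  induction s using Finset.induction_on with
  | empty => simp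
  | insert a s ha ih => rw [Finset.prod_insert ha, Finset.sum_insert ha, ih, WithZero.exp_add]

/-- the determinant of the diagonal derivations -/
theorem det_diag {L : Type*} [Field L] (i₀ : Fin n) (a x : Fin n → L) :
    Matrix.det (Matrix.of fun i j => (if i = i₀ then a j else if i = j then 1 else 0) * x j) =
      a i₀ * ∏ j, x j := by
  classical
  have h1 : (Matrix.of fun i j => (if i = i₀ then a j else if i = j then 1 else 0) * x j :
      Matrix (Fin n) (Fin n) L) = Matrix.of fun i j => x j *
        (Matrix.updateRow (1 : Matrix (Fin n) (Fin n) L) i₀ a) i j := by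
    ext i j
    rw [Matrix.of_apply, Matrix.of_apply, Matrix.updateRow_apply, Matrix.one_apply, mul_comm]
  rw [h1, Matrix.det_mul_row]
  have h2 := Matrix.cramer_transpose_apply (1 : Matrix (Fin n) (Fin n) L) a i₀
  rw [Matrix.transpose_one, Matrix.cramer_one] at h2
  rw [← h2, mul_comm]
  rfl

/-- The form order along a place above a monomial valuation. -/
theorem formOrder_wval (hn : 0 < n) (α : Fin n → ℕ) (hα : ∀ i, 0 < α i)
    {C : Type*} [CommRing C] [IsDedekindDomain C] [Algebra (wval k F α).valuationSubring C]
    [Algebra C K] [Algebra (wval k F α).valuationSubring K]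
    [IsScalarTower (wval k F α).valuationSubring F K]
    [IsScalarTower (wval k F α).valuationSubring C K]
    [IsIntegralClosure C (wval k F α).valuationSubring K] [IsFractionRing C K]
    [Module.Finite (wval k F α).valuationSubring C] (Q : HeightOneSpectrum C) (c : Fin n → ℤ)
    (hc : ∀ i, Q.valuation K (algebraMap (MvPolynomial (Fin n) k) K (X i)) =
      WithZero.exp (-(c i))) :
    IsFormOrder k (Q.valuation K) (fun i => algebraMap (MvPolynomial (Fin n) k) K (X i))
      ((∑ i, c i) - 1) := by
  classical
  haveI : IsDiscreteValuationRing (wval k F α).valuationSubring := wval_dvr α hn hα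
  haveI : CharZero (IsLocalRing.ResidueField (wval k F α).valuationSubring) := wval_charZero α
  have hsurj : Function.Surjective (Q.valuation K) := Q.valuation_surjective K
  refine ⟨?_, fun m hm => formOrders_ge (Q.valuation K) hsurj _ c hc m hm⟩
  set i₀ : Fin n := ⟨0, hn⟩ with hi₀
  set M : Fin n → Fin n → k := fun i j => if i = i₀ then (α j : k) else if i = j then 1 else 0
    with hM
  choose D hD using fun i => exists_der (k := k) F
    (fun j => M i j • algebraMap (MvPolynomial (Fin n) k) K (X j))
  choose D' hD' using fun i => exists_der (k := k) F (K := F)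
    (fun j => M i j • algebraMap (MvPolynomial (Fin n) k) F (X j))
  have hpl := fun i => wval_place_der hn α hα Q (D i) (D' i) (M i) (hD i) (hD' i)
  refine mem_formOrders (Q.valuation K) hsurj _ D (fun i => (hpl i).1) i₀
    ((hpl i₀).2 fun j => by simp [hM]) (∑ i, c i) ?_
  have h1 : (Matrix.of fun i j => D i (algebraMap (MvPolynomial (Fin n) k) K (X j)) :
      Matrix (Fin n) (Fin n) K) = Matrix.of fun i j =>
        (if i = i₀ then ((α j : ℕ) : K) else if i = j then 1 else 0) *
          algebraMap (MvPolynomial (Fin n) k) K (X j) := by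
    ext i j
    rw [Matrix.of_apply, Matrix.of_apply, hD, Algebra.smul_def]
    congr 1
    simp only [hM]
    split_ifs <;> simp
  rw [h1, det_diag i₀ (fun j => ((α j : ℕ) : K)), map_mul, map_prod,
    val_natCast (O := (wval k F α).valuationSubring) Q (hα i₀).ne' K, one_mul]
  simp only [hc]
  rw [prod_exp, Finset.sum_neg_distrib]

section local_

variable {O C : Type*} [CommRing O] [IsDomain O] [IsDiscreteValuationRing O]
    [Algebra (MvPolynomial (Fin n) k) O] [Algebra O F]
    [IsScalarTower (MvPolynomial (Fin n) k) O F]
    [Algebra O K] [IsScalarTower O F K]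

variable (F) in
include F in
/-- derivations with polynomial values preserve the local ring -/
theorem der_local (p : MvPolynomial (Fin n) k) [(Ideal.span {p}).IsPrime]
    [IsLocalization.AtPrime O (Ideal.span {p})] (D : Derivation k K K)
    (c : Fin n → MvPolynomial (Fin n) k)
    (h : ∀ i, D (algebraMap (MvPolynomial (Fin n) k) K (X i)) =
      algebraMap (MvPolynomial (Fin n) k) K (c i)) (I : Ideal O)
    (hI : ∀ f : MvPolynomial (Fin n) k,
      algebraMap (MvPolynomial (Fin n) k) O (∑ j, pderiv j f * c j) ∈ I) (a : O) :
    ∃ b ∈ I, D (algebraMap O K a) = algebraMap O K b := by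
  have htow : ∀ f : MvPolynomial (Fin n) k, algebraMap (MvPolynomial (Fin n) k) K f =
      algebraMap O K (algebraMap (MvPolynomial (Fin n) k) O f) := by
    intro f
    rw [IsScalarTower.algebraMap_apply (MvPolynomial (Fin n) k) F K,
      IsScalarTower.algebraMap_apply (MvPolynomial (Fin n) k) O F,
      ← IsScalarTower.algebraMap_apply O F K]
  have hp : ∀ f : MvPolynomial (Fin n) k, D (algebraMap (MvPolynomial (Fin n) k) K f) =
      algebraMap O K (algebraMap (MvPolynomial (Fin n) k) O (∑ j, pderiv j f * c j)) := by
    intro f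
    rw [der_poly F D f, ← htow, map_sum]
    refine Finset.sum_congr rfl fun j _ => ?_
    rw [map_mul, h j]
  obtain ⟨⟨f, s⟩, hfs⟩ := IsLocalization.surj (Ideal.span {p}).primeCompl a
  obtain ⟨u, hu⟩ := IsLocalization.map_units O s
  simp only at hfs
  set σ : O := algebraMap (MvPolynomial (Fin n) k) O (s : MvPolynomial (Fin n) k) with hσ
  have hu' : ((u⁻¹ : Oˣ) : O) * σ = 1 := by rw [← hu, Units.inv_mul]
  refine ⟨((u⁻¹ : Oˣ) : O) * (algebraMap (MvPolynomial (Fin n) k) O (∑ j, pderiv j f * c j) -
    a * algebraMap (MvPolynomial (Fin n) k) O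
      (∑ j, pderiv j (s : MvPolynomial (Fin n) k) * c j)), ?_, ?_⟩
  · exact I.mul_mem_left _ (I.sub_mem (hI f) (I.mul_mem_left _ (hI _)))
  · have h0 : algebraMap O K a * algebraMap (MvPolynomial (Fin n) k) K s =
        algebraMap (MvPolynomial (Fin n) k) K f := by
      rw [htow, htow, ← hfs, map_mul]
    have h1 := congrArg D h0
    rw [D.leibniz, hp, hp] at h1
    simp only [smul_eq_mul] at h1
    have h2 : algebraMap O K ((u⁻¹ : Oˣ) : O) *
        algebraMap (MvPolynomial (Fin n) k) K (s : MvPolynomial (Fin n) k) = 1 := by
      rw [htow, ← map_mul, hu', map_one]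
    rw [map_mul, map_sub, map_mul, ← h1]
    linear_combination (-(D (algebraMap O K a))) * h2

end local_

/-- the determinant of the tangential derivations -/
theorem det_tang {L : Type*} [Field L] (j₀ : Fin n) (u : L) (w : Fin n → L) :
    Matrix.det (Matrix.of fun i j => if j = j₀ then w i else if i = j then u else 0) =
      u ^ (n - 1) * w j₀ := by
  classical
  have h1 : (Matrix.of fun i j => if j = j₀ then w i else if i = j then u else 0 :
      Matrix (Fin n) (Fin n) L) = Matrix.updateCol (u • (1 : Matrix (Fin n) (Fin n) L)) j₀ w := by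
    ext i j
    rw [Matrix.of_apply, Matrix.updateCol_apply, Matrix.smul_apply, Matrix.one_apply]
    split_ifs <;> simp
  rw [h1, ← Matrix.cramer_apply, Matrix.cramer_smul, Matrix.cramer_one, Fintype.card_fin]
  rfl

/-- The form order along a place above a prime divisor of affine space. -/
theorem formOrder_prime (p : MvPolynomial (Fin n) k) (hp : Prime p)
    {O C : Type*} [CommRing O] [IsDomain O] [IsDiscreteValuationRing O]
    [Algebra (MvPolynomial (Fin n) k) O] [Algebra O F]
    [IsScalarTower (MvPolynomial (Fin n) k) O F] [IsFractionRing O F]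
    [(Ideal.span {p}).IsPrime] [IsLocalization.AtPrime O (Ideal.span {p})]
    [CommRing C] [IsDedekindDomain C] [Algebra O C]
    [Algebra C K] [Algebra O K] [IsScalarTower O F K] [IsScalarTower O C K]
    [IsIntegralClosure C O K] [IsFractionRing C K]
    [Module.Finite O C] (Q : HeightOneSpectrum C) (e : ℤ)
    (he : Q.valuation K (algebraMap (MvPolynomial (Fin n) k) K p) = WithZero.exp (-e)) :
    IsFormOrder k (Q.valuation K) (fun i => algebraMap (MvPolynomial (Fin n) k) K (X i))
      (e - 1) := by
  classical
  have htow : ∀ f : MvPolynomial (Fin n) k, algebraMap (MvPolynomial (Fin n) k) K f =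
      algebraMap O K (algebraMap (MvPolynomial (Fin n) k) O f) := by
    intro f
    rw [IsScalarTower.algebraMap_apply (MvPolynomial (Fin n) k) F K,
      IsScalarTower.algebraMap_apply (MvPolynomial (Fin n) k) O F,
      ← IsScalarTower.algebraMap_apply O F K]
  haveI : CharZero (IsLocalRing.ResidueField O) :=
    charZero_of_injective_ringHom ((IsLocalRing.residue O).comp
      ((algebraMap (MvPolynomial (Fin n) k) O).comp MvPolynomial.C)).injective
  obtain ⟨j₀, hj₀⟩ := exists_pderiv_not_dvd p hp
  have hmax : IsLocalRing.maximalIdeal O =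
      Ideal.span {algebraMap (MvPolynomial (Fin n) k) O p} := by
    rw [← IsLocalization.AtPrime.map_eq_maximalIdeal (Ideal.span {p}) O, Ideal.map_span,
      Set.image_singleton]
  have hirr : Irreducible (algebraMap (MvPolynomial (Fin n) k) O p) :=
    (IsDiscreteValuationRing.irreducible_iff_uniformizer _).2 hmax
  have hsurj : Function.Surjective (Q.valuation K) := Q.valuation_surjective K
  have hle : ∀ f : MvPolynomial (Fin n) k,
      Q.valuation K (algebraMap (MvPolynomial (Fin n) k) K f) ≤ 1 := fun f => by
    rw [htow]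
    exact val_O_le Q _
  -- `∂ p / ∂ X_{j₀}` is a unit
  have hu : Q.valuation K (algebraMap (MvPolynomial (Fin n) k) K (pderiv j₀ p)) = 1 := by
    rw [htow]
    refine place_eq_one Q ?_
    exact IsLocalization.map_units O (⟨pderiv j₀ p, fun hmem =>
      hj₀ (Ideal.mem_span_singleton.1 hmem)⟩ : (Ideal.span {p}).primeCompl)
  have he1 : 1 ≤ e := by
    have h1 : Q.valuation K (algebraMap (MvPolynomial (Fin n) k) K p) < 1 := by
      rw [htow]
      refine val_lt_of_mem Q ?_
      rw [hmax]
      exact Ideal.mem_span_singleton_self _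
    rw [he, ← WithZero.exp_zero, WithZero.exp_lt_exp] at h1
    omega
  refine ⟨?_, fun m hm => formOrders_ge' (Q.valuation K) hsurj _ (fun i => hle _)
    (algebraMap (MvPolynomial (Fin n) k) K p) e he he1
    (fun j => algebraMap (MvPolynomial (Fin n) k) K (pderiv j p)) (fun j => hle _) j₀ hu
    (fun D => der_poly F D p) m hm⟩
  -- the derivations
  set M : Fin n → Fin n → MvPolynomial (Fin n) k := fun i j =>
    if j = j₀ then (if i = j₀ then p else - pderiv i p) else if i = j then
      (if i = j₀ then 0 else pderiv j₀ p) else 0 with hM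
  choose D hD using fun i => exists_der (k := k) F
    (fun j => algebraMap (MvPolynomial (Fin n) k) K (M i j))
  have hsum : ∀ i (f : MvPolynomial (Fin n) k), ∑ j, pderiv j f * M i j =
      if i = j₀ then pderiv j₀ f * p else
        pderiv i f * pderiv j₀ p - pderiv j₀ f * pderiv i p := by
    intro i f
    by_cases hi : i = j₀
    · rw [if_pos hi, Finset.sum_eq_single j₀]
      · simp only [hM, if_true, if_pos hi]
      · intro j _ hj
        simp only [hM]
        rw [if_neg hj, if_pos hi]
        split_ifs <;> simp
      · intro h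
        exact absurd (Finset.mem_univ _) h
    · rw [if_neg hi, ← Finset.add_sum_erase _ _ (Finset.mem_univ j₀),
        ← Finset.add_sum_erase _ _ (Finset.mem_erase.2 ⟨hi, Finset.mem_univ i⟩),
        Finset.sum_eq_zero]
      · simp only [hM, if_true, if_neg hi]
        ring
      · intro j hj
        rw [Finset.mem_erase, Finset.mem_erase] at hj
        simp only [hM]
        rw [if_neg hj.2.1, if_neg (fun h => hj.1 h.symm), mul_zero]
  have hlog : ∀ i z, Q.valuation K (D i z) ≤ Q.valuation K z := by
    intro i z
    refine der_log (D i) (fun a => ?_) _ hirr ?_ Q z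
    · obtain ⟨b, -, hb⟩ := der_local F p (D i) (M i) (hD i) ⊤
        (fun f => Submodule.mem_top) a
      exact ⟨b, hb⟩
    · by_cases hi : i = j₀
      · refine ⟨algebraMap (MvPolynomial (Fin n) k) O (pderiv j₀ p), ?_⟩
        rw [← htow, der_poly F (D i) p, ← map_mul, ← htow]
        have h1 := hsum i p
        rw [if_pos hi] at h1
        rw [mul_comm p, ← h1, map_sum]
        refine Finset.sum_congr rfl fun j _ => ?_
        rw [map_mul, hD]
      · refine ⟨0, ?_⟩
        rw [← htow, der_poly F (D i) p, mul_zero, map_zero]
        have h1 := hsum i p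
        rw [if_neg hi, mul_comm (pderiv i p), sub_self] at h1
        have h2 := congrArg (algebraMap (MvPolynomial (Fin n) k) K) h1
        rw [map_zero, map_sum] at h2
        rw [← h2]
        refine Finset.sum_congr rfl fun j _ => ?_
        rw [map_mul, hD]
  refine mem_formOrders (Q.valuation K) hsurj _ D hlog j₀ (fun z hz => ?_) e ?_
  · refine der_log_zero (O := O) (D j₀) (fun a => ?_) Q z hz
    refine der_local F p (D j₀) (M j₀) (hD j₀) _ (fun f => ?_) a
    rw [hsum, if_pos rfl, map_mul, hmax]
    exact Ideal.mul_mem_left _ _ (Ideal.mem_span_singleton_self _)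
  · have h1 : (Matrix.of fun i j => D i (algebraMap (MvPolynomial (Fin n) k) K (X j)) :
        Matrix (Fin n) (Fin n) K) = Matrix.of fun i j => if j = j₀ then
          (algebraMap (MvPolynomial (Fin n) k) K (if i = j₀ then p else - pderiv i p)) else
          if i = j then algebraMap (MvPolynomial (Fin n) k) K (pderiv j₀ p) else 0 := by
      ext i j
      rw [Matrix.of_apply, Matrix.of_apply, hD]
      simp only [hM]
      by_cases hj : j = j₀
      · rw [if_pos hj, if_pos hj]
      · rw [if_neg hj, if_neg hj]
        by_cases hij : i = j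
        · rw [if_pos hij, if_pos hij, if_neg (fun h => hj (hij ▸ h))]
        · rw [if_neg hij, if_neg hij, map_zero]
    rw [h1, det_tang j₀ _ (fun i => algebraMap (MvPolynomial (Fin n) k) K
      (if i = j₀ then p else - pderiv i p)), map_mul, map_pow, hu, one_pow, one_mul, if_pos rfl,
      he]

end Pool.Agent.ODP
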