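import Pool.Agent.ODP.Defs
import Pool.Agent.ODP.Ded
import Pool.Agent.ODP.FormOrd2

/-!
# The canonical generator and the trace form
-/

open scoped WithZero
open IsDedekindDomain MvPolynomial

namespace Pool.Agent.ODP

set_option linter.unusedSectionVars false

variable {k : Type*} [Field k] [CharZero k] {n : ℕ} {B F K : Type*}
  [CommRing B] [IsDomain B] [IsIntegrallyClosed B]
  [Algebra (MvPolynomial (Fin n) k) B] [Module.Finite (MvPolynomial (Fin n) k) B]
  [Module.Free (MvPolynomial (Fin n) k) B]
  [Field F] [Algebra (MvPolynomial (Fin n) k) F] [IsFractionRing (MvPolynomial (Fin n) k) F]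
  [Algebra k F] [IsScalarTower k (MvPolynomial (Fin n) k) F]
  [Field K] [Algebra B K] [IsFractionRing B K] [Algebra F K] [FiniteDimensional F K]
  [Algebra (MvPolynomial (Fin n) k) K] [IsScalarTower (MvPolynomial (Fin n) k) F K]
  [IsScalarTower (MvPolynomial (Fin n) k) B K]
  [Algebra k K] [IsScalarTower k F K]

/-- What the places above the prime `p` do. -/
theorem one_prime (p : MvPolynomial (Fin n) k) (hp : Prime p)
    (O C : Type*) [CommRing O] [IsDomain O] [IsDiscreteValuationRing O]
    [Algebra (MvPolynomial (Fin n) k) O] [Algebra O F]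
    [IsScalarTower (MvPolynomial (Fin n) k) O F] [IsFractionRing O F]
    [(Ideal.span {p}).IsPrime] [IsLocalization.AtPrime O (Ideal.span {p})]
    [CommRing C] [IsDedekindDomain C] [Algebra O C]
    [Algebra C K] [Algebra O K] [IsScalarTower O F K] [IsScalarTower O C K]
    [IsIntegralClosure C O K] [IsFractionRing C K]
    [Module.Finite O C] :
    (∀ Q : HeightOneSpectrum C, IsPrimeDivisor B (Q.valuation K) ∧
      (∀ s : MvPolynomial (Fin n) k, Q.valuation K (algebraMap _ K s) ≤ 1) ∧
      (∀ s : MvPolynomial (Fin n) k, ¬ p ∣ s → Q.valuation K (algebraMap _ K s) = 1) ∧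
      Q.valuation K (algebraMap _ K p) < 1 ∧
      ∀ e : ℤ, Q.valuation K (algebraMap _ K p) = WithZero.exp (-e) →
        IsFormOrder k (Q.valuation K) (fun i => algebraMap (MvPolynomial (Fin n) k) K (X i))
          (e - 1)) ∧
    Finite (HeightOneSpectrum C) ∧
    (∀ z : K, (∀ Q : HeightOneSpectrum C, Q.valuation K z ≤ 1) →
      ∃ s : MvPolynomial (Fin n) k, ¬ p ∣ s ∧ ∃ b : B, algebraMap _ K s * z = algebraMap B K b) ∧
    (∀ z : K, (∀ Q : HeightOneSpectrum C, Q.valuation K (algebraMap _ K p * z) < 1) →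
      ∃ s : MvPolynomial (Fin n) k, ¬ p ∣ s ∧ ∃ a : MvPolynomial (Fin n) k,
        algebraMap _ F s * Algebra.trace F K z = algebraMap _ F a) ∧
    (∀ z : K, (∀ b : B, ∃ a : MvPolynomial (Fin n) k,
      algebraMap _ F a = Algebra.trace F K (z * algebraMap B K b)) →
      ∀ Q : HeightOneSpectrum C, Q.valuation K (algebraMap _ K p * z) < 1) := by
  have tower : IsScalarTower (MvPolynomial (Fin n) k) O K := by
    refine IsScalarTower.of_algebraMap_eq fun s => ?_
    rw [IsScalarTower.algebraMap_apply (MvPolynomial (Fin n) k) F K,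
      IsScalarTower.algebraMap_apply (MvPolynomial (Fin n) k) O F,
      ← IsScalarTower.algebraMap_apply O F K]
  have h0 := torsionFree_C O F K C
  have mem_pc : ∀ s : MvPolynomial (Fin n) k, s ∈ (Ideal.span {p}).primeCompl ↔ ¬ p ∣ s := by
    intro s
    rw [Ideal.mem_primeCompl_iff, Ideal.mem_span_singleton]
  have hPO : ∀ s : MvPolynomial (Fin n) k, algebraMap _ K s =
      algebraMap O K (algebraMap _ O s) := fun s =>
    IsScalarTower.algebraMap_apply (MvPolynomial (Fin n) k) O K s
  have hunit : ∀ s : MvPolynomial (Fin n) k, ¬ p ∣ s → IsUnit (algebraMap _ O s) := fun s hs =>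
    IsLocalization.map_units O (⟨s, (mem_pc s).2 hs⟩ : (Ideal.span {p}).primeCompl)
  have hle : ∀ (Q : HeightOneSpectrum C) (s : MvPolynomial (Fin n) k),
      Q.valuation K (algebraMap _ K s) ≤ 1 := by
    intro Q s
    rw [hPO]
    exact place_le_one Q _
  have heq : ∀ (Q : HeightOneSpectrum C) (s : MvPolynomial (Fin n) k), ¬ p ∣ s →
      Q.valuation K (algebraMap _ K s) = 1 := by
    intro Q s hs
    rw [hPO]
    exact place_eq_one Q (hunit s hs)
  have hlt : ∀ Q : HeightOneSpectrum C, Q.valuation K (algebraMap _ K p) < 1 := by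
    intro Q
    rw [hPO]
    refine place_lt_one Q ?_
    rw [IsLocalization.AtPrime.to_map_mem_maximal_iff O (Ideal.span {p})]
    exact Ideal.mem_span_singleton_self p
  -- `B ⊆ C`
  have hBC : ∀ b : B, ∃ c : C, algebraMap C K c = algebraMap B K b := by
    intro b
    have h1 : IsIntegral (MvPolynomial (Fin n) k) (algebraMap B K b) :=
      (Algebra.IsIntegral.isIntegral b).map
        (IsScalarTower.toAlgHom (MvPolynomial (Fin n) k) B K)
    have h2 : IsIntegral O (algebraMap B K b) := h1.tower_top
    exact (IsIntegralClosure.isIntegral_iff (A := C)).1 h2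
  -- `C` is the localization of `B`
  have hCB : ∀ c : C, ∃ s : MvPolynomial (Fin n) k, ¬ p ∣ s ∧ ∃ b : B,
      algebraMap (MvPolynomial (Fin n) k) K s * algebraMap C K c = algebraMap B K b := by
    intro c
    have h1 : IsIntegral O (algebraMap C K c) := IsIntegralClosure.isIntegral_iff.2 ⟨c, rfl⟩
    obtain ⟨⟨s, hs⟩, h2⟩ := IsIntegral.exists_multiple_integral_of_isLocalization
      (Ideal.span {p}).primeCompl _ h1
    obtain ⟨b, hb⟩ := (IsIntegralClosure.isIntegral_iff (A := B)).1 h2
    refine ⟨s, (mem_pc s).1 hs, b, ?_⟩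
    rw [hb, Submonoid.smul_def, Algebra.smul_def]
  have hBle : ∀ (Q : HeightOneSpectrum C) (b : B), Q.valuation K (algebraMap B K b) ≤ 1 := by
    intro Q b
    obtain ⟨c, hc⟩ := hBC b
    rw [← hc]
    exact Q.valuation_le_one c
  have hcF : CharZero F := charZero_of_injective_algebraMap (algebraMap k F).injective
  have ht : Irreducible (algebraMap (MvPolynomial (Fin n) k) O p) := by
    rw [IsDiscreteValuationRing.irreducible_iff_uniformizer,
      ← IsLocalization.AtPrime.map_eq_maximalIdeal (Ideal.span {p}) O, Ideal.map_span,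
      Set.image_singleton]
  refine ⟨fun Q => ⟨⟨⟨Q.valuation_surjective K, hBle Q⟩, ?_⟩, hle Q, heq Q, hlt Q, fun e he =>
    formOrder_prime (F := F) p hp (O := O) (C := C) Q e he⟩, finite_places O C, ?_, ?_, ?_⟩
  · -- the valuation ring is a local ring of `B`
    intro z hz
    obtain ⟨a, d, hd, had⟩ : ∃ a d : C, Q.valuation K (algebraMap C K d) = 1 ∧
        z * algebraMap C K d = algebraMap C K a := by
      obtain ⟨a, d, h | h⟩ := Q.exists_primeCompl_mul_eq_or_mul_eq (K := K) z
      · exact ⟨a, d, (HeightOneSpectrum.valuation_eq_one_iff_notMem (K := K) (v := Q)).mpr d.2,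
          h⟩
      · refine ⟨d, a, ?_, h⟩
        have hd1 : Q.valuation K (algebraMap C K d) = 1 :=
          (HeightOneSpectrum.valuation_eq_one_iff_notMem (K := K) (v := Q)).mpr d.2
        rw [← h, map_mul] at hd1
        refine le_antisymm (Q.valuation_le_one a) ?_
        calc (1 : ℤᵐ⁰) = Q.valuation K z * Q.valuation K (algebraMap C K a) := hd1.symm
          _ ≤ 1 * Q.valuation K (algebraMap C K a) := mul_le_mul' hz le_rfl
          _ = _ := one_mul _
    obtain ⟨s, hs, b, hb⟩ := hCB d
    obtain ⟨s', hs', b', hb'⟩ := hCB a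
    refine ⟨algebraMap _ B s * b', algebraMap _ B s' * b, ?_, ?_⟩
    · rw [map_mul, map_mul, ← hb, map_mul, ← IsScalarTower.algebraMap_apply, heq Q s hs,
        heq Q s' hs', hd, one_mul, one_mul]
    · rw [map_mul, map_mul, ← hb, ← hb', ← IsScalarTower.algebraMap_apply,
        ← IsScalarTower.algebraMap_apply, ← had]
      ring
  · -- integral at all places
    intro z hz
    obtain ⟨c, rfl⟩ := HeightOneSpectrum.mem_integers_of_valuation_le_one (R := C) K z hz
    exact hCB c
  · -- traces
    intro z hz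
    obtain ⟨r, hr⟩ := trace_integral (F := F) (C := C) _ ht z (fun Q => by
      rw [← hPO]
      exact hz Q)
    obtain ⟨⟨a, s, hs⟩, hx⟩ := IsLocalization.surj (Ideal.span {p}).primeCompl r
    refine ⟨s, (mem_pc s).1 hs, a, ?_⟩
    rw [← hr, IsScalarTower.algebraMap_apply (MvPolynomial (Fin n) k) O F a, ← hx, map_mul,
      ← IsScalarTower.algebraMap_apply, mul_comm]
  · intro z hz
    have hcz : CharZero (IsLocalRing.ResidueField O) := by
      have f : k →+* IsLocalRing.ResidueField O := (IsLocalRing.residue O).comp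
        ((algebraMap (MvPolynomial (Fin n) k) O).comp (algebraMap k (MvPolynomial (Fin n) k)))
      exact charZero_of_injective_ringHom f.injective
    have key := codiff_le (F := F) (K := K) (C := C) (algebraMap _ O p) ht z (fun c => by
      obtain ⟨s, hs, b, hb⟩ := hCB c
      obtain ⟨a, ha⟩ := hz b
      obtain ⟨w, hw⟩ := (hunit s hs).exists_right_inv
      refine ⟨algebraMap _ O a * w, ?_⟩
      have h1 : algebraMap _ F s * Algebra.trace F K (z * algebraMap C K c) =
          algebraMap _ F a := by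
        rw [ha, ← hb, ← smul_eq_mul, ← map_smul, Algebra.smul_def,
          ← IsScalarTower.algebraMap_apply]
        congr 1
        ring
      have h2 : algebraMap (MvPolynomial (Fin n) k) F s * algebraMap O F w = 1 := by
        rw [IsScalarTower.algebraMap_apply (MvPolynomial (Fin n) k) O F, ← map_mul, hw, map_one]
      rw [map_mul, ← IsScalarTower.algebraMap_apply, ← h1]
      calc algebraMap (MvPolynomial (Fin n) k) F s * Algebra.trace F K (z * algebraMap C K c) *
            algebraMap O F w
          = (algebraMap (MvPolynomial (Fin n) k) F s * algebraMap O F w) *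
            Algebra.trace F K (z * algebraMap C K c) := by ring
        _ = _ := by rw [h2, one_mul])
    intro Q
    rw [hPO]
    exact key Q

/-- the places above the prime `p` -/
theorem exists_places (p : MvPolynomial (Fin n) k) (hp : Prime p) :
    ∃ S : Set (Valuation K ℤᵐ⁰), S.Finite ∧
    (∀ v ∈ S, IsPrimeDivisor B v ∧
      (∀ s : MvPolynomial (Fin n) k, v (algebraMap _ K s) ≤ 1) ∧
      (∀ s : MvPolynomial (Fin n) k, ¬ p ∣ s → v (algebraMap _ K s) = 1) ∧
      v (algebraMap _ K p) < 1 ∧
      ∀ e : ℤ, v (algebraMap _ K p) = WithZero.exp (-e) →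
        IsFormOrder k v (fun i => algebraMap (MvPolynomial (Fin n) k) K (X i)) (e - 1)) ∧
    (∀ z : K, (∀ v ∈ S, v z ≤ 1) →
      ∃ s : MvPolynomial (Fin n) k, ¬ p ∣ s ∧ ∃ b : B, algebraMap _ K s * z = algebraMap B K b) ∧
    (∀ z : K, (∀ v ∈ S, v (algebraMap _ K p * z) < 1) →
      ∃ s : MvPolynomial (Fin n) k, ¬ p ∣ s ∧ ∃ a : MvPolynomial (Fin n) k,
        algebraMap _ F s * Algebra.trace F K z = algebraMap _ F a) ∧
    (∀ z : K, (∀ b : B, ∃ a : MvPolynomial (Fin n) k,
      algebraMap _ F a = Algebra.trace F K (z * algebraMap B K b)) →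
      ∀ v ∈ S, v (algebraMap _ K p * z) < 1) := by
  have hpI : (Ideal.span {p}).IsPrime := (Ideal.span_singleton_prime hp.ne_zero).2 hp
  have hcF : CharZero F := charZero_of_injective_algebraMap (algebraMap k F).injective
  let O := Localization.subalgebra.ofField F (Ideal.span {p}).primeCompl
    (Ideal.primeCompl_le_nonZeroDivisors _)
  have h1 : IsLocalization.AtPrime O (Ideal.span {p}) :=
    Localization.subalgebra.isLocalization_ofField F _ _
  have h2 : IsFractionRing O F := Localization.subalgebra.isFractionRing_ofField F _ _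
  have h3 : IsLocalRing O := IsLocalization.AtPrime.isLocalRing O (Ideal.span {p})
  have h4 : IsNoetherianRing O :=
    IsLocalization.isNoetherianRing (Ideal.span {p}).primeCompl O inferInstance
  have h5 : IsLocalRing.maximalIdeal O = Ideal.span {algebraMap _ O p} := by
    rw [← IsLocalization.AtPrime.map_eq_maximalIdeal (Ideal.span {p}) O, Ideal.map_span,
      Set.image_singleton]
  have h6 : algebraMap (MvPolynomial (Fin n) k) O p ≠ 0 := by
    intro h
    apply hp.ne_zero
    have h7 : Function.Injective (algebraMap (MvPolynomial (Fin n) k) O) :=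
      IsLocalization.injective O (Ideal.primeCompl_le_nonZeroDivisors (Ideal.span {p}))
    exact h7 (by rw [h, map_zero])
  have h7 : IsDiscreteValuationRing O := by
    refine ((IsDiscreteValuationRing.TFAE O ?_).out 4 0).1 ?_
    · rw [IsLocalRing.isField_iff_maximalIdeal_eq, h5, Ideal.span_singleton_eq_bot]
      exact h6
    · rw [h5]
      exact ⟨⟨_, rfl⟩⟩
  let C := integralClosure O K
  have h8 : IsDedekindDomain C := integralClosure.isDedekindDomain O F K
  have h9 : IsFractionRing C K := integralClosure.isFractionRing_of_finite_extension F K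
  have h10 : Module.Finite O C := IsIntegralClosure.finite O F K C
  obtain ⟨k1, k2, k3, k4, k5⟩ := one_prime (B := B) (F := F) (K := K) p hp O C
  refine ⟨Set.range fun Q : HeightOneSpectrum C => Q.valuation K, Set.finite_range _, ?_, ?_, ?_,
    ?_⟩
  · rintro _ ⟨Q, rfl⟩
    exact k1 Q
  · intro z hz
    exact k3 z fun Q => hz _ ⟨Q, rfl⟩
  · intro z hz
    exact k4 z fun Q => hz _ ⟨Q, rfl⟩
  · rintro z hz _ ⟨Q, rfl⟩
    exact k5 z hz Q

section ufd

variable {k : Type*} [Field k] {n : ℕ}

/-- a chosen representative of the class of associates -/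
noncomputable def rep (p : MvPolynomial (Fin n) k) : MvPolynomial (Fin n) k :=
  Quotient.out (Associates.mk p)

theorem rep_assoc (p : MvPolynomial (Fin n) k) : Associated (rep p) p :=
  Associates.mk_eq_mk_iff_associated.1 (Quotient.out_eq _)

theorem rep_eq {p q : MvPolynomial (Fin n) k} (h : Associated p q) : rep p = rep q := by
  unfold rep
  rw [Associates.mk_eq_mk_iff_associated.2 h]

theorem rep_rep (p : MvPolynomial (Fin n) k) : rep (rep p) = rep p := rep_eq (rep_assoc p)

variable {F : Type*} [Field F] [Algebra (MvPolynomial (Fin n) k) F]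
  [IsFractionRing (MvPolynomial (Fin n) k) F]

/-- an element of all localizations at primes is a polynomial -/
theorem mem_of_local (t : F) (h : ∀ p : MvPolynomial (Fin n) k, Prime p → rep p = p →
    ∃ s, ¬ p ∣ s ∧ ∃ a, algebraMap _ F s * t = algebraMap (MvPolynomial (Fin n) k) F a) :
    ∃ a, algebraMap (MvPolynomial (Fin n) k) F a = t := by
  obtain ⟨a, b, hab, rfl⟩ := IsFractionRing.exists_reduced_fraction
    (A := MvPolynomial (Fin n) k) t
  have hinj := IsFractionRing.injective (MvPolynomial (Fin n) k) F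
  by_cases hb : IsUnit (b : MvPolynomial (Fin n) k)
  · obtain ⟨w, hw⟩ := hb.exists_right_inv
    refine ⟨a * w, ?_⟩
    rw [IsLocalization.eq_mk'_iff_mul_eq, ← map_mul]
    congr 1
    calc a * w * (b : MvPolynomial (Fin n) k) = a * (b * w) := by ring
      _ = a := by rw [hw, mul_one]
  · exfalso
    have hb0 : (b : MvPolynomial (Fin n) k) ≠ 0 := nonZeroDivisors.ne_zero b.2
    obtain ⟨q, hq, hqb⟩ := WfDvdMonoid.exists_irreducible_factor hb hb0
    have hp : Prime (rep q) := (rep_assoc q).symm.prime hq.prime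
    obtain ⟨s, hs, a', ha'⟩ := h (rep q) hp (rep_rep q)
    have h1 : s * a = a' * (b : MvPolynomial (Fin n) k) := by
      apply hinj
      rw [map_mul, map_mul, ← ha', mul_assoc, IsLocalization.mk'_spec]
    have h2 : rep q ∣ (b : MvPolynomial (Fin n) k) := (rep_assoc q).dvd.trans hqb
    have h3 : rep q ∣ s * a := by
      rw [h1]
      exact h2.mul_left _
    rcases hp.dvd_or_dvd h3 with h4 | h4
    · exact hs h4
    · exact hp.not_unit (hab h4 h2)

end ufd

variable (F) in
include F in
/-- an element of all localizations of `B` at primes of `k[X]` is in `B` -/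
theorem mem_B_of_local (t : K) (h : ∀ p : MvPolynomial (Fin n) k, Prime p → rep p = p →
    ∃ s, ¬ p ∣ s ∧ ∃ b : B, algebraMap (MvPolynomial (Fin n) k) K s * t = algebraMap B K b) :
    ∃ b : B, algebraMap B K b = t := by
  have : IsLocalization (Algebra.algebraMapSubmonoid B (nonZeroDivisors (MvPolynomial (Fin n) k)))
    K := IsIntegralClosure.isLocalization (MvPolynomial (Fin n) k) F K B
  set b0 := Module.Free.chooseBasis (MvPolynomial (Fin n) k) B with hb0
  set bK := b0.localizationLocalization F (nonZeroDivisors (MvPolynomial (Fin n) k)) K with hbK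
  have h1 : ∀ i, ∃ a, algebraMap (MvPolynomial (Fin n) k) F a = bK.repr t i := by
    intro i
    apply mem_of_local
    intro p hp hrep
    obtain ⟨s, hs, b, hb⟩ := h p hp hrep
    refine ⟨s, hs, b0.repr b i, ?_⟩
    rw [← Module.Basis.localizationLocalization_repr_algebraMap F
      (nonZeroDivisors (MvPolynomial (Fin n) k)) K b0 b i, ← hbK, ← hb,
      IsScalarTower.algebraMap_apply (MvPolynomial (Fin n) k) F K,
      ← Algebra.smul_def (algebraMap (MvPolynomial (Fin n) k) F s) t, map_smul,
      Finsupp.smul_apply, smul_eq_mul]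
  choose a ha using h1
  refine ⟨∑ i, a i • b0 i, ?_⟩
  rw [map_sum, ← bK.sum_repr t]
  refine Finset.sum_congr rfl fun i _ => ?_
  rw [hbK, Module.Basis.localizationLocalization_apply, ← hbK, ← ha i, Algebra.smul_def,
    Algebra.smul_def, map_mul, ← IsScalarTower.algebraMap_apply,
    ← IsScalarTower.algebraMap_apply]

/-- the centre of `v` is inside `x` -/
def CentreIn {B K : Type*} [CommRing B] [Field K] [Algebra B K] (x : Ideal B)
    (v : Valuation K ℤᵐ⁰) : Prop := ∀ b : B, v (algebraMap B K b) < 1 → b ∈ x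

theorem fin_step {B K : Type*} [CommRing B] [Field K] [Algebra B K] {x : Ideal B}
    (hx : x.IsPrime) {T : Set (Valuation K ℤᵐ⁰)} (hT : T.Finite)
    (hT1 : ∀ v ∈ T, ∀ b : B, v (algebraMap B K b) ≤ 1) {s : K} (hs : s ≠ 0) :
    ∃ b : B, b ∉ x ∧ ∀ v ∈ T, ¬ CentreIn x v → v (algebraMap B K b) ≤ v s := by
  induction T, hT using Set.Finite.induction_on with
  | empty => exact ⟨1, (Ideal.ne_top_iff_one x).1 hx.ne_top, by simp⟩
  | @insert v T _ _ ih =>
    obtain ⟨b, hb, hb2⟩ := ih fun w hw => hT1 w (Set.mem_insert_of_mem _ hw)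
    by_cases hc : CentreIn x v
    · refine ⟨b, hb, ?_⟩
      intro w hw hwc
      rcases Set.mem_insert_iff.1 hw with rfl | hw
      · exact absurd hc hwc
      · exact hb2 w hw hwc
    · unfold CentreIn at hc
      push Not at hc
      obtain ⟨b₀, h1, h2⟩ := hc
      have hv : v s ≠ 0 := (Valuation.ne_zero_iff v).2 hs
      obtain ⟨N, hN⟩ := exists_pow_lt₀ h1 (Units.mk0 (v s) hv)
      rw [Units.val_mk0] at hN
      refine ⟨b₀ ^ N * b, fun h => ?_, ?_⟩
      · rcases hx.mem_or_mem h with h3 | h3
        · exact h2 (hx.mem_of_pow_mem N h3)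
        · exact hb h3
      · intro w hw hwc
        rw [map_mul, map_pow, map_mul, map_pow]
        rcases Set.mem_insert_iff.1 hw with rfl | hw'
        · calc w (algebraMap B K b₀) ^ N * w (algebraMap B K b) ≤ w s * 1 :=
              mul_le_mul' hN.le (hT1 w hw b)
            _ = w s := mul_one _
        · calc w (algebraMap B K b₀) ^ N * w (algebraMap B K b) ≤ 1 * w s :=
              mul_le_mul' (pow_le_one' (hT1 w hw b₀) N) (hb2 w hw' hwc)
            _ = w s := one_mul _

theorem exists_den_poly {k : Type*} [Field k] {n : ℕ} {B K : Type*} [CommRing B] [Field K]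
    [Algebra B K] [Algebra (MvPolynomial (Fin n) k) K]
    (hinj : Function.Injective (algebraMap (MvPolynomial (Fin n) k) K)) {x : Ideal B}
    (hx : x.IsPrime) (S : MvPolynomial (Fin n) k → Set (Valuation K ℤᵐ⁰))
    (hfin : ∀ p, Prime p → (S p).Finite)
    (hB : ∀ p, Prime p → ∀ v ∈ S p, ∀ b : B, v (algebraMap B K b) ≤ 1)
    (h1 : ∀ p, Prime p → ∀ v ∈ S p, ∀ s : MvPolynomial (Fin n) k, ¬ p ∣ s →
      v (algebraMap _ K s) = 1) (s : MvPolynomial (Fin n) k) (hs : s ≠ 0) :
    ∃ b : B, b ∉ x ∧ ∀ p, Prime p → rep p = p → ∀ v ∈ S p, ¬ CentreIn x v →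
      v (algebraMap B K b) ≤ v (algebraMap _ K s) := by
  induction s using UniqueFactorizationMonoid.induction_on_prime with
  | h₁ => exact absurd rfl hs
  | h₂ s hu =>
    refine ⟨1, (Ideal.ne_top_iff_one x).1 hx.ne_top, ?_⟩
    intro p hp _ v hv _
    rw [map_one, map_one, h1 p hp v hv s fun h => hp.not_unit (isUnit_of_dvd_unit h hu)]
  | h₃ a p₀ ha hp₀ ih =>
    obtain ⟨b, hb, hb2⟩ := ih ha
    have hq : Prime (rep p₀) := (rep_assoc p₀).symm.prime hp₀
    have h0 : algebraMap (MvPolynomial (Fin n) k) K p₀ ≠ 0 := by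
      intro h
      exact hp₀.ne_zero (hinj (by rw [h, map_zero]))
    obtain ⟨b', hb', hb2'⟩ := fin_step hx (hfin _ hq) (hB _ hq) h0
    refine ⟨b' * b, fun h => ?_, ?_⟩
    · rcases hx.mem_or_mem h with h3 | h3
      · exact hb' h3
      · exact hb h3
    · intro p hp hrep v hv hc
      rw [map_mul, map_mul, map_mul, map_mul]
      refine mul_le_mul' ?_ (hb2 p hp hrep v hv hc)
      by_cases hpp : p = rep p₀
      · subst hpp
        exact hb2' v hv hc
      · rw [h1 p hp v hv p₀ fun h => hpp ?_]
        · exact hB p hp v hv b'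
        · rw [← hrep]
          exact rep_eq (hp.associated_of_dvd hp₀ h)

variable (F) in
include F in
theorem exists_num (u : K) : ∃ s : MvPolynomial (Fin n) k, s ≠ 0 ∧
    ∃ b : B, algebraMap _ K s * u = algebraMap B K b := by
  have : IsLocalization (Algebra.algebraMapSubmonoid B (nonZeroDivisors (MvPolynomial (Fin n) k)))
    K := IsIntegralClosure.isLocalization (MvPolynomial (Fin n) k) F K B
  obtain ⟨⟨b, _, s, hs, rfl⟩, h⟩ := IsLocalization.surj
    (Algebra.algebraMapSubmonoid B (nonZeroDivisors (MvPolynomial (Fin n) k))) u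
  refine ⟨s, nonZeroDivisors.ne_zero hs, b, ?_⟩
  rw [← h, IsScalarTower.algebraMap_apply (MvPolynomial (Fin n) k) B K, mul_comm]

variable (F) in
include F in
theorem exists_den {x : Ideal B}
    (hx : x.IsPrime) (S : MvPolynomial (Fin n) k → Set (Valuation K ℤᵐ⁰))
    (hfin : ∀ p, Prime p → (S p).Finite)
    (hB : ∀ p, Prime p → ∀ v ∈ S p, ∀ b : B, v (algebraMap B K b) ≤ 1)
    (h1 : ∀ p, Prime p → ∀ v ∈ S p, ∀ s : MvPolynomial (Fin n) k, ¬ p ∣ s →
      v (algebraMap _ K s) = 1) (u : K) :
    ∃ b : B, b ∉ x ∧ ∀ p, Prime p → rep p = p → ∀ v ∈ S p, ¬ CentreIn x v →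
      v (algebraMap B K b * u) ≤ 1 := by
  have hinj : Function.Injective (algebraMap (MvPolynomial (Fin n) k) K) := by
    rw [IsScalarTower.algebraMap_eq (MvPolynomial (Fin n) k) F K]
    exact (algebraMap F K).injective.comp (IsFractionRing.injective _ F)
  obtain ⟨s, hs, b', hb'⟩ := exists_num (k := k) (n := n) (B := B) F u
  obtain ⟨b, hb, hb2⟩ := exists_den_poly hinj hx S hfin hB h1 s hs
  refine ⟨b, hb, ?_⟩
  intro p hp hrep v hv hc
  calc v (algebraMap B K b * u) = v (algebraMap B K b) * v u := map_mul _ _ _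
    _ ≤ v (algebraMap _ K s) * v u := mul_le_mul' (hb2 p hp hrep v hv hc) le_rfl
    _ = v (algebraMap B K b') := by rw [← map_mul, hb']
    _ ≤ 1 := hB p hp v hv b'

/-- `Tr (b₀ b / g)` is a polynomial for all `b`, for some `b₀` outside `x`. -/
theorem canonical_trace_mem (x : Ideal B) [x.IsPrime] (g : K)
    (hg : IsCanonicalAt k x (fun i => algebraMap (MvPolynomial (Fin n) k) K (X i)) g) :
    ∃ b₀ : B, b₀ ∉ x ∧ ∀ b : B, ∃ p : MvPolynomial (Fin n) k,
      algebraMap (MvPolynomial (Fin n) k) F p =
        Algebra.trace F K (algebraMap B K b₀ * algebraMap B K b / g) := by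
  have hpl := fun (p : MvPolynomial (Fin n) k) (hp : Prime p) =>
    exists_places (B := B) (F := F) (K := K) p hp
  choose! S hfin h1 h2 h3 h4 using hpl
  obtain ⟨b₀, hb₀, hden⟩ := exists_den F (x := x) inferInstance S hfin
    (fun p hp v hv b => (h1 p hp v hv).1.nonneg b) (fun p hp v hv => (h1 p hp v hv).2.2.1) g⁻¹
  refine ⟨b₀, hb₀, fun b => mem_of_local _ fun p hp hrep => h3 p hp _ fun v hv => ?_⟩
  obtain ⟨k1, k2, k3, k4, k5⟩ := h1 p hp v hv
  have h0 : v (algebraMap _ K p) ≠ 0 := by
    rw [Valuation.ne_zero_iff, IsScalarTower.algebraMap_apply _ F K]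
    intro h
    exact hp.ne_zero (IsFractionRing.injective _ F ((algebraMap F K).injective
      (by rw [h, map_zero, map_zero])))
  have hz : v (algebraMap _ K p * (algebraMap B K b₀ * algebraMap B K b / g)) =
      v (algebraMap _ K p) * v (algebraMap B K b₀ * g⁻¹) * v (algebraMap B K b) := by
    simp only [div_eq_mul_inv, map_mul]
    ac_rfl
  rw [hz]
  have hb1 : v (algebraMap B K b) ≤ 1 := k1.nonneg b
  by_cases hc : CentreIn x v
  · obtain ⟨m, hm, hgm⟩ := hg.2 v k1 hc
    have he : v (algebraMap _ K p) = WithZero.exp (-(-WithZero.log (v (algebraMap _ K p)))) := by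
      rw [neg_neg, WithZero.exp_log h0]
    have hme := hm.unique (k5 _ he)
    have hpg : v (algebraMap _ K p) * v (algebraMap B K b₀ * g⁻¹) < 1 := by
      have h5 : v (algebraMap B K b₀ * g⁻¹) ≤ WithZero.exp m := by
        rw [map_mul, map_inv₀, hgm, ← WithZero.exp_neg, neg_neg]
        calc v (algebraMap B K b₀) * WithZero.exp m ≤ 1 * WithZero.exp m :=
              mul_le_mul' (k1.nonneg b₀) le_rfl
          _ = _ := one_mul _
      calc v (algebraMap _ K p) * v (algebraMap B K b₀ * g⁻¹)
          ≤ v (algebraMap _ K p) * WithZero.exp m := mul_le_mul' le_rfl h5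
        _ = WithZero.exp (-1 : ℤ) := by
            rw [he, hme, ← WithZero.exp_add]
            congr 1
            ring
        _ < 1 := by
            rw [← WithZero.exp_zero, WithZero.exp_lt_exp]
            omega
    calc v (algebraMap _ K p) * v (algebraMap B K b₀ * g⁻¹) * v (algebraMap B K b)
        ≤ v (algebraMap _ K p) * v (algebraMap B K b₀ * g⁻¹) * 1 := mul_le_mul' le_rfl hb1
      _ = _ := mul_one _
      _ < 1 := hpg
  · have h5 := hden p hp hrep v hv hc
    calc v (algebraMap _ K p) * v (algebraMap B K b₀ * g⁻¹) * v (algebraMap B K b)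
        ≤ v (algebraMap _ K p) * 1 * 1 := mul_le_mul' (mul_le_mul' le_rfl h5) hb1
      _ = v (algebraMap _ K p) := by rw [mul_one, mul_one]
      _ < 1 := k4

/-- If `Tr (z b)` is a polynomial for all `b`, then `z` is in `g⁻¹ B` near `x`. -/
theorem canonical_trace_gen (x : Ideal B) [x.IsPrime] (g : K)
    (hg : IsCanonicalAt k x (fun i => algebraMap (MvPolynomial (Fin n) k) K (X i)) g) (z : K)
    (hz : ∀ b : B, ∃ p : MvPolynomial (Fin n) k,
      algebraMap (MvPolynomial (Fin n) k) F p = Algebra.trace F K (z * algebraMap B K b)) :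
    ∃ b₁ : B, b₁ ∉ x ∧ ∃ b₂ : B, algebraMap B K b₁ * z * g = algebraMap B K b₂ := by
  have hpl := fun (p : MvPolynomial (Fin n) k) (hp : Prime p) =>
    exists_places (B := B) (F := F) (K := K) p hp
  choose! S hfin h1 h2 h3 h4 using hpl
  obtain ⟨b₁, hb₁, hden⟩ := exists_den F (x := x) inferInstance S hfin
    (fun p hp v hv b => (h1 p hp v hv).1.nonneg b) (fun p hp v hv => (h1 p hp v hv).2.2.1)
    (z * g)
  have key : ∃ b : B, algebraMap B K b = algebraMap B K b₁ * z * g := by
    refine mem_B_of_local F _ fun p hp hrep => h2 p hp _ fun v hv => ?_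
    obtain ⟨k1, k2, k3, k4, k5⟩ := h1 p hp v hv
    rw [mul_assoc]
    by_cases hc : CentreIn x v
    · have h0 : v (algebraMap _ K p) ≠ 0 := by
        rw [Valuation.ne_zero_iff, IsScalarTower.algebraMap_apply _ F K]
        intro h
        exact hp.ne_zero (IsFractionRing.injective _ F ((algebraMap F K).injective
          (by rw [h, map_zero, map_zero])))
      obtain ⟨m, hm, hgm⟩ := hg.2 v k1 hc
      have he : v (algebraMap _ K p) = WithZero.exp (-(-WithZero.log (v (algebraMap _ K p)))) := by
        rw [neg_neg, WithZero.exp_log h0]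
      have hme := hm.unique (k5 _ he)
      have h5 := h4 p hp z hz v hv
      have hb1 : v (algebraMap B K b₁) ≤ 1 := k1.nonneg b₁
      have h6 : v (z * g) ≤ 1 := by
        by_cases hz0 : v z = 0
        · rw [map_mul, hz0, zero_mul]
          exact zero_le_one
        · rw [map_mul, he, ← WithZero.exp_log hz0, ← WithZero.exp_add, ← WithZero.exp_zero,
            WithZero.exp_lt_exp] at h5
          rw [map_mul, hgm, hme, ← WithZero.exp_log hz0, ← WithZero.exp_add, ← WithZero.exp_zero,
            WithZero.exp_le_exp]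
          omega
      rw [map_mul]
      calc v (algebraMap B K b₁) * v (z * g) ≤ 1 * 1 := mul_le_mul' hb1 h6
        _ = 1 := one_mul _
    · exact hden p hp hrep v hv hc
  obtain ⟨b₂, hb₂⟩ := key
  exact ⟨b₁, hb₁, b₂, hb₂.symm⟩

end Pool.Agent.ODP
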