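import Mathlib

/-!
# Normalized volumes of klt points (definitions)

`P = k[X_0, …, X_{n-1}]`, `B` a normal domain which is a finite free `P`-module (an affine
Cohen-Macaulay variety with a Noether normalization), `K` the fraction field of `B`.
Mathlib's valuations are multiplicative: `v z = WithZero.exp (-m)` means `ord_v z = m`.
-/

open scoped WithZero ENNReal

namespace Pool.Agent.ODP

/-- `v` is a normalized discrete valuation of `K`, non-negative on `B`. -/
structure IsDiscVal (B : Type*) {K : Type*} [CommRing B] [Field K] [Algebra B K]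
    (v : Valuation K ℤᵐ⁰) : Prop where
  surj : Function.Surjective v
  nonneg : ∀ b : B, v (algebraMap B K b) ≤ 1

/-- `v` is the order of vanishing along a prime divisor of `Spec B`: it is a normalized discrete
valuation, non-negative on `B`, whose valuation ring is the localization of `B` at the centre. -/
structure IsPrimeDivisor (B : Type*) {K : Type*} [CommRing B] [Field K] [Algebra B K]
    (v : Valuation K ℤᵐ⁰) : Prop extends IsDiscVal B v where
  local_ring : ∀ z : K, v z ≤ 1 → ∃ a b : B, v (algebraMap B K b) = 1 ∧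
    z * algebraMap B K b = algebraMap B K a

/-- `v` is a divisorial valuation centred at the closed point `x`: normalized, discrete,
non-negative on `B` with centre `x`, and the residue field contains `n - 1` elements which are
algebraically independent over `k`. -/
structure IsDivisorialAt (k : Type*) (n : ℕ) {B K : Type*} [Field k] [CommRing B] [Field K]
    [Algebra B K] [Algebra k K] (x : Ideal B) (v : Valuation K ℤᵐ⁰) : Prop
    extends IsDiscVal B v where
  centre : ∀ b : B, v (algebraMap B K b) < 1 ↔ b ∈ x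
  trdeg : ∃ u : Fin (n - 1) → K, (∀ i, v (u i) ≤ 1) ∧
    ∀ G : MvPolynomial (Fin (n - 1)) k, G ≠ 0 → v (MvPolynomial.aeval u G) = 1

/-- The set of the numbers `ord_v (det (D_i (y_j)))`, where `D_1, …, D_n` run over the
`k`-derivations of `K` preserving the valuation ring of `v`. The least element of this set is the
order of the rational `n`-form `dy_1 ∧ … ∧ dy_n` along `v`. -/
def FormOrders (k : Type*) {K : Type*} [Field k] [Field K] [Algebra k K] {n : ℕ}
    (v : Valuation K ℤᵐ⁰) (y : Fin n → K) : Set ℤ :=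
  {m | ∃ D : Fin n → Derivation k K K, (∀ i z, v z ≤ 1 → v (D i z) ≤ 1) ∧
    v (Matrix.det (Matrix.of fun i j => D i (y j))) = WithZero.exp (-m)}

/-- `m` is the order of `dy_1 ∧ … ∧ dy_n` along `v`. -/
def IsFormOrder (k : Type*) {K : Type*} [Field k] [Field K] [Algebra k K] {n : ℕ}
    (v : Valuation K ℤᵐ⁰) (y : Fin n → K) (m : ℤ) : Prop :=
  IsLeast (FormOrders k v y) m

/-- The rational form `g⁻¹ dy_1 ∧ … ∧ dy_n` generates the canonical sheaf of `Spec B` at `x`: it
has order `0` along every prime divisor through `x`. -/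
def IsCanonicalAt (k : Type*) {B K : Type*} [Field k] [CommRing B] [Field K]
    [Algebra B K] [Algebra k K] {n : ℕ} (x : Ideal B) (y : Fin n → K) (g : K) : Prop :=
  g ≠ 0 ∧ ∀ v : Valuation K ℤᵐ⁰, IsPrimeDivisor B v →
    (∀ b : B, v (algebraMap B K b) < 1 → b ∈ x) →
    ∃ m : ℤ, IsFormOrder k v y m ∧ v g = WithZero.exp (-m)

/-- `a` is the log discrepancy `A_X(v) = 1 + ord_v (g⁻¹ dy_1 ∧ … ∧ dy_n)`. -/
def IsLogDiscrepancy (k : Type*) {K : Type*} [Field k] [Field K] [Algebra k K] {n : ℕ}
    (v : Valuation K ℤᵐ⁰) (y : Fin n → K) (g : K) (a : ℤ) : Prop :=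
  ∃ m : ℤ, IsFormOrder k v y m ∧ v g = WithZero.exp (a - 1 - m)

/-- The ideal `{b ∈ B : ord_v b ≥ m}`. -/
def valIdeal {B K : Type*} [CommRing B] [Field K] [Algebra B K] (v : Valuation K ℤᵐ⁰)
    (hv : ∀ b : B, v (algebraMap B K b) ≤ 1) (m : ℕ) : Ideal B where
  carrier := {b | v (algebraMap B K b) ≤ WithZero.exp (-(m : ℤ))}
  add_mem' := by
    intro a b ha hb
    simp only [Set.mem_ofPred_eq, map_add] at *
    exact (v.map_add _ _).trans (max_le ha hb)
  zero_mem' := by simp
  smul_mem' := by
    intro c b hb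
    simp only [Set.mem_ofPred_eq, smul_eq_mul, map_mul] at *
    calc v (algebraMap B K c) * v (algebraMap B K b) ≤ 1 * WithZero.exp (-(m : ℤ)) :=
          mul_le_mul' (hv c) hb
      _ = _ := one_mul _

/-- `dim_k (B / I)` -/
noncomputable def colength (k : Type*) {B : Type*} [Field k] [CommRing B] [Algebra k B]
    (I : Ideal B) : ℕ :=
  Module.finrank k (B ⧸ I)

/-- The volume `vol(v) = limsup_m  n! · dim_k (B / {ord_v ≥ m}) / m ^ n`. -/
noncomputable def vol (k : Type*) (n : ℕ) {B K : Type*} [Field k] [CommRing B] [Algebra k B]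
    [Field K] [Algebra B K] (v : Valuation K ℤᵐ⁰)
    (hv : ∀ b : B, v (algebraMap B K b) ≤ 1) : ℝ≥0∞ :=
  Filter.limsup (fun m : ℕ => ((n.factorial * colength k (valIdeal v hv m) : ℕ) : ℝ≥0∞) /
    ((m ^ n : ℕ) : ℝ≥0∞)) Filter.atTop

end Pool.Agent.ODP
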