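import Pool.Agent.ODP.Defs

/-!
# Normalized volumes of klt points (definitions, second part)

`B` is a normal domain of dimension `n`, `y_1, …, y_n ∈ B` generate a polynomial ring over which
`B` is finite and free (so `Spec B` is an affine Cohen-Macaulay variety with a Noether
normalization), `x` is a maximal ideal of `B`, and `L = Localization.AtPrime x`.
-/

open scoped WithZero ENNReal

namespace Pool.Agent.ODP

/-- `B` is a finite free module over the polynomial ring `k[X_1, …, X_n]`, with `X_i` acting as
`y_i`. -/
def IsFiniteFree (k : Type*) [Field k] {B : Type*} [CommRing B] [Algebra k B] {n : ℕ}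
    (y : Fin n → B) : Prop :=
  let _ : Algebra (MvPolynomial (Fin n) k) B :=
    (MvPolynomial.aeval y : MvPolynomial (Fin n) k →ₐ[k] B).toRingHom.toAlgebra
  Module.Finite (MvPolynomial (Fin n) k) B ∧ Module.Free (MvPolynomial (Fin n) k) B

/-- The ideal `(y_1, …, y_n)` of the local ring `B_x`. -/
def paramIdeal {B : Type*} [CommRing B] {n : ℕ} (x : Ideal B) [x.IsPrime] (y : Fin n → B) :
    Ideal (Localization.AtPrime x) :=
  (Ideal.span (Set.range y)).map (algebraMap B (Localization.AtPrime x))

/-- The number `e = dim_k (B_x / (y_1, …, y_n) B_x)`. -/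
noncomputable def paramLength (k : Type*) [Field k] {B : Type*} [CommRing B] [Algebra k B]
    {n : ℕ} (x : Ideal B) [x.IsPrime] (y : Fin n → B) : ℕ :=
  Module.finrank k (Localization.AtPrime x ⧸ paramIdeal x y)

/-- `(y_1, …, y_n)` is a reduction of the maximal ideal `m` of `B_x`:
`m ^ (N + 1) ⊆ (y) m ^ N` for some `N`. -/
def IsReductionAt {B : Type*} [CommRing B] {n : ℕ} (x : Ideal B) [x.IsPrime]
    (y : Fin n → B) : Prop :=
  ∃ N : ℕ, IsLocalRing.maximalIdeal (Localization.AtPrime x) ^ (N + 1) ≤
    paramIdeal x y * IsLocalRing.maximalIdeal (Localization.AtPrime x) ^ N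

/-- The log discrepancies of the divisorial valuations centred at `x` are positive (this is a
consequence of `Spec B` being klt at `x`). -/
def HasPosLogDiscrepancies (k : Type*) [Field k] {B K : Type*} [CommRing B] [Field K]
    [Algebra B K] [Algebra k K] {n : ℕ} (x : Ideal B) (y : Fin n → B) (g : K) : Prop :=
  ∀ v : Valuation K ℤᵐ⁰, IsDivisorialAt k n x v → ∀ a : ℤ,
    IsLogDiscrepancy k v (fun i => algebraMap B K (y i)) g a → 0 < a

/-- The normalized volume of `x ∈ Spec B`: the infimum of `A_X(v) ^ n · vol(v)` over the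
divisorial valuations centred at `x`. -/
noncomputable def localVol (k : Type*) [Field k] {B K : Type*} [CommRing B] [Algebra k B]
    [Field K] [Algebra B K] [Algebra k K] {n : ℕ} (x : Ideal B) (y : Fin n → B) (g : K) : ℝ≥0∞ :=
  ⨅ (v : Valuation K ℤᵐ⁰) (hv : IsDivisorialAt k n x v) (a : ℤ)
    (_ : IsLogDiscrepancy k v (fun i => algebraMap B K (y i)) g a),
    ENNReal.ofReal ((a : ℝ) ^ n) * vol k n v hv.nonneg

/-- The embedding dimension `dim m / m²` of the local ring at `x`. -/
noncomputable def embDim {B : Type*} [CommRing B] (x : Ideal B) [x.IsPrime] : ℕ :=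
  Module.finrank (IsLocalRing.ResidueField (Localization.AtPrime x))
    (IsLocalRing.CotangentSpace (Localization.AtPrime x))

/-- `x` is an `n`-dimensional `A_1`-singularity, provided it is a singular point of dimension
`n`: the maximal ideal has generators `t_0, …, t_n` with `t_0² + … + t_n² ∈ m³`. -/
def IsNodeAt (n : ℕ) {B : Type*} [CommRing B] (x : Ideal B) [x.IsPrime] : Prop :=
  ∃ t : Fin (n + 1) → Localization.AtPrime x,
    Ideal.span (Set.range t) = IsLocalRing.maximalIdeal (Localization.AtPrime x) ∧
    ∑ i, t i ^ 2 ∈ IsLocalRing.maximalIdeal (Localization.AtPrime x) ^ 3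

end Pool.Agent.ODP
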