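import Mathlib

/-!
# Functionals of a free algebra with values in an ideal
-/

open scoped nonZeroDivisors

namespace Pool.Agent.ODP

set_option linter.unusedSectionVars false

variable {P B F K : Type*} [CommRing P] [IsDomain P] [IsIntegrallyClosed P]
  [CommRing B] [IsDomain B] [Algebra P B] [Module.Finite P B] [Module.Free P B]
  [Field F] [Algebra P F] [IsFractionRing P F]
  [Field K] [Algebra B K] [IsFractionRing B K] [Algebra F K] [FiniteDimensional F K]
  [Algebra.IsSeparable F K]
  [Algebra P K] [IsScalarTower P F K] [IsScalarTower P B K]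

theorem trace_decomp {n : ℕ} (y : Fin n → P) (z₀ : K)
    (h : ∀ b : B, ∃ p ∈ Ideal.span (Set.range y),
      algebraMap P F p = Algebra.trace F K (z₀ * algebraMap B K b)) :
    ∃ z : Fin n → K, z₀ = ∑ j, algebraMap P K (y j) * z j ∧
      ∀ j (b : B), ∃ p : P, algebraMap P F p = Algebra.trace F K (z j * algebraMap B K b) := by
  classical
  have hloc : IsLocalization (Algebra.algebraMapSubmonoid B P⁰) K := by
    have h2 : FaithfulSMul P B := inferInstance
    have h3 : Algebra.IsAlgebraic P B := inferInstance
    infer_instance
  let bB := Module.Free.chooseBasis P B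
  let bK : Module.Basis (Module.Free.ChooseBasisIndex P B) F K :=
    bB.localizationLocalization F P⁰ K
  have hbK : ∀ i, bK i = algebraMap B K (bB i) := fun i =>
    Module.Basis.localizationLocalization_apply F P⁰ K bB i
  choose p hp hp' using fun i => h (bB i)
  choose q hq using fun i => (Ideal.mem_span_range_iff_exists_fun.mp (hp i))
  -- `∑ j, q i j * y j = p i`
  let z : Fin n → K := fun j => ∑ i, algebraMap P F (q i j) • bK.traceDual i
  have hz : ∀ j i, Algebra.trace F K (z j * bK i) = algebraMap P F (q i j) := by
    intro j i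
    simp only [z, Finset.sum_mul, map_sum, smul_mul_assoc, map_smul,
      Module.Basis.trace_traceDual_mul, smul_eq_mul]
    simp
  refine ⟨z, ?_, ?_⟩
  · have h1 : ∀ x : K, Algebra.trace F K ((z₀ - ∑ j, algebraMap P K (y j) * z j) * x) = 0 := by
      intro x
      have h2 : (Algebra.trace F K) ∘ₗ (LinearMap.mulLeft F
          (z₀ - ∑ j, algebraMap P K (y j) * z j)) = 0 := by
        apply bK.ext
        intro i
        simp only [LinearMap.comp_apply, LinearMap.mulLeft_apply, LinearMap.zero_apply]
        rw [sub_mul, map_sub, hbK, ← hp', Finset.sum_mul, map_sum, ← hbK, ← hq i, map_sum,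
          sub_eq_zero]
        refine Finset.sum_congr rfl fun j _ => ?_
        rw [IsScalarTower.algebraMap_apply P F K, mul_assoc, ← Algebra.smul_def, map_smul, hz,
          map_mul, smul_eq_mul, mul_comm]
      exact LinearMap.congr_fun h2 x
    have h3 := (traceForm_nondegenerate F K).1 (z₀ - ∑ j, algebraMap P K (y j) * z j)
      (fun x => by rw [Algebra.traceForm_apply]; exact h1 x)
    exact sub_eq_zero.mp h3
  · intro j b
    refine ⟨∑ i, bB.repr b i * q i j, ?_⟩
    have h4 : algebraMap B K b = ∑ i, algebraMap P F (bB.repr b i) • bK i := by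
      conv_lhs => rw [← bB.sum_repr b]
      rw [map_sum]
      refine Finset.sum_congr rfl fun i _ => ?_
      rw [Algebra.smul_def, map_mul, hbK, Algebra.smul_def, ← IsScalarTower.algebraMap_apply P F K,
        ← IsScalarTower.algebraMap_apply P B K]
    rw [h4, Finset.mul_sum, map_sum, map_sum]
    refine Finset.sum_congr rfl fun i _ => ?_
    rw [mul_smul_comm, map_smul, hz, map_mul, smul_eq_mul]

end Pool.Agent.ODP
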