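import Pool.Agent.ODP.Gen
import Pool.Agent.ODP.Codim1
import Pool.Agent.ODP.TraceDecomp

/-!
# The trace form modulo the parameters is non-degenerate at `x`
-/

open scoped WithZero ENNReal nonZeroDivisors
open IsDedekindDomain MvPolynomial

namespace Pool.Agent.ODP

set_option linter.unusedSectionVars false

theorem mem_span_X_of_constantCoeff {k : Type*} [Field k] {n : ℕ} (p : MvPolynomial (Fin n) k)
    (h : constantCoeff p = 0) :
    p ∈ Ideal.span (Set.range fun i : Fin n => (X i : MvPolynomial (Fin n) k)) := by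
  have h1 := (mem_pow_idealOfVars_iff' (σ := Fin n) (R := k) 1 p).2 (fun d hd => by
    have h2 : d = 0 := by
      rw [← Finsupp.degree_eq_zero_iff]
      omega
    rw [h2]
    exact h)
  rwa [pow_one] at h1

section aux

variable {k : Type*} [Field k] [CharZero k] {n : ℕ} {B F K : Type*}
  [CommRing B] [IsDomain B] [IsIntegrallyClosed B]
  [Algebra (MvPolynomial (Fin n) k) B] [Module.Finite (MvPolynomial (Fin n) k) B]
  [Module.Free (MvPolynomial (Fin n) k) B]
  [Field F] [Algebra (MvPolynomial (Fin n) k) F] [IsFractionRing (MvPolynomial (Fin n) k) F]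
  [Algebra k F] [IsScalarTower k (MvPolynomial (Fin n) k) F]
  [Field K] [Algebra B K] [IsFractionRing B K] [Algebra F K] [FiniteDimensional F K]
  [Algebra (MvPolynomial (Fin n) k) K] [IsScalarTower (MvPolynomial (Fin n) k) F K]
  [IsScalarTower (MvPolynomial (Fin n) k) B K]
  [Algebra k K] [IsScalarTower k F K]

variable (F) in
include F in
theorem exists_functional_aux (x : Ideal B) [x.IsPrime] (g : K)
    (hg : IsCanonicalAt k x (fun i => algebraMap (MvPolynomial (Fin n) k) K (X i)) g) :
    ∃ T : B →ₗ[MvPolynomial (Fin n) k] MvPolynomial (Fin n) k,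
      ∀ b : B, (∀ b' : B, constantCoeff (T (b * b')) = 0) →
        ∃ u : B, u ∉ x ∧ u * b ∈
          Ideal.span (Set.range fun i => algebraMap (MvPolynomial (Fin n) k) B (X i)) := by
  classical
  have hcF : CharZero F := charZero_of_injective_algebraMap (algebraMap k F).injective
  have hg0 : g ≠ 0 := hg.1
  obtain ⟨b₀, hb₀, h0⟩ := canonical_trace_mem (F := F) x g hg
  choose p hp using h0
  have hinj := IsFractionRing.injective (MvPolynomial (Fin n) k) F
  have hadd : ∀ b b', p (b + b') = p b + p b' := fun b b' => by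
    apply hinj
    rw [map_add, hp, hp, hp, map_add, mul_add, add_div, map_add]
  have hsmul : ∀ (c : MvPolynomial (Fin n) k) (b : B), p (c • b) = c * p b := fun c b => by
    apply hinj
    rw [map_mul, hp, hp, Algebra.smul_def, map_mul, ← IsScalarTower.algebraMap_apply _ B K,
      IsScalarTower.algebraMap_apply (MvPolynomial (Fin n) k) F K]
    rw [show algebraMap B K b₀ * (algebraMap F K (algebraMap _ F c) * algebraMap B K b) / g =
        (algebraMap _ F c) • (algebraMap B K b₀ * algebraMap B K b / g) by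
          rw [Algebra.smul_def]; ring, map_smul, smul_eq_mul]
  let T : B →ₗ[MvPolynomial (Fin n) k] MvPolynomial (Fin n) k :=
    { toFun := p, map_add' := hadd, map_smul' := hsmul }
  refine ⟨T, fun b hb => ?_⟩
  obtain ⟨z, hz, hzt⟩ := trace_decomp (F := F) (K := K) (B := B)
    (y := fun i => (X i : MvPolynomial (Fin n) k)) (algebraMap B K b₀ * algebraMap B K b / g)
    (fun b' => ⟨p (b * b'), mem_span_X_of_constantCoeff _ (hb b'), by
      rw [hp, map_mul]
      congr 1
      ring⟩)
  choose u hu v hv using fun j => canonical_trace_gen x g hg (z j) (hzt j)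
  refine ⟨(∏ j, u j) * b₀, ?_, ?_⟩
  · intro h1
    rcases Ideal.IsPrime.mem_or_mem inferInstance h1 with h2 | h2
    · obtain ⟨j, -, hj⟩ := (Ideal.IsPrime.prod_mem_iff (s := Finset.univ) (x := u) (p := x)).1 h2
      exact hu j hj
    · exact hb₀ h2
  · have hkey : (∏ j, u j) * b₀ * b = ∑ j, algebraMap (MvPolynomial (Fin n) k) B (X j) *
        ((∏ i ∈ Finset.univ.erase j, u i) * v j) := by
      apply IsFractionRing.injective B K
      have h3 : algebraMap B K b₀ * algebraMap B K b =
          (∑ j, algebraMap (MvPolynomial (Fin n) k) K (X j) * z j) * g := by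
        rw [← hz]
        field_simp
      rw [map_mul, map_mul, map_sum, mul_assoc, h3, Finset.sum_mul, Finset.mul_sum]
      refine Finset.sum_congr rfl fun j _ => ?_
      rw [map_mul, map_mul, ← hv j, ← IsScalarTower.algebraMap_apply,
        ← Finset.mul_prod_erase Finset.univ u (Finset.mem_univ j), map_mul]
      ring
    rw [hkey]
    exact Ideal.sum_mem _ fun j _ => Ideal.mul_mem_right _ _ (Ideal.subset_span ⟨j, rfl⟩)

end aux

/-- From a functional on `B` to a functional on `B_x / I B_x`. -/
theorem exists_local_functional {k : Type*} [Field k] {B : Type*} [CommRing B] [IsNoetherianRing B]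
    [Algebra k B] (I : Ideal B) [Module.Finite k (B ⧸ I)] (x : Ideal B) [x.IsPrime]
    (T : B →ₗ[k] k) (hT : ∀ b ∈ I, T b = 0)
    (hT' : ∀ b : B, (∀ b' : B, T (b * b') = 0) → ∃ u : B, u ∉ x ∧ u * b ∈ I) :
    ∃ τ : (Localization.AtPrime x ⧸ I.map (algebraMap B (Localization.AtPrime x))) →ₗ[k] k,
      ∀ r, (∀ r', τ (r * r') = 0) → r = 0 := by
  classical
  set L := Localization.AtPrime x with hL
  set J : Ideal L := I.map (algebraMap B L) with hJ
  have hmem : ∀ b : B, algebraMap B L b ∈ J ↔ ∃ u : B, u ∉ x ∧ u * b ∈ I := by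
    intro b
    rw [hJ, IsLocalization.algebraMap_mem_map_algebraMap_iff x.primeCompl]
    constructor
    · rintro ⟨u, hu, h⟩
      exact ⟨u, hu, h⟩
    · rintro ⟨u, hu, h⟩
      exact ⟨u, hu, h⟩
  let φ : B →ₐ[k] (L ⧸ J) := (Ideal.Quotient.mkₐ k J).comp (IsScalarTower.toAlgHom k B L)
  have hφ : ∀ b, φ b = Ideal.Quotient.mk J (algebraMap B L b) := fun b => rfl
  have hφ0 : ∀ b, φ b = 0 ↔ ∃ u : B, u ∉ x ∧ u * b ∈ I := fun b => by
    rw [hφ, Ideal.Quotient.eq_zero_iff_mem, hmem]
  have hunit : ∀ u : B, u ∉ x → IsUnit (φ u) := fun u hu => by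
    rw [hφ]
    exact (IsLocalization.map_units L (⟨u, hu⟩ : x.primeCompl)).map (Ideal.Quotient.mk J)
  have hart : IsArtinianRing (B ⧸ I) := IsArtinianRing.of_finite k (B ⧸ I)
  have hinv : ∀ u : B, u ∉ x → ∃ c : B, φ u * φ c = 1 := by
    intro u hu
    obtain ⟨m, y, hy⟩ := IsArtinian.exists_pow_succ_smul_dvd (R := B ⧸ I) (M := B ⧸ I)
      (Ideal.Quotient.mk I u) 1
    obtain ⟨c, rfl⟩ := Ideal.Quotient.mk_surjective y
    rw [smul_eq_mul, smul_eq_mul, mul_one, ← map_pow, ← map_pow, ← map_mul,
      Ideal.Quotient.eq] at hy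
    refine ⟨c, ?_⟩
    have h1 : φ (u ^ m.succ * c - u ^ m) = 0 := (hφ0 _).2 ⟨1, fun h => ?_, by rwa [one_mul]⟩
    · have h2 : φ u ^ m * (φ u * φ c - 1) = 0 := by
        rw [← h1, map_sub, map_mul, map_pow, map_pow, Nat.succ_eq_add_one]
        ring
      have h3 := ((hunit u hu).pow m).mul_right_eq_zero.1 h2
      exact sub_eq_zero.1 h3
    · exact Ideal.IsPrime.ne_top (inferInstance : x.IsPrime) ((Ideal.eq_top_iff_one x).mpr h)
  have hsurj : Function.Surjective φ := by
    intro r
    obtain ⟨l, rfl⟩ := Ideal.Quotient.mk_surjective r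
    obtain ⟨a, s, rfl⟩ := IsLocalization.exists_mk'_eq x.primeCompl l
    obtain ⟨c, hc⟩ := hinv s.1 s.2
    refine ⟨a * c, ?_⟩
    have h1 : φ s.1 * Ideal.Quotient.mk J (IsLocalization.mk' L a s) = φ a := by
      rw [hφ, hφ, ← map_mul, mul_comm, IsLocalization.mk'_spec]
    rw [map_mul, ← h1]
    calc φ s.1 * Ideal.Quotient.mk J (IsLocalization.mk' L a s) * φ c
        = (φ s.1 * φ c) * Ideal.Quotient.mk J (IsLocalization.mk' L a s) := by ring
      _ = _ := by rw [hc, one_mul]
  -- the element killing the kernel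
  obtain ⟨e, hex, he⟩ : ∃ e : B, e ∉ x ∧ ∀ b, φ b = 0 → e * b ∈ I := by
    obtain ⟨s, hs⟩ := (isNoetherianRing_iff_ideal_fg B).1 inferInstance (RingHom.ker φ)
    have h1 : ∀ b : B, ∃ u : B, u ∉ x ∧ (b ∈ s → u * b ∈ I) := by
      intro b
      by_cases hb : b ∈ s
      · have h2 : b ∈ RingHom.ker φ := hs ▸ Ideal.subset_span hb
        obtain ⟨u, hu, hub⟩ := (hφ0 b).1 h2
        exact ⟨u, hu, fun _ => hub⟩
      · exact ⟨1, fun h => Ideal.IsPrime.ne_top (inferInstance : x.IsPrime)
          ((Ideal.eq_top_iff_one x).mpr h), fun h => absurd h hb⟩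
    choose u hu hub using h1
    refine ⟨∏ b ∈ s, u b, fun h => ?_, fun b hb => ?_⟩
    · obtain ⟨b, -, hb⟩ := (Ideal.IsPrime.prod_mem_iff (s := s) (x := u) (p := x)).1 h
      exact hu b hb
    · have h2 : b ∈ Ideal.span (s : Set B) := hs ▸ hb
      clear hb
      induction h2 using Submodule.span_induction with
      | mem b hb' =>
        rw [← Finset.mul_prod_erase s u hb', mul_right_comm]
        exact Ideal.mul_mem_right _ _ (hub b hb')
      | zero => rw [mul_zero]; exact I.zero_mem
      | add a b _ _ ha hb' =>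
        rw [mul_add]
        exact I.add_mem ha hb'
      | smul a b _ hb' =>
        rw [smul_eq_mul, mul_left_comm]
        exact I.mul_mem_left _ hb'
  have hker : LinearMap.ker φ.toLinearMap ≤ LinearMap.ker (T ∘ₗ LinearMap.mulLeft k e) := by
    intro b hb
    rw [LinearMap.mem_ker] at hb ⊢
    exact hT _ (he b hb)
  let τ : (L ⧸ J) →ₗ[k] k := (LinearMap.ker φ.toLinearMap).liftQ _ hker ∘ₗ
    (φ.toLinearMap.quotKerEquivOfSurjective hsurj).symm.toLinearMap
  have hτ : ∀ b, τ (φ b) = T (e * b) := by
    intro b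
    have h1 : (φ.toLinearMap.quotKerEquivOfSurjective hsurj).symm (φ b) =
        Submodule.Quotient.mk b := by
      rw [LinearEquiv.symm_apply_eq]
      rfl
    simp only [τ, LinearMap.comp_apply, LinearEquiv.coe_coe, h1]
    rfl
  refine ⟨τ, fun r hr => ?_⟩
  obtain ⟨b, rfl⟩ := hsurj r
  obtain ⟨u, hu, hub⟩ := hT' (e * b) (fun b' => by
    rw [mul_assoc, ← hτ, map_mul]
    exact hr _)
  refine (hφ0 b).2 ⟨u * e, fun h => ?_, by rwa [mul_assoc]⟩
  rcases Ideal.IsPrime.mem_or_mem inferInstance h with h2 | h2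
  · exact hu h2
  · exact hex h2

variable {k : Type*} [Field k] [CharZero k] {n : ℕ} {B K : Type*}
  [CommRing B] [IsDomain B] [IsIntegrallyClosed B] [Algebra k B]
  [Field K] [Algebra B K] [IsFractionRing B K] [Algebra k K] [IsScalarTower k B K]

/-- Gorenstein duality for `B_x / (y)`: there is a linear functional whose kernel contains no
non-zero ideal. (Take `b' ∉ x` which maps `{f : u f ∈ (y) B for some u ∉ x}` into `(y) B`, and
`τ(b) =` constant coefficient of `Tr (b₀ b' b / g)`.) -/
theorem exists_dual (y : Fin n → B) (hy : IsFiniteFree k y)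
    (x : Ideal B) [x.IsMaximal] (hyx : ∀ i, y i ∈ x) (g : K)
    (hg : IsCanonicalAt k x (fun i => algebraMap B K (y i)) g) :
    ∃ τ : (Localization.AtPrime x ⧸ paramIdeal x y) →ₗ[k] k,
      ∀ r, (∀ r', τ (r * r') = 0) → r = 0 := by
  let : Algebra (MvPolynomial (Fin n) k) B :=
    (MvPolynomial.aeval y : MvPolynomial (Fin n) k →ₐ[k] B).toRingHom.toAlgebra
  have hfin : Module.Finite (MvPolynomial (Fin n) k) B := hy.1
  have hfree : Module.Free (MvPolynomial (Fin n) k) B := hy.2
  have htow : IsScalarTower k (MvPolynomial (Fin n) k) B :=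
    IsScalarTower.of_algebraMap_eq fun c => ((MvPolynomial.aeval y).commutes c).symm
  have hX : ∀ i, algebraMap (MvPolynomial (Fin n) k) B (X i) = y i := fun i =>
    MvPolynomial.aeval_X y i
  let F := FractionRing (MvPolynomial (Fin n) k)
  let : Algebra (MvPolynomial (Fin n) k) K :=
    ((algebraMap B K).comp (algebraMap (MvPolynomial (Fin n) k) B)).toAlgebra
  have hPBK : IsScalarTower (MvPolynomial (Fin n) k) B K := IsScalarTower.of_algebraMap_eq' rfl
  have hinj : FaithfulSMul (MvPolynomial (Fin n) k) K := by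
    rw [faithfulSMul_iff_algebraMap_injective]
    exact (IsFractionRing.injective B K).comp
      (FaithfulSMul.algebraMap_injective (MvPolynomial (Fin n) k) B)
  let : Algebra F K := FractionRing.liftAlgebra (MvPolynomial (Fin n) k) K
  have hPFK : IsScalarTower (MvPolynomial (Fin n) k) F K :=
    FractionRing.isScalarTower_liftAlgebra _ _
  have hloc : IsLocalization (Algebra.algebraMapSubmonoid B (MvPolynomial (Fin n) k)⁰) K :=
    inferInstance
  have hfin : FiniteDimensional F K :=
    Module.Finite.of_isLocalization (MvPolynomial (Fin n) k) B (MvPolynomial (Fin n) k)⁰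
  have hkFK : IsScalarTower k F K := by
    refine IsScalarTower.of_algebraMap_eq fun c => ?_
    rw [IsScalarTower.algebraMap_apply k (MvPolynomial (Fin n) k) F,
      ← IsScalarTower.algebraMap_apply (MvPolynomial (Fin n) k) F K,
      IsScalarTower.algebraMap_apply (MvPolynomial (Fin n) k) B K,
      ← IsScalarTower.algebraMap_apply k (MvPolynomial (Fin n) k) B,
      ← IsScalarTower.algebraMap_apply k B K]
  have hyfun : (fun i => algebraMap (MvPolynomial (Fin n) k) B (X i)) = y := funext hX
  have hyK : (fun i => algebraMap B K (y i)) =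
      fun i => algebraMap (MvPolynomial (Fin n) k) K (X i) := by
    funext i
    rw [← hX i, ← IsScalarTower.algebraMap_apply]
  rw [hyK] at hg
  obtain ⟨T, hT⟩ := exists_functional_aux F x g hg
  rw [hyfun] at hT
  have hfq : Module.Finite k (B ⧸ Ideal.span (Set.range y)) := by
    have := finite_quotient (k := k) (n := n) (B := B)
    rwa [hyfun] at this
  have hnoeth : IsNoetherianRing B := IsNoetherianRing.of_finite (MvPolynomial (Fin n) k) B
  refine exists_local_functional (k := k) (Ideal.span (Set.range y)) x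
    { toFun := fun b => constantCoeff (T b)
      map_add' := fun a b => by rw [map_add, map_add]
      map_smul' := fun c b => by
        rw [← algebraMap_smul (MvPolynomial (Fin n) k) c b, map_smul, smul_eq_mul, map_mul]
        simp [MvPolynomial.algebraMap_eq] } ?_ hT
  intro b hb
  obtain ⟨c, rfl⟩ := Ideal.mem_span_range_iff_exists_fun.mp hb
  simp only [LinearMap.coe_mk, AddHom.coe_mk]
  rw [map_sum, map_sum]
  refine Finset.sum_eq_zero fun i _ => ?_
  rw [← hX i, mul_comm, ← Algebra.smul_def, map_smul, smul_eq_mul, map_mul, constantCoeff_X,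
    zero_mul]

end Pool.Agent.ODP
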