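import Pool.Agent.ODP.Node
import Pool.Agent.ODP.Dual

/-!
# Points of small embedding codimension or small multiplicity
-/

open scoped WithZero ENNReal
open IsLocalRing

namespace Pool.Agent.ODP

set_option linter.unusedSectionVars false

variable {k : Type*} [Field k] [CharZero k] {n : ℕ} {B K : Type*}
  [CommRing B] [IsDomain B] [IsIntegrallyClosed B] [Algebra k B]
  [Field K] [Algebra B K] [IsFractionRing B K] [Algebra k K] [IsScalarTower k B K]

theorem exists_const_alg [IsAlgClosed k] (y : Fin n → B) (hy : IsFiniteFree k y) (x : Ideal B)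
    [x.IsMaximal] (hyx : ∀ i, y i ∈ x) (b : B) : ∃ a : k, b - algebraMap k B a ∈ x := by
  have hfin : Module.Finite k (B ⧸ Ideal.span (Set.range y)) := by
    let : Algebra (MvPolynomial (Fin n) k) B :=
      (MvPolynomial.aeval y : MvPolynomial (Fin n) k →ₐ[k] B).toRingHom.toAlgebra
    have hfin : Module.Finite (MvPolynomial (Fin n) k) B := hy.1
    have htow : IsScalarTower k (MvPolynomial (Fin n) k) B :=
      IsScalarTower.of_algebraMap_eq fun c => ((MvPolynomial.aeval y).commutes c).symm
    have hX : ∀ i, algebraMap (MvPolynomial (Fin n) k) B (MvPolynomial.X i) = y i := fun i =>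
      MvPolynomial.aeval_X y i
    have h := finite_quotient (k := k) (n := n) (B := B)
    rw [funext hX] at h
    exact h
  have hle : Ideal.span (Set.range y) ≤ x := by
    rw [Ideal.span_le]
    rintro _ ⟨i, rfl⟩
    exact hyx i
  have hfin' : Module.Finite k (B ⧸ x) :=
    Module.Finite.of_surjective (Ideal.Quotient.factorₐ k hle).toLinearMap
      (Ideal.Quotient.factor_surjective hle)
  have : Algebra.IsIntegral k (B ⧸ x) := Algebra.IsIntegral.of_finite k (B ⧸ x)
  obtain ⟨a, ha⟩ := (IsAlgClosed.algebraMap_bijective_of_isIntegral (k := k) (K := B ⧸ x)).2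
    (Ideal.Quotient.mk x b)
  refine ⟨a, ?_⟩
  rw [← Ideal.Quotient.eq_zero_iff_mem, map_sub, ← ha, sub_eq_zero]
  rfl

theorem num_dim_four (e s : ℕ) (hs : 3 ≤ s) (hs4 : s < 4) (he : e ≤ 9 + (s + 6).choose 8) :
    (e : ℝ) * (((4 : ℕ) : ℝ) - s) ^ 4 < 2 * (((4 : ℕ) : ℝ) - 1) ^ 4 := by
  have hs3 : s = 3 := by omega
  subst hs3
  have h1 : (3 + 6).choose 8 = 9 := by decide
  rw [h1] at he
  have h2 : (e : ℝ) ≤ 18 := by exact_mod_cast he
  norm_num
  linarith

/-- the main result -/
theorem localVol_small [IsAlgClosed k] (hn : 2 ≤ n) (y : Fin n → B) (hy : IsFiniteFree k y)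
    (x : Ideal B) [x.IsMaximal] (hyx : ∀ i, y i ∈ x) (hred : IsReductionAt x y) (g : K)
    (hg : IsCanonicalAt k x (fun i => algebraMap B K (y i)) g)
    (hklt : HasPosLogDiscrepancies k x y g) (hsing : n < embDim x)
    (h : embDim x ≤ n + 3 ∨ paramLength k x y ≤ 5 ∨
      (n ≤ 16 ∧ (embDim x ≤ n + 4 ∨ paramLength k x y ≤ 6)) ∨
      (n = 4 ∧ (embDim x ≤ n + 8 ∨ paramLength k x y ≤ 10)) ∨
      (embDim x ≤ n + 6 ∧
        ¬ maximalIdeal (Localization.AtPrime x) ^ 3 ≤ paramIdeal x y)) :
    localVol k x y g ≤ ENNReal.ofReal (2 * ((n : ℝ) - 1) ^ n) ∧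
      (¬ IsNodeAt n x → localVol k x y g < ENNReal.ofReal (2 * ((n : ℝ) - 1) ^ n)) := by
  have hk := exists_const_alg y hy x hyx
  have hJ := paramIdeal_le x y hyx
  have hloc := isLocalRing_quot hJ
  have hfin := finite_paramQuotient y hy x
  have hkR := exists_const_quot (k := k) (paramIdeal x y) (exists_const_loc x hk)
  obtain ⟨τ, hτ⟩ := exists_dual y hy x hyx g hg
  have hJm := paramIdeal_ne_maximal y x hsing
  have hR0 : maximalIdeal (Localization.AtPrime x ⧸ paramIdeal x y) ≠ ⊥ := by
    intro h0
    have h1 := (pow_quot_eq_bot_iff (paramIdeal x y) 1).mp (by rw [pow_one]; exact h0)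
    rw [pow_one] at h1
    exact hJm (le_antisymm hJ h1)
  have he2 : 2 ≤ paramLength k x y := by
    by_contra hcon
    have h1 : Module.finrank k
        ↥(Submodule.restrictScalars k (maximalIdeal (Localization.AtPrime x ⧸ paramIdeal x y))) <
        Module.finrank k (Localization.AtPrime x ⧸ paramIdeal x y) := by
      apply Submodule.finrank_lt
      intro htop
      have : (1 : Localization.AtPrime x ⧸ paramIdeal x y) ∈
          Submodule.restrictScalars k
            (maximalIdeal (Localization.AtPrime x ⧸ paramIdeal x y)) := by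
        rw [htop]; exact Submodule.mem_top
      exact (Ideal.ne_top_iff_one _).mp (IsLocalRing.maximalIdeal.isMaximal _).ne_top this
    have h2 : Module.finrank k
        ↥(Submodule.restrictScalars k
          (maximalIdeal (Localization.AtPrime x ⧸ paramIdeal x y))) = 0 := by
      rw [paramLength] at hcon
      omega
    rw [Submodule.finrank_eq_zero, Submodule.restrictScalars_eq_bot_iff] at h2
    exact hR0 h2
  rcases he2.eq_or_lt with he | he
  · -- double points
    refine ⟨?_, localVol_lt_of_double hn y hy x hyx hred hk g hg hklt he.symm⟩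
    have h1 := (localVol_le_general (by omega) y hy x g hg hred hklt 1 (by
      rw [pow_one]
      intro h1
      exact hJm (le_antisymm hJ h1))).2
    rw [← he] at h1
    push_cast at h1
    exact h1
  · have hsq := gor_sq_ne_bot hkR τ hτ he
    rw [Ne, pow_quot_eq_bot_iff] at hsq
    obtain ⟨N, hN⟩ := hred
    have hex : ∃ t, maximalIdeal (Localization.AtPrime x) ^ t ≤ paramIdeal x y :=
      ⟨N + 1, hN.trans Ideal.mul_le_left⟩
    classical
    obtain ⟨s, hs⟩ : ∃ s, Nat.find hex = s + 1 := by
      refine Nat.exists_eq_succ_of_ne_zero fun h0 => ?_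
      have := Nat.find_spec hex
      rw [h0, pow_zero, Ideal.one_eq_top] at this
      exact (IsLocalRing.maximalIdeal.isMaximal _).ne_top (top_le_iff.mp (this.trans hJ))
    have hs1 : maximalIdeal (Localization.AtPrime x) ^ (s + 1) ≤ paramIdeal x y := by
      rw [← hs]
      exact Nat.find_spec hex
    have hs0 : ¬ maximalIdeal (Localization.AtPrime x) ^ s ≤ paramIdeal x y :=
      Nat.find_min hex (by omega)
    have hge : ∀ t, ¬ maximalIdeal (Localization.AtPrime x) ^ t ≤ paramIdeal x y → t ≤ s := by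
      intro t ht
      by_contra hcon
      rw [not_le] at hcon
      exact ht ((Ideal.pow_le_pow_right hcon).trans hs1)
    have hs2 : 2 ≤ s := hge 2 hsq
    have hRs : maximalIdeal (Localization.AtPrime x ⧸ paramIdeal x y) ^ (s + 1) = ⊥ :=
      (pow_quot_eq_bot_iff _ _).mpr hs1
    obtain ⟨hsn, hbound⟩ := localVol_le_general (by omega) y hy x g hg ⟨N, hN⟩ hklt s hs0
    have hgen : ∀ c, embDim x ≤ n + c →
        ∃ z : Fin c → Localization.AtPrime x ⧸ paramIdeal x y,
          Ideal.span (Set.range z) =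
            maximalIdeal (Localization.AtPrime x ⧸ paramIdeal x y) := by
      intro c hc
      obtain ⟨z, hz⟩ := exists_generators y hy x hyx ⟨N, hN⟩ hk c hc
      refine ⟨fun i => Ideal.Quotient.mk _ (z i), ?_⟩
      rw [← span_quot_eq _ hJ, ← Set.range_comp] at hz
      exact hz
    have hlen : ∀ c, embDim x ≤ n + c → paramLength k x y ≤ (c + 1) + (c + s - 2).choose c := by
      intro c hc
      obtain ⟨z, hz⟩ := hgen c hc
      exact gor_length_le' hkR τ hτ c s hs2 z hz hRs
    -- numerical conclusion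
    suffices hnum : (paramLength k x y : ℝ) * ((n : ℝ) - s) ^ n < 2 * ((n : ℝ) - 1) ^ n by
      have hlt : localVol k x y g < ENNReal.ofReal (2 * ((n : ℝ) - 1) ^ n) := by
        refine hbound.trans_lt ?_
        rw [ENNReal.ofReal_lt_ofReal_iff_of_nonneg]
        · exact hnum
        · have : (s : ℝ) ≤ n := by exact_mod_cast hsn.le
          have h0 : (0 : ℝ) ≤ (n : ℝ) - s := by linarith
          positivity
      exact ⟨hlt.le, fun _ => hlt⟩
    have hsnR : (s : ℝ) ≤ n := by exact_mod_cast hsn.le
    have hs2R : (2 : ℝ) ≤ s := by exact_mod_cast hs2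
    have hmono : ∀ E : ℕ, paramLength k x y ≤ E → (E : ℝ) * ((n : ℝ) - 2) ^ n <
        2 * ((n : ℝ) - 1) ^ n →
        (paramLength k x y : ℝ) * ((n : ℝ) - s) ^ n < 2 * ((n : ℝ) - 1) ^ n := by
      intro E hE hlt
      refine lt_of_le_of_lt ?_ hlt
      have h1 : ((n : ℝ) - s) ^ n ≤ ((n : ℝ) - 2) ^ n :=
        pow_le_pow_left₀ (by linarith) (by linarith) n
      have h2 : (paramLength k x y : ℝ) ≤ E := by exact_mod_cast hE
      have h3 : (0 : ℝ) ≤ ((n : ℝ) - s) ^ n := pow_nonneg (by linarith) n
      calc (paramLength k x y : ℝ) * ((n : ℝ) - s) ^ n ≤ E * ((n : ℝ) - s) ^ n :=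
            mul_le_mul_of_nonneg_right h2 h3
        _ ≤ E * ((n : ℝ) - 2) ^ n := mul_le_mul_of_nonneg_left h1 (by positivity)
    have hfive : paramLength k x y ≤ 5 →
        (paramLength k x y : ℝ) * ((n : ℝ) - s) ^ n < 2 * ((n : ℝ) - 1) ^ n := by
      intro he5
      refine hmono 5 he5 ?_
      have h1 := num_of_lt n 2 5 (by norm_num) (by omega) (by norm_num)
      exact_mod_cast h1
    have hsix : embDim x ≤ n + 6 → 3 ≤ s →
        (paramLength k x y : ℝ) * ((n : ℝ) - s) ^ n < 2 * ((n : ℝ) - 1) ^ n := by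
      intro hc hs3
      refine num_six n s _ hs3 hsn ?_
      have h1 := hlen 6 hc
      have h2 : 6 + s - 2 = s + 4 := by omega
      rw [h2] at h1
      exact h1
    have hsix' : n ≤ 16 → paramLength k x y ≤ 6 →
        (paramLength k x y : ℝ) * ((n : ℝ) - s) ^ n < 2 * ((n : ℝ) - 1) ^ n := by
      intro hn16 he6
      refine hmono 6 he6 ?_
      have h3 : 3 ≤ n := by omega
      interval_cases n <;> norm_num
    have hs3 : s ≠ 2 → 3 ≤ s := fun h => by omega
    rcases h with h | h | ⟨h16, h⟩ | ⟨h4, h⟩ | ⟨h6, h⟩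
    · by_cases hs' : s = 2
      · refine hfive ?_
        have h1 := hlen 3 h
        rw [hs'] at h1
        exact h1
      · exact hsix (by omega) (hs3 hs')
    · exact hfive h
    · rcases h with h | h
      · by_cases hs' : s = 2
        · refine hsix' h16 ?_
          have h1 := hlen 4 h
          rw [hs'] at h1
          exact h1
        · exact hsix (by omega) (hs3 hs')
      · exact hsix' h16 h
    · subst h4
      have hten : paramLength k x y ≤ 10 →
          (paramLength k x y : ℝ) * (((4 : ℕ) : ℝ) - s) ^ 4 < 2 * (((4 : ℕ) : ℝ) - 1) ^ 4 := by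
        intro he10
        refine hmono 10 he10 ?_
        norm_num
      rcases h with h | h
      · have h1 := hlen 8 h
        by_cases hs' : s = 2
        · refine hten ?_
          rw [hs'] at h1
          exact h1
        · refine num_dim_four _ s (hs3 hs') hsn ?_
          have h2 : 8 + s - 2 = s + 6 := by omega
          rw [h2] at h1
          exact h1
      · exact hten h
    · exact hsix h6 (hge 3 h)

end Pool.Agent.ODP
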