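import Pool.Agent.ODP.Indep

/-!
# The parameters are quasi-regular in degrees one and two
-/

open IsLocalRing

namespace Pool.Agent.ODP

section Poly

variable {k : Type*} [Field k] {n : ℕ}

theorem poly_mem_iff (f : MvPolynomial (Fin n) k) :
    f ∈ MvPolynomial.idealOfVars (Fin n) k ↔ MvPolynomial.coeff 0 f = 0 := by
  rw [← pow_one (MvPolynomial.idealOfVars (Fin n) k), MvPolynomial.mem_pow_idealOfVars_iff']
  constructor
  · intro h
    exact h 0 (by simp)
  · intro h m hm
    have hm0 : m = 0 := by
      rw [← Finsupp.degree_eq_zero_iff]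
      omega
    rw [hm0]
    exact h

theorem coeff_X_mul_single (f : MvPolynomial (Fin n) k) (a b : Fin n) :
    MvPolynomial.coeff (Finsupp.single a 1) (MvPolynomial.X b * f) =
      if b = a then MvPolynomial.coeff 0 f else 0 := by
  classical
  rw [MvPolynomial.coeff_X_mul']
  by_cases h : b = a
  · subst h
    simp
  · rw [if_neg h, if_neg]
    intro hmem
    rw [Finsupp.mem_support_iff, Finsupp.single_apply] at hmem
    simp at hmem
    exact h hmem.symm

theorem coeff_X_mul_X_mul (f : MvPolynomial (Fin n) k) (a b c d : Fin n) :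
    MvPolynomial.coeff (Finsupp.single a 1 + Finsupp.single b 1)
      (MvPolynomial.X c * (MvPolynomial.X d * f)) =
      if (c = a ∧ d = b) ∨ (c = b ∧ d = a) then MvPolynomial.coeff 0 f else 0 := by
  classical
  rw [MvPolynomial.coeff_X_mul']
  by_cases hca : c = a
  · subst hca
    rw [if_pos (by simp [Finsupp.mem_support_iff]), add_tsub_cancel_left, coeff_X_mul_single]
    by_cases hdb : d = b
    · simp [hdb]
    · rw [if_neg hdb, if_neg]
      rintro (⟨_, h⟩ | ⟨h1, h2⟩)
      · exact hdb h
      · exact hdb (h2.trans h1)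
  · by_cases hcb : c = b
    · subst hcb
      rw [if_pos (by simp [Finsupp.mem_support_iff]), add_tsub_cancel_right, coeff_X_mul_single]
      by_cases hda : d = a
      · simp [hda]
      · rw [if_neg hda, if_neg]
        rintro (⟨h, _⟩ | ⟨_, h⟩)
        · exact hca h
        · exact hda h
    · rw [if_neg, if_neg]
      · rintro (⟨h, _⟩ | ⟨h, _⟩)
        · exact hca h
        · exact hcb h
      · intro hmem
        rw [Finsupp.mem_support_iff, Finsupp.add_apply, Finsupp.single_apply,
          Finsupp.single_apply, if_neg (fun h => hca h.symm), if_neg (fun h => hcb h.symm)] at hmem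
        simp at hmem

theorem poly_coeff_one (f : Fin n → MvPolynomial (Fin n) k)
    (h : ∑ a, MvPolynomial.X a * f a ∈ MvPolynomial.idealOfVars (Fin n) k ^ 2) (a : Fin n) :
    f a ∈ MvPolynomial.idealOfVars (Fin n) k := by
  classical
  rw [poly_mem_iff]
  rw [MvPolynomial.mem_pow_idealOfVars_iff'] at h
  have h1 := h (Finsupp.single a 1) (by simp)
  rw [MvPolynomial.coeff_sum] at h1
  simp only [coeff_X_mul_single] at h1
  simpa using h1

theorem poly_coeff_two (f : Fin n → Fin n → MvPolynomial (Fin n) k)
    (h : ∑ a, ∑ b, MvPolynomial.X a * (MvPolynomial.X b * f a b) ∈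
      MvPolynomial.idealOfVars (Fin n) k ^ 3) (a b : Fin n) :
    f a b + f b a ∈ MvPolynomial.idealOfVars (Fin n) k := by
  classical
  rw [poly_mem_iff]
  rw [MvPolynomial.mem_pow_idealOfVars_iff'] at h
  have h1 := h (Finsupp.single a 1 + Finsupp.single b 1) (by simp)
  simp only [MvPolynomial.coeff_sum, coeff_X_mul_X_mul] at h1
  rw [MvPolynomial.coeff_add]
  by_cases hab : a = b
  · subst hab
    have h2 : MvPolynomial.coeff 0 (f a a) = 0 := by
      rw [Finset.sum_eq_single a, Finset.sum_eq_single a] at h1
      · simpa using h1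
      · intro d _ hd
        rw [if_neg]
        rintro (⟨_, h⟩ | ⟨_, h⟩) <;> exact hd h
      · intro ha
        exact absurd (Finset.mem_univ a) ha
      · intro c _ hc
        refine Finset.sum_eq_zero fun d _ => ?_
        rw [if_neg]
        rintro (⟨h, _⟩ | ⟨h, _⟩) <;> exact hc h
      · intro ha
        exact absurd (Finset.mem_univ a) ha
    rw [h2, add_zero]
  · have h2 : ∀ c d : Fin n, (if (c = a ∧ d = b) ∨ (c = b ∧ d = a) then
        MvPolynomial.coeff 0 (f c d) else 0) =
        (if c = a then (if d = b then MvPolynomial.coeff 0 (f c d) else 0) else 0) +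
        (if c = b then (if d = a then MvPolynomial.coeff 0 (f c d) else 0) else 0) := by
      intro c d
      by_cases hca : c = a
      · subst hca
        simp [hab]
      · simp [hca]
        by_cases hcb : c = b
        · simp [hcb]
        · simp [hcb]
    simp only [h2, Finset.sum_add_distrib] at h1
    simpa using h1

end Poly

variable {k : Type*} [Field k] {n : ℕ} {B : Type*}
  [CommRing B] [IsDomain B] [Algebra k B]

theorem mem_map_iff_repr {P B ι : Type*} [CommRing P] [CommRing B] [Algebra P B] [Fintype ι]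
    (b : Module.Basis ι P B) (I : Ideal P) (c : B) :
    c ∈ I.map (algebraMap P B) ↔ ∀ j, b.repr c j ∈ I := by
  constructor
  · intro hc
    have hc' : c ∈ (I • ⊤ : Submodule P B) := by
      rw [Ideal.smul_top_eq_map]
      exact hc
    refine Submodule.smul_induction_on hc' ?_ ?_
    · intro r hr m _ j
      rw [map_smul, Finsupp.smul_apply, smul_eq_mul]
      exact I.mul_mem_right _ hr
    · intro a a' ha ha' j
      rw [map_add, Finsupp.add_apply]
      exact I.add_mem (ha j) (ha' j)
  · intro hc
    rw [← b.sum_repr c]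
    refine Ideal.sum_mem _ fun j _ => ?_
    rw [Algebra.smul_def]
    exact Ideal.mul_mem_right _ _ (Ideal.mem_map_of_mem _ (hc j))

omit [IsDomain B] in
/-- The degree one statement over `B`. -/
theorem glob_one (y : Fin n → B) (hy : IsFiniteFree k y) (u : Fin n → B)
    (h : ∑ a, y a * u a ∈ Ideal.span (Set.range y) ^ 2) (a : Fin n) :
    u a ∈ Ideal.span (Set.range y) := by
  let : Algebra (MvPolynomial (Fin n) k) B :=
    (MvPolynomial.aeval y : MvPolynomial (Fin n) k →ₐ[k] B).toRingHom.toAlgebra
  have hfin : Module.Finite (MvPolynomial (Fin n) k) B := hy.1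
  have hfree : Module.Free (MvPolynomial (Fin n) k) B := hy.2
  have hX : ∀ i, algebraMap (MvPolynomial (Fin n) k) B (MvPolynomial.X i) = y i := fun i =>
    MvPolynomial.aeval_X y i
  let b := Module.Free.chooseBasis (MvPolynomial (Fin n) k) B
  have hI : (MvPolynomial.idealOfVars (Fin n) k).map (algebraMap (MvPolynomial (Fin n) k) B) =
      Ideal.span (Set.range y) := by
    rw [MvPolynomial.idealOfVars, Ideal.map_span, ← Set.range_comp]
    congr 2
    funext i
    exact hX i
  rw [← hI, ← Ideal.map_pow, mem_map_iff_repr b] at h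
  rw [← hI, mem_map_iff_repr b]
  intro j
  refine poly_coeff_one (fun a => b.repr (u a) j) ?_ a
  have h1 := h j
  have h2 : ∀ a, y a * u a = (MvPolynomial.X a : MvPolynomial (Fin n) k) • u a := by
    intro a
    rw [Algebra.smul_def, hX]
  simp only [h2, map_sum, map_smul, Finsupp.finset_sum_apply, Finsupp.smul_apply,
    smul_eq_mul] at h1
  exact h1

omit [IsDomain B] in
/-- The degree two statement over `B`. -/
theorem glob_two (y : Fin n → B) (hy : IsFiniteFree k y) (u : Fin n → Fin n → B)
    (h : ∑ a, ∑ b, y a * (y b * u a b) ∈ Ideal.span (Set.range y) ^ 3) (a b : Fin n) :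
    u a b + u b a ∈ Ideal.span (Set.range y) := by
  let : Algebra (MvPolynomial (Fin n) k) B :=
    (MvPolynomial.aeval y : MvPolynomial (Fin n) k →ₐ[k] B).toRingHom.toAlgebra
  have hfin : Module.Finite (MvPolynomial (Fin n) k) B := hy.1
  have hfree : Module.Free (MvPolynomial (Fin n) k) B := hy.2
  have hX : ∀ i, algebraMap (MvPolynomial (Fin n) k) B (MvPolynomial.X i) = y i := fun i =>
    MvPolynomial.aeval_X y i
  let β := Module.Free.chooseBasis (MvPolynomial (Fin n) k) B
  have hI : (MvPolynomial.idealOfVars (Fin n) k).map (algebraMap (MvPolynomial (Fin n) k) B) =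
      Ideal.span (Set.range y) := by
    rw [MvPolynomial.idealOfVars, Ideal.map_span, ← Set.range_comp]
    congr 2
    funext i
    exact hX i
  rw [← hI, ← Ideal.map_pow, mem_map_iff_repr β] at h
  rw [← hI, mem_map_iff_repr β]
  intro j
  rw [map_add, Finsupp.add_apply]
  refine poly_coeff_two (fun a b => β.repr (u a b) j) ?_ a b
  have h1 := h j
  have h2 : ∀ (a : Fin n) (c : B), y a * c = (MvPolynomial.X a : MvPolynomial (Fin n) k) • c := by
    intro a c
    rw [Algebra.smul_def, hX]
  simp only [h2, map_sum, map_smul, Finsupp.finset_sum_apply, Finsupp.smul_apply,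
    smul_eq_mul] at h1
  exact h1

/-- `∑ y_a u_a ∈ J ^ 2` implies `u_a ∈ J` (`J = (y) B_x`; `B` is free over `k[y]`). -/
theorem coeff_mem_one (y : Fin n → B) (hy : IsFiniteFree k y) (x : Ideal B) [x.IsMaximal]
    (u : Fin n → Localization.AtPrime x)
    (h : ∑ a, algebraMap B (Localization.AtPrime x) (y a) * u a ∈ paramIdeal x y ^ 2) (a : Fin n) :
    u a ∈ paramIdeal x y := by
  obtain ⟨s, hs⟩ := IsLocalization.exist_integer_multiples_of_finite x.primeCompl u
  choose v hv using hs
  have h1 : algebraMap B (Localization.AtPrime x) (∑ a, y a * v a) ∈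
      ((Ideal.span (Set.range y)) ^ 2).map (algebraMap B (Localization.AtPrime x)) := by
    rw [Ideal.map_pow, map_sum]
    have h2 : ∑ a, algebraMap B (Localization.AtPrime x) (y a * v a) =
        algebraMap B (Localization.AtPrime x) s *
          ∑ a, algebraMap B (Localization.AtPrime x) (y a) * u a := by
      rw [Finset.mul_sum]
      refine Finset.sum_congr rfl fun a _ => ?_
      rw [map_mul, hv, Algebra.smul_def]
      ring
    rw [h2]
    exact Ideal.mul_mem_left _ _ h
  rw [IsLocalization.algebraMap_mem_map_algebraMap_iff x.primeCompl] at h1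
  obtain ⟨t, ht, h3⟩ := h1
  have h4 : ∑ a, y a * (t * v a) ∈ Ideal.span (Set.range y) ^ 2 := by
    have h5 : ∑ a, y a * (t * v a) = t * ∑ a, y a * v a := by
      rw [Finset.mul_sum]
      exact Finset.sum_congr rfl fun a _ => by ring
    rw [h5]
    exact h3
  have h6 := Ideal.mem_map_of_mem (algebraMap B (Localization.AtPrime x)) (glob_one y hy _ h4 a)
  rw [map_mul, hv, Algebra.smul_def, ← mul_assoc, ← map_mul] at h6
  have h7 : IsUnit (algebraMap B (Localization.AtPrime x) (t * s)) :=
    IsLocalization.map_units _ (⟨t, ht⟩ * s : x.primeCompl)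
  exact (Ideal.unit_mul_mem_iff_mem _ h7).1 h6

/-- `∑ y_a y_b u_ab ∈ J ^ 3` implies `u_ab + u_ba ∈ J`. -/
theorem coeff_mem_two (y : Fin n → B) (hy : IsFiniteFree k y) (x : Ideal B) [x.IsMaximal]
    (u : Fin n → Fin n → Localization.AtPrime x)
    (h : ∑ a, ∑ b, algebraMap B (Localization.AtPrime x) (y a) *
      algebraMap B (Localization.AtPrime x) (y b) * u a b ∈ paramIdeal x y ^ 3) (a b : Fin n) :
    u a b + u b a ∈ paramIdeal x y := by
  obtain ⟨s, hs⟩ := IsLocalization.exist_integer_multiples_of_finite x.primeCompl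
    (fun p : Fin n × Fin n => u p.1 p.2)
  choose v hv using hs
  have h1 : algebraMap B (Localization.AtPrime x) (∑ a, ∑ b, y a * (y b * v (a, b))) ∈
      ((Ideal.span (Set.range y)) ^ 3).map (algebraMap B (Localization.AtPrime x)) := by
    rw [Ideal.map_pow]
    have h2 : algebraMap B (Localization.AtPrime x) (∑ a, ∑ b, y a * (y b * v (a, b))) =
        algebraMap B (Localization.AtPrime x) s *
          ∑ a, ∑ b, algebraMap B (Localization.AtPrime x) (y a) *
            algebraMap B (Localization.AtPrime x) (y b) * u a b := by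
      simp only [map_sum, Finset.mul_sum]
      refine Finset.sum_congr rfl fun a _ => Finset.sum_congr rfl fun b _ => ?_
      rw [map_mul, map_mul, hv, Algebra.smul_def]
      ring
    rw [h2]
    exact Ideal.mul_mem_left _ _ h
  rw [IsLocalization.algebraMap_mem_map_algebraMap_iff x.primeCompl] at h1
  obtain ⟨t, ht, h3⟩ := h1
  have h4 : ∑ a, ∑ b, y a * (y b * (t * v (a, b))) ∈ Ideal.span (Set.range y) ^ 3 := by
    have h5 : ∑ a, ∑ b, y a * (y b * (t * v (a, b))) = t * ∑ a, ∑ b, y a * (y b * v (a, b)) := by
      simp only [Finset.mul_sum]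
      exact Finset.sum_congr rfl fun a _ => Finset.sum_congr rfl fun b _ => by ring
    rw [h5]
    exact h3
  have h6 := Ideal.mem_map_of_mem (algebraMap B (Localization.AtPrime x))
    (glob_two y hy (fun a b => t * v (a, b)) h4 a b)
  have h8 : algebraMap B (Localization.AtPrime x) (t * v (a, b) + t * v (b, a)) =
      algebraMap B (Localization.AtPrime x) (t * s) * (u a b + u b a) := by
    rw [map_add, map_mul, map_mul, hv, hv, Algebra.smul_def, Algebra.smul_def, map_mul]
    ring
  rw [h8] at h6
  have h7 : IsUnit (algebraMap B (Localization.AtPrime x) (t * s)) :=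
    IsLocalization.map_units _ (⟨t, ht⟩ * s : x.primeCompl)
  exact (Ideal.unit_mul_mem_iff_mem _ h7).1 h6

end Pool.Agent.ODP
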