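import Pool.Agent.ODP.Gor

/-!
# Artinian Gorenstein algebras with Hilbert function `1, c, 1`
-/

open IsLocalRing

namespace Pool.Agent.ODP

section

variable {k R : Type*} [Field k] [CommRing R] [Algebra k R] {c : ℕ}

/-- The linear combinations of a family in an algebra. -/
def zc (z : Fin c → R) : (Fin c → k) →ₗ[k] R := Fintype.linearCombination k z

theorem zc_apply (z : Fin c → R) (v : Fin c → k) : zc z v = ∑ i, v i • z i := rfl

theorem zc_single (z : Fin c → R) (i : Fin c) : zc (k := k) z (Pi.single i 1) = z i := by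
  classical
  rw [zc_apply, Finset.sum_eq_single i]
  · rw [Pi.single_eq_same, one_smul]
  · intro j _ hj
    rw [Pi.single_eq_of_ne hj, zero_smul]
  · intro h
    exact absurd (Finset.mem_univ i) h

/-- The form `(u, v) ↦ τ ((∑ u_i z_i) (∑ v_j z_j))`. -/
def zform (τ : R →ₗ[k] k) (z : Fin c → R) : LinearMap.BilinForm k (Fin c → k) :=
  ((LinearMap.mul k R).compr₂ τ).compl₁₂ (zc z) (zc z)

theorem zform_apply (τ : R →ₗ[k] k) (z : Fin c → R) (u v : Fin c → k) :
    zform τ z u v = τ (zc z u * zc z v) := rfl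

end

/-- The maximal ideal of an Artinian Gorenstein algebra with Hilbert function `1, c, 1` has
generators `w_i` with `w_i w_j = 0` for `i ≠ j` and `w_i ^ 2 = f`. -/
theorem exists_orthonormal {k R : Type*} [Field k] [IsAlgClosed k] [CharZero k] [CommRing R]
    [IsLocalRing R] [Algebra k R] [Module.Finite k R]
    (hk : ∀ r : R, ∃ a : k, r - algebraMap k R a ∈ maximalIdeal R)
    (τ : R →ₗ[k] k) (hτ : ∀ r, (∀ r', τ (r * r') = 0) → r = 0) (c : ℕ)
    (z : Fin c → R) (hz : Ideal.span (Set.range z) = maximalIdeal R)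
    (h3 : maximalIdeal R ^ 3 = ⊥) (hc : Module.finrank k R = c + 2) :
    ∃ (w : Fin c → R) (f : R), Ideal.span (Set.range w) = maximalIdeal R ∧ f ≠ 0 ∧
      f ∈ maximalIdeal R ^ 2 ∧ (∀ i j, w i * w j = if i = j then f else 0) ∧
      (∀ a : Fin c → k, ∑ i, a i • w i ∈ maximalIdeal R ^ 2 → a = 0) := by
  classical
  set M : Submodule k R := Submodule.restrictScalars k (maximalIdeal R) with hM
  set M2 : Submodule k R := Submodule.restrictScalars k (maximalIdeal R ^ 2) with hM2
  have hmem2 : ∀ a ∈ maximalIdeal R, ∀ b ∈ maximalIdeal R, a * b ∈ maximalIdeal R ^ 2 := by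
    intro a ha b hb
    rw [pow_two]
    exact Ideal.mul_mem_mul ha hb
  have hmem3 : ∀ a ∈ maximalIdeal R ^ 2, ∀ b ∈ maximalIdeal R, a * b = 0 := by
    intro a ha b hb
    have : a * b ∈ maximalIdeal R ^ 3 := by
      rw [pow_succ]
      exact Ideal.mul_mem_mul ha hb
    rwa [h3, Ideal.mem_bot] at this
  have hzm : ∀ i, z i ∈ maximalIdeal R := fun i => by
    rw [← hz]
    exact Ideal.subset_span ⟨i, rfl⟩
  have hzcm : ∀ v : Fin c → k, zc z v ∈ maximalIdeal R := by
    intro v
    rw [zc_apply]
    refine Ideal.sum_mem _ fun i _ => ?_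
    rw [Algebra.smul_def]
    exact Ideal.mul_mem_left _ _ (hzm i)
  -- dimensions
  have hdM : c + 1 ≤ Module.finrank k ↥M := by
    have := finrank_le_one_add hk
    rw [← hM] at this
    omega
  have hdM2 : Module.finrank k ↥M2 ≤ 1 := by
    have := finrank_add_le_of_dual (k := k) τ hτ (maximalIdeal R ^ 2) (maximalIdeal R) hmem3
    rw [← hM, ← hM2] at this
    omega
  have hle : M ≤ LinearMap.range (zc (k := k) z) ⊔ M2 := by
    have h1 := max_le_span_sup hk z hz
    have h2 := pow_restrictScalars_le (k := k) (maximalIdeal R) 2 (by norm_num)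
    have h4 : LinearMap.range (zc (k := k) z) = Submodule.span k (Set.range z) :=
      Fintype.range_linearCombination k z
    rw [h4]
    exact h1.trans (sup_le_sup_left h2 _)
  have hrank := Submodule.finrank_sup_add_finrank_inf_eq (LinearMap.range (zc (k := k) z)) M2
  have hmono := Submodule.finrank_mono hle
  have hker := LinearMap.finrank_range_add_finrank_ker (zc (k := k) z)
  rw [Module.finrank_fin_fun] at hker
  have hinf : Module.finrank k ↥(LinearMap.range (zc (k := k) z) ⊓ M2) = 0 := by omega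
  have hker0 : Module.finrank k ↥(LinearMap.ker (zc (k := k) z)) = 0 := by omega
  have hM21 : Module.finrank k ↥M2 = 1 := by omega
  rw [Submodule.finrank_eq_zero] at hinf hker0
  have hindep : ∀ v : Fin c → k, zc z v ∈ maximalIdeal R ^ 2 → v = 0 := by
    intro v hv
    have h1 : zc z v ∈ LinearMap.range (zc (k := k) z) ⊓ M2 := ⟨⟨v, rfl⟩, hv⟩
    rw [hinf, Submodule.mem_bot] at h1
    have h2 : v ∈ LinearMap.ker (zc (k := k) z) := h1
    rwa [hker0, Submodule.mem_bot] at h2
  -- the socle
  have hτ2 : ∀ x ∈ maximalIdeal R ^ 2, τ x = 0 → x = 0 := by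
    intro x hx h0
    refine hτ x fun r => ?_
    obtain ⟨a, ha⟩ := hk r
    have h1 : x * r = a • x := by
      have h2 := hmem3 x hx _ ha
      rw [mul_sub, sub_eq_zero] at h2
      rw [h2, Algebra.smul_def, mul_comm]
    rw [h1, map_smul, h0, smul_zero]
  obtain ⟨f₀, hf₀, hf₁⟩ := finrank_eq_one_iff'.1 hM21
  have hf₀' : τ (f₀ : R) ≠ 0 := fun h => hf₀ (Subtype.ext (hτ2 _ f₀.2 h))
  set f : R := (τ (f₀ : R))⁻¹ • (f₀ : R) with hf
  have hfmem : f ∈ maximalIdeal R ^ 2 := by
    have : f ∈ M2 := M2.smul_mem _ f₀.2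
    exact this
  have hτf : τ f = 1 := by
    rw [hf, map_smul, smul_eq_mul, inv_mul_cancel₀ hf₀']
  have hf0 : f ≠ 0 := by
    intro h
    rw [h, map_zero] at hτf
    exact zero_ne_one hτf
  have hxf : ∀ x ∈ maximalIdeal R ^ 2, x = τ x • f := by
    intro x hx
    have h1 : x - τ x • f ∈ maximalIdeal R ^ 2 := by
      have : x - τ x • f ∈ M2 := M2.sub_mem hx (M2.smul_mem _ hfmem)
      exact this
    have h2 := hτ2 _ h1 (by rw [map_sub, map_smul, hτf, smul_eq_mul, mul_one, sub_self])
    exact sub_eq_zero.1 h2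
  have hann : ∀ x, (∀ i, x * z i = 0) → x ∈ maximalIdeal R → x ∈ maximalIdeal R ^ 2 := by
    intro x hx hxm
    have hx' : ∀ y ∈ maximalIdeal R, x * y = 0 := by
      intro y hy
      rw [← hz] at hy
      obtain ⟨a, rfl⟩ := Ideal.mem_span_range_iff_exists_fun.1 hy
      rw [Finset.mul_sum]
      refine Finset.sum_eq_zero fun i _ => ?_
      rw [mul_left_comm, hx i, mul_zero]
    -- `x - τ x • f` is killed by `τ` after every multiplication
    have h2 : x - τ x • f = 0 := by
      refine hτ _ fun r => ?_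
      obtain ⟨a, ha⟩ := hk r
      have e1 : x * r = a • x := by
        have h2 := hx' _ ha
        rw [mul_sub, sub_eq_zero] at h2
        rw [h2, Algebra.smul_def, mul_comm]
      have e2 : f * r = a • f := by
        have h2 := hmem3 f hfmem _ ha
        rw [mul_sub, sub_eq_zero] at h2
        rw [h2, Algebra.smul_def, mul_comm]
      rw [sub_mul, e1, smul_mul_assoc, e2, map_sub, map_smul, map_smul, map_smul, hτf]
      simp only [smul_eq_mul]
      ring
    rw [sub_eq_zero.1 h2]
    have : τ x • f ∈ M2 := M2.smul_mem _ hfmem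
    exact this
  -- the form
  have hsymm : LinearMap.IsSymm (zform (k := k) τ z) := by
    refine ⟨fun u v => ?_⟩
    rw [zform_apply, zform_apply, mul_comm]
    rfl
  have hnd : ∀ u, (∀ v, zform (k := k) τ z u v = 0) → u = 0 := by
    intro u hu
    refine hindep u (hann _ (fun i => ?_) (hzcm u))
    have h1 := hu (Pi.single i 1)
    rw [zform_apply, zc_single] at h1
    exact hτ2 _ (hmem2 _ (hzcm u) _ (hzm i)) h1
  have h2inv : Invertible (2 : k) := invertibleOfNonzero two_ne_zero
  obtain ⟨v₀, hv₀⟩ := LinearMap.BilinForm.exists_orthogonal_basis hsymm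
  have hfr : Module.finrank k (Fin c → k) = c := Module.finrank_fin_fun k
  set v := v₀.reindex (finCongr hfr) with hv
  have hvo : ∀ i j, i ≠ j → zform (k := k) τ z (v i) (v j) = 0 := by
    intro i j hij
    rw [hv, Module.Basis.reindex_apply, Module.Basis.reindex_apply]
    exact hv₀ (fun h => hij ((finCongr hfr).symm.injective h))
  have hvd : ∀ i, zform (k := k) τ z (v i) (v i) ≠ 0 := by
    intro i h0
    refine v.ne_zero i (hnd _ fun u => ?_)
    rw [← v.sum_repr u, map_sum]
    refine Finset.sum_eq_zero fun j _ => ?_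
    rw [map_smul]
    by_cases h : i = j
    · rw [← h, h0, smul_zero]
    · rw [hvo i j h, smul_zero]
  choose s hs using fun i => IsAlgClosed.exists_pow_nat_eq (zform (k := k) τ z (v i) (v i))
    zero_lt_two
  have hs0 : ∀ i, s i ≠ 0 := by
    intro i h
    refine hvd i ?_
    rw [← hs i, h]
    simp
  have hwm : ∀ i, (s i)⁻¹ • zc z (v i) ∈ maximalIdeal R := by
    intro i
    have : (s i)⁻¹ • zc z (v i) ∈ M := M.smul_mem _ (hzcm _)
    exact this
  have hww : ∀ i j, ((s i)⁻¹ • zc z (v i)) * ((s j)⁻¹ • zc z (v j)) = if i = j then f else 0 := by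
    intro i j
    rw [hxf _ (hmem2 _ (hwm i) _ (hwm j)), smul_mul_smul_comm, map_smul, ← zform_apply]
    split_ifs with h
    · subst h
      rw [← hs i]
      have h1 : ((s i)⁻¹ * (s i)⁻¹) • s i ^ 2 = 1 := by
        rw [smul_eq_mul]
        field_simp [hs0 i]
      rw [h1, one_smul]
    · rw [hvo i j h, smul_zero, zero_smul]
  refine ⟨fun i => (s i)⁻¹ • zc z (v i), f, ?_, hf0, hfmem, hww, ?_⟩
  · apply le_antisymm
    · rw [Ideal.span_le]
      rintro _ ⟨i, rfl⟩
      exact hwm i
    · conv_lhs => rw [← hz]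
      rw [Ideal.span_le]
      rintro _ ⟨i, rfl⟩
      rw [← zc_single (k := k) z i, ← v.sum_repr (Pi.single i 1), map_sum]
      refine Ideal.sum_mem _ fun j _ => ?_
      rw [map_smul]
      have h1 : zc z (v j) = s j • ((s j)⁻¹ • zc z (v j)) := by
        rw [smul_smul, mul_inv_cancel₀ (hs0 j), one_smul]
      rw [h1, smul_smul, Algebra.smul_def]
      exact Ideal.mul_mem_left _ _ (Ideal.subset_span ⟨j, rfl⟩)
  · intro a ha
    funext j
    have h1 := hmem3 _ ha _ (hwm j)
    rw [Finset.sum_mul, Finset.sum_eq_single j] at h1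
    · rw [smul_mul_assoc, hww, if_pos rfl] at h1
      exact (smul_eq_zero.1 h1).resolve_right hf0
    · intro i _ hij
      rw [smul_mul_assoc, hww, if_neg hij, smul_zero]
    · intro h
      exact absurd (Finset.mem_univ j) h

end Pool.Agent.ODP
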