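import Pool.Agent.ODP.Assoc
import Pool.Agent.ODP.Dual
import Pool.Agent.ODP.Quad
import Pool.Agent.ODP.GrJ

/-!
# Points with `B_x / (y)` of Hilbert function `1, 4, 1`
-/

open scoped WithZero ENNReal
open IsLocalRing

namespace Pool.Agent.ODP

set_option linter.unusedSectionVars false

/-! ### numerical inequality -/

theorem num_ratio (m : ℕ) (hm : 1 ≤ m) :
    (((m : ℝ) + 2) / (m + 1)) ^ (m + 2) ≤ (((m : ℝ) + 1) / m) ^ (m + 1) := by
  have hm0 : (0 : ℝ) < m := by exact_mod_cast hm
  -- Bernoulli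
  have h1 : 1 + ((m + 2 : ℕ) : ℝ) * (1 / ((m : ℝ) * (m + 2))) ≤
      (1 + 1 / ((m : ℝ) * (m + 2))) ^ (m + 2) :=
    one_add_mul_le_pow (by
      have : (0 : ℝ) ≤ 1 / ((m : ℝ) * (m + 2)) := by positivity
      linarith) _
  have h2 : 1 + ((m + 2 : ℕ) : ℝ) * (1 / ((m : ℝ) * (m + 2))) = ((m : ℝ) + 1) / m := by
    push_cast
    field_simp
  have h3 : 1 + 1 / ((m : ℝ) * (m + 2)) =
      (((m : ℝ) + 1) / m) / (((m : ℝ) + 2) / (m + 1)) := by
    field_simp
    ring
  rw [h2, h3, div_pow] at h1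
  have hpos : 0 < (((m : ℝ) + 2) / (m + 1)) ^ (m + 2) := by positivity
  rw [le_div_iff₀ hpos] at h1
  have hr : 0 < ((m : ℝ) + 1) / m := by positivity
  have h4 : (((m : ℝ) + 1) / m) ^ (m + 2) =
      ((m : ℝ) + 1) / m * (((m : ℝ) + 1) / m) ^ (m + 1) := by
    rw [pow_succ']
  rw [h4] at h1
  exact le_of_mul_le_mul_left h1 hr

theorem num_four (n : ℕ) (hn : 17 ≤ n) :
    6 * (n : ℝ) ^ n * (7 : ℝ) ^ 16 < 2 * ((n : ℝ) - 1) ^ n * 8 ^ 16 := by
  have key : ∀ m : ℕ, 16 ≤ m → (((m : ℝ) + 1) / m) ^ (m + 1) ≤ (17 / 16 : ℝ) ^ 17 := by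
    intro m hm
    induction m, hm using Nat.le_induction with
    | base => norm_num
    | succ m hm ih =>
      refine le_trans ?_ ih
      have h1 := num_ratio m (by omega)
      have h2 : (((m + 1 : ℕ) : ℝ) + 1) / ((m + 1 : ℕ) : ℝ) = ((m : ℝ) + 2) / (m + 1) := by
        push_cast
        ring
      rw [h2]
      exact h1
  obtain ⟨m, rfl⟩ : ∃ m, n = m + 1 := ⟨n - 1, by omega⟩
  have h1 := key m (by omega)
  have hm0 : (0 : ℝ) < m := by
    have : 0 < m := by omega
    exact_mod_cast this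
  have h2 : (((m : ℝ) + 1) / m) ^ (m + 1) < 8 ^ 16 / (3 * 7 ^ 16) :=
    h1.trans_lt (by norm_num)
  rw [div_pow, div_lt_div_iff₀ (by positivity) (by positivity)] at h2
  push_cast
  have h3 : (m : ℝ) + 1 - 1 = m := by ring
  rw [h3]
  linarith

/-! ### adapted bases -/

theorem exists_adapted {k : Type*} [Field k] {n d : ℕ} (τ : Fin d → Fin n → k) :
    ∃ (M N : Matrix (Fin n) (Fin n) k), N * M = 1 ∧
      ∀ {L : Type*} [CommRing L] [Algebra k L] (y : Fin n → L) (p : Fin d),
        ∑ j, τ p j • y j ∈ Submodule.span k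
          ((linChange M y) '' {i : Fin n | (i : ℕ) < d}) := by
  set U : Submodule k (Fin n → k) := Submodule.span k (Set.range τ) with hU
  have hUd : Module.finrank k U ≤ d := by
    have h1 := finrank_range_le_card (R := k) τ
    rwa [Fintype.card_fin] at h1
  obtain ⟨W, hW⟩ := U.exists_isCompl
  have hsum : Module.finrank k U + Module.finrank k W = n := by
    rw [Submodule.finrank_add_eq_of_isCompl hW, Module.finrank_fin_fun]
  let bU := Module.finBasis k U
  let bW := Module.finBasis k W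
  let e : Fin (Module.finrank k U) ⊕ Fin (Module.finrank k W) ≃ Fin n :=
    finSumFinEquiv.trans (finCongr hsum)
  let b : Module.Basis (Fin n) k (Fin n → k) :=
    ((bU.prod bW).map (Submodule.prodEquivOfIsCompl U W hW)).reindex e
  have hb : ∀ i : Fin (Module.finrank k U), b (e (Sum.inl i)) = (bU i : Fin n → k) := by
    intro i
    simp only [b, Module.Basis.reindex_apply, Equiv.symm_apply_apply, Module.Basis.map_apply]
    simp
  have he : ∀ i : Fin (Module.finrank k U), ((e (Sum.inl i) : Fin n) : ℕ) < d := by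
    intro i
    have h1 : ((e (Sum.inl i) : Fin n) : ℕ) = i := by
      simp [e]
    rw [h1]
    exact i.2.trans_le hUd
  let M : Matrix (Fin n) (Fin n) k := Matrix.of fun i j => b i j
  let N : Matrix (Fin n) (Fin n) k := (b.toMatrix (Pi.basisFun k (Fin n))).transpose
  have hM : M = ((Pi.basisFun k (Fin n)).toMatrix b).transpose := by
    ext i j
    simp [M, Module.Basis.toMatrix_apply]
  refine ⟨M, N, ?_, ?_⟩
  · rw [hM, ← Matrix.transpose_mul, Module.Basis.toMatrix_mul_toMatrix_flip,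
      Matrix.transpose_one]
  · intro L _ _ y p
    have hτ : τ p ∈ U := Submodule.subset_span ⟨p, rfl⟩
    have h1 : (⟨τ p, hτ⟩ : U) = ∑ i, bU.repr ⟨τ p, hτ⟩ i • bU i := (bU.sum_repr _).symm
    have h2 : τ p = ∑ i, bU.repr ⟨τ p, hτ⟩ i • b (e (Sum.inl i)) := by
      have h3 := congrArg (Subtype.val : U → (Fin n → k)) h1
      rw [AddSubmonoidClass.coe_finsetSum] at h3
      refine h3.trans (Finset.sum_congr rfl fun i _ => ?_)
      rw [hb]
      rfl
    have h3 : ∑ j, τ p j • y j =
        ∑ i, bU.repr ⟨τ p, hτ⟩ i • linChange M y (e (Sum.inl i)) := by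
      have h4 : ∀ j, τ p j = ∑ i, bU.repr ⟨τ p, hτ⟩ i * b (e (Sum.inl i)) j := by
        intro j
        have h5 := congrFun h2 j
        rw [Finset.sum_apply] at h5
        exact h5
      simp only [linChange, Finset.smul_sum]
      rw [Finset.sum_comm]
      refine Finset.sum_congr rfl fun j _ => ?_
      rw [h4 j, Finset.sum_smul]
      refine Finset.sum_congr rfl fun i _ => ?_
      rw [smul_smul]
      rfl
    rw [h3]
    exact Submodule.sum_mem _ fun i _ => Submodule.smul_mem _ _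
      (Submodule.subset_span ⟨_, he i, rfl⟩)

/-! ### generators -/

theorem exists_gens_of_finrank {k R : Type*} [Field k] [CommRing R] [IsLocalRing R] [Algebra k R]
    [Module.Finite k R] (h3 : maximalIdeal R ^ 3 = ⊥) (c : ℕ)
    (hc : Module.finrank k ↥(Submodule.restrictScalars k (maximalIdeal R)) ≤
      Module.finrank k ↥(Submodule.restrictScalars k (maximalIdeal R ^ 2)) + c) :
    ∃ z : Fin c → R, Ideal.span (Set.range z) = maximalIdeal R := by
  classical
  set M : Submodule k R := Submodule.restrictScalars k (maximalIdeal R) with hM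
  set M2 : Submodule k R := Submodule.restrictScalars k (maximalIdeal R ^ 2) with hM2
  have hle : M2 ≤ M := by
    intro r hr
    exact Ideal.pow_le_self (by norm_num) hr
  let W : Submodule k M := M2.comap M.subtype
  have hW : Module.finrank k W = Module.finrank k M2 :=
    (Submodule.comapSubtypeEquivOfLe hle).finrank_eq
  have hq := W.finrank_quotient_add_finrank
  have hq' : Module.finrank k (M ⧸ W) ≤ c := by omega
  let b := Module.finBasis k (M ⧸ W)
  let w : Fin c → M ⧸ W := fun j =>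
    if h : (j : ℕ) < Module.finrank k (M ⧸ W) then b ⟨j, h⟩ else 0
  have hw : Submodule.span k (Set.range w) = ⊤ := by
    rw [eq_top_iff, ← b.span_eq, Submodule.span_le]
    rintro _ ⟨i, rfl⟩
    refine Submodule.subset_span ⟨⟨i, i.2.trans_le hq'⟩, ?_⟩
    exact dif_pos i.2
  choose z hz using fun j => W.mkQ_surjective (w j)
  have hzM : ∀ j, (z j : R) ∈ maximalIdeal R := fun j => (z j).2
  have hle2 : maximalIdeal R ≤ Ideal.span (Set.range fun j => (z j : R)) ⊔ maximalIdeal R ^ 2 := by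
    intro r hr
    have h1 : W.mkQ ⟨r, hr⟩ ∈ Submodule.span k (Set.range w) := by
      rw [hw]
      exact Submodule.mem_top
    rw [Submodule.mem_span_range_iff_exists_fun] at h1
    obtain ⟨s, hs⟩ := h1
    have h2 : W.mkQ (⟨r, hr⟩ - ∑ j, s j • z j) = 0 := by
      rw [map_sub, map_sum, ← hs, sub_eq_zero]
      refine Finset.sum_congr rfl fun j _ => ?_
      rw [map_smul, hz]
    rw [Submodule.mkQ_apply, Submodule.Quotient.mk_eq_zero] at h2
    have h3 : r - ∑ j, s j • (z j : R) ∈ maximalIdeal R ^ 2 := by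
      have h4 : ((⟨r, hr⟩ - ∑ j, s j • z j : M) : R) ∈ M2 := h2
      have h5 : ((⟨r, hr⟩ - ∑ j, s j • z j : M) : R) = r - ∑ j, s j • (z j : R) := by
        simp
      rwa [h5] at h4
    have h4 : r = ∑ j, s j • (z j : R) + (r - ∑ j, s j • (z j : R)) := by ring
    rw [h4]
    refine Ideal.add_mem _ (Ideal.mem_sup_left (Ideal.sum_mem _ fun j _ => ?_))
      (Ideal.mem_sup_right h3)
    rw [Algebra.smul_def]
    exact Ideal.mul_mem_left _ _ (Ideal.subset_span ⟨j, rfl⟩)
  refine ⟨fun j => z j, le_antisymm ?_ ?_⟩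
  · rw [Ideal.span_le]
    rintro _ ⟨j, rfl⟩
    exact hzM j
  · have h4 : maximalIdeal R ^ 2 ≤ Ideal.span (Set.range fun j => (z j : R)) := by
      have h5 : maximalIdeal R ^ 2 ≤
          (Ideal.span (Set.range fun j => (z j : R)) ⊔ maximalIdeal R ^ 2) * maximalIdeal R := by
        rw [pow_two]
        exact Ideal.mul_mono_left (by rw [← pow_two]; exact hle2)
      rw [Ideal.sup_mul, ← pow_succ, h3, sup_bot_eq] at h5
      exact h5.trans Ideal.mul_le_left
    exact hle2.trans (sup_le le_rfl h4)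

/-! ### the valuation argument -/

theorem vIdeal_anti {L : Type*} [CommRing L] (v : Valuation L ℤᵐ⁰) (hv : ∀ l : L, v l ≤ 1)
    {m m' : ℕ} (h : m' ≤ m) : vIdeal v hv m ≤ vIdeal v hv m' := by
  intro l hl
  rw [mem_vIdeal] at hl ⊢
  refine hl.trans ?_
  rw [WithZero.exp_le_exp]
  have : (m' : ℤ) ≤ m := by exact_mod_cast h
  linarith

/-- If the products `z_j z_l` and the differences `z_j² - z_l²` lie in
`I (z) + I² + m³`, then the `z_j` have order at least that of `I`. -/
theorem order_of_rel {L : Type*} [CommRing L] [IsLocalRing L] (w : Valuation L ℤᵐ⁰)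
    (hle : ∀ l : L, w l ≤ 1) {c : ℕ} (hc : 2 ≤ c) (z : Fin c → L) (I : Ideal L) (C D : ℕ)
    (hCD : 2 * C ≤ 3 * D) (hI : I ≤ vIdeal w hle C) (hm : maximalIdeal L ≤ vIdeal w hle D)
    (h1 : ∀ j l, j ≠ l → z j * z l ∈
      I * Ideal.span (Set.range z) ⊔ I ^ 2 ⊔ maximalIdeal L ^ 3)
    (h2 : ∀ j l, z j ^ 2 - z l ^ 2 ∈
      I * Ideal.span (Set.range z) ⊔ I ^ 2 ⊔ maximalIdeal L ^ 3) (i : Fin c) :
    w (z i) ≤ WithZero.exp (-(C : ℤ)) := by
  have hne : Nonempty (Fin c) := ⟨i⟩
  obtain ⟨i₂, hi₂⟩ := Finite.exists_max fun i => w (z i)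
  refine (hi₂ i).trans ?_
  by_contra hcon
  rw [not_le] at hcon
  have h0 : w (z i₂) ≠ 0 := by
    intro h0
    rw [h0] at hcon
    exact absurd hcon (not_lt.mpr zero_le)
  obtain ⟨μ, hμ⟩ : ∃ μ : ℕ, w (z i₂) = WithZero.exp (-(μ : ℤ)) := by
    have h3 := hle (z i₂)
    rw [← WithZero.exp_log h0, ← WithZero.exp_zero, WithZero.exp_le_exp] at h3
    refine ⟨(-(WithZero.log (w (z i₂)))).toNat, ?_⟩
    rw [Int.toNat_of_nonneg (by omega), neg_neg, WithZero.exp_log h0]
  rw [hμ, WithZero.exp_lt_exp] at hcon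
  have hμC : μ + 1 ≤ C := by omega
  have hspan : Ideal.span (Set.range z) ≤ vIdeal w hle μ := by
    rw [Ideal.span_le]
    rintro _ ⟨j, rfl⟩
    rw [SetLike.mem_coe, mem_vIdeal, ← hμ]
    exact hi₂ j
  have hK : I * Ideal.span (Set.range z) ⊔ I ^ 2 ⊔ maximalIdeal L ^ 3 ≤
      vIdeal w hle (2 * μ + 1) := by
    refine sup_le (sup_le ?_ ?_) ?_
    · exact ((Ideal.mul_mono hI hspan).trans (vIdeal_mul w hle _ _)).trans
        (vIdeal_anti w hle (by omega))
    · exact ((Ideal.pow_right_mono hI 2).trans (vIdeal_pow w hle _ _)).trans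
        (vIdeal_anti w hle (by omega))
    · exact ((Ideal.pow_right_mono hm 3).trans (vIdeal_pow w hle _ _)).trans
        (vIdeal_anti w hle (by omega))
  obtain ⟨j, hj⟩ : ∃ j : Fin c, j ≠ i₂ := by
    have : Nontrivial (Fin c) := Fin.nontrivial_iff_two_le.mpr hc
    exact exists_ne i₂
  have h3 : w (z j) ≤ WithZero.exp (-((μ + 1 : ℕ) : ℤ)) := by
    have h4 := hK (h1 i₂ j hj.symm)
    rw [mem_vIdeal, map_mul, hμ] at h4
    calc w (z j) = WithZero.exp (μ : ℤ) * (WithZero.exp (-(μ : ℤ)) * w (z j)) := by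
          rw [← mul_assoc, ← WithZero.exp_add, add_neg_cancel, WithZero.exp_zero, one_mul]
      _ ≤ WithZero.exp (μ : ℤ) * WithZero.exp (-((2 * μ + 1 : ℕ) : ℤ)) := mul_le_mul' le_rfl h4
      _ = WithZero.exp (-((μ + 1 : ℕ) : ℤ)) := by
          rw [← WithZero.exp_add]
          congr 1
          push_cast
          ring
  have h4 : z i₂ ^ 2 ∈ vIdeal w hle (2 * μ + 1) := by
    have h5 : z i₂ ^ 2 = (z i₂ ^ 2 - z j ^ 2) + z j ^ 2 := by ring
    rw [h5]
    refine Ideal.add_mem _ (hK (h2 i₂ j)) ?_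
    have h6 : z j ∈ vIdeal w hle (μ + 1) := h3
    exact vIdeal_anti w hle (by omega) (vIdeal_pow w hle (μ + 1) 2 (Ideal.pow_mem_pow h6 2))
  rw [mem_vIdeal, map_pow, hμ, ← WithZero.exp_nsmul, WithZero.exp_le_exp, nsmul_eq_mul] at h4
  push_cast at h4
  omega

theorem sum_split {n : ℕ} (hn : 16 ≤ n) (C D : ℤ) :
    ∑ i : Fin n, (if (i : ℕ) < 16 then C else D) = 16 * C + ((n : ℤ) - 16) * D := by
  rw [Fin.sum_univ_eq_sum_range (fun i => if i < 16 then C else D) n]
  obtain ⟨r, rfl⟩ : ∃ r, n = 16 + r := ⟨n - 16, by omega⟩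
  rw [Finset.sum_range_add]
  have h1 : ∑ x ∈ Finset.range 16, (if x < 16 then C else D) = ∑ x ∈ Finset.range 16, C :=
    Finset.sum_congr rfl fun x hx => if_pos (Finset.mem_range.1 hx)
  have h2 : ∑ x ∈ Finset.range r, (if 16 + x < 16 then C else D) = ∑ x ∈ Finset.range r, D :=
    Finset.sum_congr rfl fun x _ => if_neg (by omega)
  rw [h1, h2, Finset.sum_const, Finset.sum_const, Finset.card_range, Finset.card_range]
  simp only [nsmul_eq_mul]
  push_cast
  ring

theorem prod_split {n : ℕ} (hn : 16 ≤ n) (C D : ℝ) :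
    ∏ i : Fin n, (if (i : ℕ) < 16 then C else D) = C ^ 16 * D ^ (n - 16) := by
  rw [Fin.prod_univ_eq_prod_range (fun i => if i < 16 then C else D) n]
  obtain ⟨r, rfl⟩ : ∃ r, n = 16 + r := ⟨n - 16, by omega⟩
  rw [Finset.prod_range_add]
  have h1 : ∏ x ∈ Finset.range 16, (if x < 16 then C else D) = ∏ x ∈ Finset.range 16, C :=
    Finset.prod_congr rfl fun x hx => if_pos (Finset.mem_range.1 hx)
  have h2 : ∏ x ∈ Finset.range r, (if 16 + x < 16 then C else D) = ∏ x ∈ Finset.range r, D :=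
    Finset.prod_congr rfl fun x _ => if_neg (by omega)
  rw [h1, h2, Finset.prod_const, Finset.prod_const, Finset.card_range, Finset.card_range,
    Nat.add_sub_cancel_left]

section

variable {k : Type*} [Field k] [CharZero k] {n : ℕ} {B K : Type*}
  [CommRing B] [IsDomain B] [IsIntegrallyClosed B] [Algebra k B]
  [Field K] [Algebra B K] [IsFractionRing B K] [Algebra k K] [IsScalarTower k B K]

theorem localVol_lt_of_rel (hn : 17 ≤ n) (y : Fin n → B) (hy : IsFiniteFree k y)
    (x : Ideal B) [x.IsMaximal] (hred : IsReductionAt x y) (g : K)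
    (hg : IsCanonicalAt k x (fun i => algebraMap B K (y i)) g)
    (hklt : HasPosLogDiscrepancies k x y g) (he : paramLength k x y = 6)
    (z : Fin 4 → Localization.AtPrime x) (hzJ : ∀ i, z i ^ 2 ∉ paramIdeal x y)
    (I : Ideal (Localization.AtPrime x))
    (hI : I ≤ Ideal.span ((fun i => algebraMap B (Localization.AtPrime x) (y i)) ''
      {i : Fin n | (i : ℕ) < 16}))
    (h1 : ∀ j l, j ≠ l → z j * z l ∈
      I * Ideal.span (Set.range z) ⊔ I ^ 2 ⊔ maximalIdeal (Localization.AtPrime x) ^ 3)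
    (h2 : ∀ j l, z j ^ 2 - z l ^ 2 ∈
      I * Ideal.span (Set.range z) ⊔ I ^ 2 ⊔ maximalIdeal (Localization.AtPrime x) ^ 3) :
    localVol k x y g < ENNReal.ofReal (2 * ((n : ℝ) - 1) ^ n) := by
  obtain ⟨b, u, hbu⟩ := IsLocalization.exists_mk'_eq x.primeCompl (z 0)
  have hu : IsUnit (algebraMap B (Localization.AtPrime x) (u : B)) :=
    IsLocalization.map_units _ u
  have hb := IsLocalization.mk'_spec (Localization.AtPrime x) b u
  rw [hbu] at hb
  have hf : algebraMap B (Localization.AtPrime x) (b ^ 2) ∉ paramIdeal x y := by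
    rw [map_pow, ← hb, mul_pow, Ideal.mul_unit_mem_iff_mem _ (hu.pow 2)]
    exact hzJ 0
  obtain ⟨v, hv, c, a, m, hc0, hcα, hc, ha, hvm, ham, hvol⟩ :=
    exists_valuation_gen (k := k) (by omega : 0 < n) y hy x g hg (b ^ 2) hf
      (fun i => if (i : ℕ) < 16 then 8 else 7) (fun i => by split_ifs <;> norm_num)
  set C := c ⟨0, by omega⟩ with hC
  set D := c ⟨16, by omega⟩ with hD
  have hCi : ∀ i : Fin n, (i : ℕ) < 16 → c i = C := by
    intro i hi
    have h3 := hcα i ⟨0, by omega⟩
    simp only [if_pos hi] at h3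
    norm_num at h3
    omega
  have hDi : ∀ i : Fin n, ¬ (i : ℕ) < 16 → c i = D := by
    intro i hi
    have h3 := hcα i ⟨16, by omega⟩
    simp only [if_neg hi] at h3
    norm_num at h3
    omega
  have hCD : 8 * D = 7 * C := by
    have h3 := hcα ⟨0, by omega⟩ ⟨16, by omega⟩
    norm_num at h3
    omega
  have hD0 : 0 < D := hc0 _
  have hDC : D ≤ C := by omega
  have hcD : ∀ i, D ≤ c i := by
    intro i
    by_cases hi : (i : ℕ) < 16
    · rw [hCi i hi]
      exact hDC
    · rw [hDi i hi]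
  have hle := val_loc_le (K := K) x v hv.nonneg hv.centre
  set w := v.comap (locEmb K x) with hw
  have hwb : ∀ b : B, w (algebraMap B (Localization.AtPrime x) b) = v (algebraMap B K b) := by
    intro b
    rw [hw, Valuation.comap_apply, locEmb_algebraMap]
  have hJ : paramIdeal x y ≤ vIdeal w hle D := by
    rw [paramIdeal, Ideal.map_span, Ideal.span_le]
    rintro _ ⟨_, ⟨i, rfl⟩, rfl⟩
    rw [SetLike.mem_coe, mem_vIdeal, hwb, hc i, WithZero.exp_le_exp]
    have := hcD i
    omega
  obtain ⟨N, hN⟩ := hred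
  have hmax : maximalIdeal (Localization.AtPrime x) ≤ vIdeal w hle D :=
    maximal_le_vIdeal w hle (val_loc_lt (K := K) x v hv.nonneg hv.centre) _ N hN D hJ
  have hIC : I ≤ vIdeal w hle C := by
    refine hI.trans ?_
    rw [Ideal.span_le]
    rintro _ ⟨i, hi, rfl⟩
    rw [SetLike.mem_coe, mem_vIdeal, hwb, hc i, hCi i hi]
  have hz0 := order_of_rel w hle (by norm_num) z I C D (by omega) hIC hmax h1 h2 0
  have hCm : 2 * C ≤ m := by
    have h3 : w (algebraMap B (Localization.AtPrime x) b) ≤ WithZero.exp (-(C : ℤ)) := by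
      rw [← hb, map_mul]
      calc w (z 0) * w (algebraMap B (Localization.AtPrime x) (u : B)) ≤
            WithZero.exp (-(C : ℤ)) * 1 := mul_le_mul' hz0 (hle _)
        _ = _ := mul_one _
    have h4 : w (algebraMap B (Localization.AtPrime x) (b ^ 2)) ≤
        WithZero.exp (-((C * 2 : ℕ) : ℤ)) := by
      have h5 : algebraMap B (Localization.AtPrime x) b ∈ vIdeal w hle C := h3
      have h6 := vIdeal_pow w hle C 2 (Ideal.pow_mem_pow h5 2)
      rw [← map_pow, mem_vIdeal] at h6
      exact h6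
    rw [hwb, hvm, WithZero.exp_le_exp] at h4
    push_cast at h4
    omega
  -- the volume
  have hapos : 0 < a := hklt v hv a ha
  have hsum : ∑ i, (c i : ℤ) = 16 * C + ((n : ℤ) - 16) * D := by
    rw [← sum_split (by omega) (C : ℤ) (D : ℤ)]
    refine Finset.sum_congr rfl fun i _ => ?_
    by_cases hi : (i : ℕ) < 16
    · rw [if_pos hi, hCi i hi]
    · rw [if_neg hi, hDi i hi]
  have hprod : ∏ i, (c i : ℝ) = (C : ℝ) ^ 16 * (D : ℝ) ^ (n - 16) := by
    rw [← prod_split (by omega) (C : ℝ) (D : ℝ)]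
    refine Finset.prod_congr rfl fun i _ => ?_
    by_cases hi : (i : ℕ) < 16
    · rw [if_pos hi, hCi i hi]
    · rw [if_neg hi, hDi i hi]
  have ha2 : a ≤ 14 * C + ((n : ℤ) - 16) * D := by
    have h3 : (2 * C : ℤ) ≤ m := by exact_mod_cast hCm
    rw [hsum] at ham
    linarith
  have haR : (a : ℝ) ≤ 14 * C + ((n : ℝ) - 16) * D := by exact_mod_cast ha2
  have haR0 : (0 : ℝ) ≤ a := by exact_mod_cast hapos.le
  obtain ⟨ρ, hρ0, hCρ, hDρ⟩ : ∃ ρ : ℝ, 0 < ρ ∧ (C : ℝ) = 8 * ρ ∧ (D : ℝ) = 7 * ρ := by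
    have h3 : (8 : ℝ) * D = 7 * C := by exact_mod_cast hCD
    have h4 : (0 : ℝ) < D := by exact_mod_cast hD0
    exact ⟨D / 7, by positivity, by linarith, by ring⟩
  have haR' : (a : ℝ) ≤ 7 * n * ρ := by
    rw [hCρ, hDρ] at haR
    linarith
  rw [hprod, he] at hvol
  have hfin : (a : ℝ) ^ n * (6 / ((C : ℝ) ^ 16 * (D : ℝ) ^ (n - 16))) <
      2 * ((n : ℝ) - 1) ^ n := by
    have h3 : (a : ℝ) ^ n ≤ (7 * n * ρ) ^ n := pow_le_pow_left₀ haR0 haR' n
    have h4 : (C : ℝ) ^ 16 * (D : ℝ) ^ (n - 16) = 8 ^ 16 * (7 : ℝ) ^ (n - 16) * ρ ^ n := by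
      rw [hCρ, hDρ, mul_pow, mul_pow]
      have h5 : ρ ^ n = ρ ^ 16 * ρ ^ (n - 16) := by
        rw [← pow_add]
        congr 1
        omega
      rw [h5]
      ring
    have h5 : (7 * (n : ℝ) * ρ) ^ n = 7 ^ 16 * (7 : ℝ) ^ (n - 16) * (n : ℝ) ^ n * ρ ^ n := by
      rw [mul_pow, mul_pow]
      have h6 : (7 : ℝ) ^ n = 7 ^ 16 * 7 ^ (n - 16) := by
        rw [← pow_add]
        congr 1
        omega
      rw [h6]
    have h6 : (0 : ℝ) < (7 : ℝ) ^ (n - 16) * ρ ^ n := by positivity
    rw [← mul_div_assoc, div_lt_iff₀ (by rw [h4]; positivity), h4]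
    calc (a : ℝ) ^ n * 6 ≤ (7 * n * ρ) ^ n * 6 := by linarith
      _ = (6 * (n : ℝ) ^ n * (7 : ℝ) ^ 16) * ((7 : ℝ) ^ (n - 16) * ρ ^ n) := by
          rw [h5]
          ring
      _ < (2 * ((n : ℝ) - 1) ^ n * 8 ^ 16) * ((7 : ℝ) ^ (n - 16) * ρ ^ n) :=
          mul_lt_mul_of_pos_right (num_four n hn) h6
      _ = 2 * ((n : ℝ) - 1) ^ n * (8 ^ 16 * (7 : ℝ) ^ (n - 16) * ρ ^ n) := by ring
  calc localVol k x y g ≤ ENNReal.ofReal ((a : ℝ) ^ n) * vol k n v hv.nonneg :=
        localVol_le x y g v hv a ha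
    _ ≤ ENNReal.ofReal ((a : ℝ) ^ n) *
          ENNReal.ofReal ((6 : ℕ) / ((C : ℝ) ^ 16 * (D : ℝ) ^ (n - 16))) :=
        mul_le_mul' le_rfl hvol
    _ = ENNReal.ofReal ((a : ℝ) ^ n * (6 / ((C : ℝ) ^ 16 * (D : ℝ) ^ (n - 16)))) := by
        rw [ENNReal.ofReal_mul (by positivity)]
        norm_num
    _ < ENNReal.ofReal (2 * ((n : ℝ) - 1) ^ n) := by
        rw [ENNReal.ofReal_lt_ofReal_iff_of_nonneg (by positivity)]
        exact hfin

/-- points with `B_x / (y)` of Hilbert function `1, 4, 1` -/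
theorem localVol_lt_of_four [IsAlgClosed k] (hn : 17 ≤ n) (y : Fin n → B) (hy : IsFiniteFree k y)
    (x : Ideal B) [x.IsMaximal] (hyx : ∀ i, y i ∈ x) (hred : IsReductionAt x y)
    (hk : ∀ b : B, ∃ a : k, b - algebraMap k B a ∈ x) (g : K)
    (hg : IsCanonicalAt k x (fun i => algebraMap B K (y i)) g)
    (hklt : HasPosLogDiscrepancies k x y g) (he : paramLength k x y = 6)
    (h3 : maximalIdeal (Localization.AtPrime x) ^ 3 ≤ paramIdeal x y) :
    localVol k x y g < ENNReal.ofReal (2 * ((n : ℝ) - 1) ^ n) := by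
  have hJ := paramIdeal_le x y hyx
  have hloc := isLocalRing_quot hJ
  have hfin := finite_paramQuotient y hy x
  have hkR := exists_const_quot (k := k) (paramIdeal x y) (exists_const_loc x hk)
  obtain ⟨τ, hτ⟩ := exists_dual y hy x hyx g hg
  have hR3 : maximalIdeal (Localization.AtPrime x ⧸ paramIdeal x y) ^ 3 = ⊥ :=
    (pow_quot_eq_bot_iff _ _).mpr h3
  have hR2 := gor_sq_ne_bot hkR τ hτ (by rw [paramLength] at he; omega)
  -- four generators
  have hgen : ∃ z : Fin 4 → Localization.AtPrime x ⧸ paramIdeal x y,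
      Ideal.span (Set.range z) = maximalIdeal (Localization.AtPrime x ⧸ paramIdeal x y) := by
    refine exists_gens_of_finrank (k := k) hR3 4 ?_
    have h4 : Module.finrank k ↥(Submodule.restrictScalars k
        (maximalIdeal (Localization.AtPrime x ⧸ paramIdeal x y))) <
        Module.finrank k (Localization.AtPrime x ⧸ paramIdeal x y) := by
      apply Submodule.finrank_lt
      intro htop
      have : (1 : Localization.AtPrime x ⧸ paramIdeal x y) ∈
          Submodule.restrictScalars k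
            (maximalIdeal (Localization.AtPrime x ⧸ paramIdeal x y)) := by
        rw [htop]; exact Submodule.mem_top
      exact (Ideal.ne_top_iff_one _).mp (IsLocalRing.maximalIdeal.isMaximal _).ne_top this
    have h5 : 0 < Module.finrank k ↥(Submodule.restrictScalars k
        (maximalIdeal (Localization.AtPrime x ⧸ paramIdeal x y) ^ 2)) := by
      rw [Nat.pos_iff_ne_zero, Ne, Submodule.finrank_eq_zero,
        Submodule.restrictScalars_eq_bot_iff]
      exact hR2
    rw [paramLength] at he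
    omega
  obtain ⟨z₀, hz₀⟩ := hgen
  obtain ⟨w, f, hw, hf0, hf2, hwf, hwind⟩ := exists_orthonormal hkR τ hτ 4 z₀ hz₀ hR3
    (by rw [paramLength] at he; exact he)
  -- lift to `B_x`
  choose z hz using fun i => Ideal.Quotient.mk_surjective (w i)
  have hspan : Ideal.span (Set.range fun i => algebraMap B (Localization.AtPrime x) (y i)) =
      paramIdeal x y := (paramIdeal_eq x y).symm
  have amb : Amb k (fun i => algebraMap B (Localization.AtPrime x) (y i)) (paramIdeal x y) :=
    { hJ := hspan.symm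
      hk := exists_const_loc x hk
      inf := paramIdeal_inf_sq_le y hy x hyx hred hk
      one := fun u hu a => coeff_mem_one y hy x u hu a
      two := fun u hu a b => coeff_mem_two y hy x u hu a b }
  have hmk : ∀ l : Localization.AtPrime x, Ideal.Quotient.mk (paramIdeal x y) l ∈
      maximalIdeal (Localization.AtPrime x ⧸ paramIdeal x y) ^ 2 →
      l ∈ paramIdeal x y ⊔ maximalIdeal (Localization.AtPrime x) ^ 2 := by
    intro l hl
    rw [maximalIdeal_quot, ← Ideal.map_pow] at hl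
    have h4 := (Ideal.mem_map_iff_of_surjective _ Ideal.Quotient.mk_surjective).1 hl
    obtain ⟨l', hl', hll⟩ := h4
    rw [← sub_eq_zero, ← map_sub, Ideal.Quotient.eq_zero_iff_mem] at hll
    have h5 : l = l' - (l' - l) := by ring
    rw [h5]
    exact Ideal.sub_mem _ (Ideal.mem_sup_right hl') (Ideal.mem_sup_left hll)
  have hgen' : paramIdeal x y ⊔ Ideal.span (Set.range z) =
      maximalIdeal (Localization.AtPrime x) := by
    rw [← span_quot_eq _ hJ, ← Set.range_comp]
    have h4 : (Ideal.Quotient.mk (paramIdeal x y) ∘ z) = w := funext hz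
    rw [h4]
    exact hw
  have hzm : ∀ i, z i ∈ maximalIdeal (Localization.AtPrime x) := fun i => by
    rw [← hgen']
    exact Ideal.mem_sup_right (Ideal.subset_span ⟨i, rfl⟩)
  have orth : Orth k (paramIdeal x y) z (z 0 * z 0) :=
    { gen := hgen'
      mul := by
        intro i j
        rw [← Ideal.Quotient.eq_zero_iff_mem, map_sub, map_mul, hz, hz, hwf]
        split_ifs
        · rw [map_mul, hz, hwf, if_pos rfl, sub_self]
        · rw [map_zero, sub_zero]
      f2 := by
        rw [pow_two]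
        exact Ideal.mul_mem_mul (hzm 0) (hzm 0)
      fJ := by
        rw [← Ideal.Quotient.eq_zero_iff_mem, map_mul, hz, hwf, if_pos rfl]
        exact hf0
      ind := by
        intro a ha
        apply hwind
        have h4 : ∑ i, a i • w i = Ideal.Quotient.mk (paramIdeal x y) (∑ i, a i • z i) := by
          rw [map_sum]
          refine Finset.sum_congr rfl fun i _ => ?_
          rw [← hz i]
          rfl
        rw [h4, maximalIdeal_quot, ← Ideal.map_pow]
        rw [Submodule.mem_sup] at ha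
        obtain ⟨p, hp, q, hq, hpq⟩ := ha
        rw [← hpq, map_add, Ideal.Quotient.eq_zero_iff_mem.2 hp, zero_add]
        exact Ideal.mem_map_of_mem _ hq }
  obtain ⟨z', S, -, hzJ, hS, hsym, hcyc, htr, hrel⟩ := exists_rel amb orth (by norm_num)
  obtain ⟨T, hT, hST⟩ := exists_sixteen hS hsym hcyc htr
  choose t ht using fun p => mem_linF_iff.1 (hT p)
  obtain ⟨M, N, hNM, hM⟩ := exists_adapted t
  have hlinM : ∀ l, linChange M (fun i => algebraMap B (Localization.AtPrime x) (y i)) l =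
      algebraMap B (Localization.AtPrime x) (linChange M y l) := by
    intro l
    rw [linChange, linChange, map_sum]
    refine Finset.sum_congr rfl fun i _ => ?_
    rw [Algebra.smul_def, Algebra.smul_def, map_mul, ← IsScalarTower.algebraMap_apply]
  have hJ' : paramIdeal x (linChange M y) = paramIdeal x y := paramIdeal_linChange M N hNM x y
  set I : Ideal (Localization.AtPrime x) :=
    Ideal.span ((fun i => algebraMap B (Localization.AtPrime x) (linChange M y i)) ''
      {i : Fin n | (i : ℕ) < 16}) with hI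
  have hTI : ∀ p, T p ∈ I := by
    intro p
    have h4 := hM (fun i => algebraMap B (Localization.AtPrime x) (y i)) p
    rw [ht p] at h4
    refine Submodule.span_induction (p := fun s _ => s ∈ I) ?_ ?_ ?_ ?_ h4
    · rintro _ ⟨i, hi, rfl⟩
      rw [hlinM]
      exact Ideal.subset_span ⟨i, hi, rfl⟩
    · exact Ideal.zero_mem _
    · intro a b _ _ ha hb
      exact Ideal.add_mem _ ha hb
    · intro a b _ hb
      rw [Algebra.smul_def]
      exact Ideal.mul_mem_left _ _ hb
  have hSI : ∀ i j l, S i j l ∈ I := by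
    intro i j l
    refine Submodule.span_induction (p := fun s _ => s ∈ I) ?_ ?_ ?_ ?_ (hST i j l)
    · rintro _ ⟨p, rfl⟩
      exact hTI p
    · exact Ideal.zero_mem _
    · intro a b _ _ ha hb
      exact Ideal.add_mem _ ha hb
    · intro a b _ hb
      rw [Algebra.smul_def]
      exact Ideal.mul_mem_left _ _ hb
  obtain ⟨h4, h5⟩ := hrel I hSI
  rw [← localVol_linChange M N hNM x y g]
  refine localVol_lt_of_rel hn (linChange M y) (isFiniteFree_linChange M N hNM y hy) x
    (isReductionAt_linChange M N hNM x y hred) g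
    (isCanonicalAt_linChange M N hNM x y g hg) ?_
    ((paramLength_linChange M N hNM x y).trans he) z' (by rw [hJ']; exact hzJ) I le_rfl h4 h5
  intro v hv c hc
  exact hklt v hv c ((isLogDiscrepancy_linChange M N hNM y g v hv.nonneg c).mp hc)

end

end Pool.Agent.ODP
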