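import Pool.Agent.ODP.Final
import Pool.Agent.ODP.Four

/-!
# Points of embedding codimension at most four or multiplicity at most six
-/

open scoped WithZero ENNReal
open IsLocalRing

namespace Pool.Agent.ODP

set_option linter.unusedSectionVars false

variable {k : Type*} [Field k] [CharZero k] {n : ℕ} {B K : Type*}
  [CommRing B] [IsDomain B] [IsIntegrallyClosed B] [Algebra k B]
  [Field K] [Algebra B K] [IsFractionRing B K] [Algebra k K] [IsScalarTower k B K]

/-- `e ≤ c + 2` if `m³ ⊆ (y)` -/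
theorem paramLength_le_of_cube [IsAlgClosed k] (y : Fin n → B) (hy : IsFiniteFree k y)
    (x : Ideal B) [x.IsMaximal] (hyx : ∀ i, y i ∈ x) (hred : IsReductionAt x y) (g : K)
    (hg : IsCanonicalAt k x (fun i => algebraMap B K (y i)) g) (c : ℕ) (hc : embDim x ≤ n + c)
    (h3 : maximalIdeal (Localization.AtPrime x) ^ 3 ≤ paramIdeal x y) :
    paramLength k x y ≤ c + 2 := by
  have hk := exists_const_alg y hy x hyx
  have hJ := paramIdeal_le x y hyx
  have hloc := isLocalRing_quot hJ
  have hfin := finite_paramQuotient y hy x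
  have hkR := exists_const_quot (k := k) (paramIdeal x y) (exists_const_loc x hk)
  obtain ⟨τ, hτ⟩ := exists_dual y hy x hyx g hg
  obtain ⟨z, hz⟩ := exists_generators y hy x hyx hred hk c hc
  have hz' : Ideal.span (Set.range fun i => Ideal.Quotient.mk (paramIdeal x y) (z i)) =
      maximalIdeal (Localization.AtPrime x ⧸ paramIdeal x y) := by
    rw [← span_quot_eq _ hJ, ← Set.range_comp] at hz
    exact hz
  have h1 := gor_length_le' hkR τ hτ c 2 le_rfl _ hz' ((pow_quot_eq_bot_iff _ _).mpr h3)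
  have h2 : (c + 2 - 2).choose c = 1 := by simp
  rw [h2] at h1
  exact h1

/-- the bound for `e ≤ E`, `E (n - 2) ^ n < 2 (n - 1) ^ n` -/
theorem localVol_lt_of_length [IsAlgClosed k] (hn : 2 ≤ n) (y : Fin n → B)
    (hy : IsFiniteFree k y)
    (x : Ideal B) [x.IsMaximal] (hyx : ∀ i, y i ∈ x) (hred : IsReductionAt x y) (g : K)
    (hg : IsCanonicalAt k x (fun i => algebraMap B K (y i)) g)
    (hklt : HasPosLogDiscrepancies k x y g) (h3e : 3 ≤ paramLength k x y) (E : ℕ)
    (hE : paramLength k x y ≤ E) (hnum : (E : ℝ) * ((n : ℝ) - 2) ^ n < 2 * ((n : ℝ) - 1) ^ n) :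
    localVol k x y g < ENNReal.ofReal (2 * ((n : ℝ) - 1) ^ n) := by
  have hk := exists_const_alg y hy x hyx
  have hJ := paramIdeal_le x y hyx
  have hloc := isLocalRing_quot hJ
  have hfin := finite_paramQuotient y hy x
  have hkR := exists_const_quot (k := k) (paramIdeal x y) (exists_const_loc x hk)
  obtain ⟨τ, hτ⟩ := exists_dual y hy x hyx g hg
  have hsq := gor_sq_ne_bot hkR τ hτ h3e
  rw [Ne, pow_quot_eq_bot_iff] at hsq
  obtain ⟨hsn, hbound⟩ := localVol_le_general (by omega) y hy x g hg hred hklt 2 hsq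
  have hn2 : (0 : ℝ) ≤ (n : ℝ) - 2 := by
    have : (2 : ℝ) ≤ n := by exact_mod_cast hn
    linarith
  refine hbound.trans_lt ?_
  rw [ENNReal.ofReal_lt_ofReal_iff_of_nonneg (by push_cast; positivity)]
  refine lt_of_le_of_lt ?_ hnum
  push_cast
  exact mul_le_mul_of_nonneg_right (by exact_mod_cast hE) (by positivity)

/-- multiplicity at most six -/
theorem localVol_six [IsAlgClosed k] (hn : 2 ≤ n) (y : Fin n → B) (hy : IsFiniteFree k y)
    (x : Ideal B) [x.IsMaximal] (hyx : ∀ i, y i ∈ x) (hred : IsReductionAt x y) (g : K)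
    (hg : IsCanonicalAt k x (fun i => algebraMap B K (y i)) g)
    (hklt : HasPosLogDiscrepancies k x y g) (hsing : n < embDim x)
    (h : paramLength k x y ≤ 6) :
    localVol k x y g ≤ ENNReal.ofReal (2 * ((n : ℝ) - 1) ^ n) ∧
      (¬ IsNodeAt n x → localVol k x y g < ENNReal.ofReal (2 * ((n : ℝ) - 1) ^ n)) := by
  by_cases h16 : n ≤ 16
  · exact localVol_small hn y hy x hyx hred g hg hklt hsing
      (Or.inr (Or.inr (Or.inl ⟨h16, Or.inr h⟩)))
  by_cases h5 : paramLength k x y ≤ 5
  · exact localVol_small hn y hy x hyx hred g hg hklt hsing (Or.inr (Or.inl h5))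
  have h6 : paramLength k x y = 6 := by omega
  by_cases h3 : maximalIdeal (Localization.AtPrime x) ^ 3 ≤ paramIdeal x y
  · have hlt := localVol_lt_of_four (by omega) y hy x hyx hred (exists_const_alg y hy x hyx) g hg
      hklt h6 h3
    exact ⟨hlt.le, fun _ => hlt⟩
  · obtain ⟨hsn, hbound⟩ := localVol_le_general (by omega) y hy x g hg hred hklt 3 h3
    have h1 := num_of_lt n 3 6 (by norm_num) hsn (by norm_num)
    have hn3 : (0 : ℝ) ≤ (n : ℝ) - 3 := by
      have : (3 : ℝ) ≤ n := by exact_mod_cast hsn.le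
      linarith
    have hlt : localVol k x y g < ENNReal.ofReal (2 * ((n : ℝ) - 1) ^ n) := by
      refine hbound.trans_lt ?_
      rw [ENNReal.ofReal_lt_ofReal_iff_of_nonneg (by push_cast; positivity), h6]
      exact h1
    exact ⟨hlt.le, fun _ => hlt⟩

/-- the main result -/
theorem localVol_small' [IsAlgClosed k] (hn : 2 ≤ n) (y : Fin n → B) (hy : IsFiniteFree k y)
    (x : Ideal B) [x.IsMaximal] (hyx : ∀ i, y i ∈ x) (hred : IsReductionAt x y) (g : K)
    (hg : IsCanonicalAt k x (fun i => algebraMap B K (y i)) g)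
    (hklt : HasPosLogDiscrepancies k x y g) (hsing : n < embDim x)
    (h : embDim x ≤ n + 4 ∨ paramLength k x y ≤ 6 ∨
      (embDim x ≤ n + 6 ∧ ¬ maximalIdeal (Localization.AtPrime x) ^ 3 ≤ paramIdeal x y) ∨
      (n ≤ 7 ∧ (embDim x ≤ n + 5 ∨ paramLength k x y ≤ 7)) ∨
      (n ≤ 5 ∧ (embDim x ≤ n + 6 ∨ paramLength k x y ≤ 8)) ∨
      (n = 4 ∧ (embDim x ≤ n + 8 ∨ paramLength k x y ≤ 10))) :
    localVol k x y g ≤ ENNReal.ofReal (2 * ((n : ℝ) - 1) ^ n) ∧
      (¬ IsNodeAt n x → localVol k x y g < ENNReal.ofReal (2 * ((n : ℝ) - 1) ^ n)) := by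
  have hsix := localVol_six hn y hy x hyx hred g hg hklt hsing
  have hcube : embDim x ≤ n + 6 →
      ¬ maximalIdeal (Localization.AtPrime x) ^ 3 ≤ paramIdeal x y →
      localVol k x y g ≤ ENNReal.ofReal (2 * ((n : ℝ) - 1) ^ n) ∧
      (¬ IsNodeAt n x → localVol k x y g < ENNReal.ofReal (2 * ((n : ℝ) - 1) ^ n)) :=
    fun h1 h2 => localVol_small hn y hy x hyx hred g hg hklt hsing
      (Or.inr (Or.inr (Or.inr (Or.inr ⟨h1, h2⟩))))
  have hlen : ∀ c, embDim x ≤ n + c →
      maximalIdeal (Localization.AtPrime x) ^ 3 ≤ paramIdeal x y → paramLength k x y ≤ c + 2 :=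
    fun c hc h3 => paramLength_le_of_cube y hy x hyx hred g hg c hc h3
  have hE : ∀ E : ℕ, paramLength k x y ≤ E →
      (3 ≤ paramLength k x y → (E : ℝ) * ((n : ℝ) - 2) ^ n < 2 * ((n : ℝ) - 1) ^ n) →
      localVol k x y g ≤ ENNReal.ofReal (2 * ((n : ℝ) - 1) ^ n) ∧
      (¬ IsNodeAt n x → localVol k x y g < ENNReal.ofReal (2 * ((n : ℝ) - 1) ^ n)) := by
    intro E hE hnum
    by_cases h3 : 3 ≤ paramLength k x y
    · have hlt := localVol_lt_of_length hn y hy x hyx hred g hg hklt h3 E hE (hnum h3)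
      exact ⟨hlt.le, fun _ => hlt⟩
    · exact hsix (by omega)
  rcases h with h | h | ⟨h, h3⟩ | ⟨h7, h⟩ | ⟨h5, h⟩ | h
  · by_cases h3 : maximalIdeal (Localization.AtPrime x) ^ 3 ≤ paramIdeal x y
    · exact hsix (hlen 4 h h3)
    · exact hcube (by omega) h3
  · exact hsix h
  · exact hcube h h3
  · have key : paramLength k x y ≤ 7 →
        localVol k x y g ≤ ENNReal.ofReal (2 * ((n : ℝ) - 1) ^ n) ∧
        (¬ IsNodeAt n x → localVol k x y g < ENNReal.ofReal (2 * ((n : ℝ) - 1) ^ n)) := by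
      intro he
      refine hE 7 he fun _ => ?_
      interval_cases n <;> norm_num
    rcases h with h | h
    · by_cases h3 : maximalIdeal (Localization.AtPrime x) ^ 3 ≤ paramIdeal x y
      · exact key (hlen 5 h h3)
      · exact hcube (by omega) h3
    · exact key h
  · have key : paramLength k x y ≤ 8 →
        localVol k x y g ≤ ENNReal.ofReal (2 * ((n : ℝ) - 1) ^ n) ∧
        (¬ IsNodeAt n x → localVol k x y g < ENNReal.ofReal (2 * ((n : ℝ) - 1) ^ n)) := by
      intro he
      refine hE 8 he fun _ => ?_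
      interval_cases n <;> norm_num
    rcases h with h | h
    · by_cases h3 : maximalIdeal (Localization.AtPrime x) ^ 3 ≤ paramIdeal x y
      · exact key (hlen 6 h h3)
      · exact hcube h h3
    · exact key h
  · exact localVol_small hn y hy x hyx hred g hg hklt hsing
      (Or.inr (Or.inr (Or.inr (Or.inl h))))

end Pool.Agent.ODP
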