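import Pool.Agent.ODP.Defs

/-!
# Bounds for the order of `dy_1 ∧ … ∧ dy_n`: linear algebra with valuations
-/

open scoped WithZero

namespace Pool.Agent.ODP

section general

variable {k K : Type*} [Field k] [Field K] [Algebra k K] {n : ℕ}

omit [Field k] [Algebra k K] in
/-- the determinant of a matrix with bounded rows -/
theorem v_det_le (v : Valuation K ℤᵐ⁰) (M : Matrix (Fin n) (Fin n) K) (b : Fin n → ℤᵐ⁰)
    (h : ∀ i j, v (M i j) ≤ b i) : v M.det ≤ ∏ i, b i := by
  rw [Matrix.det_apply]
  apply v.map_sum_le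
  intro σ _
  have h1 : v (Equiv.Perm.sign σ • ∏ i, M (σ i) i) = v (∏ i, M (σ i) i) := by
    rcases Int.units_eq_one_or (Equiv.Perm.sign σ) with hs | hs
    · rw [hs, one_smul]
    · rw [hs]
      simp
  rw [h1, map_prod]
  calc ∏ i, v (M (σ i) i) ≤ ∏ i, b (σ i) := Finset.prod_le_prod' fun i _ => h (σ i) i
    _ = ∏ i, b i := Equiv.prod_comp σ b

theorem le_exp_neg_one {x : ℤᵐ⁰} (hx : x < 1) : x ≤ WithZero.exp (-1 : ℤ) := by
  by_cases h0 : x = 0
  · rw [h0]
    exact zero_le
  · rw [← WithZero.exp_log h0] at hx ⊢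
    rw [← WithZero.exp_zero, WithZero.exp_lt_exp] at hx
    rw [WithZero.exp_le_exp]
    omega

omit [Field k] [Algebra k K] in
theorem v_intCast_le (v : Valuation K ℤᵐ⁰) (c : ℤ) : v (c : K) ≤ 1 :=
  v.mem_integer_iff (c : K) |>.1 (intCast_mem v.integer c)

/-- the logarithmic derivative of an element of order `c` -/
theorem der_div (v : Valuation K ℤᵐ⁰) (D : Derivation k K K) (hD : ∀ z, v z ≤ 1 → v (D z) ≤ 1)
    {π : K} (hπ : v π = WithZero.exp (-1 : ℤ)) {y : K} {c : ℤ} (hy : v y = WithZero.exp (-c)) :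
    ∃ r : K, v r ≤ 1 ∧ D y = y * ((c : K) * (D π / π) + r) := by
  have hπ0 : π ≠ 0 := by
    rw [← v.ne_zero_iff, hπ]
    exact WithZero.exp_ne_zero
  have hy0 : y ≠ 0 := by
    rw [← v.ne_zero_iff, hy]
    exact WithZero.exp_ne_zero
  have hpc : π ^ c ≠ 0 := zpow_ne_zero _ hπ0
  set u : K := y / π ^ c with hu
  have hyu : y = π ^ c * u := by
    rw [hu]
    field_simp
  have hu0 : u ≠ 0 := div_ne_zero hy0 hpc
  have hvu : v u = 1 := by
    rw [hu, map_div₀, map_zpow₀, hy, hπ, ← WithZero.exp_zsmul]
    rw [show c • (-1 : ℤ) = -c by simp]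
    exact div_self WithZero.exp_ne_zero
  refine ⟨D u / u, ?_, ?_⟩
  · rw [map_div₀, hvu, div_one]
    exact hD u hvu.le
  · have h1 : D y = π ^ c * D u + u * ((c : K) * (π ^ (c - 1) * D π)) := by
      conv_lhs => rw [hyu]
      rw [D.leibniz, D.leibniz_zpow]
      simp only [smul_eq_mul, zsmul_eq_mul]
    rw [h1, zpow_sub_one₀ hπ0]
    conv_rhs => rw [hyu]
    field_simp
    ring

theorem v_der_div_le (v : Valuation K ℤᵐ⁰) (D : Derivation k K K)
    (hD : ∀ z, v z ≤ 1 → v (D z) ≤ 1) {π : K} (hπ : v π = WithZero.exp (-1 : ℤ)) :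
    v (D π / π) ≤ WithZero.exp (1 : ℤ) := by
  have h1 : v (D π) ≤ 1 := hD π (by
    rw [hπ, ← WithZero.exp_zero, WithZero.exp_le_exp]
    norm_num)
  rw [map_div₀, hπ, WithZero.exp_neg, div_inv_eq_mul]
  calc v (D π) * WithZero.exp (1 : ℤ) ≤ 1 * WithZero.exp (1 : ℤ) := mul_le_mul_left h1 _
    _ = _ := one_mul _

/-- Upper bound for the form order from logarithmic derivations. -/
theorem mem_formOrders (v : Valuation K ℤᵐ⁰) (hv : Function.Surjective v) (y : Fin n → K)
    (D : Fin n → Derivation k K K) (hD : ∀ i z, v (D i z) ≤ v z) (i₀ : Fin n)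
    (hD₀ : ∀ z, v z ≤ 1 → v (D i₀ z) < 1) (m : ℤ)
    (hm : v (Matrix.det (Matrix.of fun i j => D i (y j))) = WithZero.exp (-m)) :
    m - 1 ∈ FormOrders k v y := by
  obtain ⟨π, hπ⟩ := hv (WithZero.exp (-1 : ℤ))
  refine ⟨Function.update D i₀ (π⁻¹ • D i₀), ?_, ?_⟩
  · intro i z hz
    by_cases hi : i = i₀
    · subst hi
      rw [Function.update_self, Derivation.smul_apply, smul_eq_mul, map_mul, map_inv₀, hπ,
        WithZero.exp_neg, inv_inv]
      calc WithZero.exp (1 : ℤ) * v (D i z) ≤ WithZero.exp (1 : ℤ) * WithZero.exp (-1 : ℤ) :=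
            mul_le_mul_right (le_exp_neg_one (hD₀ z hz)) _
        _ = 1 := by rw [← WithZero.exp_add, add_neg_cancel, WithZero.exp_zero]
    · rw [Function.update_of_ne hi]
      exact (hD i z).trans hz
  · have h1 : (Matrix.of fun i j => (Function.update D i₀ (π⁻¹ • D i₀)) i (y j)) =
        Matrix.updateRow (Matrix.of fun i j => D i (y j)) i₀
          (π⁻¹ • (Matrix.of fun i j => D i (y j)) i₀) := by
      ext i j
      by_cases hi : i = i₀
      · subst hi
        rw [Matrix.updateRow_self, Matrix.of_apply, Function.update_self]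
        rfl
      · rw [Matrix.updateRow_ne hi, Matrix.of_apply, Function.update_of_ne hi]
        rfl
    rw [h1, Matrix.det_updateRow_smul, Matrix.updateRow_eq_self, map_mul, hm, map_inv₀, hπ,
      WithZero.exp_neg, inv_inv, ← WithZero.exp_add]
    congr 1
    ring

/-- Lower bound when all `y j ≠ 0`: derivations preserving the valuation ring have at most a
simple pole on `y j`, and the polar part has rank one. -/
theorem formOrders_ge (v : Valuation K ℤᵐ⁰) (hv : Function.Surjective v) (y : Fin n → K)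
    (c : Fin n → ℤ) (hy : ∀ i, v (y i) = WithZero.exp (-(c i))) (m : ℤ)
    (hm : m ∈ FormOrders k v y) : (∑ i, c i) - 1 ≤ m := by
  obtain ⟨D, hD, hdet⟩ := hm
  obtain ⟨π, hπ⟩ := hv (WithZero.exp (-1 : ℤ))
  choose r hr1 hr2 using fun i j => der_div v (D i) (hD i) hπ (hy j)
  set a : Fin n → K := fun i => D i π / π with ha
  have ha1 : ∀ i, v (a i) ≤ WithZero.exp (1 : ℤ) := fun i => v_der_div_le v (D i) (hD i) hπ
  set A : Matrix (Fin n) (Fin n) K := Matrix.of fun i j => (c j : K) * a i + r i j with hA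
  have h1 : (Matrix.of fun i j => D i (y j)) = Matrix.of fun i j => y j * A i j := by
    ext i j
    rw [Matrix.of_apply, Matrix.of_apply, hr2 i j]
    rfl
  have h2 : v (∏ i, y i) = WithZero.exp (-(∑ i, c i)) := by
    rw [map_prod, Finset.prod_congr rfl fun i _ => hy i]
    have : ∀ s : Finset (Fin n), ∏ i ∈ s, WithZero.exp (-(c i)) =
        WithZero.exp (-(∑ i ∈ s, c i)) := by
      intro s
      induction s using Finset.induction_on with
      | empty => simp
      | insert x s hx ih =>
          rw [Finset.prod_insert hx, Finset.sum_insert hx, ih, ← WithZero.exp_add]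
          congr 1
          ring
    exact this _
  have hone : (1 : ℤᵐ⁰) ≤ WithZero.exp (1 : ℤ) := by
    rw [← WithZero.exp_zero, WithZero.exp_le_exp]
    norm_num
  have h3 : v A.det ≤ WithZero.exp (1 : ℤ) := by
    by_cases hall : ∀ i, v (a i) ≤ 1
    · have h4 := v_det_le v A (fun _ => 1) fun i j => by
        show v ((c j : K) * a i + r i j) ≤ 1
        refine (v.map_add _ _).trans (max_le ?_ (hr1 i j))
        rw [map_mul]
        exact mul_le_one' (v_intCast_le v _) (hall i)
      rw [Finset.prod_const_one] at h4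
      exact h4.trans hone
    · push Not at hall
      obtain ⟨i₁, hi₁⟩ := hall
      obtain ⟨i₀, -, hmax⟩ := Finset.exists_max_image Finset.univ (fun i => v (a i))
        ⟨i₁, Finset.mem_univ _⟩
      have hbig : 1 < v (a i₀) := hi₁.trans_le (hmax i₁ (Finset.mem_univ _))
      have ha0 : a i₀ ≠ 0 := by
        rw [← v.ne_zero_iff]
        exact (zero_lt_one.trans hbig).ne'
      let B : Matrix (Fin n) (Fin n) K := Matrix.of fun i j =>
        if i = i₀ then A i₀ j else r i j - a i / a i₀ * r i₀ j
      have hAB : A.det = B.det := by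
        apply Matrix.det_eq_of_forall_row_eq_smul_add_const
          (fun i => if i = i₀ then 0 else a i / a i₀) i₀ (if_pos rfl)
        intro i j
        have hB0 : B i₀ j = A i₀ j := by
          show (if i₀ = i₀ then A i₀ j else _) = _
          rw [if_pos rfl]
        rw [hB0]
        by_cases hi : i = i₀
        · subst hi
          rw [hB0, if_pos rfl, zero_mul, add_zero]
        · have hB1 : B i j = r i j - a i / a i₀ * r i₀ j := by
            show (if i = i₀ then A i₀ j else _) = _
            rw [if_neg hi]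
          rw [hB1, if_neg hi]
          show (c j : K) * a i + r i j =
            r i j - a i / a i₀ * r i₀ j + a i / a i₀ * ((c j : K) * a i₀ + r i₀ j)
          field_simp
          ring
      rw [hAB]
      refine (v_det_le v B (fun i => if i = i₀ then WithZero.exp (1 : ℤ) else 1) ?_).trans ?_
      · intro i j
        by_cases hi : i = i₀
        · subst hi
          rw [if_pos rfl]
          show v (if i = i then (c j : K) * a i + r i j else _) ≤ _
          rw [if_pos rfl]
          refine (v.map_add _ _).trans (max_le ?_ ((hr1 i j).trans hone))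
          rw [map_mul]
          calc v (c j : K) * v (a i) ≤ 1 * WithZero.exp (1 : ℤ) :=
                mul_le_mul' (v_intCast_le v _) (ha1 i)
            _ = _ := one_mul _
        · rw [if_neg hi]
          show v (if i = i₀ then _ else r i j - a i / a i₀ * r i₀ j) ≤ _
          rw [if_neg hi]
          refine (v.map_sub _ _).trans (max_le (hr1 i j) ?_)
          rw [map_mul, map_div₀]
          apply mul_le_one' _ (hr1 i₀ j)
          apply div_le_one_of_le₀ (hmax i (Finset.mem_univ _)) zero_le
      · rw [Finset.prod_ite_eq']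
        simp
  rw [h1, Matrix.det_mul_row, map_mul, h2] at hdet
  have h4 : WithZero.exp (-m) ≤ WithZero.exp (-(∑ i, c i) + 1) := by
    rw [← hdet, WithZero.exp_add]
    exact mul_le_mul_right h3 _
  rw [WithZero.exp_le_exp] at h4
  omega

/-- Lower bound from a relation `D t = Σ a_j D y_j` with `a_{j₀}` a unit. -/
theorem formOrders_ge' (v : Valuation K ℤᵐ⁰) (hv : Function.Surjective v) (y : Fin n → K)
    (hy : ∀ i, v (y i) ≤ 1) (t : K) (e : ℤ) (ht : v t = WithZero.exp (-e)) (he : 1 ≤ e)
    (a : Fin n → K) (ha : ∀ i, v (a i) ≤ 1) (j₀ : Fin n) (ha₀ : v (a j₀) = 1)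
    (hD : ∀ D : Derivation k K K, D t = ∑ j, a j * D (y j)) (m : ℤ)
    (hm : m ∈ FormOrders k v y) : e - 1 ≤ m := by
  obtain ⟨D, hD', hdet⟩ := hm
  obtain ⟨π, hπ⟩ := hv (WithZero.exp (-1 : ℤ))
  set M : Matrix (Fin n) (Fin n) K := Matrix.of fun i j => D i (y j) with hM
  have hone : (1 : ℤᵐ⁰) ≤ WithZero.exp (1 : ℤ) := by
    rw [← WithZero.exp_zero, WithZero.exp_le_exp]
    norm_num
  have h1 : ∀ i, v (D i t) ≤ WithZero.exp (1 - e) := by
    intro i
    obtain ⟨r, hr1, hr2⟩ := der_div v (D i) (hD' i) hπ ht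
    rw [hr2, map_mul, ht]
    have h2 : v ((e : K) * (D i π / π) + r) ≤ WithZero.exp (1 : ℤ) := by
      refine (v.map_add _ _).trans (max_le ?_ (hr1.trans hone))
      rw [map_mul]
      calc v (e : K) * v (D i π / π) ≤ 1 * WithZero.exp (1 : ℤ) :=
            mul_le_mul' (v_intCast_le v _) (v_der_div_le v (D i) (hD' i) hπ)
        _ = _ := one_mul _
    calc WithZero.exp (-e) * v ((e : K) * (D i π / π) + r)
        ≤ WithZero.exp (-e) * WithZero.exp (1 : ℤ) := mul_le_mul_right h2 _
      _ = WithZero.exp (1 - e) := by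
          rw [← WithZero.exp_add]
          congr 1
          ring
  have h2 : v M.det = v ((M.updateCol j₀ (fun i => D i t)).det) := by
    have h3 := Matrix.det_updateCol_sum M j₀ a
    have h4 : (fun i => ∑ j, a j • M i j) = fun i => D i t := by
      funext i
      rw [hD (D i)]
      rfl
    rw [h4] at h3
    rw [h3, smul_eq_mul, map_mul, ha₀, one_mul]
  have h3 : v M.det ≤ WithZero.exp (1 - e) := by
    rw [h2, ← Matrix.det_transpose]
    refine (v_det_le v _ (fun j => if j = j₀ then WithZero.exp (1 - e) else 1) ?_).trans ?_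
    · intro j i
      rw [Matrix.transpose_apply, Matrix.updateCol_apply]
      by_cases hj : j = j₀
      · rw [if_pos hj, if_pos hj]
        exact h1 i
      · rw [if_neg hj, if_neg hj]
        exact hD' i (y j) (hy j)
    · rw [Finset.prod_ite_eq']
      simp
  rw [hdet, WithZero.exp_le_exp] at h3
  omega

end general

end Pool.Agent.ODP
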