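import Pool.Agent.ODP.Main
import Pool.Agent.ODP.Defs2

/-!
# The main theorem for an arbitrary Noether normalization, and the general bound
-/

open scoped WithZero ENNReal nonZeroDivisors
open IsDedekindDomain MvPolynomial

namespace Pool.Agent.ODP

set_option linter.unusedSectionVars false

variable {k : Type*} [Field k] [CharZero k] {n : ℕ} {B K : Type*}
  [CommRing B] [IsDomain B] [IsIntegrallyClosed B] [Algebra k B]
  [Field K] [Algebra B K] [IsFractionRing B K] [Algebra k K] [IsScalarTower k B K]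

theorem mem_paramIdeal_iff (x : Ideal B) [x.IsPrime] (y : Fin n → B) (b : B) :
    algebraMap B (Localization.AtPrime x) b ∈ paramIdeal x y ↔
      ∃ u : B, u ∉ x ∧ u * b ∈ Ideal.span (Set.range y) := by
  rw [paramIdeal, IsLocalization.algebraMap_mem_map_algebraMap_iff x.primeCompl]
  constructor
  · rintro ⟨u, hu, h⟩
    exact ⟨u, hu, h⟩
  · rintro ⟨u, hu, h⟩
    exact ⟨u, hu, h⟩

theorem exists_valuation_gen (hn : 0 < n) (y : Fin n → B) (hy : IsFiniteFree k y)
    (x : Ideal B) [x.IsMaximal] (g : K)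
    (hg : IsCanonicalAt k x (fun i => algebraMap B K (y i)) g)
    (f : B) (hf : algebraMap B (Localization.AtPrime x) f ∉ paramIdeal x y)
    (α : Fin n → ℕ) (hα : ∀ i, 0 < α i) :
    ∃ (v : Valuation K ℤᵐ⁰) (hv : IsDivisorialAt k n x v) (c : Fin n → ℕ) (a : ℤ) (m : ℕ),
      (∀ i, 0 < c i) ∧ (∀ i j, α i * c j = α j * c i) ∧
      (∀ i, v (algebraMap B K (y i)) = WithZero.exp (-(c i : ℤ))) ∧
      IsLogDiscrepancy k v (fun i => algebraMap B K (y i)) g a ∧
      v (algebraMap B K f) = WithZero.exp (-(m : ℤ)) ∧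
      a + m ≤ ∑ i, (c i : ℤ) ∧
      vol k n v hv.nonneg ≤ ENNReal.ofReal (paramLength k x y / ∏ i, (c i : ℝ)) := by
  let : Algebra (MvPolynomial (Fin n) k) B :=
    (MvPolynomial.aeval y : MvPolynomial (Fin n) k →ₐ[k] B).toRingHom.toAlgebra
  have hfin : Module.Finite (MvPolynomial (Fin n) k) B := hy.1
  have hfree : Module.Free (MvPolynomial (Fin n) k) B := hy.2
  have htow : IsScalarTower k (MvPolynomial (Fin n) k) B :=
    IsScalarTower.of_algebraMap_eq fun c => ((MvPolynomial.aeval y).commutes c).symm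
  have hX : ∀ i, algebraMap (MvPolynomial (Fin n) k) B (X i) = y i := fun i =>
    MvPolynomial.aeval_X y i
  have hmain := exists_valuation (k := k) (n := n) (B := B) (K := K) hn x g
    (by simp only [hX]; exact hg) f
    (by
      intro b hb hmem
      simp only [hX] at hmem
      exact hf ((mem_paramIdeal_iff x y f).mpr ⟨b, hb, hmem⟩)) α hα
  simp only [hX] at hmain
  exact hmain

end Pool.Agent.ODP
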