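import Mathlib

/-!
# Lengths of Artinian Gorenstein algebras
-/

open IsLocalRing

namespace Pool.Agent.ODP

section

variable {k R : Type*} [Field k] [CommRing R] [Algebra k R]

/-- powers of an ideal as subspaces -/
theorem pow_restrictScalars_le (I : Ideal R) : ∀ n : ℕ, 1 ≤ n →
    (Submodule.restrictScalars k I) ^ n ≤ Submodule.restrictScalars k (I ^ n) := by
  intro n hn
  induction n, hn using Nat.le_induction with
  | base =>
    rw [pow_one, pow_one]
  | succ n hn ih =>
    rw [pow_succ, pow_succ, Submodule.mul_le]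
    intro a ha b hb
    exact Ideal.mul_mem_mul (ih ha) hb

/-- the elements of the power of the span of a finite family -/
theorem finrank_span_pow_le {ι : Type*} [Fintype ι] [DecidableEq ι] (f : ι → R) (n : ℕ) :
    Module.finrank k ↥((Submodule.span k (Set.range f)) ^ n) ≤
      (Fintype.card ι + n - 1).choose n := by
  set g : Sym ι n → R := fun t => ((t : Multiset ι).map f).prod with hg
  have h1 : (Submodule.span k (Set.range f)) ^ n ≤ Submodule.span k (Set.range g) := by
    rw [Submodule.span_pow]
    refine Submodule.span_mono ?_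
    intro a ha
    obtain ⟨F, hF⟩ := Set.mem_pow.1 ha
    choose G hG using fun i => (F i).2
    refine ⟨⟨(List.ofFn G : Multiset ι), by simp⟩, ?_⟩
    rw [← hF, hg]
    simp only [Sym.coe_mk, Multiset.map_coe, Multiset.prod_coe, List.map_ofFn]
    congr 2
    funext i
    exact hG i
  have h2 : Module.finrank k ↥(Submodule.span k (Set.range g)) ≤ Fintype.card (Sym ι n) :=
    finrank_range_le_card g
  rw [Sym.card_sym_eq_choose] at h2
  have : Module.Finite k ↥(Submodule.span k (Set.range g)) :=
    Module.Finite.span_of_finite k (Set.finite_range g)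
  exact (Submodule.finrank_mono h1).trans h2

variable [Module.Finite k R]

/-- duality -/
theorem finrank_add_le_of_dual (τ : R →ₗ[k] k) (hτ : ∀ r, (∀ r', τ (r * r') = 0) → r = 0)
    (I J : Ideal R) (h : ∀ a ∈ I, ∀ b ∈ J, a * b = 0) :
    Module.finrank k ↥(Submodule.restrictScalars k I) +
      Module.finrank k ↥(Submodule.restrictScalars k J) ≤ Module.finrank k R := by
  set L : R →ₗ[k] Module.Dual k R := (LinearMap.mul k R).compr₂ τ with hL
  have hLa : ∀ a b, L a b = τ (a * b) := fun a b => rfl
  have hmem : ∀ a : ↥(Submodule.restrictScalars k I),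
      (L.domRestrict (Submodule.restrictScalars k I)) a ∈
        (Submodule.restrictScalars k J).dualAnnihilator := by
    intro a
    rw [Submodule.mem_dualAnnihilator]
    intro b hb
    rw [LinearMap.domRestrict_apply, hLa, h a a.2 b hb, map_zero]
  have hinj : Function.Injective
      ((L.domRestrict (Submodule.restrictScalars k I)).codRestrict _ hmem) := by
    intro a b hab
    have h1 : L a = L b := congrArg Subtype.val hab
    apply Subtype.ext
    rw [← sub_eq_zero]
    apply hτ
    intro r'
    rw [sub_mul, map_sub, ← hLa, ← hLa, h1, sub_self]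
  have h1 := LinearMap.finrank_le_finrank_of_injective hinj
  have h2 := Subspace.finrank_add_finrank_dualAnnihilator_eq (Submodule.restrictScalars k J)
  omega

end

variable {k R : Type*} [Field k] [CommRing R] [IsLocalRing R] [Algebra k R] [Module.Finite k R]

omit [Module.Finite k R] in
theorem top_le_one_sup (hk : ∀ r : R, ∃ a : k, r - algebraMap k R a ∈ maximalIdeal R) :
    (⊤ : Submodule k R) ≤ 1 ⊔ Submodule.restrictScalars k (maximalIdeal R) := by
  intro r _
  obtain ⟨a, ha⟩ := hk r
  rw [Submodule.mem_sup]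
  refine ⟨algebraMap k R a, Submodule.algebraMap_mem a, r - algebraMap k R a, ha, ?_⟩
  ring

theorem finrank_le_one_add (hk : ∀ r : R, ∃ a : k, r - algebraMap k R a ∈ maximalIdeal R) :
    Module.finrank k R ≤
      1 + Module.finrank k ↥(Submodule.restrictScalars k (maximalIdeal R)) := by
  have h1 := Submodule.finrank_mono (top_le_one_sup hk)
  rw [finrank_top] at h1
  have h2 := Submodule.finrank_add_le_finrank_add_finrank (1 : Submodule k R)
    (Submodule.restrictScalars k (maximalIdeal R))
  have h3 : Module.finrank k ↥(1 : Submodule k R) ≤ 1 := by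
    rw [Submodule.one_eq_span]
    simpa using finrank_span_le_card (R := k) ({1} : Set R)
  omega

omit [Module.Finite k R] in
theorem max_le_span_sup (hk : ∀ r : R, ∃ a : k, r - algebraMap k R a ∈ maximalIdeal R)
    {c : ℕ} (z : Fin c → R) (hz : Ideal.span (Set.range z) = maximalIdeal R) :
    Submodule.restrictScalars k (maximalIdeal R) ≤ Submodule.span k (Set.range z) ⊔
      Submodule.restrictScalars k (maximalIdeal R) ^ 2 := by
  intro r hr
  have hr' : r ∈ Ideal.span (Set.range z) := by
    rw [hz]
    exact hr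
  obtain ⟨a, ha⟩ := Ideal.mem_span_range_iff_exists_fun.1 hr'
  choose α hα using fun i => hk (a i)
  rw [← ha]
  refine Submodule.sum_mem _ fun i _ => ?_
  have hzi : z i ∈ Submodule.restrictScalars k (maximalIdeal R) := by
    change z i ∈ maximalIdeal R
    rw [← hz]
    exact Ideal.subset_span ⟨i, rfl⟩
  rw [Submodule.mem_sup]
  refine ⟨α i • z i, Submodule.smul_mem _ _ (Submodule.subset_span ⟨i, rfl⟩),
    (a i - algebraMap k R (α i)) * z i, ?_, ?_⟩
  · rw [pow_two]
    exact Submodule.mul_mem_mul (hα i) hzi
  · rw [Algebra.smul_def]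
    ring

/-- the monomials of degree at most `n` span modulo `m ^ (n + 1)` -/
theorem finrank_le_choose (hk : ∀ r : R, ∃ a : k, r - algebraMap k R a ∈ maximalIdeal R)
    {c : ℕ} (z : Fin c → R) (hz : Ideal.span (Set.range z) = maximalIdeal R) (n : ℕ) :
    Module.finrank k R ≤ (c + n).choose c +
      Module.finrank k ↥(Submodule.restrictScalars k (maximalIdeal R ^ (n + 1))) := by
  set M : Submodule k R := Submodule.restrictScalars k (maximalIdeal R) with hM
  set Z : Submodule k R := Submodule.span k (Set.range z) with hZ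
  have hZM : Z ≤ M := by
    rw [hZ, Submodule.span_le]
    rintro _ ⟨i, rfl⟩
    change z i ∈ maximalIdeal R
    rw [← hz]
    exact Ideal.subset_span ⟨i, rfl⟩
  have hMM : M * M ≤ M := by
    rw [Submodule.mul_le]
    intro a _ b hb
    exact Ideal.mul_mem_left _ _ hb
  have hstep : M ≤ Z ⊔ M ^ 2 := max_le_span_sup hk z hz
  have hpow : ∀ j : ℕ, M ^ (j + 1) ≤ Z ^ (j + 1) ⊔ M ^ (j + 2) := by
    intro j
    induction j with
    | zero => simpa using hstep
    | succ j ih =>
      have e1 : M ^ (j + 1 + 1) = M ^ (j + 1) * M := pow_succ _ _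
      rw [e1]
      refine (mul_le_mul' ih hstep).trans ?_
      rw [Submodule.sup_mul, Submodule.mul_sup, Submodule.mul_sup]
      have a1 : Z ^ (j + 1) * Z ≤ Z ^ (j + 1 + 1) := le_of_eq (pow_succ _ _).symm
      have hZp : Z ^ (j + 1) ≤ M ^ (j + 1) := pow_le_pow_left' hZM _
      have a2 : Z ^ (j + 1) * M ^ 2 ≤ M ^ (j + 1 + 2) := by
        rw [pow_add M (j + 1) 2]
        exact mul_le_mul' hZp le_rfl
      have a3 : M ^ (j + 2) * Z ≤ M ^ (j + 1 + 2) := by
        have : M ^ (j + 1 + 2) = M ^ (j + 2) * M := by
          rw [← pow_succ]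
        rw [this]
        exact mul_le_mul' le_rfl hZM
      have a4 : M ^ (j + 2) * M ^ 2 ≤ M ^ (j + 1 + 2) := by
        have : M ^ (j + 1 + 2) = M ^ (j + 2) * M := by
          rw [← pow_succ]
        rw [this, pow_two]
        exact mul_le_mul' le_rfl hMM
      exact sup_le (sup_le (a1.trans le_sup_left) (a2.trans le_sup_right))
        (sup_le (a3.trans le_sup_right) (a4.trans le_sup_right))
  set f : Option (Fin c) → R := fun o => o.elim 1 z with hf
  set U : Submodule k R := Submodule.span k (Set.range f) with hU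
  have h1U : (1 : Submodule k R) ≤ U := by
    rw [Submodule.one_eq_span, hU, Submodule.span_le, Set.singleton_subset_iff]
    exact Submodule.subset_span ⟨none, rfl⟩
  have hZU : Z ≤ U := by
    rw [hZ, hU, Submodule.span_le]
    rintro _ ⟨i, rfl⟩
    exact Submodule.subset_span ⟨some i, rfl⟩
  have hcover : ∀ j : ℕ, (⊤ : Submodule k R) ≤ U ^ j ⊔ M ^ (j + 1) := by
    intro j
    induction j with
    | zero =>
      rw [pow_zero, zero_add, pow_one]
      exact top_le_one_sup hk
    | succ j ih =>
      refine ih.trans (sup_le ?_ ?_)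
      · have : U ^ j ≤ U ^ (j + 1) := by
          rw [pow_succ]
          calc U ^ j = U ^ j * 1 := (mul_one _).symm
            _ ≤ U ^ j * U := mul_le_mul' le_rfl h1U
        exact this.trans le_sup_left
      · refine (hpow j).trans (sup_le ?_ ?_)
        · exact (pow_le_pow_left' hZU _).trans le_sup_left
        · exact le_sup_right
  have h1 : (⊤ : Submodule k R) ≤
      U ^ n ⊔ Submodule.restrictScalars k (maximalIdeal R ^ (n + 1)) :=
    (hcover n).trans (sup_le_sup_left (pow_restrictScalars_le _ (n + 1) (by omega)) _)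
  have h2 := Submodule.finrank_mono h1
  rw [finrank_top] at h2
  have h3 := Submodule.finrank_add_le_finrank_add_finrank (U ^ n)
    (Submodule.restrictScalars k (maximalIdeal R ^ (n + 1)))
  have h4 := finrank_span_pow_le (k := k) f n
  rw [Fintype.card_option, Fintype.card_fin] at h4
  have h5 : (c + 1 + n - 1).choose n = (c + n).choose c := by
    have e1 : c + 1 + n - 1 = c + n := by omega
    rw [e1]
    exact Nat.choose_symm_of_eq_add (by omega)
  rw [h5] at h4
  exact h2.trans (h3.trans (Nat.add_le_add_right h4 _))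

/-- If `dim R ≥ 3` then `m² ≠ 0`. -/
theorem gor_sq_ne_bot (hk : ∀ r : R, ∃ a : k, r - algebraMap k R a ∈ maximalIdeal R)
    (τ : R →ₗ[k] k) (hτ : ∀ r, (∀ r', τ (r * r') = 0) → r = 0)
    (h3 : 3 ≤ Module.finrank k R) : maximalIdeal R ^ 2 ≠ ⊥ := by
  intro h
  have h1 := finrank_add_le_of_dual (k := k) τ hτ (maximalIdeal R) (maximalIdeal R) (by
    intro a ha b hb
    have : a * b ∈ maximalIdeal R ^ 2 := by
      rw [pow_two]
      exact Ideal.mul_mem_mul ha hb
    rw [h] at this
    exact this)
  have h2 := finrank_le_one_add hk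
  omega

/-- If `dim R = 2` then the maximal ideal is generated by one element of square zero. -/
theorem gor_two (hk : ∀ r : R, ∃ a : k, r - algebraMap k R a ∈ maximalIdeal R)
    (h2 : Module.finrank k R = 2) :
    ∃ z : R, z ≠ 0 ∧ maximalIdeal R = Ideal.span {z} ∧ maximalIdeal R ^ 2 = ⊥ := by
  set M : Submodule k R := Submodule.restrictScalars k (maximalIdeal R) with hM
  have h1 := finrank_le_one_add hk
  rw [← hM] at h1
  have hlt : Module.finrank k ↥M < Module.finrank k R := by
    apply Submodule.finrank_lt
    intro htop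
    have : (1 : R) ∈ M := by
      rw [htop]
      exact Submodule.mem_top
    exact (Ideal.ne_top_iff_one _).1 (maximalIdeal.isMaximal R).ne_top this
  have hM1 : Module.finrank k ↥M = 1 := by omega
  obtain ⟨z, hz0, hz⟩ := finrank_eq_one_iff'.1 hM1
  have hz0' : (z : R) ≠ 0 := fun h => hz0 (Subtype.ext h)
  have hspan : maximalIdeal R = Ideal.span {(z : R)} := by
    apply le_antisymm
    · intro r hr
      obtain ⟨a, ha⟩ := hz ⟨r, hr⟩
      have : r = algebraMap k R a * (z : R) := by
        rw [← Algebra.smul_def]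
        exact (congrArg Subtype.val ha).symm
      rw [this]
      exact Ideal.mul_mem_left _ _ (Ideal.subset_span rfl)
    · rw [Ideal.span_singleton_le_iff_mem]
      exact z.2
  have hzz : (z : R) * z = 0 := by
    obtain ⟨a, ha⟩ := hz ⟨(z : R) * z, Ideal.mul_mem_left _ _ z.2⟩
    have h3 : (z : R) * z = algebraMap k R a * (z : R) := by
      rw [← Algebra.smul_def]
      exact (congrArg Subtype.val ha).symm
    by_cases h0 : a = 0
    · rw [h3, h0, map_zero, zero_mul]
    · exfalso
      have h4 : (algebraMap k R a - z) * z = 0 := by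
        rw [sub_mul, ← h3, sub_self]
      have hu : IsUnit (algebraMap k R a - (z : R)) := by
        by_contra hnu
        have h5 : algebraMap k R a - (z : R) ∈ maximalIdeal R :=
          (mem_maximalIdeal _).2 hnu
        have h6 : algebraMap k R a ∈ maximalIdeal R := by
          have := Ideal.add_mem _ h5 z.2
          rwa [sub_add_cancel] at this
        exact (mem_maximalIdeal _).1 h6 ((isUnit_iff_ne_zero.2 h0).map (algebraMap k R))
      exact hz0' ((hu.mul_right_eq_zero).1 h4)
  refine ⟨z, hz0', hspan, ?_⟩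
  rw [hspan, Ideal.span_singleton_pow, pow_two, hzz, Ideal.span_singleton_eq_bot]

/-- `dim R ≤ 1 + (number of monomials of degree < s in c variables)`, because `m ^ s` is one
dimensional. -/
theorem gor_length_le (hk : ∀ r : R, ∃ a : k, r - algebraMap k R a ∈ maximalIdeal R)
    (τ : R →ₗ[k] k) (hτ : ∀ r, (∀ r', τ (r * r') = 0) → r = 0) (c s : ℕ) (hs : 1 ≤ s)
    (z : Fin c → R) (hz : Ideal.span (Set.range z) = maximalIdeal R)
    (h1 : maximalIdeal R ^ (s + 1) = ⊥) :
    Module.finrank k R ≤ 1 + (c + s - 1).choose c := by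
  have h2 := finrank_add_le_of_dual (k := k) τ hτ (maximalIdeal R ^ s) (maximalIdeal R) (by
    intro a ha b hb
    have : a * b ∈ maximalIdeal R ^ (s + 1) := by
      rw [pow_succ]
      exact Ideal.mul_mem_mul ha hb
    rw [h1] at this
    exact this)
  have h3 := finrank_le_one_add hk
  have h4 := finrank_le_choose hk z hz (s - 1)
  have e1 : s - 1 + 1 = s := by omega
  have e2 : c + (s - 1) = c + s - 1 := by omega
  rw [e1, e2] at h4
  omega

/-- `dim R ≤ dim R / m² + dim R / m ^ (s - 1)` by duality. -/
theorem gor_length_le' (hk : ∀ r : R, ∃ a : k, r - algebraMap k R a ∈ maximalIdeal R)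
    (τ : R →ₗ[k] k) (hτ : ∀ r, (∀ r', τ (r * r') = 0) → r = 0) (c s : ℕ) (hs : 2 ≤ s)
    (z : Fin c → R) (hz : Ideal.span (Set.range z) = maximalIdeal R)
    (h1 : maximalIdeal R ^ (s + 1) = ⊥) :
    Module.finrank k R ≤ (c + 1) + (c + s - 2).choose c := by
  have h2 := finrank_add_le_of_dual (k := k) τ hτ (maximalIdeal R ^ (s - 1))
    (maximalIdeal R ^ 2) (by
    intro a ha b hb
    have : a * b ∈ maximalIdeal R ^ (s + 1) := by
      have e : s + 1 = (s - 1) + 2 := by omega
      rw [e, pow_add]
      exact Ideal.mul_mem_mul ha hb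
    rw [h1] at this
    exact this)
  have h3 := finrank_le_choose hk z hz 1
  have h4 := finrank_le_choose hk z hz (s - 2)
  have e1 : s - 2 + 1 = s - 1 := by omega
  have e2 : c + (s - 2) = c + s - 2 := by omega
  have e3 : (c + 1).choose c = c + 1 := Nat.choose_succ_self_right c
  rw [e1, e2] at h4
  rw [e3, one_add_one_eq_two] at h3
  omega

end Pool.Agent.ODP
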