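import Pool.Agent.ODP.Gen

/-!
# A minimal reduction is part of a minimal system of generators
-/

open IsLocalRing

namespace Pool.Agent.ODP

variable {k : Type*} [Field k] {n : ℕ} {B : Type*}
  [CommRing B] [IsDomain B] [Algebra k B]

theorem X_pow_mul_mem {i₀ : Fin n} {N : ℕ} {p : MvPolynomial (Fin n) k}
    (h : p * MvPolynomial.X i₀ ^ N ∈
      Ideal.span ((MvPolynomial.X : Fin n → MvPolynomial (Fin n) k) '' {i | i ≠ i₀})) :
    p ∈ Ideal.span ((MvPolynomial.X : Fin n → MvPolynomial (Fin n) k) '' {i | i ≠ i₀}) := by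
  classical
  rw [MvPolynomial.mem_ideal_span_X_image] at h ⊢
  intro m hm
  rw [MvPolynomial.X_pow_eq_monomial] at h
  have hm' : m + Finsupp.single i₀ N ∈ (p * MvPolynomial.monomial (Finsupp.single i₀ N)
      (1 : k)).support := by
    rw [MvPolynomial.mem_support_iff, MvPolynomial.coeff_mul_monomial, mul_one]
    exact MvPolynomial.mem_support_iff.1 hm
  obtain ⟨i, hi, hne⟩ := h _ hm'
  refine ⟨i, hi, ?_⟩
  rwa [Finsupp.add_apply, Finsupp.single_eq_of_ne (by exact hi), add_zero] at hne

theorem mul_pow_mem {y : Fin n → B} (hy : IsFiniteFree k y) {i₀ : Fin n} {N : ℕ} {u : B}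
    (h : u * y i₀ ^ N ∈ Ideal.span (y '' {i | i ≠ i₀})) :
    u ∈ Ideal.span (y '' {i | i ≠ i₀}) := by
  let : Algebra (MvPolynomial (Fin n) k) B :=
    (MvPolynomial.aeval y : MvPolynomial (Fin n) k →ₐ[k] B).toRingHom.toAlgebra
  have hfin : Module.Finite (MvPolynomial (Fin n) k) B := hy.1
  have hfree : Module.Free (MvPolynomial (Fin n) k) B := hy.2
  have hX : ∀ i, algebraMap (MvPolynomial (Fin n) k) B (MvPolynomial.X i) = y i := fun i =>
    MvPolynomial.aeval_X y i
  let b := Module.Free.chooseBasis (MvPolynomial (Fin n) k) B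
  let I : Ideal (MvPolynomial (Fin n) k) :=
    Ideal.span ((MvPolynomial.X : Fin n → MvPolynomial (Fin n) k) '' {i | i ≠ i₀})
  have hI : I.map (algebraMap (MvPolynomial (Fin n) k) B) = Ideal.span (y '' {i | i ≠ i₀}) := by
    rw [Ideal.map_span, ← Set.image_comp]
    congr 1
    refine Set.image_congr fun i _ => hX i
  have key : ∀ c : B, c ∈ Ideal.span (y '' {i | i ≠ i₀}) ↔ ∀ j, b.repr c j ∈ I := by
    intro c
    rw [← hI]
    constructor
    · intro hc
      have hc' : c ∈ (I • ⊤ : Submodule (MvPolynomial (Fin n) k) B) := by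
        rw [Ideal.smul_top_eq_map]
        exact hc
      refine Submodule.smul_induction_on hc' ?_ ?_
      · intro r hr m _ j
        rw [map_smul, Finsupp.smul_apply, smul_eq_mul]
        exact I.mul_mem_right _ hr
      · intro a a' ha ha' j
        rw [map_add, Finsupp.add_apply]
        exact I.add_mem (ha j) (ha' j)
    · intro hc
      rw [← b.sum_repr c]
      refine Ideal.sum_mem _ fun j _ => ?_
      rw [Algebra.smul_def]
      exact Ideal.mul_mem_right _ _ (Ideal.mem_map_of_mem _ (hc j))
  rw [key] at h ⊢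
  intro j
  have h1 := h j
  have h2 : u * y i₀ ^ N = (MvPolynomial.X i₀ ^ N : MvPolynomial (Fin n) k) • u := by
    rw [Algebra.smul_def, map_pow, hX, mul_comm]
  rw [h2, map_smul, Finsupp.smul_apply, smul_eq_mul, mul_comm] at h1
  exact X_pow_mul_mem h1

omit [IsDomain B] in
theorem isNoetherianRing_loc {y : Fin n → B} (hy : IsFiniteFree k y) (x : Ideal B)
    [x.IsPrime] : IsNoetherianRing (Localization.AtPrime x) := by
  let : Algebra (MvPolynomial (Fin n) k) B :=
    (MvPolynomial.aeval y : MvPolynomial (Fin n) k →ₐ[k] B).toRingHom.toAlgebra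
  have hfin : Module.Finite (MvPolynomial (Fin n) k) B := hy.1
  have : IsNoetherianRing B := IsNoetherianRing.of_finite (MvPolynomial (Fin n) k) B
  exact IsLocalization.isNoetherianRing x.primeCompl (Localization.AtPrime x) this

theorem paramIdeal_eq (x : Ideal B) [x.IsPrime] (y : Fin n → B) :
    paramIdeal x y = Ideal.span (Set.range fun i => algebraMap B (Localization.AtPrime x) (y i)) := by
  rw [paramIdeal, Ideal.map_span, ← Set.range_comp]
  rfl

theorem pow_mem_of_reduction {L : Type*} [CommRing L] [IsLocalRing L] [IsNoetherianRing L]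
    {J J' : Ideal L} {N : ℕ} (h1 : J ≤ J' ⊔ maximalIdeal L ^ 2)
    (hred : maximalIdeal L ^ (N + 1) ≤ J * maximalIdeal L ^ N) {z : L}
    (hz : z ∈ maximalIdeal L) : z ^ (N + 1) ∈ J' := by
  have h2 : maximalIdeal L ^ (N + 1) ≤
      J' * maximalIdeal L ^ N ⊔ maximalIdeal L • maximalIdeal L ^ (N + 1) := by
    have e : maximalIdeal L • maximalIdeal L ^ (N + 1) =
        maximalIdeal L ^ 2 * maximalIdeal L ^ N := by
      rw [smul_eq_mul, ← pow_succ', ← pow_add]
      congr 1
      omega
    rw [e, ← Ideal.sup_mul]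
    exact hred.trans (Ideal.mul_mono_left h1)
  have h3 : maximalIdeal L ^ (N + 1) ≤ J' * maximalIdeal L ^ N := by
    refine Submodule.le_of_le_smul_of_le_jacobson_bot (I := maximalIdeal L)
      (IsNoetherian.noetherian _) ?_ h2
    rw [IsLocalRing.jacobson_eq_maximalIdeal _ bot_ne_top]
  have h4 : z ^ (N + 1) ∈ J' * maximalIdeal L ^ N := h3 (Ideal.pow_mem_pow hz (N + 1))
  exact Ideal.mul_le_left h4

/-- The parameters are linearly independent modulo `m²`. (If `∑ a_i y_i ∈ m²` with
`a_{i₀} ≠ 0`, then `m ^ (N+1) ⊆ J' m ^ N + m ^ (N+2)` with `J' = (y_i : i ≠ i₀)`, so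
`y_{i₀} ^ (N+1) ∈ J' B_x` by Nakayama, which contradicts the freeness of `B` over `k[y]`.) -/
theorem indep_of_reduction (y : Fin n → B) (hy : IsFiniteFree k y)
    (x : Ideal B) [x.IsMaximal] (hyx : ∀ i, y i ∈ x) (hred : IsReductionAt x y) (a : Fin n → k)
    (h : algebraMap B (Localization.AtPrime x) (∑ i, a i • y i) ∈
      maximalIdeal (Localization.AtPrime x) ^ 2) : a = 0 := by
  have hN : IsNoetherianRing (Localization.AtPrime x) := isNoetherianRing_loc hy x
  by_contra hne
  obtain ⟨i₀, hi₀⟩ := Function.ne_iff.1 hne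
  rw [Pi.zero_apply] at hi₀
  obtain ⟨N, hred⟩ := hred
  set L := Localization.AtPrime x with hL
  set m := maximalIdeal L with hm
  set J' : Ideal L := (Ideal.span (y '' {i | i ≠ i₀})).map (algebraMap B L) with hJ'
  have hy' : ∀ i, i ≠ i₀ → algebraMap B L (y i) ∈ J' := fun i hi =>
    Ideal.mem_map_of_mem _ (Ideal.subset_span ⟨i, hi, rfl⟩)
  have hmem : ∀ i, algebraMap B L (y i) ∈ m := fun i => by
    rw [hm, ← Localization.AtPrime.map_eq_maximalIdeal]
    exact Ideal.mem_map_of_mem _ (hyx i)
  -- `y_{i₀} ∈ J' + m²`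
  have h0 : algebraMap B L (y i₀) ∈ J' ⊔ m ^ 2 := by
    have h1 : a i₀ • y i₀ = (∑ i, a i • y i) - ∑ i ∈ Finset.univ.erase i₀, a i • y i := by
      rw [← Finset.add_sum_erase Finset.univ _ (Finset.mem_univ i₀)]
      ring
    have h2 : y i₀ = algebraMap k B (a i₀)⁻¹ *
        ((∑ i, a i • y i) - ∑ i ∈ Finset.univ.erase i₀, a i • y i) := by
      rw [← h1, ← Algebra.smul_def, smul_smul, inv_mul_cancel₀ hi₀, one_smul]
    rw [h2, map_mul, map_sub]
    refine Ideal.mul_mem_left _ _ (Ideal.sub_mem _ (Ideal.mem_sup_right h) (Ideal.mem_sup_left ?_))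
    rw [map_sum]
    refine Ideal.sum_mem _ fun i hi => ?_
    rw [Algebra.smul_def, map_mul]
    exact Ideal.mul_mem_left _ _ (hy' i (Finset.ne_of_mem_erase hi))
  have h1 : paramIdeal x y ≤ J' ⊔ m ^ 2 := by
    rw [paramIdeal_eq, Ideal.span_le]
    rintro _ ⟨i, rfl⟩
    by_cases hi : i = i₀
    · subst hi
      exact h0
    · exact Ideal.mem_sup_left (hy' i hi)
  have h4 : algebraMap B L (y i₀ ^ (N + 1)) ∈ J' := by
    rw [map_pow]
    exact pow_mem_of_reduction h1 hred (hmem i₀)
  rw [hJ', IsLocalization.algebraMap_mem_map_algebraMap_iff x.primeCompl] at h4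
  obtain ⟨u, hu, h5⟩ := h4
  refine hu ?_
  have h6 := mul_pow_mem hy h5
  refine (Ideal.span_le.2 ?_) h6
  rintro _ ⟨i, -, rfl⟩
  exact hyx i

/-- the residue field of `B_x` is `k` -/
theorem exists_const (x : Ideal B) [x.IsMaximal]
    (hk : ∀ b : B, ∃ a : k, b - algebraMap k B a ∈ x) (c : Localization.AtPrime x) :
    ∃ a : k, c - algebraMap B (Localization.AtPrime x) (algebraMap k B a) ∈
      maximalIdeal (Localization.AtPrime x) := by
  have hmem : ∀ b ∈ x, algebraMap B (Localization.AtPrime x) b ∈
      maximalIdeal (Localization.AtPrime x) := fun b hb => by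
    rw [← Localization.AtPrime.map_eq_maximalIdeal]
    exact Ideal.mem_map_of_mem _ hb
  obtain ⟨b, s, rfl⟩ := IsLocalization.exists_mk'_eq x.primeCompl c
  obtain ⟨β, hβ⟩ := hk b
  obtain ⟨σ, hσ⟩ := hk s
  have hs : (s : B) ∉ x := s.2
  have hσ0 : σ ≠ 0 := by
    rintro rfl
    rw [map_zero, sub_zero] at hσ
    exact hs hσ
  refine ⟨β / σ, ?_⟩
  have hu : IsUnit (algebraMap B (Localization.AtPrime x) s) :=
    IsLocalization.map_units _ s
  refine (Ideal.unit_mul_mem_iff_mem _ hu).1 ?_
  rw [mul_sub, mul_comm, IsLocalization.mk'_spec, ← map_mul, ← map_sub]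
  refine hmem _ ?_
  have : b - s * algebraMap k B (β / σ) =
      (b - algebraMap k B β) - (s - algebraMap k B σ) * algebraMap k B (β / σ) := by
    have h1 : algebraMap k B β = algebraMap k B σ * algebraMap k B (β / σ) := by
      rw [← map_mul, mul_div_cancel₀ _ hσ0]
    rw [h1]
    ring
  rw [this]
  exact x.sub_mem hβ (x.mul_mem_right _ hσ)

/-- `(y) ∩ m² ⊆ (y) m` -/
theorem paramIdeal_inf_sq_le (y : Fin n → B) (hy : IsFiniteFree k y)
    (x : Ideal B) [x.IsMaximal] (hyx : ∀ i, y i ∈ x) (hred : IsReductionAt x y)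
    (hk : ∀ b : B, ∃ a : k, b - algebraMap k B a ∈ x) :
    paramIdeal x y ⊓ maximalIdeal (Localization.AtPrime x) ^ 2 ≤
      paramIdeal x y * maximalIdeal (Localization.AtPrime x) := by
  rintro z ⟨hz, hz2⟩
  have hmem : ∀ i, algebraMap B (Localization.AtPrime x) (y i) ∈
      maximalIdeal (Localization.AtPrime x) := fun i => by
    rw [← Localization.AtPrime.map_eq_maximalIdeal]
    exact Ideal.mem_map_of_mem _ (hyx i)
  have hmem' : ∀ i, algebraMap B (Localization.AtPrime x) (y i) ∈ paramIdeal x y := fun i =>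
    Ideal.mem_map_of_mem _ (Ideal.subset_span ⟨i, rfl⟩)
  have hz' := hz
  rw [paramIdeal_eq] at hz'
  obtain ⟨c, hc⟩ := Ideal.mem_span_range_iff_exists_fun.1 hz'
  choose a ha using fun i => exists_const x hk (c i)
  have h1 : z = algebraMap B (Localization.AtPrime x) (∑ i, a i • y i) +
      ∑ i, algebraMap B (Localization.AtPrime x) (y i) *
        (c i - algebraMap B (Localization.AtPrime x) (algebraMap k B (a i))) := by
    rw [← hc, map_sum, ← Finset.sum_add_distrib]
    refine Finset.sum_congr rfl fun i _ => ?_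
    rw [Algebra.smul_def, map_mul]
    ring
  have h2 : ∑ i, algebraMap B (Localization.AtPrime x) (y i) *
        (c i - algebraMap B (Localization.AtPrime x) (algebraMap k B (a i))) ∈
      paramIdeal x y * maximalIdeal (Localization.AtPrime x) :=
    Ideal.sum_mem _ fun i _ => Ideal.mul_mem_mul (hmem' i) (ha i)
  have h3 : ∑ i, algebraMap B (Localization.AtPrime x) (y i) *
        (c i - algebraMap B (Localization.AtPrime x) (algebraMap k B (a i))) ∈
      maximalIdeal (Localization.AtPrime x) ^ 2 := by
    rw [pow_two]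
    exact Ideal.sum_mem _ fun i _ => Ideal.mul_mem_mul (hmem i) (ha i)
  have h4 : algebraMap B (Localization.AtPrime x) (∑ i, a i • y i) ∈
      maximalIdeal (Localization.AtPrime x) ^ 2 := by
    have : algebraMap B (Localization.AtPrime x) (∑ i, a i • y i) = z -
        ∑ i, algebraMap B (Localization.AtPrime x) (y i) *
        (c i - algebraMap B (Localization.AtPrime x) (algebraMap k B (a i))) := by
      rw [eq_sub_iff_add_eq]
      exact h1.symm
    rw [this]
    exact Ideal.sub_mem _ hz2 h3
  have h5 : a = 0 := indep_of_reduction y hy x hyx hred a h4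
  rw [h1, h5]
  rw [h5] at h2
  simpa using h2

theorem exists_gens {n : ℕ} {L : Type*} [CommRing L] [IsLocalRing L] [IsNoetherianRing L]
    (v : Fin n → maximalIdeal L)
    (hv : LinearIndependent (ResidueField L) fun i => (maximalIdeal L).toCotangent (v i))
    (c : ℕ) (hc : Module.finrank (ResidueField L) (CotangentSpace L) ≤ n + c) :
    ∃ z : Fin c → L, Ideal.span (Set.range fun i => (v i : L)) ⊔ Ideal.span (Set.range z) =
      maximalIdeal L := by
  classical
  let W : Submodule (ResidueField L) (CotangentSpace L) :=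
    Submodule.span (ResidueField L) (Set.range fun i => (maximalIdeal L).toCotangent (v i))
  have hW : Module.finrank (ResidueField L) W = n := by
    have := finrank_span_eq_card hv
    rwa [Fintype.card_fin] at this
  have hq := W.finrank_quotient_add_finrank
  have hq' : Module.finrank (ResidueField L) (CotangentSpace L ⧸ W) ≤ c := by omega
  let b := Module.finBasis (ResidueField L) (CotangentSpace L ⧸ W)
  let w : Fin c → CotangentSpace L ⧸ W := fun j =>
    if h : (j : ℕ) < Module.finrank (ResidueField L) (CotangentSpace L ⧸ W) then b ⟨j, h⟩ else 0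
  have hw : Submodule.span (ResidueField L) (Set.range w) = ⊤ := by
    rw [eq_top_iff, ← b.span_eq, Submodule.span_le]
    rintro _ ⟨i, rfl⟩
    refine Submodule.subset_span ⟨⟨i, i.2.trans_le hq'⟩, ?_⟩
    exact dif_pos i.2
  choose w' hw' using fun j => W.mkQ_surjective (w j)
  choose z hz using fun j => (maximalIdeal L).toCotangent_surjective (w' j)
  have hsp : Submodule.span (ResidueField L)
      ((maximalIdeal L).toCotangent '' (Set.range v ∪ Set.range z)) = ⊤ := by
    rw [Set.image_union, Submodule.span_union, ← Set.range_comp, ← Set.range_comp]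
    change W ⊔ _ = ⊤
    rw [← Submodule.map_mkQ_eq_top, Submodule.map_span, ← Set.range_comp, ← hw]
    congr 2
    funext j
    change W.mkQ ((maximalIdeal L).toCotangent (z j)) = w j
    rw [hz, hw']
  rw [CotangentSpace.span_image_eq_top_iff] at hsp
  refine ⟨fun j => (z j : L), ?_⟩
  have h1 := congrArg (Submodule.map (maximalIdeal L).subtype) hsp
  rw [Submodule.map_span, Submodule.map_top, Submodule.range_subtype, Set.image_union,
    Submodule.span_union, ← Set.range_comp, ← Set.range_comp] at h1
  exact h1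

theorem ne_maximal_of_lt {n : ℕ} {L : Type*} [CommRing L] [IsLocalRing L]
    (y : Fin n → L) (h : n < Module.finrank (ResidueField L) (CotangentSpace L)) :
    Ideal.span (Set.range y) ≠ maximalIdeal L := by
  intro he
  have hy : ∀ i, y i ∈ maximalIdeal L := fun i => he ▸ Ideal.subset_span ⟨i, rfl⟩
  let v : Fin n → maximalIdeal L := fun i => ⟨y i, hy i⟩
  have hv : Submodule.span (ResidueField L)
      (Set.range fun i => (maximalIdeal L).toCotangent (v i)) = ⊤ := by
    rw [eq_top_iff]
    rintro q -
    obtain ⟨⟨a, ha⟩, rfl⟩ := (maximalIdeal L).toCotangent_surjective q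
    have ha' := ha
    rw [← he] at ha'
    obtain ⟨c, hc⟩ := Ideal.mem_span_range_iff_exists_fun.1 ha'
    have h1 : (⟨a, ha⟩ : maximalIdeal L) = ∑ i, c i • v i := by
      apply Subtype.ext
      simp only [AddSubmonoidClass.coe_finsetSum, Submodule.coe_smul, v, smul_eq_mul]
      exact hc.symm
    rw [h1, map_sum]
    refine Submodule.sum_mem _ fun i _ => ?_
    rw [map_smul, ← algebraMap_smul (ResidueField L) (c i)]
    exact Submodule.smul_mem _ _ (Submodule.subset_span ⟨i, rfl⟩)
  have h2 := finrank_range_le_card (R := ResidueField L)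
    (fun i => (maximalIdeal L).toCotangent (v i))
  rw [Set.finrank, hv, finrank_top, Fintype.card_fin] at h2
  exact absurd h (not_lt.2 h2)

/-- The maximal ideal of `B_x / (y)` has at most `embDim x - n` generators. -/
theorem exists_generators (y : Fin n → B) (hy : IsFiniteFree k y)
    (x : Ideal B) [x.IsMaximal] (hyx : ∀ i, y i ∈ x) (hred : IsReductionAt x y)
    (hk : ∀ b : B, ∃ a : k, b - algebraMap k B a ∈ x) (c : ℕ) (hc : embDim x ≤ n + c) :
    ∃ z : Fin c → Localization.AtPrime x,
      paramIdeal x y ⊔ Ideal.span (Set.range z) = maximalIdeal (Localization.AtPrime x) := by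
  have hN : IsNoetherianRing (Localization.AtPrime x) := isNoetherianRing_loc hy x
  have hmem : ∀ i, algebraMap B (Localization.AtPrime x) (y i) ∈
      maximalIdeal (Localization.AtPrime x) := fun i => by
    rw [← Localization.AtPrime.map_eq_maximalIdeal]
    exact Ideal.mem_map_of_mem _ (hyx i)
  have hli : LinearIndependent (ResidueField (Localization.AtPrime x)) fun i =>
      (maximalIdeal (Localization.AtPrime x)).toCotangent
        ⟨algebraMap B (Localization.AtPrime x) (y i), hmem i⟩ := by
    rw [Fintype.linearIndependent_iff]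
    intro g hg
    have hex : ∀ i, ∃ a : k, g i = algebraMap (Localization.AtPrime x)
        (ResidueField (Localization.AtPrime x))
        (algebraMap B (Localization.AtPrime x) (algebraMap k B a)) := by
      intro i
      obtain ⟨r, hr⟩ := IsLocalRing.residue_surjective (g i)
      obtain ⟨a, ha⟩ := exists_const x hk r
      refine ⟨a, ?_⟩
      rw [← hr]
      refine (Ideal.Quotient.eq (I := maximalIdeal (Localization.AtPrime x))).2 ?_
      exact ha
    choose a ha using hex
    have h1 : (maximalIdeal (Localization.AtPrime x)).toCotangent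
        (∑ i, algebraMap B (Localization.AtPrime x) (algebraMap k B (a i)) •
          ⟨algebraMap B (Localization.AtPrime x) (y i), hmem i⟩) = 0 := by
      rw [map_sum, ← hg]
      refine Finset.sum_congr rfl fun i _ => ?_
      rw [map_smul, ha i, algebraMap_smul (ResidueField (Localization.AtPrime x))
        (algebraMap B (Localization.AtPrime x) (algebraMap k B (a i)))]
    rw [Ideal.toCotangent_eq_zero] at h1
    have h2 : algebraMap B (Localization.AtPrime x) (∑ i, a i • y i) ∈
        maximalIdeal (Localization.AtPrime x) ^ 2 := by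
      convert h1 using 1
      rw [map_sum, AddSubmonoidClass.coe_finsetSum]
      refine Finset.sum_congr rfl fun i _ => ?_
      rw [Submodule.coe_smul, smul_eq_mul, Algebra.smul_def, map_mul]
    have h3 : a = 0 := indep_of_reduction y hy x hyx hred a h2
    intro i
    rw [ha i, h3, Pi.zero_apply, map_zero, map_zero, map_zero]
  obtain ⟨z, hz⟩ := exists_gens (fun i => (⟨algebraMap B (Localization.AtPrime x) (y i), hmem i⟩ :
    maximalIdeal (Localization.AtPrime x))) hli c hc
  refine ⟨z, ?_⟩
  rw [paramIdeal_eq]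
  exact hz

/-- If `n < embDim x` then `(y)` is not the maximal ideal. -/
theorem paramIdeal_ne_maximal (y : Fin n → B) (x : Ideal B) [x.IsMaximal]
    (h : n < embDim x) : paramIdeal x y ≠ maximalIdeal (Localization.AtPrime x) := by
  rw [paramIdeal_eq]
  exact ne_maximal_of_lt _ h

end Pool.Agent.ODP
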