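import Pool.Agent.ODP.Defs2

/-!
# Linear changes of the parameters
-/

open scoped WithZero ENNReal
open MvPolynomial

namespace Pool.Agent.ODP

set_option linter.unusedSectionVars false

variable {k : Type*} [Field k] {n : ℕ} {B K : Type*}
  [CommRing B] [Algebra k B] [Field K] [Algebra B K] [Algebra k K] [IsScalarTower k B K]

/-- linear change of the parameters -/
def linChange (M : Matrix (Fin n) (Fin n) k) (y : Fin n → B) : Fin n → B :=
  fun i => ∑ j, M i j • y j

theorem linChange_mul (M N : Matrix (Fin n) (Fin n) k) (y : Fin n → B) :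
    linChange (M * N) y = linChange M (linChange N y) := by
  funext i
  simp only [linChange, Matrix.mul_apply, Finset.sum_smul, Finset.smul_sum, smul_smul]
  rw [Finset.sum_comm]

theorem linChange_one (y : Fin n → B) : linChange (1 : Matrix (Fin n) (Fin n) k) y = y := by
  funext i
  simp [linChange, Matrix.one_apply]

theorem linChange_inv (M N : Matrix (Fin n) (Fin n) k) (h : N * M = 1) (y : Fin n → B) :
    linChange N (linChange M y) = y := by
  rw [← linChange_mul, h, linChange_one]

theorem span_linChange_le (M : Matrix (Fin n) (Fin n) k) (y : Fin n → B) :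
    Ideal.span (Set.range (linChange M y)) ≤ Ideal.span (Set.range y) := by
  rw [Ideal.span_le]
  rintro _ ⟨i, rfl⟩
  refine Ideal.sum_mem _ fun j _ => ?_
  rw [Algebra.smul_def]
  exact Ideal.mul_mem_left _ _ (Ideal.subset_span ⟨j, rfl⟩)

theorem span_linChange (M N : Matrix (Fin n) (Fin n) k) (h : N * M = 1) (y : Fin n → B) :
    Ideal.span (Set.range (linChange M y)) = Ideal.span (Set.range y) := by
  refine le_antisymm (span_linChange_le M y) ?_
  conv_lhs => rw [← linChange_inv M N h y]
  exact span_linChange_le N _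

theorem paramIdeal_linChange (M N : Matrix (Fin n) (Fin n) k) (h : N * M = 1) (x : Ideal B)
    [x.IsPrime] (y : Fin n → B) : paramIdeal x (linChange M y) = paramIdeal x y := by
  rw [paramIdeal, paramIdeal, span_linChange M N h]

theorem paramLength_linChange (M N : Matrix (Fin n) (Fin n) k) (h : N * M = 1) (x : Ideal B)
    [x.IsPrime] (y : Fin n → B) : paramLength k x (linChange M y) = paramLength k x y := by
  rw [paramLength, paramLength, paramIdeal_linChange M N h]

theorem isReductionAt_linChange (M N : Matrix (Fin n) (Fin n) k) (h : N * M = 1) (x : Ideal B)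
    [x.IsPrime] (y : Fin n → B) (hred : IsReductionAt x y) :
    IsReductionAt x (linChange M y) := by
  rw [IsReductionAt, paramIdeal_linChange M N h]
  exact hred

theorem algebraMap_linChange (M : Matrix (Fin n) (Fin n) k) (y : Fin n → B) (i : Fin n) :
    algebraMap B K (linChange M y i) = ∑ j, M i j • algebraMap B K (y j) := by
  rw [linChange, map_sum]
  refine Finset.sum_congr rfl fun j _ => ?_
  rw [Algebra.smul_def, Algebra.smul_def, map_mul, ← IsScalarTower.algebraMap_apply]

theorem formOrders_linChange (M N : Matrix (Fin n) (Fin n) k) (h : N * M = 1)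
    (v : Valuation K ℤᵐ⁰) (hv : ∀ a : k, a ≠ 0 → v (algebraMap k K a) = 1) (y : Fin n → B) :
    FormOrders k v (fun i => algebraMap B K (linChange M y i)) =
      FormOrders k v (fun i => algebraMap B K (y i)) := by
  have hdet : M.det ≠ 0 := by
    intro h0
    have := congrArg Matrix.det h
    rw [Matrix.det_mul, h0, mul_zero, Matrix.det_one] at this
    exact zero_ne_one this
  have key : ∀ D : Fin n → Derivation k K K,
      Matrix.det (Matrix.of fun i j => D i (algebraMap B K (linChange M y j))) =
        Matrix.det (Matrix.of fun i j => D i (algebraMap B K (y j))) * algebraMap k K M.det := by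
    intro D
    have h1 : (Matrix.of fun i j => D i (algebraMap B K (linChange M y j))) =
        (Matrix.of fun i j => D i (algebraMap B K (y j))) *
          (M.transpose.map (algebraMap k K)) := by
      ext i j
      simp only [Matrix.of_apply, Matrix.mul_apply, Matrix.map_apply, Matrix.transpose_apply]
      rw [algebraMap_linChange, map_sum]
      refine Finset.sum_congr rfl fun l _ => ?_
      rw [Derivation.map_smul, Algebra.smul_def, mul_comm]
    rw [h1, Matrix.det_mul, ← RingHom.mapMatrix_apply, ← RingHom.map_det, Matrix.det_transpose]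
  ext m
  constructor
  · rintro ⟨D, hD, hm⟩
    refine ⟨D, hD, ?_⟩
    rw [key, map_mul, hv _ hdet, mul_one] at hm
    exact hm
  · rintro ⟨D, hD, hm⟩
    refine ⟨D, hD, ?_⟩
    rw [key, map_mul, hv _ hdet, mul_one]
    exact hm

theorem val_const_eq_one (v : Valuation K ℤᵐ⁰) (hv : ∀ b : B, v (algebraMap B K b) ≤ 1)
    (a : k) (ha : a ≠ 0) : v (algebraMap k K a) = 1 := by
  have h1 : ∀ a : k, v (algebraMap k K a) ≤ 1 := fun a => by
    rw [IsScalarTower.algebraMap_apply k B K]; exact hv _
  have h2 := h1 a⁻¹
  have h3 : v (algebraMap k K a) * v (algebraMap k K a⁻¹) = 1 := by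
    rw [← map_mul, ← map_mul, mul_inv_cancel₀ ha, map_one, map_one]
  refine le_antisymm (h1 a) ?_
  calc (1 : ℤᵐ⁰) = v (algebraMap k K a) * v (algebraMap k K a⁻¹) := h3.symm
    _ ≤ v (algebraMap k K a) * 1 := mul_le_mul' le_rfl h2
    _ = _ := mul_one _

theorem isCanonicalAt_linChange (M N : Matrix (Fin n) (Fin n) k) (h : N * M = 1) (x : Ideal B)
    (y : Fin n → B) (g : K) (hg : IsCanonicalAt k x (fun i => algebraMap B K (y i)) g) :
    IsCanonicalAt k x (fun i => algebraMap B K (linChange M y i)) g := by
  refine ⟨hg.1, fun v hv hc => ?_⟩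
  obtain ⟨m, hm, hm2⟩ := hg.2 v hv hc
  refine ⟨m, ?_, hm2⟩
  rw [IsFormOrder, formOrders_linChange M N h v (val_const_eq_one v hv.nonneg)]
  exact hm

theorem isLogDiscrepancy_linChange (M N : Matrix (Fin n) (Fin n) k) (h : N * M = 1)
    (y : Fin n → B) (g : K) (v : Valuation K ℤᵐ⁰) (hv : ∀ b : B, v (algebraMap B K b) ≤ 1)
    (a : ℤ) :
    IsLogDiscrepancy k v (fun i => algebraMap B K (linChange M y i)) g a ↔
      IsLogDiscrepancy k v (fun i => algebraMap B K (y i)) g a := by
  rw [IsLogDiscrepancy, IsLogDiscrepancy]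
  simp only [IsFormOrder, formOrders_linChange M N h v (val_const_eq_one v hv)]

theorem localVol_linChange (M N : Matrix (Fin n) (Fin n) k) (h : N * M = 1) (x : Ideal B)
    (y : Fin n → B) (g : K) :
    localVol k x (linChange M y) g = localVol k x y g := by
  unfold localVol
  refine iInf_congr fun v => iInf_congr fun hv => iInf_congr fun a => ?_
  rw [isLogDiscrepancy_linChange M N h y g v hv.nonneg a]

theorem transfer_finite_free {R R' M : Type*} [CommRing R] [Nontrivial R] [CommRing R']
    [AddCommGroup M]
    [Module R M] [Module R' M] (e : R ≃+* R') (h : ∀ (c : R) (x : M), e c • x = c • x)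
    (h1 : Module.Finite R M) (h2 : Module.Free R M) :
    Module.Finite R' M ∧ Module.Free R' M := by
  let b := Module.Free.chooseBasis R M
  let b' := b.mapCoeffs e h
  exact ⟨Module.Finite.of_basis b', Module.Free.of_basis b'⟩

theorem isFiniteFree_linChange (M N : Matrix (Fin n) (Fin n) k) (h : N * M = 1)
    (y : Fin n → B) (hy : IsFiniteFree k y) : IsFiniteFree k (linChange M y) := by
  have h' : M * N = 1 := mul_eq_one_comm.mp h
  -- the automorphism of the polynomial ring
  let σ (A : Matrix (Fin n) (Fin n) k) : MvPolynomial (Fin n) k →ₐ[k] MvPolynomial (Fin n) k :=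
    MvPolynomial.aeval (linChange A X)
  have hσ : ∀ (A : Matrix (Fin n) (Fin n) k) (w : Fin n → B),
      (MvPolynomial.aeval w).comp (σ A) = MvPolynomial.aeval (linChange A w) := by
    intro A w
    apply MvPolynomial.algHom_ext
    intro i
    simp [σ, linChange]
  have hσ2 : ∀ (A A' : Matrix (Fin n) (Fin n) k), (σ A').comp (σ A) = σ (A * A') := by
    intro A A'
    apply MvPolynomial.algHom_ext
    intro i
    simp only [σ, AlgHom.comp_apply, MvPolynomial.aeval_X]
    rw [linChange_mul]
    simp [linChange]
  have hσ1 : σ 1 = AlgHom.id k _ := by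
    apply MvPolynomial.algHom_ext
    intro i
    simp only [σ, MvPolynomial.aeval_X, linChange_one]
    rfl
  let e : MvPolynomial (Fin n) k ≃ₐ[k] MvPolynomial (Fin n) k :=
    AlgEquiv.ofAlgHom (σ N) (σ M) (by rw [hσ2, h', hσ1]) (by rw [hσ2, h, hσ1])
  obtain ⟨hfin, hfree⟩ := hy
  let A1 : Algebra (MvPolynomial (Fin n) k) B :=
    (MvPolynomial.aeval y : MvPolynomial (Fin n) k →ₐ[k] B).toRingHom.toAlgebra
  let A2 : Algebra (MvPolynomial (Fin n) k) B :=
    (MvPolynomial.aeval (linChange M y) : MvPolynomial (Fin n) k →ₐ[k] B).toRingHom.toAlgebra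
  have hcompat : ∀ (c : MvPolynomial (Fin n) k) (b : B),
      (@HSMul.hSMul _ _ _ (@instHSMul _ _ A2.toSMul) (e c) b) =
        (@HSMul.hSMul _ _ _ (@instHSMul _ _ A1.toSMul) c b) := by
    intro c b
    change (MvPolynomial.aeval (linChange M y)) (σ N c) * b = (MvPolynomial.aeval y) c * b
    congr 1
    rw [← AlgHom.comp_apply, hσ, linChange_inv M N h]
  exact @transfer_finite_free (MvPolynomial (Fin n) k) (MvPolynomial (Fin n) k) B _ _ _ _
    A1.toModule A2.toModule e.toRingEquiv hcompat hfin hfree

end Pool.Agent.ODP
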