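import Pool.Agent.ODP.Centre

/-!
# Places above a monomial valuation: orders of the variables, centres on `B`
-/

open scoped WithZero
open IsDedekindDomain MvPolynomial

namespace Pool.Agent.ODP

set_option linter.unusedSectionVars false

theorem maximal_comap {k : Type*} [Field k] {n : ℕ} {B : Type*} [CommRing B]
    [Algebra (MvPolynomial (Fin n) k) B] [Algebra.IsIntegral (MvPolynomial (Fin n) k) B]
    (I : Ideal B) [I.IsPrime] (hI : ∀ i, algebraMap (MvPolynomial (Fin n) k) B (X i) ∈ I) :
    I.IsMaximal := by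
  apply Ideal.isMaximal_of_isIntegral_of_isMaximal_comap (R := MvPolynomial (Fin n) k)
  have h1 : (RingHom.ker (constantCoeff : MvPolynomial (Fin n) k →+* k)).IsMaximal :=
    RingHom.ker_isMaximal_of_surjective _ (fun a => ⟨C a, constantCoeff_C _ a⟩)
  have h2 : RingHom.ker (constantCoeff : MvPolynomial (Fin n) k →+* k) ≤
      I.comap (algebraMap (MvPolynomial (Fin n) k) B) := by
    intro p hp
    have h3 : p ∈ Ideal.span (Set.range (X : Fin n → MvPolynomial (Fin n) k)) := by
      rw [← Set.image_univ, mem_ideal_span_X_image]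
      intro m hm
      by_contra! hm2
      have : m = 0 := by
        ext i
        exact hm2 i (Set.mem_univ i)
      subst this
      rw [mem_support_iff] at hm
      exact hm hp
    have h4 : Ideal.span (Set.range (X : Fin n → MvPolynomial (Fin n) k)) ≤
        I.comap (algebraMap (MvPolynomial (Fin n) k) B) := by
      rw [Ideal.span_le]
      rintro _ ⟨i, rfl⟩
      exact hI i
    exact h4 h3
  have h5 : I.comap (algebraMap (MvPolynomial (Fin n) k) B) ≠ ⊤ :=
    Ideal.IsPrime.ne_top (Ideal.comap_isPrime _ _)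
  exact (h1.eq_of_le h5 h2) ▸ h1

variable {k : Type*} [Field k] {n : ℕ} {B F K : Type*}
  [CommRing B] [IsDomain B]
  [Algebra (MvPolynomial (Fin n) k) B] [Algebra.IsIntegral (MvPolynomial (Fin n) k) B]
  [Field F] [Algebra (MvPolynomial (Fin n) k) F] [IsFractionRing (MvPolynomial (Fin n) k) F]
  [Field K] [Algebra B K] [Algebra F K]
  [Algebra (MvPolynomial (Fin n) k) K] [IsScalarTower (MvPolynomial (Fin n) k) F K]
  [IsScalarTower (MvPolynomial (Fin n) k) B K]
  {α : Fin n → ℕ}
  {C : Type*} [CommRing C] [IsDedekindDomain C] [Algebra (wval k F α).valuationSubring C]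
  [Algebra C K] [IsScalarTower (wval k F α).valuationSubring C K] [IsFractionRing C K]
  [IsDiscreteValuationRing (wval k F α).valuationSubring]
  [IsIntegralClosure C (wval k F α).valuationSubring K]

variable (k F α) in
include k F α in
theorem placeW_B (Q : HeightOneSpectrum C) (b : B) : Q.valuation K (algebraMap B K b) ≤ 1 := by
  have h1 : IsIntegral (wval k F α).valuationSubring (algebraMap B K b) := by
    have h2 : IsIntegral (MvPolynomial (Fin n) k) (algebraMap B K b) :=
      (Algebra.IsIntegral.isIntegral b).algebraMap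
    obtain ⟨p, hp, hp2⟩ := h2
    let φ : MvPolynomial (Fin n) k →+* (wval k F α).valuationSubring :=
      (algebraMap (MvPolynomial (Fin n) k) F).codRestrict
        (wval k F α).valuationSubring.toSubring (fun p => wval_poly_le α p)
    refine ⟨p.map φ, hp.map φ, ?_⟩
    rw [Polynomial.eval₂_map]
    have h3 : (algebraMap (wval k F α).valuationSubring K).comp φ =
        algebraMap (MvPolynomial (Fin n) k) K := by
      ext x
      · rw [IsScalarTower.algebraMap_eq (MvPolynomial (Fin n) k) F K]
        rfl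
      · rw [IsScalarTower.algebraMap_eq (MvPolynomial (Fin n) k) F K]
        rfl
    rw [h3]
    exact hp2
  obtain ⟨c, hc⟩ := (IsIntegralClosure.isIntegral_iff (A := C)).mp h1
  rw [← hc]
  exact Q.valuation_le_one c

theorem placeW_X [Module.Finite (wval k F α).valuationSubring C]
    [FaithfulSMul (wval k F α).valuationSubring C] (hα : ∀ i, 0 < α i)
    (Q : HeightOneSpectrum C) :
    ∃ c : Fin n → ℕ, (∀ i, 0 < c i) ∧ (∀ i j, α i * c j = α j * c i) ∧
      ∀ i, Q.valuation K (algebraMap (MvPolynomial (Fin n) k) K (X i)) =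
        WithZero.exp (-(c i : ℤ)) := by
  have hX0 : ∀ i, algebraMap (MvPolynomial (Fin n) k) F (X i) ≠ 0 := by
    intro i
    rw [Ne, FaithfulSMul.algebraMap_eq_zero_iff]
    exact X_ne_zero i
  have h1 : ∀ i, Q.valuation K (algebraMap (MvPolynomial (Fin n) k) K (X i)) < 1 := by
    intro i
    rw [IsScalarTower.algebraMap_apply (MvPolynomial (Fin n) k) F K]
    apply placeW_lt_one (k := k) (F := F) (α := α)
    rw [wval_X, ← WithZero.exp_zero, WithZero.exp_lt_exp]
    have := hα i
    omega
  have h2 : ∀ i, Q.valuation K (algebraMap (MvPolynomial (Fin n) k) K (X i)) ≠ 0 := by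
    intro i
    rw [Valuation.ne_zero_iff, IsScalarTower.algebraMap_apply (MvPolynomial (Fin n) k) F K,
      map_ne_zero]
    exact hX0 i
  have h3 : ∀ i, ∃ c : ℕ, 0 < c ∧ Q.valuation K (algebraMap (MvPolynomial (Fin n) k) K (X i)) =
      WithZero.exp (-(c : ℤ)) := by
    intro i
    have h4 := h1 i
    rw [← WithZero.exp_log (h2 i), ← WithZero.exp_zero, WithZero.exp_lt_exp] at h4
    refine ⟨(-WithZero.log (Q.valuation K (algebraMap (MvPolynomial (Fin n) k) K (X i)))).toNat,
      by omega, ?_⟩
    rw [Int.toNat_of_nonneg (by omega), neg_neg, WithZero.exp_log (h2 i)]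
  choose c hc0 hc using h3
  refine ⟨c, hc0, ?_, hc⟩
  intro i j
  have h5 : wval k F α (algebraMap (MvPolynomial (Fin n) k) F (X j) ^ α i /
      algebraMap (MvPolynomial (Fin n) k) F (X i) ^ α j) = 1 := by
    rw [map_div₀, map_pow, map_pow, wval_X, wval_X, ← WithZero.exp_nsmul, ← WithZero.exp_nsmul,
      ← WithZero.exp_sub, WithZero.exp_eq_one]
    simp only [nsmul_eq_mul]
    ring
  have h6 := placeW_eq_one (K := K) Q h5
  rw [map_div₀, map_pow, map_pow, ← IsScalarTower.algebraMap_apply,
    ← IsScalarTower.algebraMap_apply, map_div₀, map_pow, map_pow, hc, hc, ← WithZero.exp_nsmul,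
    ← WithZero.exp_nsmul, ← WithZero.exp_sub, WithZero.exp_eq_one] at h6
  simp only [nsmul_eq_mul] at h6
  have h7 : (α i : ℤ) * c j = (α j : ℤ) * c i := by linarith
  exact_mod_cast h7

/-- either the centre is `x`, or some element outside `x` has positive order -/
theorem centre_dichotomy (x : Ideal B) [x.IsMaximal] (v : Valuation K ℤᵐ⁰)
    (hv : ∀ b : B, v (algebraMap B K b) ≤ 1)
    (hX : ∀ i, v (algebraMap (MvPolynomial (Fin n) k) K (X i)) < 1) :
    (∀ b : B, v (algebraMap B K b) < 1 ↔ b ∈ x) ∨ ∃ b : B, b ∉ x ∧ v (algebraMap B K b) < 1 := by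
  have h1 : (centreIdeal v hv).IsPrime := centreIdeal_isPrime v hv
  have h2 : (centreIdeal v hv).IsMaximal := maximal_comap (k := k) (n := n) _ (fun i => by
    rw [mem_centreIdeal, ← IsScalarTower.algebraMap_apply]
    exact hX i)
  by_cases h : centreIdeal v hv ≤ x
  · left
    have h3 : centreIdeal v hv = x := h2.eq_of_le (Ideal.IsPrime.ne_top inferInstance) h
    intro b
    rw [← h3]
    exact (mem_centreIdeal v hv b).symm
  · right
    obtain ⟨b, hb, hbx⟩ := Set.not_subset.mp h
    exact ⟨b, hbx, hb⟩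

/-- an element outside `x` which is deep at finitely many places not centred at `x` -/
theorem exists_deep {ι : Type*} [Finite ι] (x : Ideal B) [x.IsPrime]
    (v : ι → Valuation K ℤᵐ⁰) (hv : ∀ i (b : B), v i (algebraMap B K b) ≤ 1) (u : K)
    (h : ∀ i, v i u < 1 ∨ ∃ b : B, b ∉ x ∧ v i (algebraMap B K b) < 1) :
    ∃ b : B, b ∉ x ∧ ∀ i, v i (algebraMap B K b * u) < 1 := by
  classical
  have := Fintype.ofFinite ι
  have h1 : ∀ i, ∃ b : B, b ∉ x ∧ v i (algebraMap B K b * u) < 1 := by
    intro i
    rcases h i with h2 | ⟨b, hb, h2⟩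
    · refine ⟨1, ?_, by rw [map_one, one_mul]; exact h2⟩
      exact fun h3 => Ideal.IsPrime.ne_top (inferInstance : x.IsPrime)
        ((Ideal.eq_top_iff_one x).mpr h3)
    · obtain ⟨N, hN⟩ := exists_pow_mul_lt_one (v i (algebraMap B K b)) (v i u) h2
      refine ⟨b ^ N, fun h3 => hb (Ideal.IsPrime.mem_of_pow_mem inferInstance N h3), ?_⟩
      rw [map_pow, map_mul, map_pow]
      exact hN
  choose b hb hb2 using h1
  refine ⟨∏ i, b i, ?_, ?_⟩
  · intro h3
    obtain ⟨i, -, hi⟩ := (Ideal.IsPrime.prod_mem_iff).mp h3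
    exact hb i hi
  · intro i
    have h4 : algebraMap B K (∏ i, b i) * u =
        (algebraMap B K (b i) * u) * algebraMap B K (∏ j ∈ Finset.univ.erase i, b j) := by
      rw [← Finset.mul_prod_erase Finset.univ b (Finset.mem_univ i), map_mul]
      ring
    rw [h4, map_mul]
    exact (mul_le_mul' le_rfl (hv i _)).trans_lt (by rw [mul_one]; exact hb2 i)

end Pool.Agent.ODP
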