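import Pool.Agent.ODP.Defs

/-!
# The volume of a valuation with prescribed orders of a system of parameters
-/

open scoped WithZero ENNReal

namespace Pool.Agent.ODP

/-- `dim_k (B_x / (y) B_x)` -/
noncomputable def paramMult (k : Type*) [Field k] {B : Type*} [CommRing B] [Algebra k B] {n : ℕ}
    (x : Ideal B) [x.IsPrime] (y : Fin n → B) : ℕ :=
  Module.finrank k (Localization.AtPrime x ⧸
    (Ideal.span (Set.range y)).map (algebraMap B (Localization.AtPrime x)))

/-! ### lattice points in a simplex -/

/-- the lattice points of the simplex as a finite set -/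
def simplexFinset {n : ℕ} (c : Fin n → ℕ) (m : ℕ) : Finset (Fin n → ℕ) :=
  (Fintype.piFinset fun _ => Finset.range m).filter fun β => ∑ i, c i * β i < m

theorem mem_simplexFinset {n : ℕ} {c : Fin n → ℕ} (hc : ∀ i, 0 < c i) {m : ℕ} {β : Fin n → ℕ} :
    β ∈ simplexFinset c m ↔ ∑ i, c i * β i < m := by
  unfold simplexFinset
  rw [Finset.mem_filter, Fintype.mem_piFinset]
  constructor
  · exact fun h => h.2
  · intro h
    refine ⟨fun i => ?_, h⟩
    rw [Finset.mem_range]
    refine lt_of_le_of_lt ?_ h
    calc β i = 1 * β i := (one_mul _).symm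
      _ ≤ c i * β i := Nat.mul_le_mul_right _ (hc i)
      _ ≤ ∑ i, c i * β i :=
        Finset.single_le_sum (f := fun i => c i * β i) (fun _ _ => Nat.zero_le _) (Finset.mem_univ i)

theorem pow_step {x c : ℝ} (hx : 0 ≤ x) (hc : 0 ≤ c) (n : ℕ) :
    (n + 1) * c * x ^ n ≤ (x + c) ^ (n + 1) - x ^ (n + 1) := by
  induction n with
  | zero =>
    simp
  | succ n ih =>
    have h1 : (x + c) ^ (n + 1 + 1) - x ^ (n + 1 + 1) =
        x * ((x + c) ^ (n + 1) - x ^ (n + 1)) + c * (x + c) ^ (n + 1) := by ring
    have h2 : c * x ^ (n + 1) ≤ c * (x + c) ^ (n + 1) :=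
      mul_le_mul_of_nonneg_left (pow_le_pow_left₀ hx (by linarith) _) hc
    have h3 := mul_le_mul_of_nonneg_left ih hx
    rw [h1]
    push_cast
    have h4 : (n + 1 + 1 : ℝ) * c * x ^ (n + 1) = x * ((n + 1) * c * x ^ n) + c * x ^ (n + 1) := by
      ring
    rw [h4]
    linarith

theorem card_simplexFinset {n : ℕ} : ∀ (c : Fin n → ℕ), (∀ i, 0 < c i) → ∀ m : ℕ,
    ((simplexFinset c m).card : ℝ) * n.factorial * ∏ i, (c i : ℝ) ≤
      ((m : ℝ) + ∑ i, (c i : ℝ)) ^ n := by
  induction n with
  | zero =>
    intro c _ m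
    have h : (simplexFinset c m).card ≤ 1 := by
      refine (Finset.card_le_univ _).trans ?_
      simp
    simpa using (by exact_mod_cast h : ((simplexFinset c m).card : ℝ) ≤ 1)
  | succ n ih =>
    intro c hc m
    set c' : Fin n → ℕ := fun i => c i.succ with hc'
    have hc'pos : ∀ i, 0 < c' i := fun i => hc i.succ
    set T : Finset ℕ := (Finset.range m).filter fun b => c 0 * b < m with hT
    have hmaps : ∀ β ∈ simplexFinset c m, β 0 ∈ T := by
      intro β hβ
      rw [mem_simplexFinset hc] at hβ
      have h1 : c 0 * β 0 < m := lt_of_le_of_lt (Finset.single_le_sum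
        (f := fun i => c i * β i) (fun _ _ => Nat.zero_le _) (Finset.mem_univ 0)) hβ
      rw [hT, Finset.mem_filter, Finset.mem_range]
      refine ⟨lt_of_le_of_lt ?_ h1, h1⟩
      calc β 0 = 1 * β 0 := (one_mul _).symm
        _ ≤ c 0 * β 0 := Nat.mul_le_mul_right _ (hc 0)
    have h1 : (simplexFinset c m).card =
        ∑ b ∈ T, ((simplexFinset c m).filter fun β => β 0 = b).card :=
      Finset.card_eq_sum_card_fiberwise hmaps
    have h2 : ∀ b ∈ T, ((simplexFinset c m).filter fun β => β 0 = b).card ≤
        (simplexFinset c' (m - c 0 * b)).card := by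
      intro b _
      apply Finset.card_le_card_of_injOn (fun (β : Fin (n + 1) → ℕ) (i : Fin n) => β i.succ)
      · intro β hβ
        have hβ' := Finset.mem_filter.1 (Finset.mem_coe.1 hβ)
        have h3 := (mem_simplexFinset hc).1 hβ'.1
        rw [Fin.sum_univ_succ, hβ'.2] at h3
        rw [Finset.mem_coe, mem_simplexFinset hc'pos]
        change ∑ i : Fin n, c i.succ * β i.succ < m - c 0 * b
        omega
      · intro β hβ β' hβ' h
        have e1 := (Finset.mem_filter.1 (Finset.mem_coe.1 hβ)).2
        have e2 := (Finset.mem_filter.1 (Finset.mem_coe.1 hβ')).2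
        funext i
        refine Fin.cases ?_ (fun j => ?_) i
        · rw [e1, e2]
        · exact congrFun h j
    set P : ℝ := ∏ i, (c' i : ℝ) with hP
    set Sg : ℝ := ∑ i, (c' i : ℝ) with hS
    have hPpos : 0 < P := Finset.prod_pos fun i _ => by exact_mod_cast hc'pos i
    have hSnn : 0 ≤ Sg := Finset.sum_nonneg fun i _ => by positivity
    have hc0 : (0 : ℝ) < c 0 := by exact_mod_cast hc 0
    rw [Fin.prod_univ_succ, Fin.sum_univ_succ]
    change ((simplexFinset c m).card : ℝ) * (n + 1).factorial * ((c 0 : ℝ) * P) ≤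
      ((m : ℝ) + ((c 0 : ℝ) + Sg)) ^ (n + 1)
    have h3 : ((simplexFinset c m).card : ℝ) * (n + 1).factorial * ((c 0 : ℝ) * P) ≤
        ∑ b ∈ T, ((n + 1 : ℝ) * c 0 * ((m : ℝ) + Sg - c 0 * b) ^ n) := by
      rw [h1]
      push_cast
      rw [Finset.sum_mul, Finset.sum_mul]
      refine Finset.sum_le_sum fun b hb => ?_
      have hb' := (Finset.mem_filter.1 hb).2
      have h4 := ih c' hc'pos (m - c 0 * b)
      rw [Nat.cast_sub hb'.le] at h4
      push_cast at h4
      have h5 : (((simplexFinset c m).filter fun β => β 0 = b).card : ℝ) ≤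
          ((simplexFinset c' (m - c 0 * b)).card : ℝ) := by exact_mod_cast h2 b hb
      have h6 : (((simplexFinset c m).filter fun β => β 0 = b).card : ℝ) * n.factorial * P ≤
          ((m : ℝ) - c 0 * b + Sg) ^ n := by
        refine le_trans ?_ h4
        gcongr
      have h7 : ((n + 1).factorial : ℝ) = (n + 1) * n.factorial := by
        rw [Nat.factorial_succ]
        push_cast
        ring
      rw [h7]
      have h8 : ((m : ℝ) - c 0 * b + Sg) = (m : ℝ) + Sg - c 0 * b := by ring
      rw [h8] at h6
      have h9 : (0 : ℝ) ≤ (n + 1 : ℝ) * c 0 := by positivity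
      calc (((simplexFinset c m).filter fun β => β 0 = b).card : ℝ) * ((n + 1) * n.factorial) *
            ((c 0 : ℝ) * P)
          = ((n + 1 : ℝ) * c 0) * ((((simplexFinset c m).filter fun β => β 0 = b).card : ℝ) *
            n.factorial * P) := by ring
        _ ≤ ((n + 1 : ℝ) * c 0) * ((m : ℝ) + Sg - c 0 * b) ^ n :=
          mul_le_mul_of_nonneg_left h6 h9
    -- telescoping
    have htel : ∀ N : ℕ, (∀ b < N, c 0 * b ≤ m) →
        ∑ b ∈ Finset.range N, ((n + 1 : ℝ) * c 0 * ((m : ℝ) + Sg - c 0 * b) ^ n) ≤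
        ((m : ℝ) + Sg + c 0) ^ (n + 1) - ((m : ℝ) + Sg + c 0 - c 0 * N) ^ (n + 1) := by
      intro N
      induction N with
      | zero => simp
      | succ N ihN =>
        intro hN
        rw [Finset.sum_range_succ]
        have h4 := ihN fun b hb => hN b (by omega)
        have h5 : (c 0 : ℝ) * N ≤ m := by exact_mod_cast hN N (by omega)
        have h6 := pow_step (x := (m : ℝ) + Sg - c 0 * N) (by linarith) hc0.le n
        have h7 : (m : ℝ) + Sg - c 0 * N + c 0 = (m : ℝ) + Sg + c 0 - c 0 * N := by ring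
        have h8 : (m : ℝ) + Sg + c 0 - c 0 * (N + 1 : ℕ) = (m : ℝ) + Sg - c 0 * N := by
          push_cast
          ring
        rw [h7] at h6
        rw [h8]
        linarith
    -- `T` is an initial segment
    obtain ⟨N, hTN, hN⟩ : ∃ N, T = Finset.range N ∧ ∀ b < N, c 0 * b ≤ m := by
      refine ⟨(m + c 0 - 1) / c 0, ?_, ?_⟩
      · ext b
        rw [hT, Finset.mem_filter, Finset.mem_range, Finset.mem_range]
        have e : b < (m + c 0 - 1) / c 0 ↔ c 0 * b < m := by
          rw [Nat.lt_iff_add_one_le, Nat.le_div_iff_mul_le (hc 0)]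
          have : (b + 1) * c 0 = c 0 * b + c 0 := by ring
          rw [this]
          have := hc 0
          omega
        rw [e]
        refine ⟨fun h => h.2, fun h => ⟨lt_of_le_of_lt ?_ h, h⟩⟩
        calc b = 1 * b := (one_mul _).symm
          _ ≤ c 0 * b := Nat.mul_le_mul_right _ (hc 0)
      · intro b hb
        rw [Nat.lt_iff_add_one_le, Nat.le_div_iff_mul_le (hc 0)] at hb
        have : (b + 1) * c 0 = c 0 * b + c 0 := by ring
        rw [this] at hb
        have := hc 0
        omega
    rw [hTN] at h3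
    have h4 := htel N hN
    have h5 : (c 0 : ℝ) * N ≤ m + c 0 := by
      rcases Nat.eq_zero_or_pos N with h | h
      · subst h
        simp
        positivity
      · have h6 := hN (N - 1) (by omega)
        have h7 : (c 0 : ℝ) * ((N - 1 : ℕ) : ℝ) ≤ m := by exact_mod_cast h6
        rw [Nat.cast_sub h, Nat.cast_one] at h7
        linarith
    have h6 : 0 ≤ ((m : ℝ) + Sg + c 0 - c 0 * N) ^ (n + 1) := by
      apply pow_nonneg
      linarith
    have h7 : (m : ℝ) + ((c 0 : ℝ) + Sg) = (m : ℝ) + Sg + c 0 := by ring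
    rw [h7]
    linarith

theorem card_simplex_eq {n : ℕ} (c : Fin n → ℕ) (hc : ∀ i, 0 < c i) (m : ℕ) :
    Nat.card {β : Fin n → ℕ // ∑ i, c i * β i < m} = (simplexFinset c m).card := by
  have h2 : Nat.card {β : Fin n → ℕ // β ∈ simplexFinset c m} = (simplexFinset c m).card := by
    simp
  rw [← h2]
  exact Nat.card_congr (Equiv.subtypeEquivRight fun β => (mem_simplexFinset hc).symm)

/-- number of lattice points in a simplex -/
theorem card_simplex_le {n : ℕ} (c : Fin n → ℕ) (hc : ∀ i, 0 < c i) (m : ℕ) :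
    {β : Fin n → ℕ | ∑ i, c i * β i < m}.Finite ∧
    (Nat.card {β : Fin n → ℕ // ∑ i, c i * β i < m} : ℝ) * n.factorial * ∏ i, (c i : ℝ) ≤
      ((m : ℝ) + ∑ i, (c i : ℝ)) ^ n := by
  have hset : {β : Fin n → ℕ | ∑ i, c i * β i < m} = (simplexFinset c m : Set (Fin n → ℕ)) := by
    ext β
    rw [Finset.mem_coe, mem_simplexFinset hc]
    rfl
  constructor
  · rw [hset]
    exact Finset.finite_toSet _
  · rw [card_simplex_eq c hc]
    exact card_simplexFinset c hc m

/-! ### spanning by monomials -/

theorem finrank_le_of_monomials {k R : Type*} [Field k] [CommRing R] [Algebra k R] {n e : ℕ}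
    (F : Fin e → R) (y : Fin n → R) (c : Fin n → ℕ) (hc : ∀ i, 0 < c i) (m : ℕ)
    (hdec : ∀ r : R, ∃ (l : Fin e → k) (a : Fin n → R), r = ∑ j, l j • F j + ∑ i, a i * y i)
    (hzero : ∀ β : Fin n → ℕ, m ≤ ∑ i, c i * β i → ∏ i, y i ^ β i = 0) :
    Module.finrank k R ≤ e * (simplexFinset c m).card := by
  classical
  set W : Submodule k R := Submodule.span k (Set.range fun z : Fin e × simplexFinset c m =>
    F z.1 * ∏ i, y i ^ ((z.2 : Fin n → ℕ) i)) with hW
  have key : ∀ (d : ℕ) (β : Fin n → ℕ), m ≤ ∑ i, c i * β i + d → ∀ r : R,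
      r * ∏ i, y i ^ β i ∈ W := by
    intro d
    induction d with
    | zero =>
      intro β hβ r
      rw [hzero β (by simpa using hβ), mul_zero]
      exact W.zero_mem
    | succ d ih =>
      intro β hβ r
      by_cases hlt : ∑ i, c i * β i < m
      · obtain ⟨l, a, hr⟩ := hdec r
        rw [hr, add_mul, Finset.sum_mul, Finset.sum_mul]
        refine W.add_mem (W.sum_mem fun j _ => ?_) (W.sum_mem fun i _ => ?_)
        · rw [smul_mul_assoc]
          exact W.smul_mem _ (Submodule.subset_span ⟨(j, ⟨β, (mem_simplexFinset hc).2 hlt⟩), rfl⟩)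
        · have e1 : ∏ t, y t ^ (Pi.single i 1 : Fin n → ℕ) t = y i := by
            rw [Finset.prod_eq_single i]
            · rw [Pi.single_eq_same, pow_one]
            · intro t _ ht
              rw [Pi.single_eq_of_ne ht, pow_zero]
            · intro h
              exact absurd (Finset.mem_univ i) h
          have e2 : ∏ t, y t ^ (β + Pi.single i 1 : Fin n → ℕ) t = (∏ t, y t ^ β t) * y i := by
            conv_rhs => rw [← e1]
            rw [← Finset.prod_mul_distrib]
            refine Finset.prod_congr rfl fun t _ => ?_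
            rw [Pi.add_apply, pow_add]
          have e3 : ∑ t, c t * (β + Pi.single i 1 : Fin n → ℕ) t = ∑ t, c t * β t + c i := by
            have e4 : ∑ t, c t * (Pi.single i 1 : Fin n → ℕ) t = c i := by
              rw [Finset.sum_eq_single i]
              · rw [Pi.single_eq_same, mul_one]
              · intro t _ ht
                rw [Pi.single_eq_of_ne ht, mul_zero]
              · intro h
                exact absurd (Finset.mem_univ i) h
            conv_rhs => rw [← e4]
            rw [← Finset.sum_add_distrib]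
            refine Finset.sum_congr rfl fun t _ => ?_
            rw [Pi.add_apply, mul_add]
          have e5 : a i * y i * ∏ t, y t ^ β t =
              a i * ∏ t, y t ^ (β + Pi.single i 1 : Fin n → ℕ) t := by
            rw [e2]
            ring
          rw [e5]
          apply ih
          rw [e3]
          have := hc i
          omega
      · rw [hzero β (not_lt.1 hlt), mul_zero]
        exact W.zero_mem
  have htop : W = ⊤ := by
    rw [Submodule.eq_top_iff']
    intro r
    have h := key m 0 (by simp) r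
    simpa using h
  have h1 : Module.finrank k W ≤ Fintype.card (Fin e × simplexFinset c m) :=
    finrank_range_le_card _
  rw [htop, finrank_top, Fintype.card_prod, Fintype.card_fin, Fintype.card_coe] at h1
  exact h1

/-! ### the colength of the valuation ideals -/

theorem le_exp_neg_one_of_lt {z : ℤᵐ⁰} (h : z < 1) : z ≤ WithZero.exp (-1 : ℤ) := by
  by_cases hz : z = 0
  · rw [hz]
    exact zero_le
  · rw [← WithZero.exp_log hz] at h ⊢
    rw [← WithZero.exp_zero, WithZero.exp_lt_exp] at h
    rw [WithZero.exp_le_exp]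
    omega

variable {k : Type*} [Field k] {B K : Type*} [CommRing B] [IsDomain B] [Algebra k B]
  [Field K] [Algebra B K] {n : ℕ}

theorem mem_valIdeal (v : Valuation K ℤᵐ⁰) (hv : ∀ b : B, v (algebraMap B K b) ≤ 1) (m : ℕ)
    (b : B) : b ∈ valIdeal v hv m ↔ v (algebraMap B K b) ≤ WithZero.exp (-(m : ℤ)) := Iff.rfl

theorem isUnit_mk_valIdeal (x : Ideal B) [x.IsMaximal]
    (v : Valuation K ℤᵐ⁰) (hv : ∀ b : B, v (algebraMap B K b) ≤ 1)
    (hcentre : ∀ b : B, v (algebraMap B K b) < 1 ↔ b ∈ x) (m : ℕ) (s : B) (hs : s ∉ x) :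
    IsUnit (Ideal.Quotient.mk (valIdeal v hv m) s) := by
  obtain ⟨t, z, hz, hts⟩ := Ideal.IsMaximal.exists_inv (I := x) inferInstance hs
  have h1 : z ^ m ∈ valIdeal v hv m := by
    rw [mem_valIdeal, map_pow, map_pow]
    have h2 := le_exp_neg_one_of_lt ((hcentre z).2 hz)
    calc v (algebraMap B K z) ^ m ≤ (WithZero.exp (-1 : ℤ)) ^ m := pow_le_pow_left₀ zero_le h2 m
      _ = WithZero.exp (-(m : ℤ)) := by
        rw [← WithZero.exp_nsmul]
        simp
  have h2 : IsNilpotent (Ideal.Quotient.mk (valIdeal v hv m) z) :=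
    ⟨m, by rw [← map_pow]; exact Ideal.Quotient.eq_zero_iff_mem.2 h1⟩
  have h3 := h2.isUnit_one_sub
  have h4 : (1 : B ⧸ valIdeal v hv m) - Ideal.Quotient.mk (valIdeal v hv m) z =
      Ideal.Quotient.mk (valIdeal v hv m) t * Ideal.Quotient.mk (valIdeal v hv m) s := by
    rw [← map_mul, ← map_one (Ideal.Quotient.mk (valIdeal v hv m)), ← hts, map_add]
    ring
  rw [h4] at h3
  exact isUnit_of_mul_isUnit_right h3

/-- the local multiplicity ring is finite-dimensional -/
theorem finite_local_quotient (x : Ideal B) [x.IsMaximal] (y : Fin n → B)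
    (hfin : Module.Finite k (B ⧸ Ideal.span (Set.range y))) :
    Module.Finite k (Localization.AtPrime x ⧸
      (Ideal.span (Set.range y)).map (algebraMap B (Localization.AtPrime x))) := by
  set J : Ideal B := Ideal.span (Set.range y) with hJ
  set J' : Ideal (Localization.AtPrime x) := J.map (algebraMap B (Localization.AtPrime x)) with hJ'
  let π : B →ₐ[k] Localization.AtPrime x ⧸ J' :=
    (Ideal.Quotient.mkₐ k J').comp (IsScalarTower.toAlgHom k B (Localization.AtPrime x))
  have hπ : ∀ b, π b = Ideal.Quotient.mk J' (algebraMap B (Localization.AtPrime x) b) :=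
    fun b => rfl
  have hπJ : ∀ b ∈ J, π b = 0 := by
    intro b hb
    rw [hπ]
    exact Ideal.Quotient.eq_zero_iff_mem.2 (Ideal.mem_map_of_mem _ hb)
  have hart : IsArtinianRing (B ⧸ J) := IsArtinianRing.of_finite k (B ⧸ J)
  have hsurj : Function.Surjective π := by
    intro q
    obtain ⟨z, rfl⟩ := Ideal.Quotient.mk_surjective q
    obtain ⟨b, s, rfl⟩ := IsLocalization.exists_mk'_eq x.primeCompl z
    obtain ⟨N, t', ht'⟩ := IsArtinian.exists_pow_succ_smul_dvd (Ideal.Quotient.mk J (s : B))
      (1 : B ⧸ J)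
    obtain ⟨t, rfl⟩ := Ideal.Quotient.mk_surjective t'
    have h1 : (s : B) ^ (N + 1) * t - (s : B) ^ N ∈ J := by
      rw [← Ideal.Quotient.eq_zero_iff_mem, map_sub, map_mul, map_pow, map_pow, sub_eq_zero]
      simpa [smul_eq_mul] using ht'
    have h2 := hπJ _ h1
    rw [map_sub, map_mul, map_pow, map_pow, sub_eq_zero] at h2
    have hu : IsUnit (π (s : B)) := by
      rw [hπ]
      exact (IsLocalization.map_units (Localization.AtPrime x) s).map (Ideal.Quotient.mk J')
    have h3 : π (s : B) * π t = 1 := by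
      have h4 : π (s : B) ^ N * (π (s : B) * π t) = π (s : B) ^ N * 1 := by
        rw [mul_one, ← mul_assoc, ← pow_succ]
        exact h2
      exact (hu.pow N).mul_left_cancel h4
    refine ⟨b * t, ?_⟩
    have h5 : Ideal.Quotient.mk J' (IsLocalization.mk' (Localization.AtPrime x) b s) *
        π (s : B) = π b := by
      rw [hπ, hπ, ← map_mul, IsLocalization.mk'_spec]
    rw [map_mul, ← h5, mul_assoc, h3, mul_one]
  let f : (B ⧸ J) →ₐ[k] Localization.AtPrime x ⧸ J' := Ideal.Quotient.liftₐ J π hπJ
  have hf : Function.Surjective f := by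
    intro q
    obtain ⟨b, hb⟩ := hsurj q
    exact ⟨Ideal.Quotient.mk J b, hb⟩
  exact Module.Finite.of_surjective f.toLinearMap hf

theorem colength_valIdeal_le' (x : Ideal B) [x.IsMaximal] (y : Fin n → B)
    (hfin : Module.Finite k (B ⧸ Ideal.span (Set.range y)))
    (v : Valuation K ℤᵐ⁰) (hv : ∀ b : B, v (algebraMap B K b) ≤ 1)
    (hcentre : ∀ b : B, v (algebraMap B K b) < 1 ↔ b ∈ x)
    (c : Fin n → ℕ) (hc : ∀ i, 0 < c i)
    (hy : ∀ i, v (algebraMap B K (y i)) = WithZero.exp (-(c i : ℤ))) (m : ℕ) :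
    colength k (valIdeal v hv m) ≤ paramMult k x y * (simplexFinset c m).card := by
  set J' : Ideal (Localization.AtPrime x) :=
    (Ideal.span (Set.range y)).map (algebraMap B (Localization.AtPrime x)) with hJ'
  have hmemJ : ∀ w, w ∈ J' →
      ∃ a : Fin n → Localization.AtPrime x,
        ∑ i, a i * algebraMap B (Localization.AtPrime x) (y i) = w := by
    intro w hw
    have hJ2 : J' = Ideal.span
        (Set.range fun i => algebraMap B (Localization.AtPrime x) (y i)) := by
      rw [hJ', Ideal.map_span, ← Set.range_comp]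
      rfl
    rw [hJ2] at hw
    exact Ideal.mem_span_range_iff_exists_fun.1 hw
  have hfin' : Module.Finite k (Localization.AtPrime x ⧸ J') := finite_local_quotient x y hfin
  set I : Ideal B := valIdeal v hv m with hI
  have hunit : ∀ s : x.primeCompl, IsUnit (Ideal.Quotient.mk I (s : B)) :=
    fun s => isUnit_mk_valIdeal x v hv hcentre m s s.2
  let φ : Localization.AtPrime x →+* B ⧸ I := IsLocalization.lift (M := x.primeCompl) hunit
  have hφ : ∀ b, φ (algebraMap B (Localization.AtPrime x) b) = Ideal.Quotient.mk I b :=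
    fun b => IsLocalization.lift_eq hunit b
  have hφk : ∀ (l : k) (z : Localization.AtPrime x), φ (l • z) = l • φ z := by
    intro l z
    rw [Algebra.smul_def, map_mul, IsScalarTower.algebraMap_apply k B (Localization.AtPrime x), hφ,
      Algebra.smul_def]
    rfl
  set bas := Module.finBasis k (Localization.AtPrime x ⧸ J') with hbas
  choose f hf using fun j => Ideal.Quotient.mk_surjective (bas j)
  unfold colength paramMult
  refine finrank_le_of_monomials (fun j => φ (f j)) (fun i => Ideal.Quotient.mk I (y i)) c hc m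
    ?_ ?_
  · intro r
    obtain ⟨b, rfl⟩ := Ideal.Quotient.mk_surjective r
    set z := algebraMap B (Localization.AtPrime x) b with hz
    set l := bas.repr (Ideal.Quotient.mk J' z) with hl
    have h1 : z - ∑ j, l j • f j ∈ J' := by
      rw [← Ideal.Quotient.eq_zero_iff_mem, map_sub, map_sum, sub_eq_zero]
      have h2 := bas.sum_repr (Ideal.Quotient.mk J' z)
      rw [← h2]
      refine Finset.sum_congr rfl fun j _ => ?_
      rw [← hf j]
      rfl
    obtain ⟨a, ha⟩ := hmemJ _ h1
    refine ⟨fun j => l j, fun i => φ (a i), ?_⟩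
    have h3 : z = ∑ j, l j • f j + ∑ i, a i * algebraMap B (Localization.AtPrime x) (y i) := by
      have h4 : ∑ i, a i * algebraMap B (Localization.AtPrime x) (y i) = z - ∑ j, l j • f j := ha
      rw [h4]
      ring
    have h5 := congrArg φ h3
    rw [hz, hφ, map_add, map_sum, map_sum] at h5
    rw [h5]
    congr 1
    · exact Finset.sum_congr rfl fun j _ => hφk _ _
    · refine Finset.sum_congr rfl fun i _ => ?_
      rw [map_mul, hφ]
  · intro β hβ
    have h1 : ∏ i, (Ideal.Quotient.mk I (y i)) ^ β i = Ideal.Quotient.mk I (∏ i, y i ^ β i) := by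
      rw [map_prod]
      exact Finset.prod_congr rfl fun i _ => (map_pow _ _ _).symm
    rw [h1, Ideal.Quotient.eq_zero_iff_mem, hI, mem_valIdeal]
    have h2 : v (algebraMap B K (∏ i, y i ^ β i)) =
        WithZero.exp (-((∑ i, c i * β i : ℕ) : ℤ)) := by
      rw [map_prod, map_prod]
      have h3 : ∀ i, v (algebraMap B K (y i ^ β i)) = WithZero.exp (-((c i * β i : ℕ) : ℤ)) := by
        intro i
        rw [map_pow, map_pow, hy i, ← WithZero.exp_nsmul]
        congr 1
        rw [nsmul_eq_mul]
        push_cast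
        ring
      rw [Finset.prod_congr rfl fun i _ => h3 i]
      have h4 : ∀ s : Finset (Fin n), ∏ i ∈ s, WithZero.exp (-((c i * β i : ℕ) : ℤ)) =
          WithZero.exp (-((∑ i ∈ s, c i * β i : ℕ) : ℤ)) := by
        intro s
        classical
        induction s using Finset.induction_on with
        | empty => simp
        | insert a s ha ih =>
          rw [Finset.prod_insert ha, Finset.sum_insert ha, ih, ← WithZero.exp_add]
          congr 1
          push_cast
          ring
      exact h4 Finset.univ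
    rw [h2, WithZero.exp_le_exp]
    have : (m : ℤ) ≤ ((∑ i, c i * β i : ℕ) : ℤ) := by exact_mod_cast hβ
    linarith

theorem colength_valIdeal_le (x : Ideal B) [x.IsMaximal] (y : Fin n → B)
    (hfin : Module.Finite k (B ⧸ Ideal.span (Set.range y)))
    (v : Valuation K ℤᵐ⁰) (hv : ∀ b : B, v (algebraMap B K b) ≤ 1)
    (hcentre : ∀ b : B, v (algebraMap B K b) < 1 ↔ b ∈ x)
    (c : Fin n → ℕ) (hc : ∀ i, 0 < c i)
    (hy : ∀ i, v (algebraMap B K (y i)) = WithZero.exp (-(c i : ℤ))) (m : ℕ) :
    colength k (valIdeal v hv m) ≤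
      paramMult k x y * Nat.card {β : Fin n → ℕ // ∑ i, c i * β i < m} := by
  rw [card_simplex_eq c hc]
  exact colength_valIdeal_le' x y hfin v hv hcentre c hc hy m

theorem vol_le (x : Ideal B) [x.IsMaximal] (y : Fin n → B)
    (hfin : Module.Finite k (B ⧸ Ideal.span (Set.range y)))
    (v : Valuation K ℤᵐ⁰) (hv : ∀ b : B, v (algebraMap B K b) ≤ 1)
    (hcentre : ∀ b : B, v (algebraMap B K b) < 1 ↔ b ∈ x)
    (c : Fin n → ℕ) (hc : ∀ i, 0 < c i)
    (hy : ∀ i, v (algebraMap B K (y i)) = WithZero.exp (-(c i : ℤ))) :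
    vol k n v hv ≤ ENNReal.ofReal (paramMult k x y / ∏ i, (c i : ℝ)) := by
  set E : ℝ := ((paramMult k x y : ℕ) : ℝ) with hE
  set P : ℝ := ∏ i, (c i : ℝ) with hP
  set S : ℝ := ∑ i, (c i : ℝ) with hS
  have hPpos : 0 < P := Finset.prod_pos fun i _ => by exact_mod_cast hc i
  have hbound : ∀ m : ℕ, 0 < m →
      ((n.factorial * colength k (valIdeal v hv m) : ℕ) : ℝ≥0∞) / ((m ^ n : ℕ) : ℝ≥0∞) ≤
        ENNReal.ofReal (E / P * (1 + S / m) ^ n) := by
    intro m hm
    have hm0 : (0 : ℝ) < m := by exact_mod_cast hm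
    have hmn : (0 : ℝ) < ((m ^ n : ℕ) : ℝ) := by
      push_cast
      positivity
    rw [← ENNReal.ofReal_natCast, ← ENNReal.ofReal_natCast, ← ENNReal.ofReal_div_of_pos hmn]
    apply ENNReal.ofReal_le_ofReal
    rw [div_le_iff₀ hmn]
    have h1 := colength_valIdeal_le' x y hfin v hv hcentre c hc hy m
    have h2 := card_simplexFinset c hc m
    rw [← hP, ← hS] at h2
    have h3 : ((n.factorial * colength k (valIdeal v hv m) : ℕ) : ℝ) ≤
        n.factorial * (E * (simplexFinset c m).card) := by
      have : n.factorial * colength k (valIdeal v hv m) ≤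
          n.factorial * (paramMult k x y * (simplexFinset c m).card) := Nat.mul_le_mul_left _ h1
      rw [hE]
      exact_mod_cast this
    refine h3.trans ?_
    have h4 : E / P * (1 + S / m) ^ n * ((m ^ n : ℕ) : ℝ) = E / P * ((m : ℝ) + S) ^ n := by
      push_cast
      rw [mul_assoc, ← mul_pow]
      congr 2
      field_simp
    rw [h4]
    have hE0 : 0 ≤ E / P := div_nonneg (Nat.cast_nonneg _) hPpos.le
    have h5 := mul_le_mul_of_nonneg_left h2 hE0
    refine le_trans (le_of_eq ?_) h5
    field_simp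
  have hlim : Filter.Tendsto (fun m : ℕ => ENNReal.ofReal (E / P * (1 + S / m) ^ n)) Filter.atTop
      (nhds (ENNReal.ofReal (E / P))) := by
    apply ENNReal.tendsto_ofReal
    have h1 : Filter.Tendsto (fun m : ℕ => S / (m : ℝ)) Filter.atTop (nhds 0) :=
      tendsto_const_div_atTop_nhds_zero_nat S
    have h2 := ((h1.const_add 1).pow n).const_mul (E / P)
    simpa using h2
  unfold vol
  rw [← hlim.limsup_eq]
  refine Filter.limsup_le_limsup ?_ (by isBoundedDefault) (by isBoundedDefault)
  filter_upwards [Filter.eventually_gt_atTop 0] with m hm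
  exact hbound m hm

end Pool.Agent.ODP
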