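import Pool.Agent.ODP.Codim1
import Pool.Agent.ODP.Vol
import Pool.Agent.ODP.PlaceW
import Pool.Agent.ODP.TraceDecomp

/-!
# The main theorem
-/

open scoped WithZero ENNReal nonZeroDivisors
open IsDedekindDomain MvPolynomial

namespace Pool.Agent.ODP

set_option linter.unusedSectionVars false

theorem finite_quotient {k : Type*} [Field k] {n : ℕ} {B : Type*} [CommRing B] [Algebra k B]
    [Algebra (MvPolynomial (Fin n) k) B] [IsScalarTower k (MvPolynomial (Fin n) k) B]
    [Module.Finite (MvPolynomial (Fin n) k) B] :
    Module.Finite k (B ⧸ Ideal.span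
      (Set.range fun i => algebraMap (MvPolynomial (Fin n) k) B (X i))) := by
  obtain ⟨s, hs⟩ := (inferInstance : Module.Finite (MvPolynomial (Fin n) k) B)
  set I := Ideal.span (Set.range fun i => algebraMap (MvPolynomial (Fin n) k) B (X i)) with hI
  classical
  refine ⟨s.image (Ideal.Quotient.mk I), ?_⟩
  rw [eq_top_iff]
  rintro q -
  obtain ⟨b, rfl⟩ := Ideal.Quotient.mk_surjective q
  have hb : b ∈ Submodule.span (MvPolynomial (Fin n) k) (s : Set B) := hs ▸ Submodule.mem_top
  induction hb using Submodule.span_induction with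
  | mem b hb =>
    exact Submodule.subset_span (by
      rw [Finset.coe_image]; exact ⟨b, hb, rfl⟩)
  | zero => rw [map_zero]; exact Submodule.zero_mem _
  | add a b _ _ ha hb => rw [map_add]; exact Submodule.add_mem _ ha hb
  | smul p b _ hb =>
    have h1 : Ideal.Quotient.mk I (p • b) = constantCoeff p • Ideal.Quotient.mk I b := by
      have h2 : p - C (constantCoeff p) ∈
          Ideal.span (Set.range (X : Fin n → MvPolynomial (Fin n) k)) := by
        rw [← Set.image_univ, mem_ideal_span_X_image]
        intro m hm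
        by_contra! hm2
        have : m = 0 := by
          ext i
          exact hm2 i (Set.mem_univ i)
        subst this
        rw [mem_support_iff] at hm
        apply hm
        simp [constantCoeff_eq]
      have h3 : algebraMap (MvPolynomial (Fin n) k) B (p - C (constantCoeff p)) ∈ I := by
        have h4 := Ideal.mem_map_of_mem (algebraMap (MvPolynomial (Fin n) k) B) h2
        rw [Ideal.map_span, ← Set.range_comp] at h4
        exact h4
      have h5 : p • b = algebraMap (MvPolynomial (Fin n) k) B (p - C (constantCoeff p)) * b +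
          constantCoeff p • b := by
        rw [Algebra.smul_def, Algebra.smul_def, map_sub,
          IsScalarTower.algebraMap_apply k (MvPolynomial (Fin n) k) B]
        change _ = (_ - algebraMap (MvPolynomial (Fin n) k) B (C (constantCoeff p))) * b +
          algebraMap (MvPolynomial (Fin n) k) B (C (constantCoeff p)) * b
        ring
      rw [h5, map_add, Ideal.Quotient.eq_zero_iff_mem.mpr (Ideal.mul_mem_right b I h3), zero_add]
      rfl
    rw [h1]
    exact Submodule.smul_mem _ _ hb

section aux

variable {k : Type*} [Field k] [CharZero k] {n : ℕ} {B F K : Type*}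
  [CommRing B] [IsDomain B] [IsIntegrallyClosed B] [Algebra k B]
  [Algebra (MvPolynomial (Fin n) k) B] [IsScalarTower k (MvPolynomial (Fin n) k) B]
  [Module.Finite (MvPolynomial (Fin n) k) B]
  [Module.Free (MvPolynomial (Fin n) k) B]
  [Field F] [Algebra (MvPolynomial (Fin n) k) F] [IsFractionRing (MvPolynomial (Fin n) k) F]
  [Algebra k F] [IsScalarTower k (MvPolynomial (Fin n) k) F]
  [Field K] [Algebra B K] [IsFractionRing B K] [Algebra F K] [FiniteDimensional F K]
  [Algebra (MvPolynomial (Fin n) k) K] [IsScalarTower (MvPolynomial (Fin n) k) F K]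
  [IsScalarTower (MvPolynomial (Fin n) k) B K]
  [Algebra k K] [IsScalarTower k F K]
  {α : Fin n → ℕ}
  {C : Type*} [CommRing C] [IsDedekindDomain C] [Algebra (wval k F α).valuationSubring C]
  [Algebra C K] [IsScalarTower (wval k F α).valuationSubring C K] [IsFractionRing C K]
  [IsDiscreteValuationRing (wval k F α).valuationSubring]
  [IsIntegralClosure C (wval k F α).valuationSubring K]
  [Module.Finite (wval k F α).valuationSubring C]

variable (k F α C) in
include k F α C in
/-- The trace argument. -/
theorem exists_place (hα : ∀ i, 0 < α i) (x : Ideal B) [x.IsMaximal] (g : K)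
    (hg : IsCanonicalAt k x (fun i => algebraMap (MvPolynomial (Fin n) k) K (X i)) g)
    (f : B) (hf : ∀ b : B, b ∉ x → b * f ∉
      Ideal.span (Set.range fun i => algebraMap (MvPolynomial (Fin n) k) B (X i))) :
    ∃ Q : HeightOneSpectrum C, (∀ b : B, Q.valuation K (algebraMap B K b) < 1 ↔ b ∈ x) ∧
      Q.valuation K g ≤ Q.valuation K (algebraMap B K f) := by
  have hcF : CharZero F := charZero_of_injective_algebraMap (algebraMap k F).injective
  have htf : Module.IsTorsionFree (wval k F α).valuationSubring C :=
    torsionFree_C (wval k F α).valuationSubring F K C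
  have hfin : Finite (HeightOneSpectrum C) := finite_places (wval k F α).valuationSubring C
  have hg0 : g ≠ 0 := hg.1
  by_contra! hcon
  -- at each place, `f / g` has positive order or some element outside `x` has
  have h1 : ∀ Q : HeightOneSpectrum C, Q.valuation K (algebraMap B K f / g) < 1 ∨
      ∃ b : B, b ∉ x ∧ Q.valuation K (algebraMap B K b) < 1 := by
    intro Q
    have hX : ∀ i, Q.valuation K (algebraMap (MvPolynomial (Fin n) k) K (X i)) < 1 := by
      intro i
      rw [IsScalarTower.algebraMap_apply (MvPolynomial (Fin n) k) F K]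
      apply placeW_lt_one (k := k) (F := F) (α := α)
      rw [wval_X, ← WithZero.exp_zero, WithZero.exp_lt_exp]
      have := hα i
      omega
    rcases centre_dichotomy (k := k) (n := n) x (Q.valuation K)
      (placeW_B k F α Q) hX with h | h
    · left
      have h2 := hcon Q h
      have h3 : Q.valuation K g ≠ 0 := (Valuation.ne_zero_iff _).mpr hg0
      rw [map_div₀, div_lt_one₀ (zero_lt_iff.mpr h3)]
      exact h2
    · exact Or.inr h
  obtain ⟨b', hb', hdeep⟩ := exists_deep x (fun Q : HeightOneSpectrum C => Q.valuation K)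
    (fun Q b => placeW_B k F α Q b) (algebraMap B K f / g) h1
  obtain ⟨b₀, hb₀, htr⟩ := canonical_trace_mem (F := F) x g hg
  -- the functional `a ↦ Tr (b' b₀ f a / g)` has values in `(X)`
  have h2 : ∀ b : B, ∃ p ∈ Ideal.span (Set.range (X : Fin n → MvPolynomial (Fin n) k)),
      algebraMap (MvPolynomial (Fin n) k) F p = Algebra.trace F K
        ((algebraMap B K (b' * b₀) * (algebraMap B K f / g)) * algebraMap B K b) := by
    intro b
    obtain ⟨p, hp⟩ := htr (b' * f * b)
    have h3 : algebraMap B K b₀ * algebraMap B K (b' * f * b) / g =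
        (algebraMap B K (b' * b₀) * (algebraMap B K f / g)) * algebraMap B K b := by
      simp only [map_mul]
      ring
    rw [h3] at hp
    refine ⟨p, ?_, hp⟩
    obtain ⟨r, hr, hr2⟩ := trace_mem_maximal (O := (wval k F α).valuationSubring) (F := F)
      (C := C) ((algebraMap B K (b' * b₀) * (algebraMap B K f / g)) * algebraMap B K b) (by
        intro Q
        have h4 : (algebraMap B K (b' * b₀) * (algebraMap B K f / g)) * algebraMap B K b =
            (algebraMap B K b' * (algebraMap B K f / g)) * algebraMap B K (b₀ * b) := by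
          simp only [map_mul]
          ring
        rw [h4, map_mul]
        exact (mul_le_mul' le_rfl (placeW_B k F α Q _)).trans_lt
          (by rw [mul_one]; exact hdeep Q))
    rw [← hp] at hr2
    rw [← wval_poly_lt (F := F) α hα, ← hr2]
    exact (Valuation.mem_maximalIdeal_iff (v := wval k F α)).mp hr
  obtain ⟨z, hz, hz2⟩ := trace_decomp (F := F) (X : Fin n → MvPolynomial (Fin n) k) _ h2
  have h5 : ∀ j, ∃ b₁ : B, b₁ ∉ x ∧ ∃ b₂ : B, algebraMap B K b₁ * z j * g = algebraMap B K b₂ :=
    fun j => canonical_trace_gen (F := F) x g hg (z j) (hz2 j)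
  choose b₁ hb₁ b₂ hb₂ using h5
  -- multiply by the product of the `b₁ j`
  have h6 : (∏ j, b₁ j) * (b' * b₀) ∉ x := by
    intro h
    rcases Ideal.IsPrime.mem_or_mem inferInstance h with h | h
    · obtain ⟨j, -, hj⟩ := (Ideal.IsPrime.prod_mem_iff).mp h
      exact hb₁ j hj
    · rcases Ideal.IsPrime.mem_or_mem inferInstance h with h | h
      · exact hb' h
      · exact hb₀ h
  apply hf _ h6
  have h7 : (∏ j, b₁ j) * (b' * b₀) * f =
      ∑ j, ((∏ i ∈ Finset.univ.erase j, b₁ i) * b₂ j) *
        algebraMap (MvPolynomial (Fin n) k) B (X j) := by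
    apply IsFractionRing.injective B K
    have h8 : algebraMap B K ((∏ j, b₁ j) * (b' * b₀) * f) =
        algebraMap B K (∏ j, b₁ j) * (algebraMap B K (b' * b₀) * (algebraMap B K f / g)) * g := by
      simp only [map_mul]
      field_simp
    rw [h8, hz, Finset.mul_sum, Finset.sum_mul, map_sum]
    refine Finset.sum_congr rfl fun j _ => ?_
    rw [map_mul, map_mul, ← hb₂, ← Finset.mul_prod_erase Finset.univ b₁ (Finset.mem_univ j),
      map_mul, IsScalarTower.algebraMap_apply (MvPolynomial (Fin n) k) B K]
    ring
  rw [h7]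
  exact Ideal.sum_mem _ fun j _ => Ideal.mul_mem_left _ _ (Ideal.subset_span ⟨j, rfl⟩)

end aux

section aux2

variable {k : Type*} [Field k] [CharZero k] {n : ℕ} {B F K : Type*}
  [CommRing B] [IsDomain B] [IsIntegrallyClosed B] [Algebra k B]
  [Algebra (MvPolynomial (Fin n) k) B] [IsScalarTower k (MvPolynomial (Fin n) k) B]
  [Module.Finite (MvPolynomial (Fin n) k) B]
  [Module.Free (MvPolynomial (Fin n) k) B]
  [Field F] [Algebra (MvPolynomial (Fin n) k) F] [IsFractionRing (MvPolynomial (Fin n) k) F]
  [Algebra k F] [IsScalarTower k (MvPolynomial (Fin n) k) F]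
  [Field K] [Algebra B K] [IsFractionRing B K] [Algebra F K] [FiniteDimensional F K]
  [Algebra (MvPolynomial (Fin n) k) K] [IsScalarTower (MvPolynomial (Fin n) k) F K]
  [IsScalarTower (MvPolynomial (Fin n) k) B K]
  [Algebra k K] [IsScalarTower k F K] [IsScalarTower k B K]

variable (F) in
include F in
theorem exists_valuation_aux (hn : 0 < n) (x : Ideal B) [x.IsMaximal]
    (g : K)
    (hg : IsCanonicalAt k x (fun i => algebraMap (MvPolynomial (Fin n) k) K (X i)) g)
    (f : B) (hf : ∀ b : B, b ∉ x → b * f ∉
      Ideal.span (Set.range fun i => algebraMap (MvPolynomial (Fin n) k) B (X i)))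
    (α : Fin n → ℕ) (hα : ∀ i, 0 < α i) :
    ∃ (v : Valuation K ℤᵐ⁰) (hv : IsDivisorialAt k n x v) (c : Fin n → ℕ) (a : ℤ) (m : ℕ),
      (∀ i, 0 < c i) ∧ (∀ i j, α i * c j = α j * c i) ∧
      (∀ i, v (algebraMap (MvPolynomial (Fin n) k) K (X i)) = WithZero.exp (-(c i : ℤ))) ∧
      IsLogDiscrepancy k v (fun i => algebraMap (MvPolynomial (Fin n) k) K (X i)) g a ∧
      v (algebraMap B K f) = WithZero.exp (-(m : ℤ)) ∧
      a + m ≤ ∑ i, (c i : ℤ) ∧
      vol k n v hv.nonneg ≤ ENNReal.ofReal
        (paramMult k x (fun i => algebraMap (MvPolynomial (Fin n) k) B (X i)) /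
          ∏ i, (c i : ℝ)) := by
  have hcF : CharZero F := charZero_of_injective_algebraMap (algebraMap k F).injective
  have hdvr : IsDiscreteValuationRing (wval k F α).valuationSubring := wval_dvr α hn hα
  let C := integralClosure (wval k F α).valuationSubring K
  have hded : IsDedekindDomain C :=
    integralClosure.isDedekindDomain (wval k F α).valuationSubring F (L := K)
  have hfrac : IsFractionRing C K :=
    integralClosure.isFractionRing_of_finite_extension F K
  have hfinC : Module.Finite (wval k F α).valuationSubring C :=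
    IsIntegralClosure.finite (wval k F α).valuationSubring F K C
  have htf : Module.IsTorsionFree (wval k F α).valuationSubring C :=
    torsionFree_C (wval k F α).valuationSubring F K C
  obtain ⟨Q, hQx, hQ⟩ := exists_place k F α C hα x g hg f hf
  obtain ⟨c, hc0, hcα, hc⟩ := placeW_X (k := k) (F := F) (K := K) (α := α) hα Q
  have hg0 : g ≠ 0 := hg.1
  have hf0 : f ≠ 0 := by
    rintro rfl
    refine hf 1 ?_ ?_
    · exact fun h3 => Ideal.IsPrime.ne_top (inferInstance : x.IsPrime)
        ((Ideal.eq_top_iff_one x).mpr h3)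
    · rw [mul_zero]; exact Ideal.zero_mem _
  have hfK : Q.valuation K (algebraMap B K f) ≠ 0 := by
    rw [Valuation.ne_zero_iff, Ne, FaithfulSMul.algebraMap_eq_zero_iff]
    exact hf0
  have hgK : Q.valuation K g ≠ 0 := (Valuation.ne_zero_iff _).mpr hg0
  have hdisc : IsDiscVal B (Q.valuation K) :=
    ⟨Q.valuation_surjective K, fun b => placeW_B k F α Q b⟩
  obtain ⟨m, hm⟩ : ∃ m : ℕ, Q.valuation K (algebraMap B K f) = WithZero.exp (-(m : ℤ)) := by
    have h2 := hdisc.nonneg f
    rw [← WithZero.exp_log hfK, ← WithZero.exp_zero, WithZero.exp_le_exp] at h2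
    refine ⟨(-WithZero.log (Q.valuation K (algebraMap B K f))).toNat, ?_⟩
    rw [Int.toNat_of_nonneg (by omega), neg_neg, WithZero.exp_log hfK]
  have htrdeg : ∃ u : Fin (n - 1) → K, (∀ i, Q.valuation K (u i) ≤ 1) ∧
      ∀ G : MvPolynomial (Fin (n - 1)) k, G ≠ 0 →
        Q.valuation K (MvPolynomial.aeval u G) = 1 := by
    obtain ⟨u, hu1, hu2⟩ := wval_trdeg (k := k) (F := F) α hα hn
    refine ⟨fun i => algebraMap F K (u i), fun i => placeW_le_one Q (hu1 i).le, ?_⟩
    intro G hG
    have h3 : MvPolynomial.aeval (fun i => algebraMap F K (u i)) G =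
        algebraMap F K (MvPolynomial.aeval u G) := by
      have h4 := MvPolynomial.map_aeval u (algebraMap F K) G
      rw [h4, MvPolynomial.aeval_def, MvPolynomial.coe_eval₂Hom]
      congr 1
      rw [← IsScalarTower.algebraMap_eq]
    rw [h3]
    exact placeW_eq_one Q (hu2 G hG)
  have hdiv : IsDivisorialAt k n x (Q.valuation K) := ⟨hdisc, hQx, htrdeg⟩
  refine ⟨Q.valuation K, hdiv, c, (∑ i, (c i : ℤ)) + WithZero.log (Q.valuation K g), m, hc0, hcα,
    hc, ?_, hm, ?_, ?_⟩
  · refine ⟨(∑ i, (c i : ℤ)) - 1, ?_, ?_⟩
    · exact formOrder_wval (k := k) (F := F) (K := K) hn α hα Q (fun i => (c i : ℤ)) hc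
    · rw [← WithZero.exp_log hgK, WithZero.log_exp]
      congr 1
      ring
  · rw [hm, ← WithZero.exp_log hgK, WithZero.exp_le_exp] at hQ
    linarith
  · refine vol_le x (fun i => algebraMap (MvPolynomial (Fin n) k) B (X i)) finite_quotient
      (Q.valuation K) hdisc.nonneg hQx c hc0 ?_
    intro i
    rw [← IsScalarTower.algebraMap_apply]
    exact hc i

end aux2

variable {k : Type*} [Field k] [CharZero k] {n : ℕ} {B K : Type*}
  [CommRing B] [IsDomain B] [IsIntegrallyClosed B] [Algebra k B]
  [Algebra (MvPolynomial (Fin n) k) B] [IsScalarTower k (MvPolynomial (Fin n) k) B]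
  [Module.Finite (MvPolynomial (Fin n) k) B] [Module.Free (MvPolynomial (Fin n) k) B]
  [Field K] [Algebra B K] [IsFractionRing B K] [Algebra k K] [IsScalarTower k B K]

/-- Let `X = Spec B` be a normal variety, finite and flat over `𝔸ⁿ` with coordinates
`y_1, …, y_n`, let `x` be a point over the origin at which `K_X` is Cartier, and let `f` be a
function which is not in the ideal `(y_1, …, y_n)` of the local ring at `x`. For all positive
integers `α_i` there is a divisorial valuation `v` centred at `x` such that the orders of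
`y_1, …, y_n` are proportional to `α_1, …, α_n`, such that `A_X(v) + v(f) ≤ ∑ v(y_i)`, and such
that `vol(v) ≤ e / ∏ v(y_i)`, where `e` is the length of `O_x / (y_1, …, y_n)`. -/
theorem exists_valuation (hn : 0 < n) (x : Ideal B) [x.IsMaximal]
    (g : K)
    (hg : IsCanonicalAt k x
      (fun i => algebraMap B K (algebraMap (MvPolynomial (Fin n) k) B (X i))) g)
    (f : B) (hf : ∀ b : B, b ∉ x → b * f ∉
      Ideal.span (Set.range fun i => algebraMap (MvPolynomial (Fin n) k) B (X i)))
    (α : Fin n → ℕ) (hα : ∀ i, 0 < α i) :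
    ∃ (v : Valuation K ℤᵐ⁰) (hv : IsDivisorialAt k n x v) (c : Fin n → ℕ) (a : ℤ) (m : ℕ),
      (∀ i, 0 < c i) ∧ (∀ i j, α i * c j = α j * c i) ∧
      (∀ i, v (algebraMap B K (algebraMap (MvPolynomial (Fin n) k) B (X i))) =
        WithZero.exp (-(c i : ℤ))) ∧
      IsLogDiscrepancy k v
        (fun i => algebraMap B K (algebraMap (MvPolynomial (Fin n) k) B (X i))) g a ∧
      v (algebraMap B K f) = WithZero.exp (-(m : ℤ)) ∧
      a + m ≤ ∑ i, (c i : ℤ) ∧
      vol k n v hv.nonneg ≤ ENNReal.ofReal
        (paramMult k x (fun i => algebraMap (MvPolynomial (Fin n) k) B (X i)) /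
          ∏ i, (c i : ℝ)) := by
  let F := FractionRing (MvPolynomial (Fin n) k)
  let : Algebra (MvPolynomial (Fin n) k) K :=
    ((algebraMap B K).comp (algebraMap (MvPolynomial (Fin n) k) B)).toAlgebra
  have hPBK : IsScalarTower (MvPolynomial (Fin n) k) B K := IsScalarTower.of_algebraMap_eq' rfl
  have hinj : FaithfulSMul (MvPolynomial (Fin n) k) K := by
    rw [faithfulSMul_iff_algebraMap_injective]
    exact (IsFractionRing.injective B K).comp
      (FaithfulSMul.algebraMap_injective (MvPolynomial (Fin n) k) B)
  let : Algebra F K := FractionRing.liftAlgebra (MvPolynomial (Fin n) k) K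
  have hPFK : IsScalarTower (MvPolynomial (Fin n) k) F K :=
    FractionRing.isScalarTower_liftAlgebra _ _
  have hloc : IsLocalization (Algebra.algebraMapSubmonoid B (MvPolynomial (Fin n) k)⁰) K :=
    inferInstance
  have hfin : FiniteDimensional F K :=
    Module.Finite.of_isLocalization (MvPolynomial (Fin n) k) B (MvPolynomial (Fin n) k)⁰
  have hkFK : IsScalarTower k F K := by
    refine IsScalarTower.of_algebraMap_eq fun c => ?_
    rw [IsScalarTower.algebraMap_apply k (MvPolynomial (Fin n) k) F,
      ← IsScalarTower.algebraMap_apply (MvPolynomial (Fin n) k) F K,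
      IsScalarTower.algebraMap_apply (MvPolynomial (Fin n) k) B K,
      ← IsScalarTower.algebraMap_apply k (MvPolynomial (Fin n) k) B,
      ← IsScalarTower.algebraMap_apply k B K]
  exact exists_valuation_aux F hn x g hg f hf α hα

end Pool.Agent.ODP
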