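import Mathlib

/-!
# Numerical inequalities
-/

namespace Pool.Agent.ODP

/-- `((n-1)/(n-s))^n ≥ exp (s-1)`; hence `2 · 2.7^(s-1)` bounds the multiplicity. -/
theorem num_base (n s : ℕ) (hs : 1 ≤ s) (hsn : s < n) :
    Real.exp ((s : ℝ) - 1) * ((n : ℝ) - s) ^ n ≤ ((n : ℝ) - 1) ^ n := by
  have hs' : (1 : ℝ) ≤ s := by exact_mod_cast hs
  have hsn' : (s : ℝ) < n := by exact_mod_cast hsn
  have ha : 0 < (n : ℝ) - 1 := by linarith
  set x : ℝ := (s : ℝ) - 1 with hx
  set a : ℝ := (n : ℝ) - 1 with had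
  have h1 : (n : ℝ) - s = a * (1 - x / a) := by
    rw [mul_sub, mul_div_cancel₀ _ ha.ne', had, hx]
    ring
  have h2 : 1 - x / a ≤ Real.exp (-(x / a)) := by
    have := Real.add_one_le_exp (-(x / a))
    linarith
  have h0 : 0 ≤ 1 - x / a := by
    rw [sub_nonneg, div_le_one ha]
    linarith
  have h3 : (1 - x / a) ^ n ≤ Real.exp (-x) := by
    calc (1 - x / a) ^ n ≤ Real.exp (-(x / a)) ^ n := pow_le_pow_left₀ h0 h2 n
      _ = Real.exp (-(x * (n / a))) := by
          rw [← Real.exp_nat_mul]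
          congr 1
          ring
      _ ≤ Real.exp (-x) := by
          apply Real.exp_le_exp.2
          have h4 : 1 ≤ (n : ℝ) / a := by
            rw [le_div_iff₀ ha]
            linarith
          nlinarith
  rw [h1, mul_pow]
  calc Real.exp x * (a ^ n * (1 - x / a) ^ n) ≤ Real.exp x * (a ^ n * Real.exp (-x)) := by
        gcongr
    _ = a ^ n := by
        rw [mul_comm (a ^ n), ← mul_assoc, ← Real.exp_add, add_neg_cancel, Real.exp_zero, one_mul]

theorem num_of_lt (n s e : ℕ) (hs : 1 ≤ s) (hsn : s < n)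
    (he : (e : ℝ) < 2 * (2.7 : ℝ) ^ (s - 1)) :
    (e : ℝ) * ((n : ℝ) - s) ^ n < 2 * ((n : ℝ) - 1) ^ n := by
  have hsn' : (s : ℝ) < n := by exact_mod_cast hsn
  have hpos : 0 < ((n : ℝ) - s) ^ n := pow_pos (by linarith) n
  have h1 : (2.7 : ℝ) ^ (s - 1) ≤ Real.exp ((s : ℝ) - 1) := by
    have h2 : ((s - 1 : ℕ) : ℝ) = (s : ℝ) - 1 := by
      rw [Nat.cast_sub hs, Nat.cast_one]
    have h3 : (2.7 : ℝ) ≤ Real.exp 1 := by
      have := Real.exp_one_gt_d9
      linarith
    calc (2.7 : ℝ) ^ (s - 1) ≤ Real.exp 1 ^ (s - 1) := pow_le_pow_left₀ (by norm_num) h3 _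
      _ = Real.exp ((s : ℝ) - 1) := by
          rw [← Real.exp_nat_mul, h2, mul_one]
  calc (e : ℝ) * ((n : ℝ) - s) ^ n < 2 * (2.7 : ℝ) ^ (s - 1) * ((n : ℝ) - s) ^ n :=
        mul_lt_mul_of_pos_right he hpos
    _ ≤ 2 * Real.exp ((s : ℝ) - 1) * ((n : ℝ) - s) ^ n := by gcongr
    _ = 2 * (Real.exp ((s : ℝ) - 1) * ((n : ℝ) - s) ^ n) := by ring
    _ ≤ 2 * ((n : ℝ) - 1) ^ n := by
        have := num_base n s hs hsn
        linarith

theorem num_three (n s e : ℕ) (hs : 2 ≤ s) (hsn : s < n) (he : e ≤ 1 + (s + 2).choose 3) :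
    (e : ℝ) * ((n : ℝ) - s) ^ n < 2 * ((n : ℝ) - 1) ^ n := by
  have key : ∀ s : ℕ, 2 ≤ s → ((1 + (s + 2).choose 3 : ℕ) : ℝ) < 2 * (2.7 : ℝ) ^ (s - 1) := by
    intro s hs
    induction s, hs using Nat.le_induction with
    | base =>
        have : (2 + 2).choose 3 = 4 := rfl
        rw [this]
        norm_num
    | succ s hs ih =>
        have h1 : 2 * (s + 1 + 2).choose 3 ≤ 5 * (s + 2).choose 3 := by
          have h2 := Nat.choose_mul_succ_eq (s + 2) 3
          have h3 : s + 2 + 1 - 3 = s := by omega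
          rw [h3] at h2
          have h4 : (s + 1 + 2).choose 3 * s = (s + 2).choose 3 * (s + 3) := by
            rw [show s + 1 + 2 = s + 2 + 1 by ring, ← h2]
          have h5 : s * (2 * (s + 1 + 2).choose 3) ≤ s * (5 * (s + 2).choose 3) := by
            have : 2 * (s + 3) ≤ 5 * s := by omega
            nlinarith [Nat.mul_le_mul_left ((s + 2).choose 3) this]
          exact Nat.le_of_mul_le_mul_left h5 (by omega)
        have h2 : (2 : ℝ) * ((s + 1 + 2).choose 3 : ℕ) ≤ 5 * ((s + 2).choose 3 : ℕ) := by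
          exact_mod_cast h1
        have h3 : s + 1 - 1 = (s - 1) + 1 := by omega
        rw [h3, pow_succ]
        push_cast at ih ⊢
        linarith
  apply num_of_lt n s e (by omega) hsn
  refine lt_of_le_of_lt ?_ (key s hs)
  exact_mod_cast he

theorem num_six (n s e : ℕ) (hs : 3 ≤ s) (hsn : s < n) (he : e ≤ 7 + (s + 4).choose 6) :
    (e : ℝ) * ((n : ℝ) - s) ^ n < 2 * ((n : ℝ) - 1) ^ n := by
  have key : ∀ s : ℕ, 5 ≤ s → ((7 + (s + 4).choose 6 : ℕ) : ℝ) < 2 * (2.7 : ℝ) ^ (s - 1) := by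
    intro s hs
    induction s, hs using Nat.le_induction with
    | base =>
        have : (5 + 4).choose 6 = 84 := rfl
        rw [this]
        norm_num
    | succ s hs ih =>
        have h1 : 2 * (s + 1 + 4).choose 6 ≤ 5 * (s + 4).choose 6 := by
          have h2 := Nat.choose_mul_succ_eq (s + 4) 6
          have h3 : s + 4 + 1 - 6 = s - 1 := by omega
          rw [h3] at h2
          have h4 : (s + 1 + 4).choose 6 * (s - 1) = (s + 4).choose 6 * (s + 5) := by
            rw [show s + 1 + 4 = s + 4 + 1 by ring, ← h2]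
          have h5 : (s - 1) * (2 * (s + 1 + 4).choose 6) ≤ (s - 1) * (5 * (s + 4).choose 6) := by
            have : 2 * (s + 5) ≤ 5 * (s - 1) := by omega
            nlinarith [Nat.mul_le_mul_left ((s + 4).choose 6) this]
          exact Nat.le_of_mul_le_mul_left h5 (by omega)
        have h2 : (2 : ℝ) * ((s + 1 + 4).choose 6 : ℕ) ≤ 5 * ((s + 4).choose 6 : ℕ) := by
          exact_mod_cast h1
        have h3 : s + 1 - 1 = (s - 1) + 1 := by omega
        rw [h3, pow_succ]
        push_cast at ih ⊢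
        linarith
  apply num_of_lt n s e (by omega) hsn
  have he' : (e : ℝ) ≤ ((7 + (s + 4).choose 6 : ℕ) : ℝ) := by exact_mod_cast he
  refine lt_of_le_of_lt he' ?_
  rcases Nat.lt_or_ge s 5 with h | h
  · have : s = 3 ∨ s = 4 := by omega
    rcases this with rfl | rfl
    · have : (3 + 4).choose 6 = 7 := rfl
      rw [this]
      norm_num
    · have : (4 + 4).choose 6 = 28 := rfl
      rw [this]
      norm_num
  · exact key s h

/-- the numerical inequality for double points which are not nodes -/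
theorem num_node (n : ℕ) (hn : 2 ≤ n) :
    ∃ p q : ℕ, 0 < q ∧ q < p ∧ 2 * p ≤ 3 * q ∧
      2 * (((n : ℝ) - 2) * p + q) ^ n < 2 * ((n : ℝ) - 1) ^ n * ((p : ℝ) ^ (n - 1) * q) := by
  rcases Nat.lt_or_ge n 4 with h | h
  · have : n = 2 ∨ n = 3 := by omega
    rcases this with rfl | rfl
    · exact ⟨3, 2, by norm_num, by norm_num, by norm_num, by norm_num⟩
    · exact ⟨3, 2, by norm_num, by norm_num, by norm_num, by norm_num⟩
  · obtain ⟨N, rfl⟩ : ∃ N, n = N + 1 := ⟨n - 1, by omega⟩
    have hN : 3 ≤ N := by omega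
    refine ⟨N, N - 1, by omega, by omega, by omega, ?_⟩
    have hx3 : (3 : ℝ) ≤ N := by exact_mod_cast hN
    have hq : ((N - 1 : ℕ) : ℝ) = (N : ℝ) - 1 := by
      rw [Nat.cast_sub (by omega), Nat.cast_one]
    rw [hq, Nat.add_sub_cancel]
    push_cast
    set x : ℝ := (N : ℝ) with hx
    have hx0 : 0 < x := by linarith
    have e1 : (x + 1 - 2) * x + (x - 1) = (x ^ 2 * (1 - 1 / x ^ 2)) := by
      field_simp
      ring
    have e2 : x + 1 - 1 = x := by ring
    rw [e2, pow_succ]
    have e3 : ((x + 1 - 2) * x + (x - 1)) ^ N < x ^ (2 * N) * (x / (x + 1)) := by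
      rw [e1, mul_pow, ← pow_mul]
      apply mul_lt_mul_of_pos_left _ (by positivity)
      have h1 : 1 - 1 / x ^ 2 ≤ Real.exp (-(1 / x ^ 2)) := by
        have := Real.add_one_le_exp (-(1 / x ^ 2))
        linarith
      have h0 : 0 ≤ 1 - 1 / x ^ 2 := by
        rw [sub_nonneg, div_le_one (by positivity)]
        nlinarith
      calc (1 - 1 / x ^ 2) ^ N ≤ Real.exp (-(1 / x ^ 2)) ^ N := pow_le_pow_left₀ h0 h1 N
        _ = Real.exp (-(1 / x)) := by
            rw [← Real.exp_nat_mul, ← hx]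
            congr 1
            field_simp
        _ < x / (x + 1) := by
            rw [Real.exp_neg, inv_lt_comm₀ (Real.exp_pos _) (by positivity), inv_div]
            have h2 := Real.add_one_lt_exp (x := 1 / x) (by positivity)
            have h3 : (x + 1) / x = 1 / x + 1 := by
              field_simp
              ring
            rw [h3]
            exact h2
    have hpos : 0 < (x + 1 - 2) * x + (x - 1) := by nlinarith
    calc 2 * (((x + 1 - 2) * x + (x - 1)) ^ N * ((x + 1 - 2) * x + (x - 1)))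
        < 2 * (x ^ (2 * N) * (x / (x + 1)) * ((x + 1 - 2) * x + (x - 1))) := by
          have := mul_lt_mul_of_pos_right e3 hpos
          linarith
      _ = 2 * (x ^ N * x) * (x ^ N * (x - 1)) := by
          have h2 : (x + 1 - 2) * x + (x - 1) = (x + 1) * (x - 1) := by ring
          rw [h2, two_mul N, pow_add]
          field_simp
      _ = 2 * x ^ (N + 1) * (x ^ N * (x - 1)) := by rw [pow_succ]

end Pool.Agent.ODP
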