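import Pool.Agent.ODP.Bound
import Pool.Agent.ODP.LinChange
import Pool.Agent.ODP.Gor
import Pool.Agent.ODP.Indep
import Pool.Agent.ODP.Num

/-!
# Double points
-/

open scoped WithZero ENNReal
open IsLocalRing

namespace Pool.Agent.ODP

set_option linter.unusedSectionVars false

section

variable {k : Type*} [Field k] {n : ℕ} {B : Type*} [CommRing B] [IsDomain B] [Algebra k B]

theorem exists_const_loc (x : Ideal B) [x.IsMaximal]
    (hk : ∀ b : B, ∃ a : k, b - algebraMap k B a ∈ x) (l : Localization.AtPrime x) :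
    ∃ a : k, l - algebraMap k _ a ∈ maximalIdeal (Localization.AtPrime x) := by
  obtain ⟨b, u, rfl⟩ := IsLocalization.exists_mk'_eq x.primeCompl l
  obtain ⟨β, hβ⟩ := hk b
  obtain ⟨υ, hυ⟩ := hk u
  have hυ0 : υ ≠ 0 := by
    rintro rfl
    rw [map_zero, sub_zero] at hυ
    exact u.2 hυ
  refine ⟨β * υ⁻¹, ?_⟩
  have hmap : ∀ b ∈ x, algebraMap B (Localization.AtPrime x) b ∈
      maximalIdeal (Localization.AtPrime x) := fun b hb => by
    rw [← Localization.AtPrime.map_eq_maximalIdeal]
    exact Ideal.mem_map_of_mem _ hb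
  have h1 := hmap _ hβ
  have h2 := hmap _ hυ
  rw [map_sub, ← IsScalarTower.algebraMap_apply] at h1 h2
  have hu : IsUnit (algebraMap B (Localization.AtPrime x) (u : B)) :=
    IsLocalization.map_units _ u
  have h3 : (IsLocalization.mk' (Localization.AtPrime x) b u -
      algebraMap k _ (β * υ⁻¹)) * algebraMap B (Localization.AtPrime x) (u : B) ∈
        maximalIdeal (Localization.AtPrime x) := by
    have h4 : (IsLocalization.mk' (Localization.AtPrime x) b u -
      algebraMap k _ (β * υ⁻¹)) * algebraMap B (Localization.AtPrime x) (u : B) =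
        (algebraMap B (Localization.AtPrime x) b - algebraMap k _ β) -
          algebraMap k _ (β * υ⁻¹) * (algebraMap B (Localization.AtPrime x) (u : B) -
            algebraMap k _ υ) := by
      rw [sub_mul, IsLocalization.mk'_spec, mul_sub, ← map_mul, inv_mul_cancel_right₀ hυ0]
      ring
    rw [h4]
    exact Ideal.sub_mem _ h1 (Ideal.mul_mem_left _ _ h2)
  exact (Ideal.mul_unit_mem_iff_mem _ hu).mp h3


theorem isLocalRing_quot {L : Type*} [CommRing L] [IsLocalRing L] {J : Ideal L}
    (hJ : J ≤ maximalIdeal L) : IsLocalRing (L ⧸ J) := by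
  have hJtop : J ≠ ⊤ := fun h => (IsLocalRing.maximalIdeal.isMaximal L).ne_top
    (top_le_iff.mp (h ▸ hJ))
  have : Nontrivial (L ⧸ J) := Ideal.Quotient.nontrivial_iff.mpr hJtop
  exact IsLocalRing.of_surjective' (Ideal.Quotient.mk J) Ideal.Quotient.mk_surjective

theorem maximalIdeal_quot {L : Type*} [CommRing L] [IsLocalRing L] (J : Ideal L)
    [IsLocalRing (L ⧸ J)] :
    maximalIdeal (L ⧸ J) = (maximalIdeal L).map (Ideal.Quotient.mk J) :=
  (IsLocalRing.map_maximalIdeal_of_surjective _ Ideal.Quotient.mk_surjective).symm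

theorem exists_const_quot {L : Type*} [CommRing L] [IsLocalRing L] [Algebra k L] (J : Ideal L)
    [IsLocalRing (L ⧸ J)] (hk : ∀ l : L, ∃ a : k, l - algebraMap k L a ∈ maximalIdeal L)
    (r : L ⧸ J) : ∃ a : k, r - algebraMap k (L ⧸ J) a ∈ maximalIdeal (L ⧸ J) := by
  obtain ⟨l, rfl⟩ := Ideal.Quotient.mk_surjective r
  obtain ⟨a, ha⟩ := hk l
  refine ⟨a, ?_⟩
  rw [maximalIdeal_quot]
  exact Ideal.mem_map_of_mem (Ideal.Quotient.mk J) ha

theorem pow_quot_eq_bot_iff {L : Type*} [CommRing L] [IsLocalRing L] (J : Ideal L)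
    [IsLocalRing (L ⧸ J)] (s : ℕ) :
    maximalIdeal (L ⧸ J) ^ s = ⊥ ↔ maximalIdeal L ^ s ≤ J := by
  rw [maximalIdeal_quot, ← Ideal.map_pow, Ideal.map_eq_bot_iff_le_ker, Ideal.mk_ker]

theorem span_quot_eq {L : Type*} [CommRing L] [IsLocalRing L] (J : Ideal L)
    (hJ : J ≤ maximalIdeal L) [IsLocalRing (L ⧸ J)] (S : Set L) :
    Ideal.span (Ideal.Quotient.mk J '' S) = maximalIdeal (L ⧸ J) ↔
      J ⊔ Ideal.span S = maximalIdeal L := by
  rw [maximalIdeal_quot, ← Ideal.map_span]
  constructor
  · intro h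
    have h1 := congrArg (Ideal.comap (Ideal.Quotient.mk J)) h
    rw [Ideal.comap_map_of_surjective _ Ideal.Quotient.mk_surjective,
      Ideal.comap_map_of_surjective _ Ideal.Quotient.mk_surjective, ← RingHom.ker_eq_comap_bot,
      Ideal.mk_ker, sup_eq_left.mpr hJ, sup_comm] at h1
    exact h1
  · intro h
    rw [← h, Ideal.map_sup, Ideal.map_quotient_self, bot_sup_eq]

theorem paramIdeal_le (x : Ideal B) [x.IsPrime] (y : Fin n → B) (hyx : ∀ i, y i ∈ x) :
    paramIdeal x y ≤ maximalIdeal (Localization.AtPrime x) := by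
  rw [paramIdeal, ← Localization.AtPrime.map_eq_maximalIdeal]
  refine Ideal.map_mono ?_
  rw [Ideal.span_le]
  rintro _ ⟨i, rfl⟩
  exact hyx i

/-- double points: the element `z` -/
theorem exists_z (x : Ideal B) [x.IsMaximal] (y : Fin n → B)
    (hk : ∀ b : B, ∃ a : k, b - algebraMap k B a ∈ x)
    (hfin : Module.Finite k (Localization.AtPrime x ⧸ paramIdeal x y))
    (hyx : ∀ i, y i ∈ x) (he : paramLength k x y = 2) :
    ∃ z : B, algebraMap B (Localization.AtPrime x) z ∉ paramIdeal x y ∧
      paramIdeal x y ⊔ Ideal.span {algebraMap B (Localization.AtPrime x) z} =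
        maximalIdeal (Localization.AtPrime x) ∧
      maximalIdeal (Localization.AtPrime x) ^ 2 ≤ paramIdeal x y := by
  have hJ := paramIdeal_le x y hyx
  have hloc := isLocalRing_quot hJ
  obtain ⟨z, hz0, hz, hz2⟩ := gor_two (k := k) (R := Localization.AtPrime x ⧸ paramIdeal x y)
    (exists_const_quot _ (exists_const_loc x hk)) he
  obtain ⟨z, rfl⟩ := Ideal.Quotient.mk_surjective z
  rw [Ne, Ideal.Quotient.eq_zero_iff_mem] at hz0
  rw [eq_comm, ← Set.image_singleton, span_quot_eq _ hJ] at hz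
  rw [pow_quot_eq_bot_iff] at hz2
  obtain ⟨b, u, rfl⟩ := IsLocalization.exists_mk'_eq x.primeCompl z
  have hu : IsUnit (algebraMap B (Localization.AtPrime x) (u : B)) :=
    IsLocalization.map_units _ u
  have h1 := IsLocalization.mk'_spec (Localization.AtPrime x) b u
  refine ⟨b, ?_, ?_, hz2⟩
  · rw [← h1, Ideal.mul_unit_mem_iff_mem _ hu]
    exact hz0
  · rw [← h1, ← hz, Ideal.span_singleton_mul_right_unit hu]

end

section

variable {k : Type*} [Field k] {n : ℕ}

/-- `z² ≡ ∑ q_ij y_i y_j + ∑ a_i y_i z` modulo `m³` -/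
theorem exists_quad {L : Type*} [CommRing L] [IsLocalRing L] [Algebra k L] (y : Fin n → L) (z : L)
    (hk : ∀ l : L, ∃ a : k, l - algebraMap k L a ∈ maximalIdeal L)
    (hm : Ideal.span (Set.range y) ⊔ Ideal.span {z} = maximalIdeal L)
    (hz : z ^ 2 ∈ Ideal.span (Set.range y) * maximalIdeal L) :
    ∃ (q : Matrix (Fin n) (Fin n) k) (a : Fin n → k),
      z ^ 2 - (∑ i, ∑ j, q i j • (y i * y j) + ∑ i, a i • (y i * z)) ∈ maximalIdeal L ^ 3 := by
  have hy : ∀ i, y i ∈ maximalIdeal L := fun i => by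
    rw [← hm]
    exact Ideal.mem_sup_left (Ideal.subset_span ⟨i, rfl⟩)
  have hzm : z ∈ maximalIdeal L := by
    rw [← hm]
    exact Ideal.mem_sup_right (Ideal.mem_span_singleton_self z)
  rw [mul_comm, ← smul_eq_mul, Ideal.span, Submodule.mem_ideal_smul_span_iff_exists_sum] at hz
  obtain ⟨b, hb, hb2⟩ := hz
  have h1 : ∀ i, ∃ (c : Fin n → k) (d : k), y i * b i - (∑ j, c j • (y i * y j) + d • (y i * z)) ∈
      maximalIdeal L ^ 3 := by
    intro i
    have hbi := hb i
    rw [← hm, Submodule.mem_sup] at hbi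
    obtain ⟨u, hu, w, hw, huw⟩ := hbi
    obtain ⟨u', rfl⟩ := Ideal.mem_span_range_iff_exists_fun.1 hu
    obtain ⟨w', rfl⟩ := Ideal.mem_span_singleton'.1 hw
    choose c hc using fun j => hk (u' j)
    obtain ⟨d, hd⟩ := hk w'
    refine ⟨c, d, ?_⟩
    have h2 : y i * b i - (∑ j, c j • (y i * y j) + d • (y i * z)) =
        ∑ j, (u' j - algebraMap k L (c j)) * (y i * y j) +
          (w' - algebraMap k L d) * (y i * z) := by
      rw [← huw]
      simp only [Algebra.smul_def, sub_mul, Finset.sum_sub_distrib, mul_add, Finset.mul_sum]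
      have : ∀ j, y i * (u' j * y j) = u' j * (y i * y j) := fun j => by ring
      simp only [this]
      ring
    rw [h2]
    have h3 : ∀ l l' l'' : L, l ∈ maximalIdeal L → l' ∈ maximalIdeal L → l'' ∈ maximalIdeal L →
        l * (l' * l'') ∈ maximalIdeal L ^ 3 := by
      intro l l' l'' h h' h''
      rw [pow_succ', pow_two]
      exact Ideal.mul_mem_mul h (Ideal.mul_mem_mul h' h'')
    refine Ideal.add_mem _ (Ideal.sum_mem _ fun j _ => h3 _ _ _ (hc j) (hy i) (hy j)) ?_
    exact h3 _ _ _ hd (hy i) hzm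
  choose q a hqa using h1
  refine ⟨q, a, ?_⟩
  have h4 : z ^ 2 = ∑ i, y i * b i := by
    rw [← hb2, Finsupp.sum_fintype _ _ (fun i => by simp)]
    refine Finset.sum_congr rfl fun i _ => ?_
    rw [smul_eq_mul, mul_comm]
  rw [h4, ← Finset.sum_add_distrib, ← Finset.sum_sub_distrib]
  exact Ideal.sum_mem _ fun i _ => hqa i

/-- complete the square -/
theorem exists_quad' [NeZero (2 : k)] {L : Type*} [CommRing L] [IsLocalRing L] [Algebra k L]
    (y : Fin n → L) (z : L)
    (hk : ∀ l : L, ∃ a : k, l - algebraMap k L a ∈ maximalIdeal L)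
    (hm : Ideal.span (Set.range y) ⊔ Ideal.span {z} = maximalIdeal L)
    (hz : z ^ 2 ∈ Ideal.span (Set.range y) * maximalIdeal L) :
    ∃ (q : Matrix (Fin n) (Fin n) k) (a : Fin n → k),
      (z - ∑ i, a i • y i) ^ 2 - (∑ i, ∑ j, q i j • (y i * y j)) ∈ maximalIdeal L ^ 3 := by
  obtain ⟨q, a, h⟩ := exists_quad y z hk hm hz
  refine ⟨fun i j => q i j + (2⁻¹ * a i) * (2⁻¹ * a j), fun i => 2⁻¹ * a i, ?_⟩
  have h2 : (2 : k)⁻¹ + 2⁻¹ = 1 := by
    rw [← two_mul, mul_inv_cancel₀ (NeZero.ne _)]
  convert h using 1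
  have h3 : (∑ i, (2⁻¹ * a i) • y i) ^ 2 =
      ∑ i, ∑ j, ((2⁻¹ * a i) * (2⁻¹ * a j)) • (y i * y j) := by
    rw [pow_two, Finset.sum_mul_sum]
    refine Finset.sum_congr rfl fun i _ => Finset.sum_congr rfl fun j _ => ?_
    rw [smul_mul_smul_comm]
  have h4 : ∑ i, a i • (y i * z) = z * (∑ i, (2⁻¹ * a i) • y i) +
      z * (∑ i, (2⁻¹ * a i) • y i) := by
    rw [← mul_add, ← Finset.sum_add_distrib, Finset.mul_sum]
    refine Finset.sum_congr rfl fun i _ => ?_
    rw [← add_smul, ← add_mul, h2, one_mul, mul_smul_comm, mul_comm]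
  rw [sub_sq, h3, h4]
  simp only [add_smul, Finset.sum_add_distrib]
  ring

end

section

variable {k : Type*} [Field k] {n : ℕ}

/-- quadratic forms are diagonalizable -/
theorem exists_diag [CharZero k] (q : Matrix (Fin n) (Fin n) k) :
    ∃ (M N : Matrix (Fin n) (Fin n) k) (d : Fin n → k), N * M = 1 ∧
      ∀ {L : Type*} [CommRing L] [Algebra k L] (y : Fin n → L),
        ∑ i, ∑ j, q i j • (y i * y j) = ∑ l, d l • (linChange M y l) ^ 2 := by
  have h2 : Invertible (2 : k) := invertibleOfNonzero two_ne_zero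
  obtain ⟨w, ⟨e⟩⟩ := QuadraticForm.equivalent_weightedSumSquares q.toQuadraticForm'
  have hfr : Module.finrank k (Fin n → k) = n := Module.finrank_fin_fun k
  let E : (Fin n → k) ≃ₗ[k] (Fin n → k) :=
    e.toLinearEquiv.trans (LinearEquiv.funCongrLeft k k (finCongr hfr.symm))
  have hE : ∀ v l, E v l = e v (finCongr hfr.symm l) := fun v l => rfl
  refine ⟨LinearMap.toMatrix' E.toLinearMap, LinearMap.toMatrix' E.symm.toLinearMap,
    fun l => w (finCongr hfr.symm l), ?_, ?_⟩
  · rw [← LinearMap.toMatrix'_comp]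
    simp
  · intro L _ _ y
    have key : (∑ i, ∑ j, q i j • (MvPolynomial.X i * MvPolynomial.X j) :
        MvPolynomial (Fin n) k) = ∑ l, w (finCongr hfr.symm l) •
          (linChange (LinearMap.toMatrix' E.toLinearMap) MvPolynomial.X l) ^ 2 := by
      apply MvPolynomial.funext
      intro v
      have h1 := e.map_app v
      rw [QuadraticMap.weightedSumSquares_apply] at h1
      have h3 : q.toQuadraticForm' v = ∑ i, ∑ j, q i j * (v i * v j) := by
        rw [Matrix.toQuadraticForm', LinearMap.BilinMap.toQuadraticMap_apply,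
          Matrix.toLinearMap₂'_apply]
        refine Finset.sum_congr rfl fun i _ => Finset.sum_congr rfl fun j _ => ?_
        simp only [smul_eq_mul]
        ring
      have h4 : ∀ l, (linChange (LinearMap.toMatrix' E.toLinearMap) MvPolynomial.X l :
          MvPolynomial (Fin n) k).eval v = E v l := by
        intro l
        have h5 : E v = (LinearMap.toMatrix' E.toLinearMap).mulVec v := by
          rw [LinearMap.toMatrix'_mulVec]
          rfl
        rw [h5, linChange, map_sum, Matrix.mulVec, dotProduct]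
        refine Finset.sum_congr rfl fun j _ => ?_
        rw [MvPolynomial.smul_eval, MvPolynomial.eval_X]
      simp only [map_sum, map_mul, map_pow, MvPolynomial.smul_eval, MvPolynomial.eval_X, h4]
      rw [← h3, ← h1, ← (finCongr hfr.symm).sum_comp]
      refine Finset.sum_congr rfl fun l _ => ?_
      rw [smul_eq_mul, pow_two, hE]
    have := congrArg (MvPolynomial.aeval y) key
    simpa [linChange] using this

end

section

variable {k : Type*} [Field k] {n : ℕ} {B : Type*} [CommRing B] [Algebra k B]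

theorem isNodeAt_of_diag [IsAlgClosed k] (x : Ideal B) [x.IsPrime]
    (y' : Fin n → Localization.AtPrime x) (z' : Localization.AtPrime x) (d : Fin n → k)
    (hd : ∀ l, d l ≠ 0)
    (hm : Ideal.span (Set.range y') ⊔ Ideal.span {z'} = maximalIdeal (Localization.AtPrime x))
    (hz : z' ^ 2 - ∑ l, d l • (y' l) ^ 2 ∈ maximalIdeal (Localization.AtPrime x) ^ 3) :
    IsNodeAt n x := by
  have hsq : ∀ a : k, ∃ b : k, b ^ 2 = a := fun a => by
    obtain ⟨b, hb⟩ := IsAlgClosed.exists_pow_nat_eq a (n := 2) (by norm_num)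
    exact ⟨b, hb⟩
  obtain ⟨ι, hι⟩ := hsq (-1)
  choose r hr using fun l => hsq (d l)
  have hunit : ∀ a : k, a ≠ 0 → IsUnit (algebraMap k (Localization.AtPrime x) a) := fun a ha =>
    (isUnit_iff_ne_zero.mpr ha).map _
  have hι0 : ι ≠ 0 := by
    rintro rfl
    norm_num at hι
  have hr0 : ∀ l, r l ≠ 0 := fun l h => by
    apply hd l
    rw [← hr l, h]
    norm_num
  refine ⟨Fin.cons (ι • z') (fun l => r l • y' l), ?_, ?_⟩
  · rw [Fin.range_cons, Set.insert_eq, Ideal.span_union, ← hm, sup_comm]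
    congr 1
    · apply le_antisymm
      · rw [Ideal.span_le]
        rintro _ ⟨l, rfl⟩
        simp only [Algebra.smul_def]
        exact Ideal.mul_mem_left _ _ (Ideal.subset_span ⟨l, rfl⟩)
      · rw [Ideal.span_le]
        rintro _ ⟨l, rfl⟩
        have h1 : r l • y' l ∈ Ideal.span (Set.range fun l => r l • y' l) :=
          Ideal.subset_span ⟨l, rfl⟩
        rw [Algebra.smul_def, Ideal.unit_mul_mem_iff_mem _ (hunit _ (hr0 l))] at h1
        exact h1
    · rw [Algebra.smul_def, Ideal.span_singleton_mul_left_unit (hunit _ hι0)]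
  · rw [Fin.sum_univ_succ, Fin.cons_zero]
    simp only [Fin.cons_succ]
    have h1 : (ι • z') ^ 2 + ∑ l, (r l • y' l) ^ 2 = -(z' ^ 2 - ∑ l, d l • (y' l) ^ 2) := by
      rw [smul_pow, hι]
      simp only [smul_pow, hr]
      rw [neg_smul, one_smul]
      ring
    rw [h1]
    exact Ideal.neg_mem_iff _ |>.mpr hz

end

section

variable {k : Type*} [Field k] [CharZero k] {n : ℕ} {B K : Type*}
  [CommRing B] [IsDomain B] [IsIntegrallyClosed B] [Algebra k B]
  [Field K] [Algebra B K] [IsFractionRing B K] [Algebra k K] [IsScalarTower k B K]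

theorem localVol_lt_of_degenerate (hn : 2 ≤ n) (y : Fin n → B) (hy : IsFiniteFree k y)
    (x : Ideal B) [x.IsMaximal] (g : K)
    (hg : IsCanonicalAt k x (fun i => algebraMap B K (y i)) g)
    (hklt : HasPosLogDiscrepancies k x y g) (he : paramLength k x y = 2) (z : B)
    (hz : algebraMap B (Localization.AtPrime x) z ∉ paramIdeal x y)
    (hm : paramIdeal x y ⊔ Ideal.span {algebraMap B (Localization.AtPrime x) z} =
      maximalIdeal (Localization.AtPrime x)) (i₀ : Fin n) (d : Fin n → k) (hd : d i₀ = 0)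
    (hz2 : (algebraMap B (Localization.AtPrime x) z) ^ 2 -
      ∑ l, d l • (algebraMap B (Localization.AtPrime x) (y l)) ^ 2 ∈
        maximalIdeal (Localization.AtPrime x) ^ 3) :
    localVol k x y g < ENNReal.ofReal (2 * ((n : ℝ) - 1) ^ n) := by
  obtain ⟨p, q, hq0, hqp, hpq, hnum⟩ := num_node n hn
  have hp0 : 0 < p := by omega
  obtain ⟨v, hv, c, a, m, hc0, hcα, hc, ha, hvm, ham, hvol⟩ :=
    exists_valuation_gen (k := k) (by omega : 0 < n) y hy x g hg z hz
      (fun i => if i = i₀ then q else p) (fun i => by split_ifs <;> assumption)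
  obtain ⟨i₁, hi₁⟩ : ∃ i₁ : Fin n, i₁ ≠ i₀ := by
    have : Nontrivial (Fin n) := Fin.nontrivial_iff_two_le.mpr hn
    exact exists_ne i₀
  set D := c i₀ with hD
  set C := c i₁ with hC
  have hCi : ∀ i, i ≠ i₀ → c i = C := by
    intro i hi
    have h1 := hcα i i₁
    simp only [if_neg hi, if_neg hi₁] at h1
    exact (Nat.eq_of_mul_eq_mul_left hp0 h1).symm
  have hDC : q * C = p * D := by
    have h1 := hcα i₀ i₁
    simp only [if_neg hi₁, ite_true] at h1
    exact h1
  have hC0 : 0 < C := hc0 _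
  have hD0 : 0 < D := hc0 _
  have hDltC : D < C := by
    by_contra hcon
    rw [not_lt] at hcon
    have : q * C < p * D := lt_of_lt_of_le (Nat.mul_lt_mul_of_pos_right hqp hC0)
      (Nat.mul_le_mul_left _ hcon)
    omega
  have h2C : 2 * C ≤ 3 * D := by
    have h1 : 2 * p * C ≤ 3 * q * C := Nat.mul_le_mul_right _ hpq
    have h2 : p * (2 * C) ≤ p * (3 * D) := by
      calc p * (2 * C) = 2 * p * C := by ring
        _ ≤ 3 * q * C := h1
        _ = 3 * (q * C) := by ring
        _ = p * (3 * D) := by rw [hDC]; ring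
    exact Nat.le_of_mul_le_mul_left h2 hp0
  -- orders on the local ring
  have hle := val_loc_le (K := K) x v hv.nonneg hv.centre
  set w := v.comap (locEmb K x) with hw
  have hwb : ∀ b : B, w (algebraMap B (Localization.AtPrime x) b) = v (algebraMap B K b) := by
    intro b
    rw [hw, Valuation.comap_apply, locEmb_algebraMap]
  have hm0 : 0 < m := by
    rcases Nat.eq_zero_or_pos m with h0 | h0
    · exfalso
      have h1 : algebraMap B (Localization.AtPrime x) z ∈
          maximalIdeal (Localization.AtPrime x) := by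
        rw [← hm]
        exact Ideal.mem_sup_right (Ideal.mem_span_singleton_self _)
      have h2 := val_loc_lt (K := K) x v hv.nonneg hv.centre _ h1
      rw [← hw, hwb, hvm, h0] at h2
      simp at h2
    · exact h0
  set μ := min D m with hμ
  have hmax : maximalIdeal (Localization.AtPrime x) ≤ vIdeal w hle μ := by
    rw [← hm, sup_le_iff]
    constructor
    · rw [paramIdeal, Ideal.map_span, Ideal.span_le]
      rintro _ ⟨_, ⟨i, rfl⟩, rfl⟩
      rw [SetLike.mem_coe, mem_vIdeal, hwb, hc i, WithZero.exp_le_exp]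
      have : μ ≤ c i := by
        refine (min_le_left _ _).trans ?_
        by_cases hi : i = i₀
        · rw [hi]
        · rw [hCi i hi]; exact hDltC.le
      omega
    · rw [Ideal.span_le, Set.singleton_subset_iff, SetLike.mem_coe, mem_vIdeal, hwb, hvm,
        WithZero.exp_le_exp]
      have : μ ≤ m := min_le_right _ _
      omega
  have hcube : ∀ l ∈ maximalIdeal (Localization.AtPrime x) ^ 3, l ∈ vIdeal w hle (μ * 3) :=
    fun l hl => vIdeal_pow w hle μ 3 (Ideal.pow_right_mono hmax 3 hl)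
  have hCm : C ≤ m := by
    by_contra hcon
    rw [not_le] at hcon
    have h3 : min (2 * C) (μ * 3) ≤ 2 * m := by
      have h4 : (algebraMap B (Localization.AtPrime x) z) ^ 2 ∈
          vIdeal w hle (min (2 * C) (μ * 3)) := by
        have h5 := sub_add_cancel ((algebraMap B (Localization.AtPrime x) z) ^ 2)
          (∑ l, d l • (algebraMap B (Localization.AtPrime x) (y l)) ^ 2)
        rw [← h5]
        refine Ideal.add_mem _ ?_ (Ideal.sum_mem _ fun l _ => ?_)
        · have h6 := hcube _ hz2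
          rw [mem_vIdeal] at h6 ⊢
          refine h6.trans ?_
          rw [WithZero.exp_le_exp]
          have : min (2 * C) (μ * 3) ≤ μ * 3 := min_le_right _ _
          omega
        · by_cases hl : l = i₀
          · rw [hl, hd, zero_smul]
            exact Ideal.zero_mem _
          · rw [Algebra.smul_def]
            refine Ideal.mul_mem_left _ _ ?_
            rw [mem_vIdeal, map_pow, hwb, hc l, hCi l hl, ← WithZero.exp_nsmul,
              WithZero.exp_le_exp, nsmul_eq_mul]
            have : min (2 * C) (μ * 3) ≤ 2 * C := min_le_left _ _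
            push_cast
            omega
      rw [mem_vIdeal, map_pow, hwb, hvm, ← WithZero.exp_nsmul, WithZero.exp_le_exp,
        nsmul_eq_mul] at h4
      push_cast at h4
      omega
    omega
  -- the volume
  have hapos : 0 < a := hklt v hv a ha
  have hsum : ∑ i, (c i : ℤ) = ((n : ℤ) - 1) * C + D := by
    rw [← Finset.add_sum_erase _ _ (Finset.mem_univ i₀)]
    have h1 : ∑ i ∈ Finset.univ.erase i₀, (c i : ℤ) = ∑ i ∈ Finset.univ.erase i₀, (C : ℤ) :=
      Finset.sum_congr rfl fun i hi => by rw [hCi i (Finset.ne_of_mem_erase hi)]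
    rw [h1, Finset.sum_const, Finset.card_erase_of_mem (Finset.mem_univ _), Finset.card_univ,
      Fintype.card_fin, nsmul_eq_mul, Nat.cast_sub (by omega)]
    push_cast
    ring
  have hprod : ∏ i, (c i : ℝ) = (C : ℝ) ^ (n - 1) * D := by
    rw [← Finset.mul_prod_erase _ _ (Finset.mem_univ i₀)]
    have h1 : ∏ i ∈ Finset.univ.erase i₀, (c i : ℝ) = ∏ i ∈ Finset.univ.erase i₀, (C : ℝ) :=
      Finset.prod_congr rfl fun i hi => by rw [hCi i (Finset.ne_of_mem_erase hi)]
    rw [h1, Finset.prod_const, Finset.card_erase_of_mem (Finset.mem_univ _), Finset.card_univ,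
      Fintype.card_fin]
    ring
  have ha2 : a ≤ ((n : ℤ) - 2) * C + D := by
    have h1 : (C : ℤ) ≤ m := by exact_mod_cast hCm
    rw [hsum] at ham
    linarith
  have haR : (a : ℝ) ≤ ((n : ℝ) - 2) * C + D := by exact_mod_cast ha2
  have haR0 : (0 : ℝ) ≤ a := by exact_mod_cast hapos.le
  have hCR : (0 : ℝ) < C := by exact_mod_cast hC0
  have hDR : (0 : ℝ) < D := by exact_mod_cast hD0
  have hpR : (0 : ℝ) < p := by exact_mod_cast hp0
  have hqR : (0 : ℝ) < q := by exact_mod_cast hq0
  rw [hprod, he] at hvol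
  have hfin : ((a : ℝ) ^ n * (2 / ((C : ℝ) ^ (n - 1) * D))) < 2 * ((n : ℝ) - 1) ^ n := by
    have h1 : (a : ℝ) ^ n ≤ (((n : ℝ) - 2) * C + D) ^ n := pow_le_pow_left₀ haR0 haR n
    have hr : ∃ r : ℝ, 0 < r ∧ (C : ℝ) = p * r ∧ (D : ℝ) = q * r := by
      refine ⟨C / p, by positivity, by field_simp, ?_⟩
      have : (q : ℝ) * C = p * D := by exact_mod_cast hDC
      field_simp
      linarith
    obtain ⟨r, hr0, hCr, hDr⟩ := hr
    have h2 : (((n : ℝ) - 2) * C + D) ^ n = (((n : ℝ) - 2) * p + q) ^ n * r ^ n := by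
      rw [hCr, hDr, ← mul_pow]
      congr 1
      ring
    have h3 : (C : ℝ) ^ (n - 1) * D = (p : ℝ) ^ (n - 1) * q * r ^ n := by
      rw [hCr, hDr, mul_pow]
      have : r ^ n = r ^ (n - 1) * r := by
        rw [← pow_succ]
        congr 1
        omega
      rw [this]
      ring
    rw [h3, ← mul_div_assoc, div_lt_iff₀ (by positivity)]
    calc (a : ℝ) ^ n * 2 ≤ ((((n : ℝ) - 2) * p + q) ^ n * r ^ n) * 2 := by
          rw [← h2]; linarith
      _ = (2 * (((n : ℝ) - 2) * p + q) ^ n) * r ^ n := by ring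
      _ < (2 * ((n : ℝ) - 1) ^ n * ((p : ℝ) ^ (n - 1) * q)) * r ^ n :=
          mul_lt_mul_of_pos_right hnum (by positivity)
      _ = 2 * ((n : ℝ) - 1) ^ n * ((p : ℝ) ^ (n - 1) * q * r ^ n) := by ring
  calc localVol k x y g ≤ ENNReal.ofReal ((a : ℝ) ^ n) * vol k n v hv.nonneg :=
        localVol_le x y g v hv a ha
    _ ≤ ENNReal.ofReal ((a : ℝ) ^ n) * ENNReal.ofReal ((2 : ℕ) / ((C : ℝ) ^ (n - 1) * D)) :=
        mul_le_mul' le_rfl hvol
    _ = ENNReal.ofReal ((a : ℝ) ^ n * (2 / ((C : ℝ) ^ (n - 1) * D))) := by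
        rw [ENNReal.ofReal_mul (by positivity)]
        norm_num
    _ < ENNReal.ofReal (2 * ((n : ℝ) - 1) ^ n) := by
        rw [ENNReal.ofReal_lt_ofReal_iff_of_nonneg (by positivity)]
        exact hfin

theorem finite_paramQuotient (y : Fin n → B) (hy : IsFiniteFree k y) (x : Ideal B) [x.IsMaximal] :
    Module.Finite k (Localization.AtPrime x ⧸ paramIdeal x y) := by
  let : Algebra (MvPolynomial (Fin n) k) B :=
    (MvPolynomial.aeval y : MvPolynomial (Fin n) k →ₐ[k] B).toRingHom.toAlgebra
  have hfin : Module.Finite (MvPolynomial (Fin n) k) B := hy.1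
  have htow : IsScalarTower k (MvPolynomial (Fin n) k) B :=
    IsScalarTower.of_algebraMap_eq fun c => ((MvPolynomial.aeval y).commutes c).symm
  have hX : ∀ i, algebraMap (MvPolynomial (Fin n) k) B (MvPolynomial.X i) = y i := fun i =>
    MvPolynomial.aeval_X y i
  have h := finite_quotient (k := k) (n := n) (B := B)
  rw [funext hX] at h
  exact finite_local_quotient x y h

/-- double points which are not nodes -/
theorem localVol_lt_of_double [IsAlgClosed k] (hn : 2 ≤ n) (y : Fin n → B)
    (hy : IsFiniteFree k y) (x : Ideal B) [x.IsMaximal] (hyx : ∀ i, y i ∈ x)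
    (hred : IsReductionAt x y) (hk : ∀ b : B, ∃ a : k, b - algebraMap k B a ∈ x) (g : K)
    (hg : IsCanonicalAt k x (fun i => algebraMap B K (y i)) g)
    (hklt : HasPosLogDiscrepancies k x y g) (he : paramLength k x y = 2)
    (hnode : ¬ IsNodeAt n x) :
    localVol k x y g < ENNReal.ofReal (2 * ((n : ℝ) - 1) ^ n) := by
  obtain ⟨z, hz, hm, hsq⟩ := exists_z x y hk (finite_paramQuotient y hy x) hyx he
  set ι : B →+* Localization.AtPrime x := algebraMap B (Localization.AtPrime x) with hι
  have hspan : Ideal.span (Set.range fun i => ι (y i)) = paramIdeal x y := by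
    rw [paramIdeal, Ideal.map_span, ← Set.range_comp]
    rfl
  have hzm : ι z ∈ maximalIdeal (Localization.AtPrime x) := by
    rw [← hm]
    exact Ideal.mem_sup_right (Ideal.mem_span_singleton_self _)
  have hz2 : (ι z) ^ 2 ∈ paramIdeal x y * maximalIdeal (Localization.AtPrime x) := by
    have h1 : (ι z) ^ 2 ∈ maximalIdeal (Localization.AtPrime x) ^ 2 := Ideal.pow_mem_pow hzm 2
    exact paramIdeal_inf_sq_le y hy x hyx hred hk ⟨hsq h1, h1⟩
  obtain ⟨q, a, hqa⟩ := exists_quad' (k := k) (fun i => ι (y i)) (ι z) (exists_const_loc x hk)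
    (by rw [hspan]; exact hm) (by rw [hspan]; exact hz2)
  obtain ⟨M, N, d, hNM, hd⟩ := exists_diag q
  rw [hd (L := Localization.AtPrime x)] at hqa
  have hlin : ∀ b : Fin n → k, ι (∑ i, b i • y i) = ∑ i, b i • ι (y i) := by
    intro b
    rw [map_sum]
    refine Finset.sum_congr rfl fun i _ => ?_
    rw [Algebra.smul_def, Algebra.smul_def, map_mul, ← IsScalarTower.algebraMap_apply]
  have hlinM : ∀ l, linChange M (fun i => ι (y i)) l = ι (linChange M y l) := fun l =>
    (hlin _).symm
  simp only [hlinM] at hqa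
  rw [← hlin, ← map_sub] at hqa
  set z' : B := z - ∑ i, a i • y i with hz'
  have hdiff : ι (∑ i, a i • y i) ∈ paramIdeal x y := by
    refine Ideal.mem_map_of_mem _ (Ideal.sum_mem _ fun i _ => ?_)
    rw [Algebra.smul_def]
    exact Ideal.mul_mem_left _ _ (Ideal.subset_span ⟨i, rfl⟩)
  have hz'J : ι z' ∉ paramIdeal x y := by
    intro h
    apply hz
    have := Ideal.add_mem _ h hdiff
    rwa [← map_add, hz', sub_add_cancel] at this
  have hm' : paramIdeal x y ⊔ Ideal.span {ι z'} = maximalIdeal (Localization.AtPrime x) := by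
    rw [← hm]
    apply le_antisymm
    · refine sup_le le_sup_left ?_
      rw [Ideal.span_le, Set.singleton_subset_iff, SetLike.mem_coe, hz', map_sub]
      exact Ideal.sub_mem _ (Ideal.mem_sup_right (Ideal.mem_span_singleton_self _))
        (Ideal.mem_sup_left hdiff)
    · refine sup_le le_sup_left ?_
      rw [Ideal.span_le, Set.singleton_subset_iff, SetLike.mem_coe]
      have h1 : ι z = ι z' + ι (∑ i, a i • y i) := by
        rw [← map_add, hz', sub_add_cancel]
      rw [h1]
      exact Ideal.add_mem _ (Ideal.mem_sup_right (Ideal.mem_span_singleton_self _))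
        (Ideal.mem_sup_left hdiff)
  have hJ' : paramIdeal x (linChange M y) = paramIdeal x y := paramIdeal_linChange M N hNM x y
  by_cases h0 : ∃ i₀, d i₀ = 0
  · obtain ⟨i₀, hi₀⟩ := h0
    rw [← localVol_linChange M N hNM x y g]
    refine localVol_lt_of_degenerate hn (linChange M y) (isFiniteFree_linChange M N hNM y hy) x g
      (isCanonicalAt_linChange M N hNM x y g hg) ?_
      ((paramLength_linChange M N hNM x y).trans he) z' (by rw [hJ']; exact hz'J)
      (by rw [hJ']; exact hm') i₀ d hi₀ hqa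
    intro v hv c hc
    exact hklt v hv c ((isLogDiscrepancy_linChange M N hNM y g v hv.nonneg c).mp hc)
  · exfalso
    push Not at h0
    apply hnode
    refine isNodeAt_of_diag x (fun l => ι (linChange M y l)) (ι z') d h0 ?_ hqa
    have hspan' : Ideal.span (Set.range fun l => ι (linChange M y l)) =
        paramIdeal x (linChange M y) := by
      rw [paramIdeal, Ideal.map_span, ← Set.range_comp]
      rfl
    rw [hspan', hJ']
    exact hm'

end

end Pool.Agent.ODP
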