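import Pool.Agent.ODP.Gen

/-!
# Orders along a divisorial valuation of the elements of the powers of the maximal ideal
-/

open scoped WithZero ENNReal
open IsLocalRing

namespace Pool.Agent.ODP

set_option linter.unusedSectionVars false

/-- the ideal of the elements of order `≥ m` -/
def vIdeal {L : Type*} [CommRing L] (v : Valuation L ℤᵐ⁰) (hv : ∀ l : L, v l ≤ 1) (m : ℕ) :
    Ideal L where
  carrier := {l | v l ≤ WithZero.exp (-(m : ℤ))}
  add_mem' := by
    intro a b ha hb
    exact (v.map_add _ _).trans (max_le ha hb)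
  zero_mem' := by
    change v 0 ≤ _
    rw [map_zero]; exact zero_le
  smul_mem' := by
    intro c b hb
    change v (c • b) ≤ _
    rw [smul_eq_mul, map_mul]
    calc v c * v b ≤ 1 * WithZero.exp (-(m : ℤ)) := mul_le_mul' (hv c) hb
      _ = _ := one_mul _

theorem mem_vIdeal {L : Type*} [CommRing L] (v : Valuation L ℤᵐ⁰) (hv : ∀ l : L, v l ≤ 1)
    (m : ℕ) (l : L) : l ∈ vIdeal v hv m ↔ v l ≤ WithZero.exp (-(m : ℤ)) := Iff.rfl

theorem vIdeal_mul {L : Type*} [CommRing L] (v : Valuation L ℤᵐ⁰) (hv : ∀ l : L, v l ≤ 1)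
    (m m' : ℕ) : vIdeal v hv m * vIdeal v hv m' ≤ vIdeal v hv (m + m') := by
  rw [Ideal.mul_le]
  intro a ha b hb
  rw [mem_vIdeal] at *
  rw [map_mul]
  calc v a * v b ≤ WithZero.exp (-(m : ℤ)) * WithZero.exp (-(m' : ℤ)) := mul_le_mul' ha hb
    _ = WithZero.exp (-((m + m' : ℕ) : ℤ)) := by
      rw [← WithZero.exp_add]
      congr 1
      push_cast
      ring

theorem vIdeal_pow {L : Type*} [CommRing L] (v : Valuation L ℤᵐ⁰) (hv : ∀ l : L, v l ≤ 1)
    (m j : ℕ) : vIdeal v hv m ^ j ≤ vIdeal v hv (m * j) := by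
  induction j with
  | zero =>
    intro l _
    rw [mem_vIdeal]
    simpa using hv l
  | succ j ih =>
    rw [pow_succ]
    exact (Ideal.mul_mono ih le_rfl).trans (vIdeal_mul v hv _ _)

/-- If `m ^ (N+1) ⊆ J m ^ N` and the elements of `J` have order `≥ c`, so have those of `m`. -/
theorem maximal_le_vIdeal {L : Type*} [CommRing L] [IsLocalRing L] (v : Valuation L ℤᵐ⁰)
    (hv : ∀ l : L, v l ≤ 1) (hlt : ∀ l ∈ maximalIdeal L, v l < 1) (J : Ideal L) (N : ℕ)
    (hN : maximalIdeal L ^ (N + 1) ≤ J * maximalIdeal L ^ N) (c : ℕ)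
    (hJ : J ≤ vIdeal v hv c) : maximalIdeal L ≤ vIdeal v hv c := by
  have key : ∀ j : ℕ, j ≤ c → maximalIdeal L ≤ vIdeal v hv j := by
    intro j
    induction j with
    | zero =>
      intro _ l _
      rw [mem_vIdeal]
      simpa using hv l
    | succ j ih =>
      intro hj l hl
      have ih' := ih (by omega)
      have h1 := ih' hl
      rw [mem_vIdeal] at h1 ⊢
      by_contra hcon
      rw [not_le] at hcon
      have h0 : v l ≠ 0 := by
        intro h0
        rw [h0] at hcon
        exact absurd hcon (not_lt.mpr zero_le)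
      have h2 : l ^ (N + 1) ∈ vIdeal v hv (c + j * N) := by
        have h3 := hN (Ideal.pow_mem_pow hl (N + 1))
        exact (Ideal.mul_mono hJ ((Ideal.pow_right_mono ih' N).trans (vIdeal_pow v hv j N))).trans
          (vIdeal_mul v hv _ _) h3
      rw [mem_vIdeal, map_pow] at h2
      rw [← WithZero.exp_log h0] at h1 hcon h2
      rw [WithZero.exp_le_exp] at h1
      rw [WithZero.exp_lt_exp] at hcon
      rw [← WithZero.exp_nsmul, WithZero.exp_le_exp, nsmul_eq_mul] at h2
      have h4 : WithZero.log (v l) = -(j : ℤ) := by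
        push_cast at hcon
        omega
      rw [h4] at h2
      push_cast at h2
      have h5 : (j : ℤ) + 1 ≤ c := by exact_mod_cast hj
      nlinarith
  exact key c le_rfl

section

variable {B K : Type*} [CommRing B] [IsDomain B] [Field K] [Algebra B K] [IsFractionRing B K]

/-- the extension of a valuation centred at `x` to the local ring -/
noncomputable def locEmb (K : Type*) [Field K] [Algebra B K] [IsFractionRing B K]
    (x : Ideal B) [x.IsPrime] : Localization.AtPrime x →+* K :=
  IsLocalization.lift (M := x.primeCompl) (g := algebraMap B K) (fun u => by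
    rw [isUnit_iff_ne_zero, Ne, FaithfulSMul.algebraMap_eq_zero_iff]
    rintro h
    exact u.2 (h ▸ x.zero_mem))

theorem locEmb_algebraMap (x : Ideal B) [x.IsPrime] (b : B) :
    locEmb K x (algebraMap B (Localization.AtPrime x) b) = algebraMap B K b :=
  IsLocalization.lift_eq _ b

theorem val_loc_le (x : Ideal B) [x.IsPrime] (v : Valuation K ℤᵐ⁰)
    (hv : ∀ b : B, v (algebraMap B K b) ≤ 1)
    (hc : ∀ b : B, v (algebraMap B K b) < 1 ↔ b ∈ x) (l : Localization.AtPrime x) :
    v.comap (locEmb K x) l ≤ 1 := by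
  obtain ⟨b, u, rfl⟩ := IsLocalization.exists_mk'_eq x.primeCompl l
  have h1 : v (algebraMap B K (u : B)) = 1 :=
    le_antisymm (hv _) (not_lt.mp fun h => u.2 ((hc _).mp h))
  have h2 : locEmb K x (IsLocalization.mk' (Localization.AtPrime x) b u) * algebraMap B K (u : B) =
      algebraMap B K b := by
    rw [← locEmb_algebraMap (K := K) x (u : B), ← map_mul, IsLocalization.mk'_spec,
      locEmb_algebraMap]
  have h3 := congrArg v h2
  rw [map_mul, h1, mul_one] at h3
  change v (locEmb K x _) ≤ 1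
  rw [h3]
  exact hv b

theorem val_loc_lt (x : Ideal B) [x.IsPrime] (v : Valuation K ℤᵐ⁰)
    (hv : ∀ b : B, v (algebraMap B K b) ≤ 1)
    (hc : ∀ b : B, v (algebraMap B K b) < 1 ↔ b ∈ x) (l : Localization.AtPrime x)
    (hl : l ∈ maximalIdeal (Localization.AtPrime x)) :
    v.comap (locEmb K x) l < 1 := by
  obtain ⟨b, u, rfl⟩ := IsLocalization.exists_mk'_eq x.primeCompl l
  have h1 : v (algebraMap B K (u : B)) = 1 :=
    le_antisymm (hv _) (not_lt.mp fun h => u.2 ((hc _).mp h))
  have h2 : locEmb K x (IsLocalization.mk' (Localization.AtPrime x) b u) * algebraMap B K (u : B) =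
      algebraMap B K b := by
    rw [← locEmb_algebraMap (K := K) x (u : B), ← map_mul, IsLocalization.mk'_spec,
      locEmb_algebraMap]
  have h3 := congrArg v h2
  rw [map_mul, h1, mul_one] at h3
  change v (locEmb K x _) < 1
  rw [h3, hc]
  exact (IsLocalization.AtPrime.mk'_mem_maximal_iff (Localization.AtPrime x) x b u).mp hl

/-- orders of the elements of the powers of the maximal ideal when `(y)` is a reduction -/
theorem order_le_of_mem_pow {n : ℕ} (x : Ideal B) [x.IsPrime] (y : Fin n → B)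
    (hred : IsReductionAt x y) (v : Valuation K ℤᵐ⁰)
    (hv : ∀ b : B, v (algebraMap B K b) ≤ 1)
    (hc : ∀ b : B, v (algebraMap B K b) < 1 ↔ b ∈ x) (c : ℕ)
    (hy : ∀ i, v (algebraMap B K (y i)) ≤ WithZero.exp (-(c : ℤ))) (s : ℕ) (b : B)
    (hb : algebraMap B (Localization.AtPrime x) b ∈
      maximalIdeal (Localization.AtPrime x) ^ s) :
    v (algebraMap B K b) ≤ WithZero.exp (-((c * s : ℕ) : ℤ)) := by
  obtain ⟨N, hN⟩ := hred
  have hle := val_loc_le (K := K) x v hv hc
  have hJ : paramIdeal x y ≤ vIdeal (v.comap (locEmb K x)) hle c := by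
    rw [paramIdeal, Ideal.map_span, Ideal.span_le]
    rintro _ ⟨_, ⟨i, rfl⟩, rfl⟩
    change v (locEmb K x _) ≤ _
    rw [locEmb_algebraMap]
    exact hy i
  have h1 := maximal_le_vIdeal _ hle (val_loc_lt (K := K) x v hv hc) _ N hN c hJ
  have h2 := vIdeal_pow _ hle c s (Ideal.pow_right_mono h1 s hb)
  rw [mem_vIdeal] at h2
  change v (locEmb K x _) ≤ _ at h2
  rw [locEmb_algebraMap] at h2
  exact h2

end

end Pool.Agent.ODP
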